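import Mathlib
import Pool.Agent.Lib.MP_0ccee8_co.Link

/-! Linking from nearly balanced flows with some expansion. -/

set_option autoImplicit false

namespace Pool.MP_0ccee8_co.Lib2

open Finset
open Pool.MP_0ccee8_co.Lib (link_hall)

variable {X Y : Type*} [Fintype X] [Fintype Y] [DecidableEq X] [DecidableEq Y]

/-- The flow into `S` through vertices which are also used by the complement of `S` is not too
small. -/
def Mixing (f : X → Y → ℝ) (δ : ℝ) : Prop :=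
  ∀ S : Finset X, 2 * S.card ≤ Fintype.card X →
    δ * S.card ≤ ∑ y, (by classical exact if ∃ x, x ∉ S ∧ 0 < f x y then ∑ x ∈ S, f x y else 0)

open Classical in
theorem inner_small {f : X → Y → ℝ} {δ : ℝ} (hf0 : ∀ x y, 0 ≤ f x y)
    (hrow : ∀ x, ∑ y, f x y ≤ 1 + δ) (hmix : Mixing f δ) (S : Finset X)
    (hS : 2 * S.card ≤ Fintype.card X) :
    ∑ y ∈ univ.filter (fun y => ∀ x, 0 < f x y → x ∈ S), ∑ x, f x y ≤ S.card := by
  have h1 : ∑ x ∈ S, ∑ y, f x y ≤ (1 + δ) * S.card := by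
    calc ∑ x ∈ S, ∑ y, f x y ≤ ∑ _x ∈ S, (1 + δ) := sum_le_sum (fun x _ => hrow x)
      _ = _ := by rw [sum_const, nsmul_eq_mul, mul_comm]
  have h2 := hmix S hS
  rw [sum_comm] at h1
  have h3 : ∀ y, ∑ x ∈ S, f x y = (if ∀ x, 0 < f x y → x ∈ S then ∑ x, f x y else 0) +
      (if ∃ x, x ∉ S ∧ 0 < f x y then ∑ x ∈ S, f x y else 0) := by
    intro y
    by_cases h : ∀ x, 0 < f x y → x ∈ S
    · have h' : ¬ ∃ x, x ∉ S ∧ 0 < f x y := by
        rintro ⟨x, hx, hx'⟩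
        exact hx (h x hx')
      rw [if_pos h, if_neg h', add_zero]
      apply sum_subset (subset_univ _)
      intro x _ hx
      by_contra hne
      exact hx (h x (lt_of_le_of_ne (hf0 x y) (Ne.symm hne)))
    · have h' : ∃ x, x ∉ S ∧ 0 < f x y := by
        push Not at h
        obtain ⟨x, hx, hx'⟩ := h
        exact ⟨x, hx', hx⟩
      rw [if_neg h, if_pos h', zero_add]
  rw [sum_congr rfl (fun y _ => h3 y), sum_add_distrib, ← sum_filter] at h1
  have h4 : ∑ y, (if ∃ x, x ∉ S ∧ 0 < f x y then ∑ x ∈ S, f x y else 0) ≥ δ * S.card := by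
    refine le_trans h2 (le_of_eq ?_)
    apply sum_congr rfl
    intro y _
    congr
  linarith

open Classical in
theorem inner_any {f : X → Y → ℝ} (hf0 : ∀ x y, 0 ≤ f x y)
    (hrow : ∀ x, 1 ≤ ∑ y, f x y) (S : Finset X) :
    ∑ y ∈ univ.filter (fun y => ∀ x, 0 < f x y → x ∈ S), ∑ x, f x y + ((Sᶜ).card : ℝ) ≤
      ∑ y, ∑ x, f x y := by
  have h1 : ((Sᶜ).card : ℝ) ≤ ∑ x ∈ Sᶜ, ∑ y, f x y := by
    calc ((Sᶜ).card : ℝ) = ∑ _x ∈ Sᶜ, (1:ℝ) := by simp
      _ ≤ _ := sum_le_sum (fun x _ => hrow x)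
  rw [sum_comm] at h1
  have h2 : ∀ y, (if ∀ x, 0 < f x y → x ∈ S then ∑ x, f x y else 0) + ∑ x ∈ Sᶜ, f x y ≤
      ∑ x, f x y := by
    intro y
    split_ifs with h
    · have h3 : ∑ x ∈ Sᶜ, f x y = 0 := by
        apply sum_eq_zero
        intro x hx
        by_contra hne
        exact (mem_compl.1 hx) (h x (lt_of_le_of_ne (hf0 x y) (Ne.symm hne)))
      rw [h3, add_zero]
    · rw [zero_add]
      exact sum_le_sum_of_subset_of_nonneg (subset_univ _) (fun x _ _ => hf0 x y)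
  have h3 := sum_le_sum (fun y (_ : y ∈ (univ : Finset Y)) => h2 y)
  rw [sum_add_distrib, ← sum_filter] at h3
  linarith

theorem hall_final {f f' : X → Y → ℝ} {ζ : Y ≃ Y} {t : Y → ℝ} {δ : ℝ}
    (hf0 : ∀ x y, 0 ≤ f x y) (hf0' : ∀ x y, 0 ≤ f' x y)
    (ht : ∀ y, ∑ x, f x y = t y) (ht' : ∀ y, ∑ x, f' x (ζ y) = t y) (ht1 : ∀ y, t y ≤ 1)
    (hrow : ∀ x, 1 ≤ ∑ y, f x y) (hrow1 : ∀ x, ∑ y, f x y ≤ 1 + δ)
    (hrow' : ∀ x, 1 ≤ ∑ y, f' x y) (hrow1' : ∀ x, ∑ y, f' x y ≤ 1 + δ)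
    (hmix : Mixing f δ) (hmix' : Mixing f' δ) :
    ∃ (u : X → Y) (τ : X ≃ X), Function.Injective u ∧
      ∀ a, 0 < f a (u a) ∧ 0 < f' (τ a) (ζ (u a)) := by
  classical
  apply link_hall (fun a b => 0 < f a b) (fun a b => 0 < f' a b) ζ
  intro Z P
  by_cases hZP : Z.card ≤ P.card
  · exact ⟨∅, by simp, by simpa using hZP⟩
  push Not at hZP
  set X0 := univ.filter (fun y : Y => (∃ a ∈ Z, 0 < f a y) ∧ ∃ a, a ∉ P ∧ 0 < f' a (ζ y)) with hX0
  refine ⟨X0, ?_, ?_⟩
  · intro b hb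
    exact (mem_filter.1 hb).2
  set I1 := univ.filter (fun y : Y => ∀ x, 0 < f x y → x ∈ Zᶜ) with hI1
  set I2 := univ.filter (fun y : Y => ∀ x, 0 < f' x y → x ∈ P) with hI2
  have ht0 : ∀ y, 0 ≤ t y := fun y => by rw [← ht y]; exact sum_nonneg (fun x _ => hf0 x y)
  have hT : ∑ y, t y ≤ ∑ y ∈ X0, t y + ∑ y ∈ I1, t y + ∑ y ∈ I2, ∑ x, f' x y := by
    have h1 : ∑ y ∈ I2, ∑ x, f' x y = ∑ y ∈ univ.filter (fun y => ζ y ∈ I2), t y := by
      have h2 : ∑ y ∈ univ.filter (fun y => ζ y ∈ I2), t y =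
          ∑ y ∈ univ.filter (fun y => ζ y ∈ I2), ∑ x, f' x (ζ y) :=
        sum_congr rfl (fun y _ => (ht' y).symm)
      rw [h2]
      symm
      apply sum_bij (fun y _ => ζ y)
      · intro y hy; exact (mem_filter.1 hy).2
      · intro y _ y' _ h; exact ζ.injective h
      · intro y hy; exact ⟨ζ.symm y, by simpa using hy, by simp⟩
      · intro y _; rfl
    rw [h1]
    have h2 : (univ : Finset Y) ⊆ (X0 ∪ I1) ∪ univ.filter (fun y => ζ y ∈ I2) := by
      intro y _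
      rw [mem_union, mem_union]
      by_cases ha : ∃ a ∈ Z, 0 < f a y
      · by_cases hb : ∃ a, a ∉ P ∧ 0 < f' a (ζ y)
        · left; left; rw [hX0, mem_filter]; exact ⟨mem_univ _, ha, hb⟩
        · right
          rw [mem_filter, hI2, mem_filter]
          refine ⟨mem_univ _, mem_univ _, ?_⟩
          intro x hx
          by_contra hcon
          exact hb ⟨x, hcon, hx⟩
      · left; right
        rw [hI1, mem_filter]
        refine ⟨mem_univ _, ?_⟩
        intro x hx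
        rw [mem_compl]
        intro hcon
        exact ha ⟨x, hcon, hx⟩
    calc ∑ y, t y ≤ ∑ y ∈ (X0 ∪ I1) ∪ univ.filter (fun y => ζ y ∈ I2), t y :=
          sum_le_sum_of_subset_of_nonneg h2 (fun y _ _ => ht0 y)
      _ ≤ ∑ y ∈ X0 ∪ I1, t y + ∑ y ∈ univ.filter (fun y => ζ y ∈ I2), t y := by
          rw [← sum_union_inter]
          have := sum_nonneg (fun y (_ : y ∈ (X0 ∪ I1) ∩ univ.filter (fun y => ζ y ∈ I2)) => ht0 y)
          linarith
      _ ≤ _ := by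
          have h3 : ∑ y ∈ X0 ∪ I1, t y ≤ ∑ y ∈ X0, t y + ∑ y ∈ I1, t y := by
            rw [← sum_union_inter]
            have := sum_nonneg (fun y (_ : y ∈ X0 ∩ I1) => ht0 y)
            linarith
          linarith
  have hTf : ∑ y, t y = ∑ y, ∑ x, f x y := sum_congr rfl (fun y _ => (ht y).symm)
  have hTf' : ∑ y, t y = ∑ y, ∑ x, f' x y := by
    rw [← Equiv.sum_comp ζ (fun y => ∑ x, f' x y)]
    exact sum_congr rfl (fun y _ => (ht' y).symm)
  have hTX : (Fintype.card X : ℝ) ≤ ∑ y, t y := by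
    rw [hTf, sum_comm]
    calc (Fintype.card X : ℝ) = ∑ _x : X, (1:ℝ) := by simp
      _ ≤ _ := sum_le_sum (fun x _ => hrow x)
  have hI1t : ∑ y ∈ I1, t y = ∑ y ∈ I1, ∑ x, f x y := sum_congr rfl (fun y _ => (ht y).symm)
  have hX0c : ∑ y ∈ X0, t y ≤ X0.card := by
    calc ∑ y ∈ X0, t y ≤ ∑ _y ∈ X0, (1:ℝ) := sum_le_sum (fun y _ => ht1 y)
      _ = _ := by simp
  have a1 := inner_any hf0 hrow Zᶜ
  have a2 := inner_any hf0' hrow' P
  rw [compl_compl] at a1
  have c1 : (Zᶜ).card = Fintype.card X - Z.card := card_compl Z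
  have c2 : (Pᶜ).card = Fintype.card X - P.card := card_compl P
  have c3 : Z.card ≤ Fintype.card X := card_le_univ Z
  have c4 : P.card ≤ Fintype.card X := card_le_univ P
  have c1R : ((Zᶜ).card : ℝ) = Fintype.card X - Z.card := by rw [c1, Nat.cast_sub c3]
  have c2R : ((Pᶜ).card : ℝ) = Fintype.card X - P.card := by rw [c2, Nat.cast_sub c4]
  have goalR : (Z.card : ℝ) ≤ P.card + X0.card := by
    by_cases h1 : 2 * (Zᶜ).card ≤ Fintype.card X
    · have b1 := inner_small hf0 hrow1 hmix Zᶜ h1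
      by_cases h2 : 2 * P.card ≤ Fintype.card X
      · have b2 := inner_small hf0' hrow1' hmix' P h2
        linarith
      · linarith
    · by_cases h2 : 2 * P.card ≤ Fintype.card X
      · have b2 := inner_small hf0' hrow1' hmix' P h2
        linarith
      · exfalso
        omega
  exact_mod_cast goalR

end Pool.MP_0ccee8_co.Lib2
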