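import Mathlib
import Pool.Agent.Lib.MP_0ccee8_co.Chains

/-! Products of walk kernels on a level of the cube. -/

set_option autoImplicit false

namespace Pool.MP_0ccee8_co.Lib2

open Finset
open Pool.MP_0ccee8_co.Lib (Lev)

variable {n k : ℕ}

/-- Johnson distance. -/
def dis (v u : Lev n k) : ℕ := (v.1 \ u.1).card

theorem dis_self (v : Lev n k) : dis v v = 0 := by simp [dis]

theorem dis_comm (v u : Lev n k) : dis v u = dis u v := by
  unfold dis
  have h1 := card_sdiff_add_card_inter v.1 u.1
  have h2 := card_sdiff_add_card_inter u.1 v.1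
  rw [inter_comm, v.2] at h1
  rw [u.2] at h2
  omega

theorem dis_tri (v z u : Lev n k) : dis v u ≤ dis v z + dis z u := by
  unfold dis
  refine (card_le_card ?_).trans (card_union_le _ _)
  intro x hx
  rw [mem_sdiff] at hx
  by_cases h : x ∈ z.1
  · exact mem_union_right _ (mem_sdiff.2 ⟨h, hx.2⟩)
  · exact mem_union_left _ (mem_sdiff.2 ⟨hx.1, h⟩)

theorem dis_eq_zero {v u : Lev n k} (h : dis v u = 0) : v = u := by
  unfold dis at h
  rw [card_eq_zero, sdiff_eq_empty_iff_subset] at h
  exact Subtype.ext (eq_of_subset_of_card_le h (by rw [v.2, u.2]))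

/-- structure of a neighbour -/
theorem adj_form {v z : Lev n k} (h : dis v z = 1) :
    ∃ c ∈ v.1, ∃ d, d ∉ v.1 ∧ c ∉ z.1 ∧ d ∈ z.1 ∧ z.1 = insert d (v.1.erase c) := by
  have h1 : (v.1 \ z.1).card = 1 := h
  have h2 : (z.1 \ v.1).card = 1 := by rw [dis_comm] at h; exact h
  obtain ⟨c, hc⟩ := card_eq_one.1 h1
  obtain ⟨d, hd⟩ := card_eq_one.1 h2
  have hc' : c ∈ v.1 \ z.1 := by rw [hc]; simp
  have hd' : d ∈ z.1 \ v.1 := by rw [hd]; simp
  rw [mem_sdiff] at hc' hd'
  refine ⟨c, hc'.1, d, hd'.2, hc'.2, hd'.1, ?_⟩
  ext x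
  simp only [mem_insert, mem_erase]
  constructor
  · intro hx
    by_cases hxv : x ∈ v.1
    · exact Or.inr ⟨fun h => hc'.2 (h ▸ hx), hxv⟩
    · left
      have : x ∈ z.1 \ v.1 := mem_sdiff.2 ⟨hx, hxv⟩
      rw [hd] at this
      simpa using this
  · rintro (rfl | ⟨hx, hxv⟩)
    · exact hd'.1
    · by_contra hxz
      have : x ∈ v.1 \ z.1 := mem_sdiff.2 ⟨hxv, hxz⟩
      rw [hc] at this
      exact hx (by simpa using this)

theorem card_N1 (v u : Lev n k) :
    (univ.filter (fun z : Lev n k => dis v z = 1 ∧ dis z u + 1 = dis v u)).card ≤ dis v u ^ 2 := by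
  classical
  rw [← card_map (Function.Embedding.subtype _)]
  have hr : (u.1 \ v.1).card = dis v u := by rw [dis_comm]; rfl
  calc _ ≤ (((v.1 \ u.1) ×ˢ (u.1 \ v.1)).image (fun p => insert p.2 (v.1.erase p.1))).card := by
        apply card_le_card
        intro z' hz'
        rw [mem_map] at hz'
        obtain ⟨z, hz, rfl⟩ := hz'
        simp only [mem_filter, mem_univ, true_and] at hz
        obtain ⟨h1, h2⟩ := hz
        obtain ⟨c, hc, d, hd, hcz, hdz, hz⟩ := adj_form h1
        rw [mem_image]
        refine ⟨(c, d), ?_, by simpa using hz.symm⟩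
        rw [mem_product, mem_sdiff, mem_sdiff]
        refine ⟨⟨hc, ?_⟩, ?_, hd⟩
        · intro hcu
          have : v.1 \ u.1 ⊆ z.1 \ u.1 := by
            intro x hx
            rw [mem_sdiff] at hx ⊢
            refine ⟨?_, hx.2⟩
            rw [hz, mem_insert, mem_erase]
            exact Or.inr ⟨fun h => hx.2 (h ▸ hcu), hx.1⟩
          have := card_le_card this
          unfold dis at h2
          omega
        · by_contra hdu
          have : insert d ((v.1 \ u.1).erase c) ⊆ z.1 \ u.1 := by
            intro x hx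
            rw [mem_insert, mem_erase, mem_sdiff] at hx
            rw [mem_sdiff]
            rcases hx with rfl | ⟨h3, h4, h5⟩
            · exact ⟨hdz, hdu⟩
            · refine ⟨?_, h5⟩
              rw [hz, mem_insert, mem_erase]
              exact Or.inr ⟨h3, h4⟩
          have h3 := card_le_card this
          rw [card_insert_of_notMem (by simp [hd])] at h3
          have h4 := pred_card_le_card_erase (s := v.1 \ u.1) (a := c)
          unfold dis at h2
          omega
    _ ≤ ((v.1 \ u.1) ×ˢ (u.1 \ v.1)).card := card_image_le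
    _ = dis v u ^ 2 := by
        rw [card_product, hr, sq]; rfl

theorem card_N2 (v u : Lev n k) :
    (univ.filter (fun z : Lev n k => dis v z = 1 ∧ dis z u = dis v u)).card ≤ 2 * (n * dis v u) := by
  classical
  rw [← card_map (Function.Embedding.subtype _)]
  have hr : (u.1 \ v.1).card = dis v u := by rw [dis_comm]; rfl
  have hvn : v.1.card ≤ n := by simpa using card_le_univ v.1
  have hvn' : ((v.1)ᶜ).card ≤ n := by simpa using card_le_univ (v.1)ᶜ
  calc _ ≤ ((((v.1 \ u.1) ×ˢ (v.1)ᶜ) ∪ (v.1 ×ˢ (u.1 \ v.1))).image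
          (fun p => insert p.2 (v.1.erase p.1))).card := by
        apply card_le_card
        intro z' hz'
        rw [mem_map] at hz'
        obtain ⟨z, hz, rfl⟩ := hz'
        simp only [mem_filter, mem_univ, true_and] at hz
        obtain ⟨h1, h2⟩ := hz
        obtain ⟨c, hc, d, hd, hcz, hdz, hz⟩ := adj_form h1
        rw [mem_image]
        refine ⟨(c, d), ?_, by simpa using hz.symm⟩
        rw [mem_union, mem_product, mem_product, mem_sdiff, mem_sdiff, mem_compl]
        by_cases hcu : c ∈ u.1
        · right
          refine ⟨hc, ?_, hd⟩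
          by_contra hdu
          have : insert d (v.1 \ u.1) ⊆ z.1 \ u.1 := by
            intro x hx
            rw [mem_insert, mem_sdiff] at hx
            rw [mem_sdiff]
            rcases hx with rfl | ⟨h4, h5⟩
            · exact ⟨hdz, hdu⟩
            · refine ⟨?_, h5⟩
              rw [hz, mem_insert, mem_erase]
              exact Or.inr ⟨fun h => h5 (h ▸ hcu), h4⟩
          have h3 := card_le_card this
          rw [card_insert_of_notMem (by simp [hd])] at h3
          unfold dis at h2
          omega
        · left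
          exact ⟨⟨hc, hcu⟩, hd⟩
    _ ≤ (((v.1 \ u.1) ×ˢ (v.1)ᶜ) ∪ (v.1 ×ˢ (u.1 \ v.1))).card := card_image_le
    _ ≤ ((v.1 \ u.1) ×ˢ (v.1)ᶜ).card + (v.1 ×ˢ (u.1 \ v.1)).card := card_union_le _ _
    _ ≤ dis v u * n + n * dis v u := by
        rw [card_product, card_product, hr]
        exact Nat.add_le_add (Nat.mul_le_mul_left _ hvn') (Nat.mul_le_mul_right _ hvn)
    _ = 2 * (n * dis v u) := by ring

/-- A walk kernel. -/
structure Ker (P : Lev n k → Lev n k → ℝ) (C b : ℝ) : Prop where
  nonneg : ∀ v z, 0 ≤ P v z
  row : ∀ v, ∑ z, P v z = 1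
  diag : ∀ v, P v v ≤ 1 / b
  off : ∀ v z, v ≠ z → P v z ≤ C / (((n : ℝ) - k) * b)
  supp : ∀ v z, P v z ≠ 0 → dis v z ≤ 1

/-- The bound satisfied by a product of `J` kernels. -/
structure KB (A : Lev n k → Lev n k → ℝ) (L b : ℝ) (J : ℕ) : Prop where
  nonneg : ∀ v z, 0 ≤ A v z
  row : ∀ v, ∑ z, A v z = 1
  le : ∀ v z, A v z ≤ (L / b) ^ J * (1 / ((n : ℝ) - k)) ^ dis v z
  supp : ∀ v z, A v z ≠ 0 → dis v z ≤ J

open Classical in
theorem KB.one {L b : ℝ} : KB (n := n) (k := k) (fun v z => if v = z then 1 else 0) L b 0 := by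
  refine ⟨?_, ?_, ?_, ?_⟩
  · intro v z; split_ifs <;> norm_num
  · intro v; simp
  · intro v z
    split_ifs with h
    · subst h; rw [dis_self]; simp
    · rcases Nat.eq_zero_or_pos (dis v z) with h0 | h0
      · exact absurd (dis_eq_zero h0) h
      · have : (k : ℝ) ≤ n := by
          have := v.2
          have h1 : v.1.card ≤ n := by simpa using card_le_univ v.1
          exact_mod_cast (by omega : k ≤ n)
        have : (0 : ℝ) ≤ (n : ℝ) - k := by linarith
        positivity
  · intro v z h
    by_cases h1 : v = z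
    · subst h1; rw [dis_self]
    · simp [h1] at h

theorem KB.step {P A : Lev n k → Lev n k → ℝ} {C b L : ℝ} {J : ℕ} (hP : Ker P C b) (hA : KB A L b J)
    (hb : 1 ≤ b) (hbD : b ≤ (n : ℝ) - k) (hn : (n : ℝ) ≤ 2 * ((n : ℝ) - k)) (hC : 0 ≤ C)
    (hL : 2 + C * (((J : ℝ) + 1) ^ 2 + 4 * ((J : ℝ) + 1)) ≤ L) :
    KB (fun v u => ∑ z, P v z * A z u) L b (J + 1) := by
  classical
  set D : ℝ := (n : ℝ) - k with hD
  have hD1 : 1 ≤ D := hb.trans hbD
  have hD0 : 0 < D := by linarith
  have hb0 : 0 < b := by linarith
  have hJ0 : (0 : ℝ) ≤ (J : ℝ) := Nat.cast_nonneg _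
  have hL0 : 0 ≤ L := by
    have : 0 ≤ C * (((J : ℝ) + 1) ^ 2 + 4 * ((J : ℝ) + 1)) := by positivity
    linarith
  set x : ℝ := 1 / D with hx
  have hx0 : 0 < x := by positivity
  have hx1 : x ≤ 1 := by rw [hx, div_le_one hD0]; exact hD1
  have hxb : x ≤ 1 / b := one_div_le_one_div_of_le hb0 hbD
  have hnx : (n : ℝ) * x ≤ 2 := by
    rw [hx, mul_one_div, div_le_iff₀ hD0]; exact hn
  have hsupp : ∀ v u z, P v z * A z u ≠ 0 → dis v u ≤ J + 1 := by
    intro v u z h
    have h1 := hP.supp v z (left_ne_zero_of_mul h)
    have h2 := hA.supp z u (right_ne_zero_of_mul h)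
    have := dis_tri v z u
    omega
  refine ⟨?_, ?_, ?_, ?_⟩
  · intro v u
    exact sum_nonneg (fun z _ => mul_nonneg (hP.nonneg v z) (hA.nonneg z u))
  · intro v
    rw [sum_comm]
    simp_rw [← mul_sum, hA.row, mul_one]
    exact hP.row v
  · intro v u
    set r := dis v u with hr
    by_cases hrJ : r ≤ J + 1
    · have hrR : (r : ℝ) ≤ (J : ℝ) + 1 := by exact_mod_cast hrJ
      have hr0 : (0 : ℝ) ≤ r := Nat.cast_nonneg _
      set β : ℝ := (L / b) ^ J with hβ
      have hβ0 : 0 ≤ β := by positivity
      set N1 := univ.filter (fun z : Lev n k => dis v z = 1 ∧ dis z u + 1 = dis v u) with hN1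
      set N2 := univ.filter (fun z : Lev n k => dis v z = 1 ∧ dis z u = dis v u) with hN2
      have hterm : ∀ z, P v z * A z u ≤ β * ((if z = v then x ^ r * (1 / b) else 0) +
          (if z ∈ N1 then C * x ^ r / b else 0) + (if z ∈ N2 then C * x ^ r * x / b else 0) +
          P v z * x ^ (r + 1)) := by
        intro z
        have hP0 := hP.nonneg v z
        have hAz := hA.le z u
        have hA0 := hA.nonneg z u
        have e1 : 0 ≤ (if z = v then x ^ r * (1 / b) else 0) := by split_ifs <;> positivity
        have e2 : 0 ≤ (if z ∈ N1 then C * x ^ r / b else 0) := by split_ifs <;> positivity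
        have e3 : 0 ≤ (if z ∈ N2 then C * x ^ r * x / b else 0) := by split_ifs <;> positivity
        have e4 : 0 ≤ P v z * x ^ (r + 1) := by positivity
        by_cases hz0 : P v z = 0
        · rw [hz0, zero_mul]
          rw [hz0] at e4
          exact mul_nonneg hβ0 (by linarith)
        have hd1 := hP.supp v z hz0
        by_cases hzv : z = v
        · subst hzv
          have h1 : P z z * A z u ≤ 1 / b * (β * x ^ r) :=
            mul_le_mul (hP.diag z) hAz hA0 (by positivity)
          calc P z z * A z u ≤ 1 / b * (β * x ^ r) := h1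
            _ = β * (x ^ r * (1 / b)) := by ring
            _ ≤ _ := by
                apply mul_le_mul_of_nonneg_left _ hβ0
                rw [if_pos rfl]
                rw [if_pos rfl] at e1
                linarith
        · have hdv : dis v z = 1 := by
            rcases Nat.eq_zero_or_pos (dis v z) with h0 | h0
            · exact absurd (dis_eq_zero h0).symm hzv
            · omega
          have hoff : P v z ≤ C / (D * b) := hP.off v z (fun h => hzv h.symm)
          have hoff' : P v z ≤ C * x / b := by
            refine hoff.trans (le_of_eq ?_)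
            rw [hx]; field_simp
          have ht1 := dis_tri v z u
          rcases Nat.lt_trichotomy (dis z u) r with hlt | heq | hgt
          · have hz1 : z ∈ N1 := by
              rw [hN1, mem_filter]
              exact ⟨mem_univ _, hdv, by omega⟩
            have hpw : x ^ dis z u * x = x ^ r := by
              rw [← pow_succ]; congr 1; omega
            calc P v z * A z u ≤ (C * x / b) * (β * x ^ dis z u) :=
                  mul_le_mul hoff' hAz hA0 (by positivity)
              _ = β * (C * (x ^ dis z u * x) / b) := by ring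
              _ = β * (C * x ^ r / b) := by rw [hpw]
              _ ≤ _ := by
                  apply mul_le_mul_of_nonneg_left _ hβ0
                  rw [if_pos hz1]
                  linarith
          · have hz2 : z ∈ N2 := by
              rw [hN2, mem_filter]
              exact ⟨mem_univ _, hdv, heq⟩
            calc P v z * A z u ≤ (C * x / b) * (β * x ^ dis z u) :=
                  mul_le_mul hoff' hAz hA0 (by positivity)
              _ = β * (C * x ^ r * x / b) := by rw [heq]; ring
              _ ≤ _ := by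
                  apply mul_le_mul_of_nonneg_left _ hβ0
                  rw [if_pos hz2]
                  linarith
          · have hpw : x ^ dis z u ≤ x ^ (r + 1) := pow_le_pow_of_le_one hx0.le hx1 (by omega)
            calc P v z * A z u ≤ P v z * (β * x ^ (r + 1)) :=
                  mul_le_mul_of_nonneg_left (hAz.trans (mul_le_mul_of_nonneg_left hpw hβ0)) hP0
              _ = β * (P v z * x ^ (r + 1)) := by ring
              _ ≤ _ := by
                  apply mul_le_mul_of_nonneg_left _ hβ0
                  linarith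
      have hc1 : (N1.card : ℝ) ≤ (r : ℝ) ^ 2 := by
        have := card_N1 v u
        exact_mod_cast this
      have hc2 : (N2.card : ℝ) ≤ 2 * (n * r) := by
        have := card_N2 v u
        exact_mod_cast this
      calc ∑ z, P v z * A z u ≤ ∑ z, β * ((if z = v then x ^ r * (1 / b) else 0) +
          (if z ∈ N1 then C * x ^ r / b else 0) + (if z ∈ N2 then C * x ^ r * x / b else 0) +
          P v z * x ^ (r + 1)) := sum_le_sum (fun z _ => hterm z)
        _ = β * (x ^ r * (1 / b) + N1.card * (C * x ^ r / b) + N2.card * (C * x ^ r * x / b) +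
            x ^ (r + 1)) := by
            rw [← mul_sum, sum_add_distrib, sum_add_distrib, sum_add_distrib, ← sum_mul, hP.row]
            simp
        _ ≤ β * (x ^ r * (1 / b) + (r : ℝ) ^ 2 * (C * x ^ r / b) +
            (2 * (n * r)) * (C * x ^ r * x / b) + x ^ r * (1 / b)) := by
            apply mul_le_mul_of_nonneg_left _ hβ0
            have h1 := mul_le_mul_of_nonneg_right hc1 (by positivity : 0 ≤ C * x ^ r / b)
            have h2 := mul_le_mul_of_nonneg_right hc2 (by positivity : 0 ≤ C * x ^ r * x / b)
            have h3 : x ^ (r + 1) ≤ x ^ r * (1 / b) := by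
              rw [pow_succ]
              exact mul_le_mul_of_nonneg_left hxb (by positivity)
            linarith
        _ = β * (x ^ r / b) * (2 + C * ((r : ℝ) ^ 2 + 2 * r * (n * x))) := by ring
        _ ≤ β * (x ^ r / b) * L := by
            apply mul_le_mul_of_nonneg_left _ (by positivity)
            refine le_trans ?_ hL
            have h1 : (r : ℝ) ^ 2 ≤ ((J : ℝ) + 1) ^ 2 := pow_le_pow_left₀ hr0 hrR 2
            have h2 : 2 * (r : ℝ) * (n * x) ≤ 4 * ((J : ℝ) + 1) := by
              calc 2 * (r : ℝ) * (n * x) ≤ 2 * (r : ℝ) * 2 :=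
                    mul_le_mul_of_nonneg_left hnx (by positivity)
                _ ≤ _ := by linarith
            have h3 := mul_le_mul_of_nonneg_left (add_le_add h1 h2) hC
            linarith
        _ = (L / b) ^ (J + 1) * x ^ r := by
            rw [hβ, pow_succ]; ring
    · have h0 : ∑ z, P v z * A z u = 0 := by
        apply sum_eq_zero
        intro z _
        by_contra hcon
        exact hrJ (hsupp v u z hcon)
      change ∑ z, P v z * A z u ≤ _
      rw [h0]
      positivity
  · intro v u h
    obtain ⟨z, _, hz⟩ := exists_ne_zero_of_sum_ne_zero h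
    exact hsupp v u z hz

theorem KB.sup_le {A : Lev n k → Lev n k → ℝ} {L b : ℝ} {J : ℕ} (hA : KB A L b J)
    (hD : 1 ≤ (n : ℝ) - k) (hL : 0 ≤ L) (hb : 0 < b) (v z : Lev n k) : A v z ≤ (L / b) ^ J := by
  refine (hA.le v z).trans ?_
  have h1 : (1 / ((n : ℝ) - k)) ^ dis v z ≤ 1 := by
    apply pow_le_one₀ (by positivity)
    rw [div_le_one (by linarith)]; exact hD
  have h2 : 0 ≤ (L / b) ^ J := by positivity
  calc _ ≤ (L / b) ^ J * 1 := mul_le_mul_of_nonneg_left h1 h2
    _ = _ := mul_one _

end Pool.MP_0ccee8_co.Lib2
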