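import Pool.Agent.Lib.MP_0ccee8_co2.Prob

/-! The symmetric Lovász local lemma on a finite product space, with additional rare events. -/

set_option linter.unusedSectionVars false

namespace Pool.MP_0ccee8_co.Lib2

open Finset

variable {V κ : Type*} [Fintype V] [DecidableEq V] [Fintype κ] [Nonempty κ]

/-- no event of `T` occurs -/
def Avoid {ι : Type*} (A : ι → (V → κ) → Prop) (T : Finset ι) (φ : V → κ) : Prop :=
  ∀ j ∈ T, ¬ A j φ

lemma P_indep {A B : (V → κ) → Prop} {S T : Finset V} (hA : Dep A S) (hB : Dep B T)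
    (h : Disjoint S T) : P (fun φ => A φ ∧ B φ) = P A * P B := by
  classical
  unfold P
  rw [← E_mul (f := fun φ => if A φ then (1:ℝ) else 0) (h := fun φ => if B φ then (1:ℝ) else 0)
    (S := S) (T := T) ?_ ?_ h]
  · refine E_congr (fun φ => ?_)
    by_cases h1 : A φ <;> by_cases h2 : B φ <;> simp [h1, h2]
  · intro φ ψ hv
    have := hA φ ψ hv
    simp only [this]
  · intro φ ψ hv
    have := hB φ ψ hv
    simp only [this]

lemma P_split (A B : (V → κ) → Prop) : P B = P (fun φ => A φ ∧ B φ) + P (fun φ => ¬ A φ ∧ B φ) := by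
  classical
  unfold P
  rw [← E_add]
  refine E_congr (fun φ => ?_)
  by_cases h1 : A φ <;> by_cases h2 : B φ <;> simp [h1, h2]

lemma P_le_one (A : (V → κ) → Prop) : P A ≤ 1 := by
  classical
  have := E_mono (V := V) (κ := κ) (f := fun φ => if A φ then (1:ℝ) else 0) (g := fun _ => 1)
    (fun φ => by split_ifs <;> norm_num)
  rwa [E_const] at this

lemma P_true : P (fun _ : V → κ => True) = 1 := by
  unfold P
  simp [E_const]

lemma P_false : P (fun _ : V → κ => False) = 0 := by
  unfold P
  simp [E_const]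

section

variable {ι : Type*} [Fintype ι] [DecidableEq ι] (A : ι → (V → κ) → Prop)
    (supp : ι → Finset V) (hdep : ∀ i, Dep (A i) (supp i))

include hdep in
lemma avoid_dep (T : Finset ι) : Dep (Avoid A T) (T.biUnion supp) := by
  intro φ ψ hv
  apply propext
  constructor
  · intro hA j hj hAj
    refine hA j hj ?_
    rwa [hdep j φ ψ (fun v hvj => hv v (mem_biUnion.2 ⟨j, hj, hvj⟩))]
  · intro hA j hj hAj
    refine hA j hj ?_
    rwa [← hdep j φ ψ (fun v hvj => hv v (mem_biUnion.2 ⟨j, hj, hvj⟩))]

include hdep in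
theorem lll_key (p : ℝ) (D : ℕ) (hD1 : 1 ≤ D) (hp : ∀ i, P (A i) ≤ p) (hp0 : 0 ≤ p)
    (hD : ∀ i, (univ.filter (fun j => ¬ Disjoint (supp i) (supp j))).card ≤ D)
    (h : 4 * p * D ≤ 1) (T : Finset ι) (i : ι) :
    P (fun φ => A i φ ∧ Avoid A T φ) ≤ 2 * p * P (Avoid A T) := by
  classical
  have hD' : (1:ℝ) ≤ D := by exact_mod_cast hD1
  have key : ∀ (N : ℕ) (T : Finset ι), T.card = N → ∀ i,
      P (fun φ => A i φ ∧ Avoid A T φ) ≤ 2 * p * P (Avoid A T) := by
    intro N
    induction N using Nat.strong_induction_on with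
    | _ N ih =>
      intro T hT i
      set T1 := T.filter (fun j => ¬ Disjoint (supp i) (supp j)) with hT1
      set T2 := T.filter (fun j => Disjoint (supp i) (supp j)) with hT2
      have hind : P (fun φ => A i φ ∧ Avoid A T2 φ) = P (A i) * P (Avoid A T2) := by
        refine P_indep (S := supp i) (T := T2.biUnion supp) (hdep i) (avoid_dep A supp hdep T2) ?_
        rw [disjoint_biUnion_right]
        intro j hj
        exact (mem_filter.1 hj).2
      have hle : P (fun φ => A i φ ∧ Avoid A T φ) ≤ p * P (Avoid A T2) := by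
        calc P (fun φ => A i φ ∧ Avoid A T φ) ≤ P (fun φ => A i φ ∧ Avoid A T2 φ) :=
              P_mono (fun φ hφ => ⟨hφ.1, fun j hj => hφ.2 j (mem_filter.1 hj).1⟩)
          _ = P (A i) * P (Avoid A T2) := hind
          _ ≤ p * P (Avoid A T2) := mul_le_mul_of_nonneg_right (hp i) (P_nonneg _)
      -- lower bound for P (Avoid T)
      have hlow : P (Avoid A T2) ≤ 2 * P (Avoid A T) := by
        by_cases hT1e : T1 = ∅
        · have : T2 = T := by
            rw [hT2]
            refine filter_true_of_mem (fun j hj => ?_)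
            by_contra hcon
            have : j ∈ T1 := mem_filter.2 ⟨hj, hcon⟩
            rw [hT1e] at this
            simp at this
          rw [this]
          have := P_nonneg (Avoid A T)
          linarith
        · have hcard : T2.card < N := by
            rw [← hT]
            have hsub : T2 ⊂ T := by
              refine (filter_subset _ _).ssubset_of_ne (fun he => ?_)
              obtain ⟨j, hj⟩ := nonempty_iff_ne_empty.2 hT1e
              have hj1 := mem_filter.1 hj
              have : j ∈ T2 := by rw [hT2, he]; exact hj1.1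
              exact hj1.2 (mem_filter.1 this).2
            exact card_lt_card hsub
          have hT1card : (T1.card : ℝ) ≤ D := by
            have h1 : T1.card ≤ D := by
              refine le_trans (card_le_card ?_) (hD i)
              intro j hj
              exact mem_filter.2 ⟨mem_univ _, (mem_filter.1 hj).2⟩
            exact_mod_cast h1
          have h1 : P (Avoid A T2) ≤ P (Avoid A T)
              + P (fun φ => ∃ j ∈ T1, A j φ ∧ Avoid A T2 φ) := by
            refine le_trans (P_mono (fun φ hφ => ?_)) (P_or _ _)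
            by_cases hA : ∃ j ∈ T1, A j φ
            · obtain ⟨j, hj, hAj⟩ := hA
              exact Or.inr ⟨j, hj, hAj, hφ⟩
            · left
              intro j hj hAj
              by_cases hjd : Disjoint (supp i) (supp j)
              · exact hφ j (mem_filter.2 ⟨hj, hjd⟩) hAj
              · exact hA ⟨j, mem_filter.2 ⟨hj, hjd⟩, hAj⟩
          have h2 : P (fun φ => ∃ j ∈ T1, A j φ ∧ Avoid A T2 φ)
              ≤ ∑ j ∈ T1, 2 * p * P (Avoid A T2) := by
            refine (P_exists T1 (fun j φ => A j φ ∧ Avoid A T2 φ)).trans ?_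
            exact sum_le_sum (fun j _ => ih T2.card hcard T2 rfl j)
          rw [sum_const, nsmul_eq_mul] at h2
          have hP2 := P_nonneg (Avoid A T2)
          have h3 : (T1.card : ℝ) * (2 * p * P (Avoid A T2)) ≤ (1/2) * P (Avoid A T2) := by
            have : (T1.card : ℝ) * (2 * p) ≤ 1/2 := by nlinarith
            calc (T1.card : ℝ) * (2 * p * P (Avoid A T2))
                = (T1.card : ℝ) * (2 * p) * P (Avoid A T2) := by ring
              _ ≤ (1/2) * P (Avoid A T2) := mul_le_mul_of_nonneg_right this hP2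
          linarith
      have hP2 := P_nonneg (Avoid A T2)
      calc P (fun φ => A i φ ∧ Avoid A T φ) ≤ p * P (Avoid A T2) := hle
        _ ≤ p * (2 * P (Avoid A T)) := mul_le_mul_of_nonneg_left hlow hp0
        _ = 2 * p * P (Avoid A T) := by ring
  exact key T.card T rfl i

include hdep in
theorem lll_union (p : ℝ) (D : ℕ) (hD1 : 1 ≤ D) (hp : ∀ i, P (A i) ≤ p) (hp0 : 0 ≤ p)
    (hD : ∀ i, (univ.filter (fun j => ¬ Disjoint (supp i) (supp j))).card ≤ D)
    (h : 4 * p * D ≤ 1) (T S : Finset ι) :
    (1 - 2 * p) ^ S.card * P (Avoid A T) ≤ P (Avoid A (S ∪ T)) := by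
  classical
  have hD' : (1:ℝ) ≤ D := by exact_mod_cast hD1
  have hp4 : 4 * p ≤ 1 := by nlinarith
  induction S using Finset.induction_on with
  | empty => simp
  | insert i S hi ih =>
    have h1 := P_split (A i) (Avoid A (S ∪ T))
    have h2 := lll_key A supp hdep p D hD1 hp hp0 hD h (S ∪ T) i
    have h3 : P (Avoid A (insert i S ∪ T)) = P (fun φ => ¬ A i φ ∧ Avoid A (S ∪ T) φ) := by
      congr 1
      ext φ
      simp only [Avoid, insert_union, Finset.forall_mem_insert]
    rw [h3, card_insert_of_notMem hi, pow_succ]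
    have h4 : (1 - 2 * p) * P (Avoid A (S ∪ T)) ≤ P (fun φ => ¬ A i φ ∧ Avoid A (S ∪ T) φ) := by
      linarith
    calc (1 - 2 * p) ^ S.card * (1 - 2 * p) * P (Avoid A T)
        = (1 - 2 * p) * ((1 - 2 * p) ^ S.card * P (Avoid A T)) := by ring
      _ ≤ (1 - 2 * p) * P (Avoid A (S ∪ T)) := mul_le_mul_of_nonneg_left ih (by linarith)
      _ ≤ _ := h4

include hdep in
/-- The local lemma together with rare events. -/
theorem lll_extra (p : ℝ) (D : ℕ) (hD1 : 1 ≤ D) (hp : ∀ i, P (A i) ≤ p) (hp0 : 0 ≤ p)
    (hD : ∀ i, (univ.filter (fun j => ¬ Disjoint (supp i) (supp j))).card ≤ D)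
    (h : 4 * p * D ≤ 1) {χ : Type*} [Fintype χ] (B : χ → (V → κ) → Prop)
    (suppB : χ → Finset V) (hdepB : ∀ x, Dep (B x) (suppB x)) (g : χ → ℝ)
    (hg : ∀ x, P (B x) ≤ g x * (1 - 2 * p) ^
      (univ.filter (fun j => ¬ Disjoint (suppB x) (supp j))).card)
    (hsum : ∑ x, g x < 1) : ∃ ψ : V → κ, (∀ i, ¬ A i ψ) ∧ ∀ x, ¬ B x ψ := by
  classical
  have hD' : (1:ℝ) ≤ D := by exact_mod_cast hD1
  have hp4 : 4 * p ≤ 1 := by nlinarith
  have h12 : 0 < 1 - 2 * p := by linarith
  have hpos : 0 < P (Avoid A univ) := by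
    have h1 := lll_union A supp hdep p D hD1 hp hp0 hD h ∅ univ
    rw [union_empty] at h1
    have h2 : P (Avoid A ∅) = 1 := by
      rw [← P_true (V := V) (κ := κ)]
      congr 1
      ext φ
      simp [Avoid]
    rw [h2, mul_one] at h1
    exact lt_of_lt_of_le (pow_pos h12 _) h1
  have hB : ∀ x, P (fun φ => B x φ ∧ Avoid A univ φ) ≤ g x * P (Avoid A univ) := by
    intro x
    set S := univ.filter (fun j => ¬ Disjoint (suppB x) (supp j)) with hS
    set T := univ.filter (fun j => Disjoint (suppB x) (supp j)) with hT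
    have hST : S ∪ T = univ := by
      ext j
      simp only [hS, hT, mem_union, mem_filter, mem_univ, true_and, iff_true]
      exact (em _).symm
    have h1 := lll_union A supp hdep p D hD1 hp hp0 hD h T S
    rw [hST] at h1
    have h2 : P (fun φ => B x φ ∧ Avoid A T φ) = P (B x) * P (Avoid A T) := by
      refine P_indep (S := suppB x) (T := T.biUnion supp) (hdepB x) (avoid_dep A supp hdep T) ?_
      rw [disjoint_biUnion_right]
      intro j hj
      exact (mem_filter.1 hj).2
    have hg0 : 0 ≤ g x := by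
      have h3 := (P_nonneg (B x)).trans (hg x)
      by_contra hcon
      push Not at hcon
      have := mul_neg_of_neg_of_pos hcon (pow_pos h12 S.card)
      linarith
    calc P (fun φ => B x φ ∧ Avoid A univ φ) ≤ P (fun φ => B x φ ∧ Avoid A T φ) :=
          P_mono (fun φ hφ => ⟨hφ.1, fun j hj => hφ.2 j (mem_univ _)⟩)
      _ = P (B x) * P (Avoid A T) := h2
      _ ≤ (g x * (1 - 2 * p) ^ S.card) * P (Avoid A T) :=
          mul_le_mul_of_nonneg_right (hg x) (P_nonneg _)
      _ = g x * ((1 - 2 * p) ^ S.card * P (Avoid A T)) := by ring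
      _ ≤ g x * P (Avoid A univ) := mul_le_mul_of_nonneg_left h1 hg0
  by_contra hcon
  push Not at hcon
  have h1 : P (Avoid A univ) ≤ P (fun φ => ∃ x ∈ (univ : Finset χ), B x φ ∧ Avoid A univ φ) := by
    apply P_mono
    intro φ hφ
    obtain ⟨x, hx⟩ := hcon φ (fun i => hφ i (mem_univ _))
    exact ⟨x, mem_univ _, hx, hφ⟩
  have h2 := h1.trans (P_exists univ (fun x φ => B x φ ∧ Avoid A univ φ))
  have h3 := h2.trans (sum_le_sum (fun x _ => hB x))
  rw [← sum_mul] at h3
  nlinarith

end

end Pool.MP_0ccee8_co.Lib2
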