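import Mathlib
import Pool.Agent.Lib.MP_0ccee8_co.Flow
import Pool.Agent.Lib.MP_0ccee8_co.Det

/-! Exact flows supported on a pool of edges. -/

set_option autoImplicit false
set_option linter.unusedSectionVars false

namespace Pool.MP_0ccee8_co.Lib2

open Finset
open Pool.MP_0ccee8_co.Lib (NF ind ind_nonneg hex hex_row hex_col Q mem_Q card_Q)

variable {n k : ℕ}

/-- Flags: a hexagon with a distinguished edge. -/
abbrev Fl (n : ℕ) := Finset (Fin n) × Fin n × Fin n × Fin n

/-- Valid flags. -/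
def VFl (k : ℕ) (t : Fl n) : Prop :=
  t.1.card + 1 = k ∧ t.2.1 ∉ t.1 ∧ t.2.2.1 ∉ t.1 ∧ t.2.2.2 ∉ t.1 ∧ t.2.1 ≠ t.2.2.1 ∧
    t.2.1 ≠ t.2.2.2 ∧ t.2.2.1 ≠ t.2.2.2

instance (k : ℕ) : DecidablePred (VFl (n := n) k) := fun t => by unfold VFl; infer_instance

/-- The base edge. -/
def bs (t : Fl n) : Finset (Fin n) × Fin n := (insert t.2.1 t.1, t.2.2.1)

/-- The other flags of the same hexagon. -/
def pm (s : Fin 5) (t : Fl n) : Fl n :=
  match s with
  | 0 => (t.1, t.2.2.1, t.2.1, t.2.2.2)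
  | 1 => (t.1, t.2.2.1, t.2.2.2, t.2.1)
  | 2 => (t.1, t.2.2.2, t.2.2.1, t.2.1)
  | 3 => (t.1, t.2.2.2, t.2.1, t.2.2.1)
  | 4 => (t.1, t.2.1, t.2.2.2, t.2.2.1)

/-- inverse permutation -/
def iv (s : Fin 5) : Fin 5 :=
  match s with
  | 0 => 0
  | 1 => 3
  | 2 => 2
  | 3 => 1
  | 4 => 4

theorem pm_iv (s : Fin 5) (t : Fl n) : pm (iv s) (pm s t) = t := by
  obtain ⟨w, a, x, b⟩ := t
  fin_cases s <;> rfl

theorem iv_iv (s : Fin 5) : iv (iv s) = s := by
  fin_cases s <;> rfl

theorem pm_iv' (s : Fin 5) (t : Fl n) : pm s (pm (iv s) t) = t := by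
  obtain ⟨w, a, x, b⟩ := t
  fin_cases s <;> rfl

theorem pm_valid (s : Fin 5) {t : Fl n} (h : VFl k t) : VFl k (pm s t) := by
  obtain ⟨w, a, x, b⟩ := t
  obtain ⟨h1, h2, h3, h4, h5, h6, h7⟩ := h
  fin_cases s
  · exact ⟨h1, h3, h2, h4, h5.symm, h7, h6⟩
  · exact ⟨h1, h3, h4, h2, h7, h5.symm, h6.symm⟩
  · exact ⟨h1, h4, h3, h2, h7.symm, h6.symm, h5.symm⟩
  · exact ⟨h1, h4, h2, h3, h6.symm, h7.symm, h5⟩
  · exact ⟨h1, h2, h4, h3, h6, h5, h7.symm⟩

/-- sign -/
def sg (s : Fin 5) : ℝ :=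
  match s with
  | 0 => 1
  | 1 => -1
  | 2 => 1
  | 3 => -1
  | 4 => 1

/-- The five other edges of the hexagon. -/
def oe (s : Fin 5) (t : Fl n) : Finset (Fin n) × Fin n := bs (pm s t)

/-- indicator of an edge -/
noncomputable def indE (e : Finset (Fin n) × Fin n) (u : Finset (Fin n)) (z : Fin n) : ℝ :=
  ind e.1 e.2 u z

theorem indE_eq (e : Finset (Fin n) × Fin n) (u : Finset (Fin n)) (z : Fin n) :
    indE e u z = if e = (u, z) then 1 else 0 := by
  unfold indE ind
  congr 1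
  apply propext
  rw [Prod.ext_iff]
  constructor
  · rintro ⟨h1, h2⟩; exact ⟨h1.symm, h2.symm⟩
  · rintro ⟨h1, h2⟩; exact ⟨h1.symm, h2.symm⟩

/-- signed indicator of the hexagon -/
noncomputable def hexT (t : Fl n) (u : Finset (Fin n)) (z : Fin n) : ℝ :=
  -indE (bs t) u z + ∑ s, sg s * indE (oe s t) u z

theorem hexT_eq {t : Fl n} (ht : VFl k t) (u : Finset (Fin n)) (z : Fin n) :
    hexT t u z = hex (insert t.2.1 t.1) t.2.2.1 t.2.1 t.2.2.2 u z := by
  obtain ⟨w, a, x, b⟩ := t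
  obtain ⟨h1, h2, h3, h4, h5, h6, h7⟩ := ht
  simp only at h1 h2 h3 h4 h5 h6 h7
  unfold hexT hex
  simp only
  rw [erase_insert h2, Fin.sum_univ_five]
  simp only [sg, indE, oe, bs, pm]
  ring

theorem hexT_row {t : Fl n} (ht : VFl k t) (u : Finset (Fin n)) : ∑ z ∈ uᶜ, hexT t u z = 0 := by
  simp only [hexT_eq ht]
  obtain ⟨h1, h2, h3, h4, h5, h6, h7⟩ := ht
  apply hex_row
  · simp only [mem_insert, not_or]; exact ⟨h5.symm, h3⟩
  · exact mem_insert_self _ _
  · simp only [mem_insert, not_or]; exact ⟨h6.symm, h4⟩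
  · exact h7.symm

theorem hexT_col {t : Fl n} (ht : VFl k t) (y : Finset (Fin n)) :
    ∑ z ∈ y, hexT t (y.erase z) z = 0 := by
  simp only [hexT_eq ht]
  obtain ⟨h1, h2, h3, h4, h5, h6, h7⟩ := ht
  apply hex_col
  · simp only [mem_insert, not_or]; exact ⟨h5.symm, h3⟩
  · exact mem_insert_self _ _
  · simp only [mem_insert, not_or]; exact ⟨h6.symm, h4⟩
  · exact h7.symm

/-- the flag with base `(u, z)` and parameters `g` -/
def fl (u : Finset (Fin n)) (z : Fin n) (g : Fin n × Fin n) : Fl n := (u.erase g.1, g.1, z, g.2)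

theorem fl_valid {u : Finset (Fin n)} {z : Fin n} (hu : u.card = k) (hz : z ∉ u) {g : Fin n × Fin n}
    (hg : g ∈ Q u z) : VFl k (fl u z g) ∧ bs (fl u z g) = (u, z) := by
  rw [mem_Q] at hg
  obtain ⟨h1, h2, h3⟩ := hg
  refine ⟨⟨?_, ?_, ?_, ?_, ?_, ?_, ?_⟩, ?_⟩
  · simp only [fl]
    rw [card_erase_of_mem h1, hu]
    have : 0 < u.card := card_pos.2 ⟨_, h1⟩
    omega
  · simp [fl]
  · simp [fl, hz]
  · simp [fl, h3]
  · rintro h; simp only [fl] at h; exact hz (h ▸ h1)
  · rintro h; simp only [fl] at h; exact h3 (h ▸ h1)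
  · simp only [fl]; exact fun h => h2 h.symm
  · simp only [bs, fl]
    rw [insert_erase h1]

theorem fl_surj {u : Finset (Fin n)} {z : Fin n} {t : Fl n} (ht : VFl k t) (hb : bs t = (u, z)) :
    (t.2.1, t.2.2.2) ∈ Q u z ∧ fl u z (t.2.1, t.2.2.2) = t := by
  obtain ⟨w, a, x, b⟩ := t
  obtain ⟨h1, h2, h3, h4, h5, h6, h7⟩ := ht
  simp only [bs, Prod.mk.injEq] at hb h1 h2 h3 h4 h5 h6 h7
  obtain ⟨rfl, rfl⟩ := hb
  simp only
  constructor
  · rw [mem_Q]
    refine ⟨mem_insert_self _ _, h7.symm, ?_⟩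
    simp only [mem_insert, not_or]
    exact ⟨h6.symm, h4⟩
  · simp [fl, erase_insert h2]

/-- The set of all valid flags. -/
def TT (n k : ℕ) : Finset (Fl n) := univ.filter (VFl k)

theorem mem_TT {t : Fl n} : t ∈ TT n k ↔ VFl k t := by simp [TT]

open Classical in
theorem card_flags {u : Finset (Fin n)} {z : Fin n} (hu : u.card = k) (hz : z ∉ u)
    (Ψ : Fl n → Prop) :
    ((TT n k).filter (fun t => bs t = (u, z) ∧ Ψ t)).card = ((Q u z).filter (fun g => Ψ (fl u z g))).card := by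
  symm
  apply card_bij (fun g _ => fl u z g)
  · intro g hg
    rw [mem_filter] at hg
    rw [mem_filter, mem_TT]
    obtain ⟨h1, h2⟩ := fl_valid hu hz hg.1
    exact ⟨h1, h2, hg.2⟩
  · intro g _ g' _ h
    simp only [fl, Prod.mk.injEq, true_and] at h
    exact Prod.ext h.2.1 h.2.2
  · intro t ht
    rw [mem_filter, mem_TT] at ht
    obtain ⟨h1, h2⟩ := fl_surj ht.1 ht.2.1
    refine ⟨(t.2.1, t.2.2.2), ?_, h2⟩
    rw [mem_filter]
    refine ⟨h1, ?_⟩
    rw [h2]
    exact ht.2.2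

section Flow

variable (H : Finset (Fin n) × Fin n → Prop)

/-- The base edge is the only one outside the pool. -/
def Bs (t : Fl n) : Prop := ¬ H (bs t) ∧ ∀ s, H (oe s t)

theorem Bs_pm (i : Fin 5) (t : Fl n) :
    Bs H (pm (iv i) t) ↔ (H (bs t) ∧ ¬ H (oe (iv i) t) ∧ ∀ s, s ≠ iv i → H (oe s t)) := by
  obtain ⟨w, a, x, b⟩ := t
  unfold Bs
  fin_cases i <;>
    simp [Fin.forall_fin_succ, oe, pm, bs, iv] <;> tauto

/-- all other edges in the pool -/
def Pt0 (t : Fl n) : Prop := ∀ s, H (oe s t)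

/-- all other edges but one in the pool -/
def Ptj (j : Fin 5) (t : Fl n) : Prop := ¬ H (oe j t) ∧ ∀ s, s ≠ j → H (oe s t)

open Classical in
/-- number of good hexagons through an edge -/
noncomputable def C0 (u : Finset (Fin n)) (z : Fin n) : ℕ :=
  ((Q u z).filter (fun g => Pt0 H (fl u z g))).card

open Classical in
/-- number of hexagons through an edge in which one given edge is outside the pool -/
noncomputable def Cj (j : Fin 5) (u : Finset (Fin n)) (z : Fin n) : ℕ :=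
  ((Q u z).filter (fun g => Ptj H j (fl u z g))).card

open Classical in
/-- The flow. -/
noncomputable def fw (k : ℕ) (u : Finset (Fin n)) (z : Fin n) : ℝ :=
  1 + ∑ t ∈ (TT n k).filter (Bs H), (1 / (C0 H (bs t).1 (bs t).2 : ℝ)) * hexT t u z

theorem fw_row {v : Finset (Fin n)} (hv : v.card = k) : ∑ x ∈ vᶜ, fw H k v x = (n : ℝ) - k := by
  classical
  unfold fw
  rw [sum_add_distrib, sum_comm]
  have h1 : ∑ t ∈ (TT n k).filter (Bs H), ∑ x ∈ vᶜ, (1 / (C0 H (bs t).1 (bs t).2 : ℝ)) * hexT t v x = 0 := by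
    apply sum_eq_zero
    intro t ht
    rw [mem_filter, mem_TT] at ht
    rw [← mul_sum, hexT_row ht.1, mul_zero]
  rw [h1, add_zero]
  have hle : v.card ≤ n := by simpa using card_le_univ v
  rw [sum_const, card_compl, Fintype.card_fin, nsmul_eq_mul, mul_one, Nat.cast_sub hle, hv]

theorem fw_col {y : Finset (Fin n)} (hy : y.card = k + 1) :
    ∑ x ∈ y, fw H k (y.erase x) x = (k : ℝ) + 1 := by
  classical
  unfold fw
  rw [sum_add_distrib, sum_comm]
  have h1 : ∑ t ∈ (TT n k).filter (Bs H), ∑ x ∈ y,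
      (1 / (C0 H (bs t).1 (bs t).2 : ℝ)) * hexT t (y.erase x) x = 0 := by
    apply sum_eq_zero
    intro t ht
    rw [mem_filter, mem_TT] at ht
    rw [← mul_sum, hexT_col ht.1, mul_zero]
  rw [h1, add_zero, sum_const, hy]
  simp

theorem fw_out {u : Finset (Fin n)} {z : Fin n} (hu : u.card = k) (hz : z ∉ u)
    (hC : 0 < C0 H u z) (hH : ¬ H (u, z)) : fw H k u z = 0 := by
  classical
  have h1 : ∑ t ∈ (TT n k).filter (Bs H), (1 / (C0 H (bs t).1 (bs t).2 : ℝ)) * hexT t u z =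
      ∑ t ∈ (TT n k).filter (Bs H), (if bs t = (u, z) then -(1 / (C0 H u z : ℝ)) else 0) := by
    apply sum_congr rfl
    intro t ht
    rw [mem_filter] at ht
    unfold hexT
    have h2 : ∑ s, sg s * indE (oe s t) u z = 0 := by
      apply sum_eq_zero
      intro s _
      rw [indE_eq, if_neg, mul_zero]
      intro h
      exact hH (h ▸ ht.2.2 s)
    rw [h2, add_zero, indE_eq]
    split_ifs with h3
    · rw [h3]; ring
    · ring
  unfold fw
  rw [h1, ← sum_filter, sum_const, nsmul_eq_mul, filter_filter]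
  have h2 : ((TT n k).filter (fun t => Bs H t ∧ bs t = (u, z))).card = C0 H u z := by
    unfold C0
    rw [← card_flags hu hz (Pt0 H)]
    congr 1
    apply filter_congr
    intro t _
    unfold Bs Pt0
    constructor
    · rintro ⟨⟨_, h3⟩, h4⟩; exact ⟨h4, h3⟩
    · rintro ⟨h4, h3⟩; exact ⟨⟨by rw [h4]; exact hH, h3⟩, h4⟩
  rw [h2]
  have h3 : (C0 H u z : ℝ) ≠ 0 := by exact_mod_cast hC.ne'
  field_simp
  ring

theorem fw_in {u : Finset (Fin n)} {z : Fin n} (hu : u.card = k) (hz : z ∉ u)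
    (hH : H (u, z)) {N Qr : ℝ} (hN : 0 < N) (hQr : 2 ≤ Qr)
    (hC0 : ∀ v x, v.card = k → x ∉ v → |(C0 H v x : ℝ) - N| ≤ N / 20)
    (hCj : ∀ j, |(Cj H j u z : ℝ) - (Qr - 1) * N| ≤ N / 20) :
    Qr / 2 ≤ fw H k u z ∧ fw H k u z ≤ 2 * Qr := by
  classical
  -- the contribution of one pattern
  set c : Fin 5 → ℝ := fun i => ∑ t ∈ (TT n k).filter (Bs H),
    (1 / (C0 H (bs t).1 (bs t).2 : ℝ)) * indE (oe i t) u z with hc
  have h1 : fw H k u z = 1 + ∑ i, sg i * c i := by
    unfold fw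
    congr 1
    simp only [hc]
    simp_rw [mul_sum]
    rw [sum_comm]
    apply sum_congr rfl
    intro t ht
    rw [mem_filter] at ht
    unfold hexT
    have h2 : indE (bs t) u z = 0 := by
      rw [indE_eq, if_neg]
      intro h
      exact ht.2.1 (h ▸ hH)
    rw [h2, neg_zero, zero_add, mul_sum]
    apply sum_congr rfl
    intro s _
    ring
  have hcard : ∀ i, ((TT n k).filter (fun t => Bs H t ∧ oe i t = (u, z))).card = Cj H (iv i) u z := by
    intro i
    unfold Cj
    rw [← card_flags hu hz (Ptj H (iv i))]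
    apply card_bij' (fun t _ => pm i t) (fun t _ => pm (iv i) t)
    · intro t ht
      rw [mem_filter, mem_TT] at ht ⊢
      obtain ⟨h2, h3, h4⟩ := ht
      refine ⟨pm_valid i h2, h4, ?_⟩
      have h5 := (Bs_pm H i (pm i t)).1 (by rw [pm_iv]; exact h3)
      exact h5.2
    · intro t ht
      rw [mem_filter, mem_TT] at ht ⊢
      obtain ⟨h2, h3, h4⟩ := ht
      refine ⟨pm_valid _ h2, ?_, ?_⟩
      · apply (Bs_pm H i t).2
        exact ⟨by rw [h3]; exact hH, h4⟩
      · unfold oe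
        rw [pm_iv', h3]
    · intro t _; exact pm_iv i t
    · intro t _; exact pm_iv' i t
  have hvalid : ∀ t : Fl n, VFl k t → (bs t).1.card = k ∧ (bs t).2 ∉ (bs t).1 := by
    intro t ht
    obtain ⟨h1, h2, h3, h4, h5, h6, h7⟩ := ht
    simp only [bs]
    refine ⟨?_, ?_⟩
    · rw [card_insert_of_notMem h2, h1]
    · simp only [mem_insert, not_or]; exact ⟨h5.symm, h3⟩
  have hb : ∀ i, ((Qr - 1) - 1 / 20) / (21 / 20) ≤ c i ∧ c i ≤ ((Qr - 1) + 1 / 20) / (19 / 20) := by
    intro i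
    have h2 : c i = ∑ t ∈ (TT n k).filter (fun t => Bs H t ∧ oe i t = (u, z)),
        (1 / (C0 H (bs t).1 (bs t).2 : ℝ)) := by
      simp only [hc]
      rw [← filter_filter, sum_filter (s := (TT n k).filter (Bs H))]
      apply sum_congr rfl
      intro t _
      rw [indE_eq]
      split_ifs <;> simp
    have h3 : ∀ t ∈ (TT n k).filter (fun t => Bs H t ∧ oe i t = (u, z)),
        1 / (21 / 20 * N) ≤ 1 / (C0 H (bs t).1 (bs t).2 : ℝ) ∧
        1 / (C0 H (bs t).1 (bs t).2 : ℝ) ≤ 1 / (19 / 20 * N) := by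
      intro t ht
      rw [mem_filter, mem_TT] at ht
      obtain ⟨h4, h5⟩ := hvalid t ht.1
      have h6 := abs_le.1 (hC0 _ _ h4 h5)
      have h7 : 0 < (C0 H (bs t).1 (bs t).2 : ℝ) := by linarith
      constructor
      · apply one_div_le_one_div_of_le h7; linarith
      · apply one_div_le_one_div_of_le (by positivity); linarith
    have h4 := abs_le.1 (hCj (iv i))
    have h5 := hcard i
    rw [h2]
    constructor
    · calc ((Qr - 1) - 1 / 20) / (21 / 20) = (((Qr - 1) - 1 / 20) * N) * (1 / (21 / 20 * N)) := by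
            field_simp
        _ ≤ (Cj H (iv i) u z : ℝ) * (1 / (21 / 20 * N)) := by
            apply mul_le_mul_of_nonneg_right _ (by positivity)
            linarith
        _ = ∑ t ∈ (TT n k).filter (fun t => Bs H t ∧ oe i t = (u, z)), 1 / (21 / 20 * N) := by
            rw [sum_const, h5, nsmul_eq_mul]
        _ ≤ _ := sum_le_sum (fun t ht => (h3 t ht).1)
    · calc _ ≤ ∑ t ∈ (TT n k).filter (fun t => Bs H t ∧ oe i t = (u, z)), 1 / (19 / 20 * N) :=
            sum_le_sum (fun t ht => (h3 t ht).2)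
        _ = (Cj H (iv i) u z : ℝ) * (1 / (19 / 20 * N)) := by
            rw [sum_const, h5, nsmul_eq_mul]
        _ ≤ (((Qr - 1) + 1 / 20) * N) * (1 / (19 / 20 * N)) := by
            apply mul_le_mul_of_nonneg_right _ (by positivity)
            linarith
        _ = _ := by field_simp
  rw [h1, Fin.sum_univ_five]
  simp only [sg]
  have b0 := hb 0
  have b1 := hb 1
  have b2 := hb 2
  have b3 := hb 3
  have b4 := hb 4
  rw [div_le_iff₀ (by norm_num), le_div_iff₀ (by norm_num)] at b0 b1 b2 b3 b4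
  constructor <;> linarith [b0.1, b0.2, b1.1, b1.2, b2.1, b2.2, b3.1, b3.2, b4.1, b4.2]

/-- rationality -/
theorem fw_rat (u : Finset (Fin n)) (z : Fin n) : ∃ r : ℚ, fw H k u z = r := by
  classical
  have key : fw H k u z ∈ (algebraMap ℚ ℝ).fieldRange := by
    unfold fw hexT
    apply add_mem (one_mem _)
    apply sum_mem
    intro t _
    apply mul_mem
    · apply div_mem (one_mem _)
      exact natCast_mem _ _
    · apply add_mem
      · apply neg_mem
        rw [indE_eq]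
        split_ifs
        · exact one_mem _
        · exact zero_mem _
      · apply sum_mem
        intro s _
        apply mul_mem
        · fin_cases s
          · exact one_mem _
          · exact neg_mem (one_mem _)
          · exact one_mem _
          · exact neg_mem (one_mem _)
          · exact one_mem _
        · rw [indE_eq]
          split_ifs
          · exact one_mem _
          · exact zero_mem _
  obtain ⟨r, hr⟩ := key
  exact ⟨r, by simpa using hr.symm⟩

end Flow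

end Pool.MP_0ccee8_co.Lib2
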