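import Mathlib
import Pool.Agent.Lib.MP_0ccee8_co2.Pools1
import Pool.Agent.Lib.MP_0ccee8_co2.LLL
import Pool.Agent.Lib.MP_0ccee8_co2.McD

/-! Random pools of edges. -/

set_option autoImplicit false
set_option linter.unusedSectionVars false

namespace Pool.MP_0ccee8_co.Lib2

open Finset
open Pool.MP_0ccee8_co.Lib (Q mem_Q card_Q)

variable {n k : ℕ}

theorem oe_inj {t : Fl n} (ht : VFl k t) {s s' : Fin 5} (h : oe s t = oe s' t) : s = s' := by
  obtain ⟨w, a, x, b⟩ := t
  obtain ⟨h1, h2, h3, h4, h5, h6, h7⟩ := ht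
  simp only at h1 h2 h3 h4 h5 h6 h7
  have key : ∀ c c', c ∉ w → c ≠ c' → insert c w ≠ insert c' w := by
    intro c c' hc hcc h
    have : c ∈ insert c' w := h ▸ mem_insert_self c w
    rcases mem_insert.1 this with h | h
    · exact hcc h
    · exact hc h
  by_contra hne
  fin_cases s <;> fin_cases s' <;>
    first
    | exact hne rfl
    | (simp only [oe, pm, bs, Prod.mk.injEq] at h
       first
       | exact h5 h.2
       | exact h5 h.2.symm
       | exact h6 h.2
       | exact h6 h.2.symm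
       | exact h7 h.2
       | exact h7 h.2.symm
       | exact key _ _ h2 h5 h.1
       | exact key _ _ h2 h6 h.1
       | exact key _ _ h3 h5.symm h.1
       | exact key _ _ h3 h7 h.1
       | exact key _ _ h4 h6.symm h.1
       | exact key _ _ h4 h7.symm h.1)

/-- Labels of edges -/
abbrev LB (n m : ℕ) := (Finset (Fin n) × Fin n) → Fin m

variable {m : ℕ}

/-- Weighted count. -/
noncomputable def cnt (g : Fin 5 → Fin m → ℝ) (u : Finset (Fin n)) (z : Fin n) (ω : LB n m) : ℝ :=
  ∑ p ∈ Q u z, ∏ s, g s (ω (oe s (fl u z p)))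

/-- Support of the count. -/
def Sf (u : Finset (Fin n)) (z : Fin n) : Finset (Finset (Fin n) × Fin n) :=
  (Q u z).biUnion (fun p => univ.image (fun s => oe s (fl u z p)))

theorem mem_Sf {u : Finset (Fin n)} {z : Fin n} {p : Fin n × Fin n} (hp : p ∈ Q u z) (s : Fin 5) :
    oe s (fl u z p) ∈ Sf u z := by
  unfold Sf
  rw [mem_biUnion]
  exact ⟨p, hp, mem_image_of_mem _ (mem_univ s)⟩

theorem cnt_dep (g : Fin 5 → Fin m → ℝ) (u : Finset (Fin n)) (z : Fin n) :
    Dep (cnt g u z) (Sf u z) := by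
  intro φ ψ h
  unfold cnt
  apply sum_congr rfl
  intro p hp
  apply prod_congr rfl
  intro s _
  rw [h _ (mem_Sf hp s)]

theorem cnt_E [NeZero m] (g : Fin 5 → Fin m → ℝ) {u : Finset (Fin n)} {z : Fin n} (hu : u.card = k)
    (hz : z ∉ u) : E (cnt g u z) = (Q u z).card * ∏ s, ((∑ l, g s l) / m) := by
  have : Nonempty (Fin m) := ⟨0⟩
  unfold cnt
  rw [E_sum]
  have h1 : ∀ p ∈ Q u z, E (fun ω : LB n m => ∏ s, g s (ω (oe s (fl u z p)))) =
      ∏ s, ((∑ l, g s l) / m) := by
    intro p hp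
    rw [E_prod univ (fun s => {oe s (fl u z p)}) _ (fun s ω => g s (ω (oe s (fl u z p))))]
    · apply prod_congr rfl
      intro s _
      rw [E_coord (oe s (fl u z p)) (g s), Fintype.card_fin]
    · intro s _ φ ψ h
      simp only
      rw [h _ (mem_singleton_self _)]
    · intro s _ s' _ hne
      rw [disjoint_singleton]
      intro h
      exact hne (oe_inj (fl_valid hu hz hp).1 h)
  rw [sum_congr rfl h1, sum_const, nsmul_eq_mul]

/-- multiplicity -/
def ms (u : Finset (Fin n)) (z : Fin n) (s : Fin 5) (v : Finset (Fin n) × Fin n) : ℕ :=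
  ((Q u z).filter (fun p => oe s (fl u z p) = v)).card

theorem ms_le (u : Finset (Fin n)) (z : Fin n) (s : Fin 5) (v : Finset (Fin n) × Fin n) :
    ms u z s v ≤ n := by
  have key : ∀ f : Fin n × Fin n → Fin n,
      (∀ p ∈ (Q u z).filter (fun p => oe s (fl u z p) = v), ∀ p' ∈ (Q u z).filter
        (fun p => oe s (fl u z p) = v), f p = f p' → p = p') → ms u z s v ≤ n := by
    intro f hf
    unfold ms
    have := card_le_card_of_injOn f (s := (Q u z).filter (fun p => oe s (fl u z p) = v))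
      (t := (univ : Finset (Fin n))) (fun _ _ => mem_coe.2 (mem_univ _))
      (fun p hp p' hp' h => hf p hp p' hp' h)
    simpa using this
  have hv : ∀ p ∈ (Q u z).filter (fun p => oe s (fl u z p) = v), ∀ p' ∈ (Q u z).filter
        (fun p => oe s (fl u z p) = v), p ∈ Q u z ∧ p' ∈ Q u z ∧
        oe s (fl u z p) = oe s (fl u z p') := by
    intro p hp p' hp'
    rw [mem_filter] at hp hp'
    exact ⟨hp.1, hp'.1, hp.2.trans hp'.2.symm⟩
  fin_cases s
  · apply key Prod.snd
    intro p hp p' hp' h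
    obtain ⟨_, _, h3⟩ := hv p hp p' hp'
    simp only [oe, pm, bs, fl, Prod.mk.injEq] at h3
    exact Prod.ext h3.2 h
  · apply key Prod.fst
    intro p hp p' hp' h
    obtain ⟨_, _, h3⟩ := hv p hp p' hp'
    simp only [oe, pm, bs, fl, Prod.mk.injEq] at h3
    exact Prod.ext h h3.2
  · apply key Prod.fst
    intro p hp p' hp' h
    obtain ⟨h1, h2, h3⟩ := hv p hp p' hp'
    simp only [oe, pm, bs, fl, Prod.mk.injEq] at h3
    refine Prod.ext h ?_
    have h4 : p.2 ∈ insert p'.2 (u.erase p'.1) := h3.1 ▸ mem_insert_self _ _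
    rcases mem_insert.1 h4 with h5 | h5
    · exact h5
    · exact absurd (mem_of_mem_erase h5) (mem_Q.1 h1).2.2
  · apply key Prod.snd
    intro p hp p' hp' h
    obtain ⟨_, _, h3⟩ := hv p hp p' hp'
    simp only [oe, pm, bs, fl, Prod.mk.injEq] at h3
    exact Prod.ext h3.2 h
  · apply key Prod.fst
    intro p hp p' hp' h
    obtain ⟨_, _, h3⟩ := hv p hp p' hp'
    simp only [oe, pm, bs, fl, Prod.mk.injEq] at h3
    exact Prod.ext h h3.2

/-- difference bounds -/
def cc (u : Finset (Fin n)) (z : Fin n) (v : Finset (Fin n) × Fin n) : ℝ := ∑ s, (ms u z s v : ℝ)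

theorem cnt_diff (g : Fin 5 → Fin m → ℝ) (hg0 : ∀ s l, 0 ≤ g s l) (hg1 : ∀ s l, g s l ≤ 1)
    (u : Finset (Fin n)) (z : Fin n) (v : Finset (Fin n) × Fin n) (φ ψ : LB n m)
    (h : ∀ w, w ≠ v → φ w = ψ w) : |cnt g u z φ - cnt g u z ψ| ≤ cc u z v := by
  have hprod : ∀ (ω : LB n m) p, 0 ≤ ∏ s, g s (ω (oe s (fl u z p))) ∧
      ∏ s, g s (ω (oe s (fl u z p))) ≤ 1 := fun ω p =>
    ⟨prod_nonneg (fun s _ => hg0 _ _), prod_le_one (fun s _ => hg0 _ _) (fun s _ => hg1 _ _)⟩
  unfold cnt cc ms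
  rw [← sum_sub_distrib]
  calc |∑ p ∈ Q u z, (∏ s, g s (φ (oe s (fl u z p))) - ∏ s, g s (ψ (oe s (fl u z p))))|
      ≤ ∑ p ∈ Q u z, |∏ s, g s (φ (oe s (fl u z p))) - ∏ s, g s (ψ (oe s (fl u z p)))| :=
        abs_sum_le_sum_abs _ _
    _ ≤ ∑ p ∈ Q u z, ∑ s, (if oe s (fl u z p) = v then (1:ℝ) else 0) := by
        apply sum_le_sum
        intro p _
        by_cases hex : ∃ s, oe s (fl u z p) = v
        · obtain ⟨s, hs⟩ := hex
          have h1 : (1:ℝ) ≤ ∑ s, (if oe s (fl u z p) = v then (1:ℝ) else 0) := by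
            have := single_le_sum (f := fun s => if oe s (fl u z p) = v then (1:ℝ) else 0)
              (fun s _ => by split_ifs <;> norm_num) (mem_univ s)
            simp only [if_pos hs] at this
            exact this
          refine le_trans ?_ h1
          obtain ⟨a1, a2⟩ := hprod φ p
          obtain ⟨b1, b2⟩ := hprod ψ p
          rw [abs_le]; constructor <;> linarith
        · push Not at hex
          have h1 : ∏ s, g s (φ (oe s (fl u z p))) = ∏ s, g s (ψ (oe s (fl u z p))) :=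
            prod_congr rfl (fun s _ => by rw [h _ (hex s)])
          rw [h1, sub_self, abs_zero]
          exact sum_nonneg (fun s _ => by split_ifs <;> norm_num)
    _ = ∑ s, (((Q u z).filter (fun p => oe s (fl u z p) = v)).card : ℝ) := by
        rw [sum_comm]
        apply sum_congr rfl
        intro s _
        rw [sum_boole]

theorem cc_sq (u : Finset (Fin n)) (z : Fin n) :
    ∑ v ∈ Sf u z, cc u z v ^ 2 ≤ 25 * n * (Q u z).card := by
  have h1 : ∀ v, cc u z v ^ 2 ≤ 5 * ∑ s, (n : ℝ) * ms u z s v := by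
    intro v
    unfold cc
    have := sq_sum_le_card_mul_sum_sq (s := (univ : Finset (Fin 5))) (f := fun s => (ms u z s v : ℝ))
    simp only [card_univ, Fintype.card_fin] at this
    push_cast at this
    refine this.trans ?_
    apply mul_le_mul_of_nonneg_left _ (by norm_num)
    apply sum_le_sum
    intro s _
    rw [sq]
    have h2 : (ms u z s v : ℝ) ≤ n := by exact_mod_cast ms_le u z s v
    exact mul_le_mul_of_nonneg_right h2 (Nat.cast_nonneg _)
  have h2 : ∀ s, ∑ v ∈ Sf u z, (ms u z s v : ℝ) = (Q u z).card := by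
    intro s
    have := card_eq_sum_card_fiberwise (s := Q u z) (t := Sf u z) (f := fun p => oe s (fl u z p))
      (fun p hp => mem_Sf hp s)
    rw [this]
    push_cast
    rfl
  calc ∑ v ∈ Sf u z, cc u z v ^ 2 ≤ ∑ v ∈ Sf u z, 5 * ∑ s, (n : ℝ) * ms u z s v :=
        sum_le_sum (fun v _ => h1 v)
    _ = 5 * ∑ s : Fin 5, (n : ℝ) * ∑ v ∈ Sf u z, (ms u z s v : ℝ) := by
        rw [← mul_sum, sum_comm]
        congr 1
        apply sum_congr rfl
        intro s _
        rw [mul_sum]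
    _ = _ := by
        simp only [h2, sum_const, card_univ, Fintype.card_fin, nsmul_eq_mul]
        push_cast; ring

theorem cnt_tail [NeZero m] (g : Fin 5 → Fin m → ℝ) (hg0 : ∀ s l, 0 ≤ g s l)
    (hg1 : ∀ s l, g s l ≤ 1) {u : Finset (Fin n)} {z : Fin n} (hQ : 0 < (Q u z).card) (hn : 0 < n)
    (Δ : ℝ) (hΔ : 0 ≤ Δ) :
    P (fun ω => Δ < |cnt g u z ω - E (cnt g u z)|) ≤
      2 * Real.exp (-(Δ ^ 2 / (100 * n * (Q u z).card))) := by
  have : Nonempty (Fin m) := ⟨0⟩
  have hQR : (0:ℝ) < (Q u z).card := by exact_mod_cast hQ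
  have hnR : (0:ℝ) < n := by exact_mod_cast hn
  have h := mcd_tail (cnt g u z) (Sf u z) (cc u z) (cnt_dep g u z)
    (fun v _ φ ψ h => cnt_diff g hg0 hg1 u z v φ ψ h) (25 * n * (Q u z).card) (by positivity)
    (cc_sq u z) Δ hΔ
  refine h.trans (le_of_eq ?_)
  congr 3
  ring

/-- Valid edges. -/
abbrev VE (n k : ℕ) := {f : Finset (Fin n) × Fin n // f.1.card = k ∧ f.2 ∉ f.1}

theorem card_Sf (u : Finset (Fin n)) (z : Fin n) : (Sf u z).card ≤ 5 * n ^ 2 := by
  unfold Sf
  calc _ ≤ ∑ p ∈ Q u z, (univ.image (fun s => oe s (fl u z p))).card := card_biUnion_le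
    _ ≤ ∑ _p ∈ Q u z, 5 := sum_le_sum (fun p _ => by
        have := card_image_le (s := (univ : Finset (Fin 5))) (f := fun s => oe s (fl u z p))
        simpa using this)
    _ = (Q u z).card * 5 := by rw [sum_const, smul_eq_mul]
    _ ≤ n ^ 2 * 5 := by
        apply Nat.mul_le_mul_right
        have := card_le_univ (Q u z)
        simpa [sq] using this
    _ = _ := by ring

theorem card_inSf (v : Finset (Fin n) × Fin n) :
    (univ.filter (fun f : VE n k => v ∈ Sf f.1.1 f.1.2)).card ≤ 5 * n ^ 2 := by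
  classical
  rw [← card_map (Function.Embedding.subtype _)]
  have h1 : (univ.filter (fun f : VE n k => v ∈ Sf f.1.1 f.1.2)).map (Function.Embedding.subtype _) ⊆
      (univ : Finset (Fin 5 × (Fin n × Fin n))).image
        (fun r => bs (pm (iv r.1) (v.1.erase r.2.1, r.2.1, v.2, r.2.2))) := by
    intro f hf
    rw [mem_map] at hf
    obtain ⟨f, hf, rfl⟩ := hf
    rw [mem_filter] at hf
    obtain ⟨_, hf⟩ := hf
    unfold Sf at hf
    rw [mem_biUnion] at hf
    obtain ⟨p, hp, hv⟩ := hf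
    rw [mem_image] at hv
    obtain ⟨s, _, hv⟩ := hv
    obtain ⟨h2, h3⟩ := fl_valid f.2.1 f.2.2 hp
    have h4 := pm_valid s h2
    rw [mem_image]
    refine ⟨(s, ((pm s (fl f.1.1 f.1.2 p)).2.1, (pm s (fl f.1.1 f.1.2 p)).2.2.2)), mem_univ _, ?_⟩
    simp only [Function.Embedding.subtype_apply]
    have h5 : (v.1.erase (pm s (fl f.1.1 f.1.2 p)).2.1, (pm s (fl f.1.1 f.1.2 p)).2.1, v.2,
        (pm s (fl f.1.1 f.1.2 p)).2.2.2) = pm s (fl f.1.1 f.1.2 p) := by
      rw [← hv]
      unfold oe bs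
      simp only
      rw [erase_insert h4.2.1]
    rw [h5, pm_iv, h3]
  calc _ ≤ _ := card_le_card h1
    _ ≤ (univ : Finset (Fin 5 × (Fin n × Fin n))).card := card_image_le
    _ = 5 * n ^ 2 := by simp [sq]

/-- A system of pools with exact flows. -/
structure PoolSys (n k m : ℕ) (H : Fin m → (Finset (Fin n) × Fin n) → Prop)
    (w : Fin m → Finset (Fin n) → Fin n → ℝ) : Prop where
  disj : ∀ q q' e, q ≠ q' → H q e → ¬ H q' e
  row : ∀ q v, v.card = k → ∑ x ∈ vᶜ, w q v x = (n : ℝ) - k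
  col : ∀ q y, y.card = k + 1 → ∑ x ∈ y, w q (y.erase x) x = (k : ℝ) + 1
  out : ∀ q v x, v.card = k → x ∉ v → ¬ H q (v, x) → w q v x = 0
  inn : ∀ q v x, v.card = k → x ∉ v → H q (v, x) → (m : ℝ) / 2 ≤ w q v x ∧ w q v x ≤ 2 * m
  rat : ∀ q v x, ∃ r : ℚ, w q v x = r
  conn : ∀ q v x, v.card = k → x ∉ v → ∃ g ∈ Q v x, ∀ s, H q (oe s (fl v x g))

/-- The functions for the patterns. -/
def gp (q : Fin m) (j : Option (Fin 5)) (s : Fin 5) (l : Fin m) : ℝ :=
  if j = some s then (if l = q then 0 else 1) else (if l = q then 1 else 0)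

theorem gp_sum [NeZero m] (q : Fin m) (j : Option (Fin 5)) (s : Fin 5) :
    (∑ l, gp q j s l) / m = if j = some s then ((m : ℝ) - 1) / m else 1 / m := by
  unfold gp
  split_ifs with h
  · congr 1
    have h1 : ∑ l : Fin m, (if l = q then (0:ℝ) else 1) = ∑ l : Fin m, (1 - (if l = q then (1:ℝ) else 0)) :=
      sum_congr rfl (fun l _ => by split_ifs <;> simp)
    rw [h1, sum_sub_distrib]
    simp
  · congr 1
    simp

open Classical in
theorem cnt_none (q : Fin m) (u : Finset (Fin n)) (z : Fin n) (ω : LB n m) :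
    cnt (gp q none) u z ω = C0 (fun e => ω e = q) u z := by
  unfold cnt C0
  rw [card_filter]
  push_cast
  apply sum_congr rfl
  intro p _
  unfold Pt0
  by_cases h : ∀ s, ω (oe s (fl u z p)) = q
  · rw [if_pos h]
    apply prod_eq_one
    intro s _
    simp [gp, h s]
  · rw [if_neg h]
    push Not at h
    obtain ⟨s, hs⟩ := h
    apply prod_eq_zero (mem_univ s)
    simp [gp, hs]

open Classical in
theorem cnt_some (q : Fin m) (j : Fin 5) (u : Finset (Fin n)) (z : Fin n) (ω : LB n m) :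
    cnt (gp q (some j)) u z ω = Cj (fun e => ω e = q) j u z := by
  unfold cnt Cj
  rw [card_filter]
  push_cast
  apply sum_congr rfl
  intro p _
  unfold Ptj
  by_cases h : ¬ ω (oe j (fl u z p)) = q ∧ ∀ s, s ≠ j → ω (oe s (fl u z p)) = q
  · rw [if_pos h]
    apply prod_eq_one
    intro s _
    by_cases hs : s = j
    · subst hs
      simp [gp, h.1]
    · have : ¬ j = s := fun h => hs h.symm
      simp [gp, h.2 s hs, this]
  · rw [if_neg h]
    rw [not_and_or] at h
    rcases h with h | h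
    · rw [not_not] at h
      apply prod_eq_zero (mem_univ j)
      simp [gp, h]
    · push Not at h
      obtain ⟨s, hs, hs'⟩ := h
      apply prod_eq_zero (mem_univ s)
      have : ¬ j = s := fun h => hs h.symm
      simp [gp, hs', this]

theorem pools (hk : 1 ≤ k) (hkn : 2 * (k + 1) ≤ n) (hm : 2 ≤ m)
    (hnum : 1200 * m * (n : ℝ) ^ 4 ≤ Real.exp (k / (80000 * (m : ℝ) ^ 10))) :
    ∃ (H : Fin m → (Finset (Fin n) × Fin n) → Prop) (w : Fin m → Finset (Fin n) → Fin n → ℝ),
      PoolSys n k m H w := by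
  classical
  have : NeZero m := ⟨by omega⟩
  have : Nonempty (Fin m) := ⟨0⟩
  have hmR : (2:ℝ) ≤ m := by exact_mod_cast hm
  have hkR : (1:ℝ) ≤ k := by exact_mod_cast hk
  have hnR : (2:ℝ) * (k + 1) ≤ n := by exact_mod_cast hkn
  have hn0 : 0 < n := by omega
  have hn0R : (0:ℝ) < n := by exact_mod_cast hn0
  set q0 : ℝ := k * ((n : ℝ) - k - 1) with hq0
  have hq0' : k * n / 2 ≤ q0 := by
    rw [hq0]
    nlinarith
  have hq0p : 0 < q0 := lt_of_lt_of_le (by positivity) hq0'
  set N : ℝ := q0 / (m : ℝ) ^ 5 with hN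
  have hN0 : 0 < N := by positivity
  have hQc : ∀ f : VE n k, ((Q f.1.1 f.1.2).card : ℝ) = q0 := fun f => card_Q f.2.1 f.2.2
  -- events
  let A : (VE n k × Fin m × Option (Fin 5)) → LB n m → Prop := fun i ω =>
    N / 20 < |cnt (gp i.2.1 i.2.2) i.1.1.1 i.1.1.2 ω - E (cnt (gp i.2.1 i.2.2) i.1.1.1 i.1.1.2)|
  have hgp0 : ∀ (q : Fin m) j s l, 0 ≤ gp q j s l := by
    intro q j s l; unfold gp; split_ifs <;> norm_num
  have hgp1 : ∀ (q : Fin m) j s l, gp q j s l ≤ 1 := by
    intro q j s l; unfold gp; split_ifs <;> norm_num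
  have hprob : ∀ i, P (A i) ≤ 2 * Real.exp (-(k / (80000 * (m : ℝ) ^ 10))) := by
    intro i
    have h1 := cnt_tail (gp i.2.1 i.2.2) (hgp0 _ _) (hgp1 _ _) (u := i.1.1.1) (z := i.1.1.2) (by
      have := hQc i.1
      rw [← this] at hq0p
      exact_mod_cast hq0p) hn0 (N / 20) (by positivity)
    refine h1.trans ?_
    apply mul_le_mul_of_nonneg_left _ (by norm_num)
    apply Real.exp_le_exp.2
    rw [neg_le_neg_iff, hQc, hN]
    rw [div_le_div_iff₀ (by positivity) (by positivity)]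
    have e1 : (q0 / (m : ℝ) ^ 5 / 20) ^ 2 * (80000 * (m : ℝ) ^ 10) = 200 * q0 * q0 := by
      field_simp
      norm_num
    rw [e1]
    calc (k : ℝ) * (100 * n * q0) = 200 * (k * n / 2) * q0 := by ring
      _ ≤ 200 * q0 * q0 := by
          apply mul_le_mul_of_nonneg_right _ hq0p.le
          linarith
  have htouch : ∀ i : VE n k × Fin m × Option (Fin 5),
      (univ.filter (fun j : VE n k × Fin m × Option (Fin 5) =>
        ¬ Disjoint (Sf i.1.1.1 i.1.1.2) (Sf j.1.1.1 j.1.1.2))).card ≤ 150 * m * n ^ 4 := by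
    intro i
    have h1 : univ.filter (fun j : VE n k × Fin m × Option (Fin 5) =>
        ¬ Disjoint (Sf i.1.1.1 i.1.1.2) (Sf j.1.1.1 j.1.1.2)) ⊆
        ((Sf i.1.1.1 i.1.1.2).biUnion (fun v => univ.filter (fun f : VE n k => v ∈ Sf f.1.1 f.1.2))) ×ˢ
          univ := by
      intro j hj
      rw [mem_filter, not_disjoint_iff] at hj
      obtain ⟨_, v, hv1, hv2⟩ := hj
      rw [mem_product, mem_biUnion]
      exact ⟨⟨v, hv1, mem_filter.2 ⟨mem_univ _, hv2⟩⟩, mem_univ _⟩
    calc _ ≤ _ := card_le_card h1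
      _ = ((Sf i.1.1.1 i.1.1.2).biUnion
            (fun v => univ.filter (fun f : VE n k => v ∈ Sf f.1.1 f.1.2))).card * (m * 6) := by
          rw [card_product]
          congr 1
          simp
      _ ≤ (∑ v ∈ Sf i.1.1.1 i.1.1.2, 5 * n ^ 2) * (m * 6) := by
          apply Nat.mul_le_mul_right
          exact card_biUnion_le.trans (sum_le_sum (fun v _ => card_inSf v))
      _ ≤ ((5 * n ^ 2) * (5 * n ^ 2)) * (m * 6) := by
          apply Nat.mul_le_mul_right
          rw [sum_const, smul_eq_mul]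
          exact Nat.mul_le_mul_right _ (card_Sf _ _)
      _ = _ := by ring
  obtain ⟨ω, hω, _⟩ := lll_extra A (fun i => Sf i.1.1.1 i.1.1.2) (by
      intro i φ ψ h
      have := cnt_dep (gp i.2.1 i.2.2) i.1.1.1 i.1.1.2 φ ψ h
      simp only [A]
      rw [this]) (2 * Real.exp (-(k / (80000 * (m : ℝ) ^ 10)))) (150 * m * n ^ 4) (by
      have : 0 < 150 * m * n ^ 4 := by positivity
      omega) hprob (by positivity) htouch (by
      push_cast
      have h1 := Real.exp_pos (k / (80000 * (m : ℝ) ^ 10))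
      rw [Real.exp_neg]
      have e1 : 4 * (2 * (Real.exp (k / (80000 * (m : ℝ) ^ 10)))⁻¹) * (150 * (m : ℝ) * (n : ℝ) ^ 4) =
        (1200 * m * (n : ℝ) ^ 4) / Real.exp (k / (80000 * (m : ℝ) ^ 10)) := by
        field_simp; norm_num
      rw [e1, div_le_one h1]
      exact hnum) (χ := Empty) (fun x _ => x.elim) (fun x => x.elim) (fun x => x.elim)
      (fun x => x.elim) (fun x => x.elim) (by simp)
  have hm0 : (m : ℝ) ≠ 0 := by positivity
  have hC0 : ∀ q v x, v.card = k → x ∉ v → |(C0 (fun e => ω e = q) v x : ℝ) - N| ≤ N / 20 := by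
    intro q v x hv hx
    have h1 := hω (⟨(v, x), hv, hx⟩, q, none)
    simp only [A, not_lt] at h1
    rw [cnt_none, cnt_E (gp q none) hv hx, card_Q hv hx] at h1
    simp only [gp_sum] at h1
    simp only [reduceCtorEq, if_false, prod_const, card_univ, Fintype.card_fin] at h1
    rw [← hq0] at h1
    have e1 : q0 * (1 / (m : ℝ)) ^ 5 = N := by rw [hN]; field_simp
    rwa [e1] at h1
  have hCj : ∀ q v x, v.card = k → x ∉ v → ∀ j,
      |(Cj (fun e => ω e = q) j v x : ℝ) - ((m : ℝ) - 1) * N| ≤ N / 20 := by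
    intro q v x hv hx j
    have h1 := hω (⟨(v, x), hv, hx⟩, q, some j)
    simp only [A, not_lt] at h1
    rw [cnt_some, cnt_E (gp q (some j)) hv hx, card_Q hv hx] at h1
    simp only [gp_sum] at h1
    rw [← hq0] at h1
    have e1 : q0 * ∏ s : Fin 5, (if some j = some s then ((m : ℝ) - 1) / m else 1 / m) =
        ((m : ℝ) - 1) * N := by
      rw [hN, ← mul_prod_erase univ _ (mem_univ j)]
      have e2 : ∏ s ∈ univ.erase j, (if some j = some s then ((m : ℝ) - 1) / m else 1 / m) =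
          (1 / (m : ℝ)) ^ 4 := by
        rw [prod_congr rfl (g := fun _ => 1 / (m : ℝ)) (by
          intro s hs
          rw [if_neg]
          intro h
          simp only [Option.some.injEq] at h
          exact ne_of_mem_erase hs h.symm), prod_const, card_erase_of_mem (mem_univ j)]
        simp
      rw [e2, if_pos rfl]
      field_simp
    rwa [e1] at h1
  refine ⟨fun q e => ω e = q, fun q => fw (fun e => ω e = q) k, ⟨?_, ?_, ?_, ?_, ?_, ?_, ?_⟩⟩
  · intro q q' e hne h h'
    exact hne (h.symm.trans h')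
  · intro q v hv
    exact fw_row _ hv
  · intro q y hy
    exact fw_col _ hy
  · intro q v x hv hx hH
    refine fw_out _ hv hx ?_ hH
    have := (abs_le.1 (hC0 q v x hv hx)).1
    have h2 : (0:ℝ) < C0 (fun e => ω e = q) v x := by linarith
    exact_mod_cast h2
  · intro q v x hv hx hH
    exact fw_in _ hv hx hH hN0 hmR (hC0 q) (hCj q v x hv hx)
  · intro q v x
    exact fw_rat _ v x
  · intro q v x hv hx
    have := (abs_le.1 (hC0 q v x hv hx)).1
    have h2 : (0:ℝ) < C0 (fun e => ω e = q) v x := by linarith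
    have h3 : 0 < C0 (fun e => ω e = q) v x := by exact_mod_cast h2
    unfold C0 at h3
    obtain ⟨g, hg⟩ := card_pos.1 h3
    rw [mem_filter] at hg
    exact ⟨g, hg.1, hg.2⟩

end Pool.MP_0ccee8_co.Lib2
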