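import Mathlib
import Pool.Agent.Lib.MP_0ccee8_co.Low1

/-! Coding of the sets with few mixed vertices. -/

set_option autoImplicit false

namespace Pool.MP_0ccee8_co.Lib2

open Finset
open Pool.MP_0ccee8_co.Lib (Lev card_below)

/-- A subgraph of the cube with large minimum degree is large. -/
theorem cube_min_degree {α : Type*} [DecidableEq α] (δ : ℕ) (W : Finset (Finset α)) (hW : W.Nonempty)
    (h : ∀ v ∈ W, δ ≤ (W.filter (fun u => (symmDiff v u).card = 1)).card) : 2 ^ δ ≤ W.card := by
  induction δ generalizing W with
  | zero => simpa using hW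
  | succ δ ih =>
    obtain ⟨v, hv⟩ := hW
    have h1 := h v hv
    have h2 : 0 < (W.filter (fun u => (symmDiff v u).card = 1)).card := by omega
    obtain ⟨u, hu⟩ := card_pos.1 h2
    rw [mem_filter] at hu
    obtain ⟨hu, hvu⟩ := hu
    obtain ⟨a, ha⟩ := card_eq_one.1 hvu
    have hau : a ∈ symmDiff v u := by rw [ha]; exact mem_singleton_self _
    set W0 := W.filter (fun w => a ∉ w) with hW0
    set W1 := W.filter (fun w => a ∈ w) with hW1
    have hne0 : W0.Nonempty := by
      rw [mem_symmDiff] at hau
      rcases hau with h3 | h3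
      · exact ⟨u, mem_filter.2 ⟨hu, h3.2⟩⟩
      · exact ⟨v, mem_filter.2 ⟨hv, h3.2⟩⟩
    have hne1 : W1.Nonempty := by
      rw [mem_symmDiff] at hau
      rcases hau with h3 | h3
      · exact ⟨v, mem_filter.2 ⟨hv, h3.1⟩⟩
      · exact ⟨u, mem_filter.2 ⟨hu, h3.1⟩⟩
    have hcard : W.card = W0.card + W1.card := by
      rw [hW0, hW1, add_comm, card_filter_add_card_filter_not]
    have huniq : ∀ (w : Finset α) (T : Finset (Finset α)), (∀ u ∈ T, a ∈ symmDiff w u) →
        (T.filter (fun u => (symmDiff w u).card = 1)).card ≤ 1 := by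
      intro w T hT
      rw [card_le_one]
      intro x hx y hy
      rw [mem_filter] at hx hy
      have hx1 : symmDiff w x = {a} := by
        obtain ⟨c, hc⟩ := card_eq_one.1 hx.2
        have := hT x hx.1
        rw [hc, mem_singleton] at this
        rw [hc, this]
      have hy1 : symmDiff w y = {a} := by
        obtain ⟨c, hc⟩ := card_eq_one.1 hy.2
        have := hT y hy.1
        rw [hc, mem_singleton] at this
        rw [hc, this]
      have : symmDiff w x = symmDiff w y := hx1.trans hy1.symm
      exact symmDiff_right_injective w this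
    have hd0 : ∀ w ∈ W0, δ ≤ (W0.filter (fun u => (symmDiff w u).card = 1)).card := by
      intro w hw
      have hwW := (mem_filter.1 hw).1
      have hwa := (mem_filter.1 hw).2
      have h3 := h w hwW
      have h4 := huniq w W1 (fun u hu => by
        rw [mem_symmDiff]; exact Or.inr ⟨(mem_filter.1 hu).2, hwa⟩)
      have h5 : (W.filter (fun u => (symmDiff w u).card = 1)).card ≤
          (W0.filter (fun u => (symmDiff w u).card = 1)).card +
          (W1.filter (fun u => (symmDiff w u).card = 1)).card := by
        refine le_trans (card_le_card ?_) (card_union_le _ _)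
        intro u hu
        rw [mem_filter] at hu
        simp only [mem_union, mem_filter, hW0, hW1]
        by_cases hau : a ∈ u
        · exact Or.inr ⟨⟨hu.1, hau⟩, hu.2⟩
        · exact Or.inl ⟨⟨hu.1, hau⟩, hu.2⟩
      omega
    have hd1 : ∀ w ∈ W1, δ ≤ (W1.filter (fun u => (symmDiff w u).card = 1)).card := by
      intro w hw
      have hwW := (mem_filter.1 hw).1
      have hwa := (mem_filter.1 hw).2
      have h3 := h w hwW
      have h4 := huniq w W0 (fun u hu => by
        rw [mem_symmDiff]; exact Or.inl ⟨hwa, (mem_filter.1 hu).2⟩)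
      have h5 : (W.filter (fun u => (symmDiff w u).card = 1)).card ≤
          (W0.filter (fun u => (symmDiff w u).card = 1)).card +
          (W1.filter (fun u => (symmDiff w u).card = 1)).card := by
        refine le_trans (card_le_card ?_) (card_union_le _ _)
        intro u hu
        rw [mem_filter] at hu
        simp only [mem_union, mem_filter, hW0, hW1]
        by_cases hau : a ∈ u
        · exact Or.inr ⟨⟨hu.1, hau⟩, hu.2⟩
        · exact Or.inl ⟨⟨hu.1, hau⟩, hu.2⟩
      omega
    have e0 := ih W0 hne0 hd0
    have e1 := ih W1 hne1 hd1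
    rw [hcard, pow_succ]
    omega

variable {n k : ℕ}

open Classical in
/-- The mixed vertices. -/
noncomputable def mixd (h : Lev n k → Lev n (k + 1) → Prop) (S : Finset (Lev n k)) :
    Finset (Lev n (k + 1)) :=
  univ.filter (fun y => (∃ x ∈ S, h x y) ∧ ∃ x, x ∉ S ∧ h x y)

theorem mem_mixd {h : Lev n k → Lev n (k + 1) → Prop} {S : Finset (Lev n k)} {y : Lev n (k + 1)} :
    y ∈ mixd h S ↔ (∃ x ∈ S, h x y) ∧ ∃ x, x ∉ S ∧ h x y := by
  classical
  unfold mixd
  simp only [mem_filter, mem_univ, true_and]

open Classical in
theorem thin_code (h : Lev n k → Lev n (k + 1) → Prop) (hsub : ∀ x y, h x y → x.1 ⊆ y.1) (δ : ℕ)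
    (hx : ∀ x, δ ≤ (univ.filter (fun y => h x y)).card)
    (hy : ∀ x y, h x y → δ ≤ (univ.filter (fun x' => h x' y)).card) :
    ∃ cR : Finset (Lev n k) → Finset (Lev n k),
      (∀ S S', mixd h S = mixd h S' → cR S = cR S' → S = S') ∧
      (∀ S, 2 ^ δ * (cR S).card ≤ 2 ^ δ * ((k + 1) * (mixd h S).card) + (n + 1) * S.card) ∧
      (∀ S, S.Nonempty → (cR S).Nonempty) := by
  -- the relation
  let r : Finset (Lev n (k + 1)) → Lev n k → Lev n k → Prop := fun Z x x' =>
    ∃ y, y ∉ Z ∧ h x y ∧ h x' y
  let st : Finset (Lev n (k + 1)) → Setoid (Lev n k) := fun Z => Relation.EqvGen.setoid (r Z)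
  let rep : Finset (Lev n (k + 1)) → Lev n k → Lev n k := fun Z x => (Quotient.mk (st Z) x).out
  have hrep : ∀ Z x, Relation.EqvGen (r Z) (rep Z x) x := by
    intro Z x
    have := @Quotient.mk_out _ (st Z) x
    exact this
  have hrepeq : ∀ Z x x', rep Z x = rep Z x' → Relation.EqvGen (r Z) x x' := by
    intro Z x x' hxx
    have h1 := hrep Z x
    have h2 := hrep Z x'
    rw [hxx] at h1
    exact Relation.EqvGen.trans _ _ _ (Relation.EqvGen.symm _ _ h1) h2
  have hrepeq' : ∀ Z x x', Relation.EqvGen (r Z) x x' → rep Z x = rep Z x' := by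
    intro Z x x' hxx
    have : Quotient.mk (st Z) x = Quotient.mk (st Z) x' := Quotient.sound hxx
    simp only [rep]
    rw [this]
  have hclosed : ∀ S x x', Relation.EqvGen (r (mixd h S)) x x' → (x ∈ S ↔ x' ∈ S) := by
    intro S x x' hxx
    induction hxx with
    | rel x x' hr =>
      obtain ⟨y, hy1, hy2, hy3⟩ := hr
      constructor
      · intro hxS
        by_contra hcon
        exact hy1 (mem_mixd.2 ⟨⟨x, hxS, hy2⟩, ⟨x', hcon, hy3⟩⟩)
      · intro hxS
        by_contra hcon
        exact hy1 (mem_mixd.2 ⟨⟨x', hxS, hy3⟩, ⟨x, hcon, hy2⟩⟩)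
    | refl x => rfl
    | symm x y _ ih => exact ih.symm
    | trans x y z _ _ ih1 ih2 => exact ih1.trans ih2
  refine ⟨fun S => S.image (rep (mixd h S)), ?_, ?_, ?_⟩
  · have key : ∀ S S', mixd h S = mixd h S' →
        S.image (rep (mixd h S)) = S'.image (rep (mixd h S')) → S ⊆ S' := by
      intro S S' hm hR x hxS
      have h1 : rep (mixd h S) x ∈ S'.image (rep (mixd h S')) := by
        rw [← hR]; exact mem_image_of_mem _ hxS
      rw [mem_image] at h1
      obtain ⟨x', hx', hxx⟩ := h1
      rw [← hm] at hxx
      have h2 := hrepeq _ _ _ hxx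
      rw [hm] at h2
      exact (hclosed S' _ _ h2).1 hx'
    intro S S' hm hR
    exact Subset.antisymm (key S S' hm hR) (key S' S hm.symm hR.symm)
  · intro S
    set Z := mixd h S with hZ
    set R := S.image (rep Z) with hR
    set T := univ.filter (fun x : Lev n k => ∃ y ∈ Z, h x y) with hT
    set R1 := R.filter (fun q => ∃ x ∈ T, rep Z x = q) with hR1
    set R2 := R.filter (fun q => ¬ ∃ x ∈ T, rep Z x = q) with hR2
    have hcard : R.card = R1.card + R2.card := by
      rw [hR1, hR2, card_filter_add_card_filter_not]
    have hb1 : R1.card ≤ (k + 1) * Z.card := by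
      have e1 : R1 ⊆ T.image (rep Z) := by
        intro q hq
        rw [hR1, mem_filter] at hq
        obtain ⟨_, x, hx, hxq⟩ := hq
        exact mem_image.2 ⟨x, hx, hxq⟩
      have e2 : T ⊆ Z.biUnion (fun y => univ.filter (fun x : Lev n k => x.1 ⊆ y.1)) := by
        intro x hx
        rw [hT, mem_filter] at hx
        obtain ⟨_, y, hy, hxy⟩ := hx
        rw [mem_biUnion]
        exact ⟨y, hy, mem_filter.2 ⟨mem_univ _, hsub x y hxy⟩⟩
      calc R1.card ≤ (T.image (rep Z)).card := card_le_card e1
        _ ≤ T.card := card_image_le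
        _ ≤ _ := card_le_card e2
        _ ≤ ∑ y ∈ Z, (univ.filter (fun x : Lev n k => x.1 ⊆ y.1)).card := card_biUnion_le
        _ ≤ ∑ _y ∈ Z, (k + 1) := sum_le_sum (fun y _ => card_below y univ)
        _ = (k + 1) * Z.card := by rw [sum_const, smul_eq_mul, mul_comm]
    -- the classes which do not touch `Z`
    have hb2 : 2 ^ δ * R2.card ≤ (n + 1) * S.card := by
      have hcls : ∀ q ∈ R2, 2 ^ δ ≤ (n + 1) * (S.filter (fun x => rep Z x = q)).card := by
        intro q hq
        rw [hR2, mem_filter] at hq
        obtain ⟨hqR, hqT⟩ := hq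
        rw [hR, mem_image] at hqR
        obtain ⟨x0, hx0, hx0q⟩ := hqR
        set C := S.filter (fun x => rep Z x = q) with hC
        have hCall : ∀ x, rep Z x = q → x ∈ C := by
          intro x hx
          rw [hC, mem_filter]
          refine ⟨?_, hx⟩
          have := hrepeq Z x0 x (hx0q.trans hx.symm)
          exact (hclosed S _ _ this).1 hx0
        set N := univ.filter (fun y : Lev n (k + 1) => ∃ x ∈ C, h x y) with hN
        set W : Finset (Finset (Fin n)) := C.map (Function.Embedding.subtype _) ∪
          N.map (Function.Embedding.subtype _) with hW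
        have hadj : ∀ (x : Lev n k) (y : Lev n (k + 1)), x.1 ⊆ y.1 → (symmDiff x.1 y.1).card = 1 := by
          intro x y hxy
          have : symmDiff x.1 y.1 = y.1 \ x.1 := by
            rw [symmDiff_def, sdiff_eq_empty_iff_subset.2 hxy]
            simp
          rw [this, card_sdiff_of_subset hxy, x.2, y.2]
          omega
        have hdeg : ∀ v ∈ W, δ ≤ (W.filter (fun u => (symmDiff v u).card = 1)).card := by
          intro v hv
          rw [hW, mem_union, mem_map, mem_map] at hv
          rcases hv with ⟨x, hxC, rfl⟩ | ⟨y, hyN, rfl⟩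
          · refine (hx x).trans ?_
            rw [← card_map (Function.Embedding.subtype _)]
            apply card_le_card
            intro u hu
            rw [mem_map] at hu
            obtain ⟨y, hy, rfl⟩ := hu
            rw [mem_filter] at hy
            rw [mem_filter, hW, mem_union, mem_map, mem_map]
            exact ⟨Or.inr ⟨y, mem_filter.2 ⟨mem_univ _, x, hxC, hy.2⟩, rfl⟩, hadj x y (hsub x y hy.2)⟩
          · rw [hN, mem_filter] at hyN
            obtain ⟨_, x, hxC, hxy⟩ := hyN
            have hyZ : y ∉ Z := by
              intro hyZ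
              apply hqT
              refine ⟨x, ?_, (mem_filter.1 hxC).2⟩
              rw [hT, mem_filter]
              exact ⟨mem_univ _, y, hyZ, hxy⟩
            refine (hy x y hxy).trans ?_
            rw [← card_map (Function.Embedding.subtype _)]
            apply card_le_card
            intro u hu
            rw [mem_map] at hu
            obtain ⟨x', hx', rfl⟩ := hu
            rw [mem_filter] at hx'
            have hx'C : x' ∈ C := by
              apply hCall
              rw [← (mem_filter.1 hxC).2]
              exact hrepeq' Z x' x (Relation.EqvGen.rel _ _ ⟨y, hyZ, hx'.2, hxy⟩)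
            rw [mem_filter, hW, mem_union, mem_map, mem_map]
            refine ⟨Or.inl ⟨x', hx'C, rfl⟩, ?_⟩
            simp only [Function.Embedding.subtype_apply]
            rw [symmDiff_comm]
            exact hadj x' y (hsub x' y hx'.2)
        have hWne : W.Nonempty := ⟨x0.1, by
          rw [hW, mem_union, mem_map]
          exact Or.inl ⟨x0, hCall x0 hx0q, rfl⟩⟩
        have hN1 : N.card ≤ n * C.card := by
          have e2 : N ⊆ C.biUnion (fun x => univ.filter (fun y : Lev n (k + 1) => x.1 ⊆ y.1)) := by
            intro y hy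
            rw [hN, mem_filter] at hy
            obtain ⟨_, x, hx, hxy⟩ := hy
            rw [mem_biUnion]
            exact ⟨x, hx, mem_filter.2 ⟨mem_univ _, hsub x y hxy⟩⟩
          have e3 : ∀ x : Lev n k, (univ.filter (fun y : Lev n (k + 1) => x.1 ⊆ y.1)).card ≤ n := by
            intro x
            have e4 : univ.filter (fun y : Lev n (k + 1) => x.1 ⊆ y.1) ⊆
                ((univ : Finset (Fin n)).filter (fun a => a ∉ x.1)).attach.image (fun a =>
                  (⟨insert a.1 x.1, by
                    rw [card_insert_of_notMem (mem_filter.1 a.2).2, x.2]⟩ : Lev n (k + 1))) := by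
              intro y hy
              rw [mem_filter] at hy
              have hc : (y.1 \ x.1).card = 1 := by
                rw [card_sdiff_of_subset hy.2, y.2, x.2]; omega
              obtain ⟨a, ha⟩ := card_eq_one.1 hc
              have hay : a ∈ y.1 \ x.1 := by rw [ha]; exact mem_singleton_self _
              rw [mem_sdiff] at hay
              rw [mem_image]
              refine ⟨⟨a, mem_filter.2 ⟨mem_univ _, hay.2⟩⟩, mem_attach _ _, ?_⟩
              apply Subtype.ext
              simp only
              apply eq_of_subset_of_card_le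
              · intro z hz
                rcases mem_insert.1 hz with rfl | hz
                · exact hay.1
                · exact hy.2 hz
              · rw [card_insert_of_notMem hay.2, x.2, y.2]
            refine (card_le_card e4).trans (card_image_le.trans ?_)
            rw [card_attach]
            have := card_le_univ ((univ : Finset (Fin n)).filter (fun a => a ∉ x.1))
            simpa using this
          calc N.card ≤ _ := card_le_card e2
            _ ≤ ∑ x ∈ C, (univ.filter (fun y : Lev n (k + 1) => x.1 ⊆ y.1)).card := card_biUnion_le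
            _ ≤ ∑ _x ∈ C, n := sum_le_sum (fun x _ => e3 x)
            _ = n * C.card := by rw [sum_const, smul_eq_mul, mul_comm]
        calc 2 ^ δ ≤ W.card := cube_min_degree δ W hWne hdeg
          _ ≤ C.card + N.card := by
              rw [hW]
              refine (card_union_le _ _).trans ?_
              rw [card_map, card_map]
          _ ≤ C.card + n * C.card := Nat.add_le_add_left hN1 _
          _ = (n + 1) * C.card := by ring
      have hsum : ∑ q ∈ R2, (S.filter (fun x => rep Z x = q)).card ≤ S.card := by
        have e1 : ∑ q ∈ R2, (S.filter (fun x => rep Z x = q)).card ≤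
            ∑ q ∈ R, (S.filter (fun x => rep Z x = q)).card :=
          sum_le_sum_of_subset (filter_subset _ _)
        have e2 := card_eq_sum_card_fiberwise (s := S) (t := R) (f := rep Z)
          (fun x hx => mem_coe.2 (mem_image_of_mem _ hx))
        omega
      calc 2 ^ δ * R2.card = ∑ _q ∈ R2, 2 ^ δ := by rw [sum_const, smul_eq_mul, mul_comm]
        _ ≤ ∑ q ∈ R2, (n + 1) * (S.filter (fun x => rep Z x = q)).card := sum_le_sum hcls
        _ = (n + 1) * ∑ q ∈ R2, (S.filter (fun x => rep Z x = q)).card := by rw [mul_sum]
        _ ≤ (n + 1) * S.card := Nat.mul_le_mul_left _ hsum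
    rw [hcard, mul_add]
    exact Nat.add_le_add (Nat.mul_le_mul_left _ hb1) hb2
  · intro S hS
    exact hS.image _

end Pool.MP_0ccee8_co.Lib2
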