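import Mathlib
import Pool.Agent.Lib.MP_0ccee8_co2.Kernel
import Pool.Agent.Lib.MP_0ccee8_co2.Thin
import Pool.Agent.Lib.MP_0ccee8_co2.Pools2

/-! Weak expansion of a pool of edges. -/

set_option autoImplicit false

namespace Pool.MP_0ccee8_co.Lib2

open Finset
open Pool.MP_0ccee8_co.Lib (Lev card_below Q mem_Q)

variable {n k : ℕ}

/-- Action of a permutation on a level. -/
def pact (π : Equiv.Perm (Fin n)) (v : Lev n k) : Lev n k :=
  ⟨v.1.map π.toEmbedding, by rw [card_map, v.2]⟩

theorem pact_mul (π g : Equiv.Perm (Fin n)) (v : Lev n k) : pact (π * g) v = pact π (pact g v) := by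
  apply Subtype.ext
  ext x
  simp only [pact, mem_map, Equiv.coe_toEmbedding, Equiv.Perm.coe_mul, Function.comp_apply]
  constructor
  · rintro ⟨a, ha, rfl⟩
    exact ⟨g a, ⟨a, ha, rfl⟩, rfl⟩
  · rintro ⟨_, ⟨a, ha, rfl⟩, rfl⟩
    exact ⟨a, ha, rfl⟩

theorem pact_one (v : Lev n k) : pact (1 : Equiv.Perm (Fin n)) v = v := by
  apply Subtype.ext
  ext x
  simp only [pact, mem_map, Equiv.coe_toEmbedding, Equiv.Perm.coe_one, id_eq, exists_eq_right]

/-- the action is by bijections -/
def pactE (π : Equiv.Perm (Fin n)) : Lev n k ≃ Lev n k where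
  toFun := pact π
  invFun := pact π⁻¹
  left_inv v := by rw [← pact_mul]; simp [pact_one]
  right_inv v := by rw [← pact_mul]; simp [pact_one]

theorem pact_trans (u s : Lev n k) : ∃ g : Equiv.Perm (Fin n), pact g u = s := by
  classical
  have hc : u.1.card = s.1.card := by rw [u.2, s.2]
  let e : {x // x ∈ u.1} ≃ {x // x ∈ s.1} := Finset.equivOfCardEq hc
  refine ⟨e.extendSubtype, ?_⟩
  apply Subtype.ext
  apply eq_of_subset_of_card_le
  · intro x hx
    simp only [pact, mem_map, Equiv.coe_toEmbedding] at hx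
    obtain ⟨a, ha, rfl⟩ := hx
    exact e.extendSubtype_mem a ha
  · simp only [pact]
    rw [card_map, u.2, s.2]

theorem dis_pact (π : Equiv.Perm (Fin n)) (u v : Lev n k) : dis (pact π u) (pact π v) = dis u v := by
  unfold dis pact
  simp only
  rw [← Finset.map_sdiff, card_map]

/-- number of permutations mapping `u` to `s` -/
theorem card_stab (u s : Lev n k) :
    Fintype.card (Lev n k) * (univ.filter (fun π : Equiv.Perm (Fin n) => pact π u = s)).card =
      Fintype.card (Equiv.Perm (Fin n)) := by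
  classical
  have h1 : ∀ s' : Lev n k, (univ.filter (fun π : Equiv.Perm (Fin n) => pact π u = s')).card =
      (univ.filter (fun π : Equiv.Perm (Fin n) => pact π u = s)).card := by
    intro s'
    obtain ⟨g, hg⟩ := pact_trans s' s
    apply card_equiv (Equiv.mulLeft g)
    intro π
    simp only [mem_filter, mem_univ, true_and, Equiv.coe_mulLeft]
    rw [pact_mul]
    constructor
    · rintro h; rw [h, hg]
    · intro h
      rw [← hg] at h
      exact (pactE g).injective h
  have h2 := card_eq_sum_card_fiberwise (s := (univ : Finset (Equiv.Perm (Fin n))))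
    (t := (univ : Finset (Lev n k))) (f := fun π => pact π u) (fun _ _ => mem_coe.2 (mem_univ _))
  rw [← card_univ (α := Equiv.Perm (Fin n)), h2, sum_congr rfl (fun s' _ => h1 s'), sum_const,
    smul_eq_mul, card_univ]

open Classical in
/-- The cut pairs. -/
noncomputable def cut (S : Finset (Lev n k)) : Finset (Lev n k × Lev n k) :=
  univ.filter (fun p => p.1 ∈ S ∧ p.2 ∉ S ∧ dis p.1 p.2 = 1)

open Classical in
/-- crossing permutations -/
noncomputable def cr (S : Finset (Lev n k)) (s t : Lev n k) : ℕ :=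
  (univ.filter (fun π : Equiv.Perm (Fin n) => pact π s ∈ S ∧ pact π t ∉ S)).card

theorem cr_tri (S : Finset (Lev n k)) (s z t : Lev n k) : cr S s t ≤ cr S s z + cr S z t := by
  classical
  unfold cr
  refine le_trans (card_le_card ?_) (card_union_le _ _)
  intro π hπ
  simp only [mem_filter, mem_univ, true_and, mem_union] at hπ ⊢
  by_cases h : pact π z ∈ S
  · exact Or.inr ⟨h, hπ.2⟩
  · exact Or.inl ⟨hπ.1, h⟩

theorem cr_adj (S : Finset (Lev n k)) (s z : Lev n k) (h : dis s z = 1) :
    Fintype.card (Lev n k) * cr S s z ≤ (cut S).card * Fintype.card (Equiv.Perm (Fin n)) := by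
  classical
  have h1 : univ.filter (fun π : Equiv.Perm (Fin n) => pact π s ∈ S ∧ pact π z ∉ S) ⊆
      (cut S).biUnion (fun p => univ.filter (fun π : Equiv.Perm (Fin n) => pact π s = p.1)) := by
    intro π hπ
    rw [mem_filter] at hπ
    rw [mem_biUnion]
    refine ⟨(pact π s, pact π z), ?_, mem_filter.2 ⟨mem_univ _, rfl⟩⟩
    unfold cut
    rw [mem_filter]
    exact ⟨mem_univ _, hπ.2.1, hπ.2.2, by rw [dis_pact, h]⟩
  have h2 : cr S s z ≤ ∑ p ∈ cut S, (univ.filter (fun π : Equiv.Perm (Fin n) => pact π s = p.1)).card :=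
    (card_le_card h1).trans card_biUnion_le
  calc Fintype.card (Lev n k) * cr S s z ≤ Fintype.card (Lev n k) *
        ∑ p ∈ cut S, (univ.filter (fun π : Equiv.Perm (Fin n) => pact π s = p.1)).card :=
        Nat.mul_le_mul_left _ h2
    _ = ∑ p ∈ cut S, Fintype.card (Equiv.Perm (Fin n)) := by
        rw [mul_sum]
        exact sum_congr rfl (fun p _ => card_stab s p.1)
    _ = _ := by rw [sum_const, smul_eq_mul]

/-- one step towards a target -/
theorem exists_step {s t : Lev n k} {r : ℕ} (h : dis s t = r + 1) :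
    ∃ z : Lev n k, dis s z = 1 ∧ dis z t = r := by
  classical
  have h1 : 0 < (s.1 \ t.1).card := by unfold dis at h; omega
  have h2 : 0 < (t.1 \ s.1).card := by
    have := dis_comm s t
    unfold dis at h this
    omega
  obtain ⟨a, ha⟩ := card_pos.1 h1
  obtain ⟨b, hb⟩ := card_pos.1 h2
  rw [mem_sdiff] at ha hb
  have hab : a ≠ b := fun h => hb.2 (h ▸ ha.1)
  have hc : (insert b (s.1.erase a)).card = k := by
    rw [card_insert_of_notMem (by simp [hb.2]), card_erase_of_mem ha.1, s.2]
    have : 0 < s.1.card := card_pos.2 ⟨a, ha.1⟩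
    rw [s.2] at this
    omega
  refine ⟨⟨insert b (s.1.erase a), hc⟩, ?_, ?_⟩
  · unfold dis
    rw [card_eq_one]
    refine ⟨a, ?_⟩
    ext x
    simp only [mem_sdiff, mem_insert, mem_erase, mem_singleton, not_or, not_and]
    constructor
    · rintro ⟨hx, h3, h4⟩
      by_contra hxa
      exact h4 hxa hx
    · rintro rfl
      exact ⟨ha.1, hab, fun h _ => h rfl⟩
  · have h3 : insert b (s.1.erase a) \ t.1 = (s.1 \ t.1).erase a := by
      ext x
      simp only [mem_sdiff, mem_insert, mem_erase]
      constructor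
      · rintro ⟨h4 | h4, h5⟩
        · exact absurd (h4 ▸ hb.1) h5
        · exact ⟨h4.1, h4.2, h5⟩
      · rintro ⟨h4, h5, h6⟩
        exact ⟨Or.inr ⟨h4, h5⟩, h6⟩
    unfold dis
    simp only
    rw [h3, card_erase_of_mem (mem_sdiff.2 ha)]
    unfold dis at h
    omega

theorem cr_le (S : Finset (Lev n k)) (r : ℕ) (s t : Lev n k) (h : dis s t = r) :
    Fintype.card (Lev n k) * cr S s t ≤ r * ((cut S).card * Fintype.card (Equiv.Perm (Fin n))) := by
  induction r generalizing s with
  | zero =>
    have := dis_eq_zero h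
    subst this
    have : cr S s s = 0 := by
      classical
      unfold cr
      rw [card_eq_zero, filter_eq_empty_iff]
      rintro π _ ⟨h1, h2⟩
      exact h2 h1
    rw [this]; simp
  | succ r ih =>
    obtain ⟨z, h1, h2⟩ := exists_step h
    calc Fintype.card (Lev n k) * cr S s t ≤ Fintype.card (Lev n k) * (cr S s z + cr S z t) :=
          Nat.mul_le_mul_left _ (cr_tri S s z t)
      _ = Fintype.card (Lev n k) * cr S s z + Fintype.card (Lev n k) * cr S z t := by ring
      _ ≤ (cut S).card * Fintype.card (Equiv.Perm (Fin n)) +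
          r * ((cut S).card * Fintype.card (Equiv.Perm (Fin n))) :=
          Nat.add_le_add (cr_adj S s z h1) (ih z h2)
      _ = _ := by ring

theorem cut_large (S : Finset (Lev n k)) (hS : 2 * S.card ≤ Fintype.card (Lev n k)) :
    S.card ≤ 2 * k * (cut S).card := by
  classical
  rcases Nat.eq_zero_or_pos (Fintype.card (Lev n k)) with h0 | hpos
  · have := card_le_univ S
    omega
  have hP : 0 < Fintype.card (Equiv.Perm (Fin n)) := Fintype.card_pos
  -- double counting
  have h1 : ∑ p : Lev n k × Lev n k, cr S p.1 p.2 =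
      Fintype.card (Equiv.Perm (Fin n)) * (S.card * (Sᶜ).card) := by
    unfold cr
    simp only [card_filter]
    rw [sum_comm]
    have h2 : ∀ π : Equiv.Perm (Fin n), ∑ p : Lev n k × Lev n k,
        (if pact π p.1 ∈ S ∧ pact π p.2 ∉ S then 1 else 0) = S.card * (Sᶜ).card := by
      intro π
      rw [← Equiv.sum_comp ((pactE π).symm.prodCongr (pactE π).symm)]
      rw [← card_filter, ← card_product]
      congr 1
      ext ⟨a, b⟩
      simp only [Equiv.prodCongr_apply, Prod.map, mem_filter, mem_univ, true_and, mem_product,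
        mem_compl]
      have e1 : ∀ a : Lev n k, pact π ((pactE π).symm a) = a := fun a => (pactE π).apply_symm_apply a
      rw [e1, e1]
    rw [sum_congr rfl (fun π _ => h2 π), sum_const, card_univ, smul_eq_mul]
  have h2 : Fintype.card (Lev n k) * ∑ p : Lev n k × Lev n k, cr S p.1 p.2 ≤
      (Fintype.card (Lev n k) * Fintype.card (Lev n k)) *
        (k * ((cut S).card * Fintype.card (Equiv.Perm (Fin n)))) := by
    rw [mul_sum]
    calc ∑ p : Lev n k × Lev n k, Fintype.card (Lev n k) * cr S p.1 p.2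
        ≤ ∑ _p : Lev n k × Lev n k, k * ((cut S).card * Fintype.card (Equiv.Perm (Fin n))) := by
          apply sum_le_sum
          intro p _
          refine (cr_le S _ p.1 p.2 rfl).trans ?_
          apply Nat.mul_le_mul_right
          unfold dis
          refine (card_le_card sdiff_subset).trans ?_
          rw [p.1.2]
      _ = _ := by rw [sum_const, card_univ, Fintype.card_prod, smul_eq_mul]
  rw [h1] at h2
  have h3 : S.card * (Sᶜ).card ≤ Fintype.card (Lev n k) * (k * (cut S).card) := by
    have h4 : (Fintype.card (Lev n k) * Fintype.card (Equiv.Perm (Fin n))) * (S.card * (Sᶜ).card) ≤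
        (Fintype.card (Lev n k) * Fintype.card (Equiv.Perm (Fin n))) *
          (Fintype.card (Lev n k) * (k * (cut S).card)) := by
      calc _ = Fintype.card (Lev n k) *
            (Fintype.card (Equiv.Perm (Fin n)) * (S.card * (Sᶜ).card)) := by ring
        _ ≤ _ := h2
        _ = _ := by ring
    exact Nat.le_of_mul_le_mul_left h4 (Nat.mul_pos hpos hP)
  have h4 : Fintype.card (Lev n k) ≤ 2 * (Sᶜ).card := by
    rw [card_compl]; omega
  have h5 : Fintype.card (Lev n k) * S.card ≤ Fintype.card (Lev n k) * (2 * k * (cut S).card) := by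
    calc Fintype.card (Lev n k) * S.card ≤ (2 * (Sᶜ).card) * S.card := Nat.mul_le_mul_right _ h4
      _ = 2 * (S.card * (Sᶜ).card) := by ring
      _ ≤ 2 * (Fintype.card (Lev n k) * (k * (cut S).card)) := Nat.mul_le_mul_left _ h3
      _ = _ := by ring
  exact Nat.le_of_mul_le_mul_left h5 hpos

/-- adjacency in the pool -/
def pad (H : (Finset (Fin n) × Fin n) → Prop) (x : Lev n k) (y : Lev n (k + 1)) : Prop :=
  ∃ a, a ∉ x.1 ∧ insert a x.1 = y.1 ∧ H (x.1, a)

theorem mixd_compl (h : Lev n k → Lev n (k + 1) → Prop) (S : Finset (Lev n k)) :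
    mixd h Sᶜ = mixd h S := by
  ext y
  rw [mem_mixd, mem_mixd]
  simp only [mem_compl, not_not]
  exact And.comm

theorem half_path {H : (Finset (Fin n) × Fin n) → Prop}
    (hconn : ∀ v x, v.card = k → x ∉ v → ∃ g ∈ Q v x, ∀ s, H (oe s (fl v x g)))
    (S : Finset (Lev n k)) (s : Lev n k) (hs : s ∈ S) (y : Lev n (k + 1)) (c : Fin n) (hc : c ∉ s.1)
    (hy : insert c s.1 = y.1) :
    (∃ z ∈ mixd (pad H) S, (y.1 \ z.1).card ≤ 1) ∨ ∃ B ∈ S, pad H B y := by
  classical
  obtain ⟨g, hg, hH⟩ := hconn s.1 c s.2 hc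
  obtain ⟨a, b⟩ := g
  rw [mem_Q] at hg
  obtain ⟨ha, hbc, hb⟩ := hg
  simp only at ha hbc hb
  have hab : a ≠ b := fun h => hb (h ▸ ha)
  have hac : a ≠ c := fun h => hc (h ▸ ha)
  have h0 := hH 0
  have h1 := hH 1
  have h2 := hH 2
  have h3 := hH 3
  have h4 := hH 4
  simp only [oe, pm, bs, fl] at h0 h1 h2 h3 h4
  set w := s.1.erase a with hw
  have haw : a ∉ w := by simp [hw]
  have hbw : b ∉ w := by simp [hw, hb]
  have hcw : c ∉ w := by simp [hw, hc]
  have hsw : insert a w = s.1 := insert_erase ha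
  have hwc : w.card + 1 = k := by
    rw [← s.2, ← hsw, card_insert_of_notMem haw]
  rw [hsw] at h4
  let B1 : Lev n k := ⟨insert b w, by rw [card_insert_of_notMem hbw, hwc]⟩
  let B2 : Lev n k := ⟨insert c w, by rw [card_insert_of_notMem hcw, hwc]⟩
  have hab' : a ∉ insert b w := by simp [hab, haw]
  have hac' : a ∉ insert c w := by simp [hac, haw]
  have hcb' : c ∉ insert b w := by simp [hbc.symm, hcw]
  have hbc' : b ∉ insert c w := by simp [hbc, hbw]
  let T1 : Lev n (k + 1) := ⟨insert a (insert b w), by rw [card_insert_of_notMem hab', B1.2]⟩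
  let T2 : Lev n (k + 1) := ⟨insert c (insert b w), by rw [card_insert_of_notMem hcb', B1.2]⟩
  have hyw : y.1 = insert c (insert a w) := by rw [hsw, hy]
  by_cases hB1 : B1 ∈ S
  · by_cases hB2 : B2 ∈ S
    · right
      refine ⟨B2, hB2, a, hac', ?_, h0⟩
      rw [hyw]
      exact Finset.insert_comm a c w
    · left
      refine ⟨T2, mem_mixd.2 ⟨⟨B1, hB1, c, hcb', rfl, h2⟩, ⟨B2, hB2, b, hbc', ?_, h1⟩⟩, ?_⟩
      · exact Finset.insert_comm b c w
      · rw [hyw]
        have : insert c (insert a w) \ T2.1 ⊆ {a} := by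
          intro x hx
          simp only [T2, mem_sdiff, mem_insert, not_or] at hx
          rw [mem_singleton]
          tauto
        refine (card_le_card this).trans ?_
        simp
  · left
    refine ⟨T1, mem_mixd.2 ⟨⟨s, hs, b, hb, ?_, h4⟩, ⟨B1, hB1, a, hab', rfl, h3⟩⟩, ?_⟩
    · rw [← hsw]; exact Finset.insert_comm b a w
    · rw [hyw]
      have : insert c (insert a w) \ T1.1 ⊆ {c} := by
        intro x hx
        simp only [T1, mem_sdiff, mem_insert, not_or] at hx
        rw [mem_singleton]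
        tauto
      refine (card_le_card this).trans ?_
      simp

theorem cut_mixd {H : (Finset (Fin n) × Fin n) → Prop}
    (hconn : ∀ v x, v.card = k → x ∉ v → ∃ g ∈ Q v x, ∀ s, H (oe s (fl v x g)))
    (S : Finset (Lev n k)) : (cut S).card ≤ n ^ 4 * (mixd (pad H) S).card := by
  classical
  -- for each cut pair, a nearby mixed vertex
  have h1 : ∀ p ∈ cut S, ∃ z ∈ mixd (pad H) S, ∃ c d e f : Fin n,
      p.1.1 = (insert d (z.1.erase c)).erase e ∧ p.2.1 = (insert d (z.1.erase c)).erase f := by
    intro p hp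
    unfold cut at hp
    rw [mem_filter] at hp
    obtain ⟨_, hp1, hp2, hp3⟩ := hp
    obtain ⟨c0, hc0, d0, hd0, hcz, hdz, hz⟩ := adj_form hp3
    have hyc : (insert d0 p.1.1).card = k + 1 := by rw [card_insert_of_notMem hd0, p.1.2]
    have hy2 : insert c0 p.2.1 = insert d0 p.1.1 := by
      rw [hz, Finset.insert_comm, insert_erase hc0]
    let y : Lev n (k + 1) := ⟨insert d0 p.1.1, hyc⟩
    have hnear : ∃ z ∈ mixd (pad H) S, (y.1 \ z.1).card ≤ 1 := by
      rcases half_path hconn S p.1 hp1 y d0 hd0 rfl with h | ⟨B, hB, hBy⟩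
      · exact h
      · rcases half_path hconn Sᶜ p.2 (mem_compl.2 hp2) y c0 hcz hy2 with h | ⟨B', hB', hB'y⟩
        · rwa [mixd_compl] at h
        · exact ⟨y, mem_mixd.2 ⟨⟨B, hB, hBy⟩, ⟨B', mem_compl.1 hB', hB'y⟩⟩, by simp⟩
    obtain ⟨z, hzm, hzy⟩ := hnear
    refine ⟨z, hzm, ?_⟩
    have hyz : ∃ c d : Fin n, y.1 = insert d (z.1.erase c) := by
      rcases Nat.eq_zero_or_pos (y.1 \ z.1).card with h0 | h0
      · have h2 : y.1 ⊆ z.1 := by
          rw [card_eq_zero, sdiff_eq_empty_iff_subset] at h0; exact h0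
        have h3 : y.1 = z.1 := eq_of_subset_of_card_le h2 (by rw [y.2, z.2])
        have h4 : 0 < z.1.card := by rw [z.2]; omega
        obtain ⟨c, hc⟩ := card_pos.1 h4
        exact ⟨c, c, by rw [h3, insert_erase hc]⟩
      · have h2 : dis (n := n) (k := k + 1) y z = 1 := by unfold dis; omega
        rw [dis_comm] at h2
        obtain ⟨c, _, d, _, _, _, h⟩ := adj_form h2
        exact ⟨c, d, h⟩
    obtain ⟨c, d, hcd⟩ := hyz
    refine ⟨c, d, d0, c0, ?_, ?_⟩
    · rw [← hcd]
      exact (erase_insert hd0).symm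
    · rw [← hcd]
      simp only [y]
      rw [← hy2, erase_insert hcz]
  rcases (cut S).eq_empty_or_nonempty with h0 | ⟨p0, hp0⟩
  · rw [h0]; simp
  have : Nonempty (Lev n (k + 1)) := ⟨(h1 p0 hp0).choose⟩
  choose! F hF using h1
  have h2 : ∀ z ∈ mixd (pad H) S, ((cut S).filter (fun p => F p = z)).card ≤ n ^ 4 := by
    intro z _
    have h3 : (((cut S).filter (fun p => F p = z)).image (fun p => (p.1.1, p.2.1))) ⊆
        (univ : Finset (Fin n × Fin n × Fin n × Fin n)).image (fun q =>
          ((insert q.2.1 (z.1.erase q.1)).erase q.2.2.1, (insert q.2.1 (z.1.erase q.1)).erase q.2.2.2)) := by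
      intro r hr
      rw [mem_image] at hr
      obtain ⟨p, hp, rfl⟩ := hr
      rw [mem_filter] at hp
      obtain ⟨_, c, d, e, f, h4, h5⟩ := hF p hp.1
      rw [hp.2] at h4 h5
      rw [mem_image]
      exact ⟨(c, d, e, f), mem_univ _, by rw [h4, h5]⟩
    have h4 : (((cut S).filter (fun p => F p = z)).image (fun p => (p.1.1, p.2.1))).card =
        ((cut S).filter (fun p => F p = z)).card := by
      apply card_image_of_injective
      intro p q hpq
      simp only [Prod.mk.injEq] at hpq
      exact Prod.ext (Subtype.ext hpq.1) (Subtype.ext hpq.2)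
    rw [← h4]
    refine (card_le_card h3).trans (card_image_le.trans ?_)
    simp only [card_univ, Fintype.card_prod, Fintype.card_fin]
    exact le_of_eq (by ring)
  have h3 := card_eq_sum_card_fiberwise (s := cut S) (t := mixd (pad H) S) (f := F)
    (fun p hp => (hF p hp).1)
  calc (cut S).card = ∑ z ∈ mixd (pad H) S, ((cut S).filter (fun p => F p = z)).card := h3
    _ ≤ ∑ _z ∈ mixd (pad H) S, n ^ 4 := sum_le_sum h2
    _ = _ := by rw [sum_const, smul_eq_mul, mul_comm]

/-- Weak expansion of a connected pool. -/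
theorem pool_expand {H : (Finset (Fin n) × Fin n) → Prop}
    (hconn : ∀ v x, v.card = k → x ∉ v → ∃ g ∈ Q v x, ∀ s, H (oe s (fl v x g)))
    (hkn : 2 * k ≤ n) (S : Finset (Lev n k)) (hS : 2 * S.card ≤ Fintype.card (Lev n k)) :
    S.card ≤ n ^ 5 * (mixd (pad H) S).card := by
  calc S.card ≤ 2 * k * (cut S).card := cut_large S hS
    _ ≤ n * (n ^ 4 * (mixd (pad H) S).card) := Nat.mul_le_mul hkn (cut_mixd hconn S)
    _ = _ := by ring

end Pool.MP_0ccee8_co.Lib2
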