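import Pool.Agent.Lib.MP_0ccee8_co2.Stage2

/-! One random stage: the local lemma. -/

set_option autoImplicit false
set_option linter.unusedSectionVars false

namespace Pool.MP_0ccee8_co.Lib2

open Finset

section Stage

variable {X Y κa κs : Type*} [Fintype X] [DecidableEq X] [Fintype Y] [DecidableEq Y]
  [Fintype κa] [Nonempty κa] [Fintype κs] [Nonempty κs]
  {K L b : ℕ} {μ : Y → X → ℝ} (S : Sampler X Y κs L b μ)
  (e : Fin K → Bool → (Y ≃ Y)) (act : κa → Prop) (s0 : Fin L)

/-- The position of a coordinate on a side. -/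
def pos (v : VV K Y) (σ : Bool) : Y := Sum.elim (fun p => e p.1 σ p.2) (fun p => p.2) v

theorem mem_sy {v : VV K Y} {σ : Bool} {y : Y} (h : v ∈ sy e σ y) : y = pos e v σ := by
  unfold sy at h
  rw [mem_insert, mem_image] at h
  rcases h with rfl | ⟨j, _, rfl⟩
  · rfl
  · simp [pos]

/-- Index of the events. -/
abbrev EI (X Y : Type*) (K J0 : ℕ) := (Fin K × Bool × Fin J0 × X) ⊕ (Bool × Y)

/-- The set of vertices on which an event depends. -/
def Tset {J0 : ℕ} (nb : Fin J0 → X → Finset Y) (j : EI X Y K J0) : Finset Y :=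
  Sum.elim (fun t => nb t.2.2.1 t.2.2.2) (fun t => {t.2}) j

/-- The side of an event. -/
def side {J0 : ℕ} (j : EI X Y K J0) : Bool := Sum.elim (fun t => t.2.1) (fun t => t.1) j

/-- The support of an event. -/
def esupp {J0 : ℕ} (nb : Fin J0 → X → Finset Y) (j : EI X Y K J0) : Finset (VV K Y) :=
  (Tset nb j).biUnion (sy e (side j))

theorem card_coord {J0 : ℕ} (nb : Fin J0 → X → Finset Y) (D2 : ℕ)
    (hD2 : ∀ y, (univ.filter (fun t : Fin J0 × X => y ∈ nb t.1 t.2)).card ≤ D2) (v : VV K Y) :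
    (univ.filter (fun j : EI X Y K J0 => v ∈ esupp e nb j)).card ≤ 2 * (K * D2 + 1) := by
  classical
  set F : Bool → Finset (EI X Y K J0) := fun σ =>
    ((univ ×ˢ (univ.filter (fun t : Fin J0 × X => pos e v σ ∈ nb t.1 t.2))).image
      (fun p : Fin K × (Fin J0 × X) => Sum.inl (p.1, σ, p.2.1, p.2.2))) ∪ {Sum.inr (σ, pos e v σ)}
    with hF
  have h1 : univ.filter (fun j : EI X Y K J0 => v ∈ esupp e nb j) ⊆
      (univ : Finset Bool).biUnion F := by
    intro j hj
    rw [mem_filter] at hj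
    have h2 := hj.2
    unfold esupp at h2
    rw [mem_biUnion] at h2
    obtain ⟨y, hy, hv⟩ := h2
    have h3 := mem_sy e hv
    rw [mem_biUnion]
    refine ⟨side j, mem_univ _, ?_⟩
    simp only [hF]
    rw [mem_union]
    rcases j with ⟨i, σ, J, x⟩ | ⟨σ, y'⟩
    · left
      simp only [side, Sum.elim_inl] at h3 hv ⊢
      simp only [Tset, Sum.elim_inl] at hy
      rw [mem_image]
      refine ⟨(i, (J, x)), ?_, rfl⟩
      rw [mem_product, mem_filter]
      exact ⟨mem_univ _, mem_univ _, by rw [← h3]; exact hy⟩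
    · right
      simp only [side, Sum.elim_inr] at h3 hv ⊢
      simp only [Tset, Sum.elim_inr, mem_singleton] at hy
      rw [mem_singleton, ← h3, hy]
  have h2 : ∀ σ, (F σ).card ≤ K * D2 + 1 := by
    intro σ
    simp only [hF]
    refine (card_union_le _ _).trans ?_
    rw [card_singleton]
    refine Nat.add_le_add_right (card_image_le.trans ?_) 1
    rw [card_product, card_univ, Fintype.card_fin]
    exact Nat.mul_le_mul_left _ (hD2 _)
  calc _ ≤ ((univ : Finset Bool).biUnion F).card := card_le_card h1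
    _ ≤ ∑ σ : Bool, (F σ).card := card_biUnion_le
    _ ≤ ∑ _σ : Bool, (K * D2 + 1) := sum_le_sum (fun σ _ => h2 σ)
    _ = 2 * (K * D2 + 1) := by simp

theorem card_touch {J0 : ℕ} (nb : Fin J0 → X → Finset Y) (D2 : ℕ)
    (hD2 : ∀ y, (univ.filter (fun t : Fin J0 × X => y ∈ nb t.1 t.2)).card ≤ D2) (T : Finset Y)
    (σ : Bool) :
    (univ.filter (fun j : EI X Y K J0 => ¬ Disjoint (T.biUnion (sy e σ)) (esupp e nb j))).card ≤
      T.card * ((K + 1) * (2 * (K * D2 + 1))) := by
  classical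
  have h1 : univ.filter (fun j : EI X Y K J0 => ¬ Disjoint (T.biUnion (sy e σ)) (esupp e nb j)) ⊆
      (T.biUnion (sy e σ)).biUnion (fun v => univ.filter (fun j : EI X Y K J0 => v ∈ esupp e nb j)) := by
    intro j hj
    rw [mem_filter, not_disjoint_iff] at hj
    obtain ⟨_, v, hv1, hv2⟩ := hj
    rw [mem_biUnion]
    exact ⟨v, hv1, mem_filter.2 ⟨mem_univ _, hv2⟩⟩
  calc _ ≤ _ := card_le_card h1
    _ ≤ ∑ v ∈ T.biUnion (sy e σ), (univ.filter (fun j : EI X Y K J0 => v ∈ esupp e nb j)).card :=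
        card_biUnion_le
    _ ≤ ∑ _v ∈ T.biUnion (sy e σ), (2 * (K * D2 + 1)) :=
        sum_le_sum (fun v _ => card_coord e nb D2 hD2 v)
    _ = (T.biUnion (sy e σ)).card * (2 * (K * D2 + 1)) := by rw [sum_const, smul_eq_mul]
    _ ≤ (∑ y ∈ T, (sy e σ y).card) * (2 * (K * D2 + 1)) :=
        Nat.mul_le_mul_right _ card_biUnion_le
    _ ≤ (∑ _y ∈ T, (K + 1)) * (2 * (K * D2 + 1)) :=
        Nat.mul_le_mul_right _ (sum_le_sum (fun y _ => card_sy e σ y))
    _ = _ := by rw [sum_const, smul_eq_mul, mul_assoc]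

/-- The chosen points meet a set and its complement. -/
def Mx {X : Type*} {b : ℕ} (Sc : Finset X) (q : Fin b → X) : Prop :=
  (∃ j, q j ∈ Sc) ∧ ∃ j, q j ∉ Sc

/-- Data for a stage. -/
structure SD (X Y : Type*) [Fintype X] [Fintype Y] [DecidableEq Y] (μ : Y → X → ℝ) (K L b J0 : ℕ)
    (p R m τ Γ : ℝ)
    (A : Fin J0 → X → X → ℝ) (sJ : Fin J0 → ℝ) (nb : Fin J0 → X → Finset Y) (N0 D2 : ℕ) : Prop where
  hb : 0 < b
  hp0 : 0 < p
  hp1 : p ≤ 1
  hL : 2 * (p * K) + 4 * Γ ≤ L
  hA0 : ∀ J v x, 0 ≤ A J v x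
  hA1 : ∀ J v, ∑ x, A J v x = 1
  hm : 0 < m
  hτ : p * τ * R = m
  hτ0 : 0 < τ
  hτm : τ ≤ m
  hR0 : 0 < R
  hR : ∀ x, ∑ y, μ y x = R
  hsJ0 : ∀ J, 0 ≤ sJ J
  hsJ : ∀ J, sJ J ≤ 3 / 2 * m
  ha : ∀ J, ∃ a : ℝ, 0 < a ∧ (∀ v (q : Fin b → X), Function.Injective q →
    (∑ j, A J v (q j)) / b ≤ a) ∧ Γ * (9 * a * m ^ 2) ≤ sJ J ^ 2
  hnb : ∀ J v y, y ∉ nb J v → ∀ x, 0 < μ y x → A J v x = 0
  hN1 : 1 ≤ N0
  hN0 : ∀ J v, (nb J v).card ≤ N0
  hD2 : ∀ y, (univ.filter (fun t : Fin J0 × X => y ∈ nb t.1 t.2)).card ≤ D2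
  hΓ : 0 < Γ
  hlll : 8 * Real.exp (-Γ) * ((N0 * ((K + 1) * (2 * (K * D2 + 1))) : ℕ) : ℝ) ≤ 1

/-- The conclusion of a stage. -/
structure SC (μ : Y → X → ℝ) (K b J0 : ℕ) (e : Fin K → Bool → (Y ≃ Y)) (m τ : ℝ)
    (A : Fin J0 → X → X → ℝ) (sJ : Fin J0 → ℝ) (Pk : X → X → ℝ) (ρ : Fin K → Bool → X → ℝ)
    (f : Fin K → Bool → X → Y → ℝ) (U : Fin K → Y → Prop) : Prop where
  nonneg : ∀ i σ x y, 0 ≤ f i σ x y
  supp : ∀ i σ x y, f i σ x y ≠ 0 → 0 < μ y x
  disj : ∀ i j σ x y, i ≠ j → f i σ x y ≠ 0 → f j σ x y = 0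
  col : ∀ i σ y, (U i ((e i σ).symm y) → ∑ x, f i σ x y = τ) ∧
    (¬ U i ((e i σ).symm y) → ∑ x, f i σ x y = 0)
  dev : ∀ i σ J v, |∑ x, A J v x * (∑ y, f i σ x y - (m - ρ i σ x + ∑ x', Pk x x' * ρ i σ x'))| ≤ sJ J
  unif : ∀ i σ x y, (∀ x, ρ i σ x = 0) → f i σ x y ≠ 0 → f i σ x y = τ / b

open Classical in
theorem stage {J0 : ℕ} {p R m τ Γ : ℝ} {A : Fin J0 → X → X → ℝ} {sJ : Fin J0 → ℝ}
    {nb : Fin J0 → X → Finset Y} {N0 D2 : ℕ} (hS : SD X Y μ K L b J0 p R m τ Γ A sJ nb N0 D2)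
    (hp : ((univ.filter act).card : ℝ) = p * Fintype.card κa)
    (ρ : Fin K → Bool → X → ℝ) (hρ : ∀ i σ x, |ρ i σ x| ≤ m / 4)
    {χ : Type*} [Fintype χ] (ic : χ → Fin K) (σc : χ → Bool) (Sc : χ → Finset X) (Mc : χ → Finset Y)
    (π0 : ℝ) (hπ : ∀ c, ∀ y ∈ Mc c, π0 ≤ mG S s0 (fun q =>
      if Mx (Sc c) q then (1:ℝ) else 0) y)
    (hπ0 : 8 * Real.exp (-Γ) * (((K + 1) * (2 * (K * D2 + 1)) : ℕ) : ℝ) ≤ p * π0 / 8)
    (hsum : ∑ c : χ, Real.exp (-((Mc c).card * (p * π0 / 8))) < 1) :
    ∃ (f : Fin K → Bool → X → Y → ℝ) (U : Fin K → Y → Prop),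
      SC μ K b J0 e m τ A sJ (PK S s0 R) ρ f U ∧
      ∀ c, (Mc c).card * (p * π0 / 4) ≤ (((Mc c).filter (fun y =>
        (∃ x ∈ Sc c, f (ic c) (σc c) x y ≠ 0) ∧ (∃ x, x ∉ Sc c ∧ f (ic c) (σc c) x y ≠ 0))).card : ℕ) := by
  have hsinj : ∀ y θ t, Function.Injective (S.pt y θ t) := by
    intro y θ t j j' h
    exact (S.inj y θ t t j j' h).2
  have hbR : (0:ℝ) < b := by exact_mod_cast hS.hb
  have hΓ2 : 2 * Real.exp (-Γ) ≤ 1 / 4 := by
    have h1 : (1:ℝ) ≤ ((N0 * ((K + 1) * (2 * (K * D2 + 1))) : ℕ) : ℝ) := by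
      have h2 : 1 ≤ N0 * ((K + 1) * (2 * (K * D2 + 1))) := by
        have : 0 < N0 * ((K + 1) * (2 * (K * D2 + 1))) := by
          have := hS.hN1
          positivity
        omega
      exact_mod_cast h2
    have h3 := hS.hlll
    have h4 := Real.exp_pos (-Γ)
    nlinarith
  -- the functions
  set G : Fin K → Bool → Fin J0 → X → (Fin b → X) → ℝ := fun i σ J v =>
    GA (A J v) (ρ i σ) m τ with hG
  have hGb : ∀ i σ J v y θ t a, (∀ (q : Fin b → X), Function.Injective q →
      (∑ j, A J v (q j)) / b ≤ a) → |G i σ J v (S.pt y θ t)| ≤ 3 / 2 * τ * a := by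
    intro i σ J v y θ t a ha
    refine (GA_bound (hS.hA0 J v) hS.hm hS.hτ0.le (hρ i σ) _).trans ?_
    exact mul_le_mul_of_nonneg_left (ha _ (hsinj y θ t)) (by have := hS.hτ0; positivity)
  have hGsq : ∀ i σ J v y a, 0 < a → (∀ (q : Fin b → X), Function.Injective q →
      (∑ j, A J v (q j)) / b ≤ a) → mG S s0 (fun q => G i σ J v q ^ 2) y ≤
        9 / 4 * τ ^ 2 * a * ∑ x, A J v x * μ y x := by
    intro i σ J v y a ha0 ha
    have h1 : mG S s0 (fun q => G i σ J v q ^ 2) y ≤
        mG S s0 (fun q => (9 / 4 * τ ^ 2 * a / b) * ∑ j, A J v (q j)) y := by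
      apply mG_mono
      intro θ
      have h2 := hGb i σ J v y θ s0 a ha
      have h3 := GA_bound (hS.hA0 J v) hS.hm hS.hτ0.le (hρ i σ) (S.pt y θ s0)
      have h4 := abs_nonneg (G i σ J v (S.pt y θ s0))
      have h5 : 0 ≤ 3 / 2 * τ * a := by have := hS.hτ0; positivity
      calc G i σ J v (S.pt y θ s0) ^ 2 = |G i σ J v (S.pt y θ s0)| * |G i σ J v (S.pt y θ s0)| := by
            rw [← sq, sq_abs]
        _ ≤ (3 / 2 * τ * a) * (3 / 2 * τ * ((∑ j, A J v (S.pt y θ s0 j)) / b)) :=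
            mul_le_mul h2 h3 h4 h5
        _ = _ := by ring
    refine h1.trans (le_of_eq ?_)
    rw [mG_mul, mG_sum]
    field_simp
  have hG0 : ∀ i σ J v y θ t, y ∉ nb J v → G i σ J v (S.pt y θ t) = 0 := by
    intro i σ J v y θ t hy
    simp only [hG, GA]
    rw [sum_eq_zero, mul_zero]
    intro j _
    rw [hS.hnb J v y hy _ (S.mem y θ t j), zero_mul]
  -- the events
  let Ev : EI X Y K J0 → (VV K Y → κa × κs) → Prop := fun j ω =>
    Sum.elim (fun t : Fin K × Bool × Fin J0 × X => sJ t.2.2.1 < |∑ y ∈ nb t.2.2.1 t.2.2.2,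
      (Zf S e act s0 (G t.1 t.2.1 t.2.2.1 t.2.2.2) t.1 t.2.1 y ω -
        p * mG S s0 (G t.1 t.2.1 t.2.2.1 t.2.2.2) y)|)
      (fun t : Bool × Y => L < nact e act t.1 t.2 ω) j
  have hdep : ∀ j, Dep (Ev j) (esupp e nb j) := by
    intro j φ φ' h
    rcases j with ⟨i, σ, J, v⟩ | ⟨σ, y⟩
    · simp only [Ev, Sum.elim_inl]
      have h1 : ∀ y ∈ nb J v, Zf S e act s0 (G i σ J v) i σ y φ = Zf S e act s0 (G i σ J v) i σ y φ' := by
        intro y hy
        apply Zf_dep S e act s0 (G i σ J v) i σ y φ φ'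
        intro w hw
        apply h
        unfold esupp
        rw [mem_biUnion]
        exact ⟨y, hy, hw⟩
      rw [sum_congr rfl (fun y hy => by rw [h1 y hy])]
    · simp only [Ev, Sum.elim_inr]
      have := nact_dep e act (κs := κs) σ y φ φ' (by
        intro w hw
        apply h
        unfold esupp
        rw [mem_biUnion]
        exact ⟨y, by simp [Tset], hw⟩)
      simp only at this
      rw [this]
  have hprob : ∀ j, P (Ev j) ≤ 2 * Real.exp (-Γ) := by
    intro j
    rcases j with ⟨i, σ, J, v⟩ | ⟨σ, y⟩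
    · obtain ⟨a, ha0, ha, haΓ⟩ := hS.ha J
      have hm := hS.hm
      have hVt : (0:ℝ) < 9 / 4 * a * m ^ 2 := by positivity
      have h1 := noise S e act s0 (by convert hp) hS.hp0.le hS.hp1 (fun _ => G i σ J v) (nb J v)
        (3 / 2 * τ * a) (9 / 4 * a * m ^ 2) (sJ J) i σ
        (fun y _ θ t => hGb i σ J v y θ t a (ha v)) ?_ hVt (hS.hsJ0 J) ?_
      · refine le_trans h1 ?_
        apply mul_le_mul_of_nonneg_left _ (by norm_num)
        apply Real.exp_le_exp.2
        rw [neg_le_neg_iff, le_div_iff₀ (by positivity)]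
        linarith
      · calc ∑ y ∈ nb J v, p * mG S s0 (fun q => G i σ J v q ^ 2) y
            ≤ ∑ y ∈ nb J v, p * (9 / 4 * τ ^ 2 * a * ∑ x, A J v x * μ y x) :=
              sum_le_sum (fun y _ => mul_le_mul_of_nonneg_left (hGsq i σ J v y a ha0 (ha v)) hS.hp0.le)
          _ ≤ ∑ y, p * (9 / 4 * τ ^ 2 * a * ∑ x, A J v x * μ y x) := by
              apply sum_le_sum_of_subset_of_nonneg (subset_univ _)
              intro y _ _
              have h2 : 0 ≤ ∑ x, A J v x * μ y x := by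
                have h3 := mG_sum S s0 (A J v) y
                have h4 : 0 ≤ mG S s0 (fun q => ∑ j, A J v (q j)) y := by
                  unfold mG
                  apply div_nonneg _ (Nat.cast_nonneg _)
                  exact sum_nonneg (fun θ _ => sum_nonneg (fun j _ => hS.hA0 J v _))
                rw [h3] at h4
                exact nonneg_of_mul_nonneg_right h4 hbR
              have := hS.hp0
              positivity
          _ = p * (9 / 4 * τ ^ 2 * a) * ∑ x, A J v x * ∑ y, μ y x := by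
              rw [← mul_sum, ← mul_sum, ← mul_assoc]
              congr 1
              rw [sum_comm]
              apply sum_congr rfl
              intro x _
              rw [mul_sum]
          _ = 9 / 4 * τ * a * (p * τ * R) := by
              have h2 : ∑ x, A J v x * ∑ y, μ y x = R := by
                rw [sum_congr rfl (fun x _ => by rw [hS.hR x]), ← sum_mul, hS.hA1, one_mul]
              rw [h2]; ring
          _ = 9 / 4 * a * m * τ := by rw [hS.hτ]; ring
          _ ≤ 9 / 4 * a * m * m := mul_le_mul_of_nonneg_left hS.hτm (by positivity)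
          _ = _ := by ring
      · have h2 := hS.hsJ J
        have h3 := hS.hsJ0 J
        have h4 := hS.hτm
        have h5 := hS.hτ0
        calc sJ J * (2 * (3 / 2 * τ * a)) ≤ (3 / 2 * m) * (2 * (3 / 2 * m * a)) := by
              apply mul_le_mul h2 _ (by positivity) (by positivity)
              apply mul_le_mul_of_nonneg_left _ (by norm_num)
              apply mul_le_mul_of_nonneg_right _ ha0.le
              linarith
          _ = 2 * (9 / 4 * a * m ^ 2) := by ring
    · have h4 : (0:ℝ) < 4 * Γ := by have := hS.hΓ; positivity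
      have := overflow (κs := κs) e act hp hS.hp0.le hS.hp1 (4 * Γ) h4 hS.hL σ y
      simp only [Ev, Sum.elim_inr]
      refine this.trans (le_of_eq ?_)
      congr 2
      ring
  have hN01 := hS.hN1
  obtain ⟨ω, hω1, hω2⟩ := lll_extra Ev (esupp e nb) hdep (2 * Real.exp (-Γ))
    (N0 * ((K + 1) * (2 * (K * D2 + 1)))) (by
      have : 0 < N0 * ((K + 1) * (2 * (K * D2 + 1))) := by positivity
      omega) hprob (by positivity) (by
      intro j
      refine (card_touch e nb D2 hS.hD2 (Tset nb j) (side j)).trans ?_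
      apply Nat.mul_le_mul_right
      rcases j with ⟨i, σ, J, v⟩ | ⟨σ, y⟩
      · exact hS.hN0 J v
      · simp only [Tset, Sum.elim_inr, card_singleton]; exact hS.hN1) (by
      have := hS.hlll
      linarith)
    (χ := χ) (fun c ω => ∑ y ∈ Mc c, Zf S e act s0 (fun q =>
      if Mx (Sc c) q then (1:ℝ) else 0) (ic c) (σc c) y ω <
        (Mc c).card * (p * π0 / 4))
    (fun c => (Mc c).biUnion (sy e (σc c))) (by
      intro c φ φ' h
      have h1 : ∀ y ∈ Mc c, Zf S e act s0 (fun q =>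
          if Mx (Sc c) q then (1:ℝ) else 0) (ic c) (σc c) y φ =
          Zf S e act s0 (fun q =>
          if Mx (Sc c) q then (1:ℝ) else 0) (ic c) (σc c) y φ' := by
        intro y hy
        apply Zf_dep S e act s0 _ (ic c) (σc c) y φ φ'
        intro w hw
        apply h
        rw [mem_biUnion]
        exact ⟨y, hy, hw⟩
      simp only
      rw [sum_congr rfl h1])
    (fun c => Real.exp (-((Mc c).card * (p * π0 / 8)))) (by
      intro c
      have h1 := extra S e act s0 hp hS.hp0.le (fun _ q => Mx (Sc c) q) (Mc c)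
        π0 ((Mc c).card * (p * π0 / 4)) (ic c) (σc c) (hπ c)
      refine h1.trans ?_
      rw [← Real.exp_add]
      set N := (univ.filter (fun j : EI X Y K J0 =>
        ¬ Disjoint ((Mc c).biUnion (sy e (σc c))) (esupp e nb j))).card with hN
      have hNle : (N : ℝ) ≤ (Mc c).card * (((K + 1) * (2 * (K * D2 + 1)) : ℕ) : ℝ) := by
        have := card_touch e nb D2 hS.hD2 (Mc c) (σc c)
        exact_mod_cast this
      have h2 : Real.exp (-(2 * (2 * (2 * Real.exp (-Γ))))) ≤ 1 - 2 * (2 * Real.exp (-Γ)) := by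
        set z := 2 * (2 * Real.exp (-Γ)) with hz
        have hz0 : 0 ≤ z := by positivity
        have hz1 : z ≤ 1 / 2 := by linarith
        have h3 : Real.exp (-(2 * z)) * (1 + 2 * z) ≤ 1 := by
          have := Real.add_one_le_exp (2 * z)
          calc Real.exp (-(2 * z)) * (1 + 2 * z) ≤ Real.exp (-(2 * z)) * Real.exp (2 * z) :=
                mul_le_mul_of_nonneg_left (by linarith) (Real.exp_pos _).le
            _ = 1 := by rw [← Real.exp_add]; simp
        have h4 := Real.exp_pos (-(2 * z))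
        have h5 : (1:ℝ) ≤ (1 - z) * (1 + 2 * z) := by nlinarith
        have h6 : Real.exp (-(2 * z)) * (1 + 2 * z) ≤ (1 - z) * (1 + 2 * z) := h3.trans h5
        exact le_of_mul_le_mul_right h6 (by linarith)
      have h3 : Real.exp (-(2 * (2 * (2 * Real.exp (-Γ))))) ^ N ≤
          (1 - 2 * (2 * Real.exp (-Γ))) ^ N := pow_le_pow_left₀ (Real.exp_pos _).le h2 N
      rw [← Real.exp_nat_mul] at h3
      calc Real.exp ((Mc c).card * (p * π0 / 4) + -((Mc c).card * (p * π0 / 2)))
          ≤ Real.exp (-((Mc c).card * (p * π0 / 8))) *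
            Real.exp (N * (-(2 * (2 * (2 * Real.exp (-Γ)))))) := by
            rw [← Real.exp_add]
            apply Real.exp_le_exp.2
            have h4 : (N : ℝ) * (8 * Real.exp (-Γ)) ≤ (Mc c).card * (p * π0 / 8) := by
              calc (N : ℝ) * (8 * Real.exp (-Γ)) ≤
                  ((Mc c).card * (((K + 1) * (2 * (K * D2 + 1)) : ℕ) : ℝ)) * (8 * Real.exp (-Γ)) :=
                    mul_le_mul_of_nonneg_right hNle (by positivity)
                _ = (Mc c).card * (8 * Real.exp (-Γ) * (((K + 1) * (2 * (K * D2 + 1)) : ℕ) : ℝ)) := by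
                    ring
                _ ≤ _ := mul_le_mul_of_nonneg_left hπ0 (Nat.cast_nonneg _)
            linarith
        _ ≤ _ := mul_le_mul_of_nonneg_left h3 (Real.exp_pos _).le) hsum
  -- no overflow
  have hno : ∀ σ y, nact e act σ y ω ≤ L := by
    intro σ y
    have := hω1 (Sum.inr (σ, y))
    simp only [Ev, Sum.elim_inr] at this
    omega
  have hdevω : ∀ i σ J v, |∑ y ∈ nb J v, (Zf S e act s0 (G i σ J v) i σ y ω -
        p * mG S s0 (G i σ J v) y)| ≤ sJ J := by
    intro i σ J v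
    have := hω1 (Sum.inl (i, σ, J, v))
    simp only [Ev, Sum.elim_inl] at this
    exact not_lt.1 this
  refine ⟨fun i σ x y => Zf S e act s0 (gg (ρ i σ) m τ x) i σ y ω,
    fun i y => act (ω (Sum.inl (i, y))).1, ⟨?_, ?_, ?_, ?_, ?_, ?_⟩, ?_⟩
  · intro i σ x y
    simp only [Zf]
    split_ifs
    · exact gg_nonneg hS.hm hS.hτ0.le (hρ i σ) _ _
    · exact le_rfl
  · intro i σ x y h
    simp only [Zf] at h
    split_ifs at h with h1
    · obtain ⟨j, hj⟩ := gg_ne_zero h
      rw [← hj]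
      exact S.mem _ _ _ _
    · exact absurd rfl h
  · intro i j σ x y hij h
    simp only [Zf] at h ⊢
    split_ifs at h with h1
    · split_ifs with h2
      · by_contra hcon
        obtain ⟨l, hl⟩ := gg_ne_zero h
        obtain ⟨l', hl'⟩ := gg_ne_zero hcon
        have := (S.inj y _ _ _ _ _ (hl.trans hl'.symm)).1
        exact slot_inj e act s0 ω σ y i j hij h1 h2 (hno σ y) this
      · rfl
    · exact absurd rfl h
  · intro i σ y
    constructor
    · intro hU
      simp only [Zf]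
      simp only [if_pos hU]
      exact sum_gg_one _ _ _ _ hS.hb
    · intro hU
      simp only [Zf]
      simp only [if_neg hU]
      simp
  · intro i σ J v
    have h1 : ∑ x, A J v x * (∑ y, Zf S e act s0 (gg (ρ i σ) m τ x) i σ y ω -
        (m - ρ i σ x + ∑ x', PK S s0 R x x' * ρ i σ x')) =
        ∑ y ∈ nb J v, (Zf S e act s0 (G i σ J v) i σ y ω - p * mG S s0 (G i σ J v) y) := by
      have h2 := sum_mG_GA S s0 hS.hb hS.hR0 hS.hm hS.hR hS.hτ (A J v) (ρ i σ)
      have h3 : ∀ y, ∑ x, A J v x * Zf S e act s0 (gg (ρ i σ) m τ x) i σ y ω =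
          Zf S e act s0 (G i σ J v) i σ y ω := by
        intro y
        simp only [Zf, hG]
        split_ifs
        · exact sum_gg _ _ _ _ _
        · simp
      calc ∑ x, A J v x * (∑ y, Zf S e act s0 (gg (ρ i σ) m τ x) i σ y ω -
        (m - ρ i σ x + ∑ x', PK S s0 R x x' * ρ i σ x'))
          = ∑ x, A J v x * ∑ y, Zf S e act s0 (gg (ρ i σ) m τ x) i σ y ω -
            ∑ x, A J v x * (m - ρ i σ x + ∑ x', PK S s0 R x x' * ρ i σ x') := by
            rw [← sum_sub_distrib]
            exact sum_congr rfl (fun x _ => by ring)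
        _ = ∑ y, Zf S e act s0 (G i σ J v) i σ y ω - ∑ y, p * mG S s0 (G i σ J v) y := by
            rw [← h2]
            congr 1
            rw [← sum_congr rfl (fun y _ => h3 y), sum_comm]
            apply sum_congr rfl
            intro x _
            rw [mul_sum]
        _ = ∑ y, (Zf S e act s0 (G i σ J v) i σ y ω - p * mG S s0 (G i σ J v) y) := by
            rw [sum_sub_distrib]
        _ = _ := by
            symm
            apply sum_subset (subset_univ _)
            intro y _ hy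
            have h4 : Zf S e act s0 (G i σ J v) i σ y ω = 0 := by
              simp only [Zf]
              split_ifs
              · exact hG0 i σ J v y _ _ hy
              · rfl
            have h5 : mG S s0 (G i σ J v) y = 0 := by
              unfold mG
              rw [sum_eq_zero, zero_div]
              intro θ _
              exact hG0 i σ J v y _ _ hy
            rw [h4, h5]; ring
    rw [h1]
    exact hdevω i σ J v
  · intro i σ x y h0 h
    simp only [Zf] at h ⊢
    split_ifs at h ⊢ with h1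
    · exact gg_zero (hsinj _ _ _) h0 h
    · exact absurd rfl h
  · intro c
    have h1 := hω2 c
    rw [not_lt] at h1
    refine h1.trans ?_
    rw [card_filter]
    push_cast
    apply sum_le_sum
    intro y _
    simp only [Zf]
    by_cases h2 : act (ω (Sum.inl (ic c, (e (ic c) (σc c)).symm y))).1
    · simp only [if_pos h2]
      split_ifs with h3 h4 h4
      · exact le_rfl
      · exfalso
        apply h4
        obtain ⟨⟨j, hj⟩, ⟨j', hj'⟩⟩ := h3
        refine ⟨⟨_, hj, ?_⟩, ⟨_, hj', ?_⟩⟩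
        · exact (gg_pos hS.hm hS.hτ0 (hρ _ _) ⟨j, rfl⟩).ne'
        · exact (gg_pos hS.hm hS.hτ0 (hρ _ _) ⟨j', rfl⟩).ne'
      · norm_num
      · exact le_rfl
    · simp only [if_neg h2]
      split_ifs <;> norm_num

end Stage

end Pool.MP_0ccee8_co.Lib2
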