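import Mathlib
import Pool.Agent.Lib.MP_0ccee8_co.Inner
import Pool.Agent.Lib.MP_0ccee8_co2.Expand
import Pool.Agent.Lib.MP_0ccee8_co2.Stage3

/-! Samplers and kernels coming from the pools. -/

set_option autoImplicit false
set_option linter.unusedSectionVars false

namespace Pool.MP_0ccee8_co.Lib2

open Finset
open Pool.MP_0ccee8_co.Lib (Lev Q mem_Q NF wt wt_nonneg wt_pos wt_row wt_col)

variable {n k m : ℕ}

/-- marginals -/
noncomputable def mu (w : Finset (Fin n) → Fin n → ℝ) (y : Lev n (k + 1)) (x : Lev n k) : ℝ :=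
  wt n k w x y / ((k : ℝ) + 1)

theorem wt_eq (w : Finset (Fin n) → Fin n → ℝ) {x : Lev n k} {y : Lev n (k + 1)} {a : Fin n}
    (ha : a ∉ x.1) (hy : insert a x.1 = y.1) : wt n k w x y = w x.1 a := by
  unfold wt
  rw [sum_eq_single a]
  · rw [if_pos ⟨ha, hy⟩]
  · intro b _ hb
    rw [if_neg]
    rintro ⟨h1, h2⟩
    rw [← hy] at h2
    have : b ∈ insert a x.1 := h2 ▸ mem_insert_self _ _
    rcases mem_insert.1 this with h | h
    · exact hb h
    · exact h1 h
  · intro h; exact absurd (mem_univ _) h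

theorem wt_zero (w : Finset (Fin n) → Fin n → ℝ) {x : Lev n k} {y : Lev n (k + 1)}
    (h : ¬ ∃ a, a ∉ x.1 ∧ insert a x.1 = y.1) : wt n k w x y = 0 := by
  unfold wt
  apply sum_eq_zero
  intro a _
  rw [if_neg]
  rintro ⟨h1, h2⟩
  exact h ⟨a, h1, h2⟩

section

variable {H : Fin m → (Finset (Fin n) × Fin n) → Prop} {w : Fin m → Finset (Fin n) → Fin n → ℝ}

theorem PoolSys.w_nonneg (hP : PoolSys n k m H w) (q : Fin m) (v : Finset (Fin n)) (x : Fin n)
    (hv : v.card = k) (hx : x ∉ v) : 0 ≤ w q v x ∧ w q v x ≤ 2 * m := by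
  by_cases h : H q (v, x)
  · have := hP.inn q v x hv hx h
    have h2 : (0:ℝ) ≤ m := Nat.cast_nonneg _
    constructor <;> linarith [this.1, this.2]
  · rw [hP.out q v x hv hx h]
    have h2 : (0:ℝ) ≤ m := Nat.cast_nonneg _
    constructor <;> linarith

theorem PoolSys.nf (hP : PoolSys n k m H w) (q : Fin m) : NF n k (w q) :=
  ⟨fun v x hv hx => (hP.w_nonneg q v x hv hx).1, fun v hv => hP.row q v hv, fun y hy => hP.col q y hy⟩

theorem PoolSys.wt_bd (hP : PoolSys n k m H w) (q : Fin m) (x : Lev n k) (y : Lev n (k + 1)) :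
    0 ≤ wt n k (w q) x y ∧ wt n k (w q) x y ≤ 2 * m := by
  by_cases h : ∃ a, a ∉ x.1 ∧ insert a x.1 = y.1
  · obtain ⟨a, ha, hy⟩ := h
    rw [wt_eq (w q) ha hy]
    exact hP.w_nonneg q x.1 a x.2 ha
  · rw [wt_zero (w q) h]
    have h2 : (0:ℝ) ≤ m := Nat.cast_nonneg _
    constructor <;> linarith

theorem PoolSys.wt_rat (hP : PoolSys n k m H w) (q : Fin m) (x : Lev n k) (y : Lev n (k + 1)) :
    ∃ r : ℚ, wt n k (w q) x y = r := by
  by_cases h : ∃ a, a ∉ x.1 ∧ insert a x.1 = y.1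
  · obtain ⟨a, ha, hy⟩ := h
    rw [wt_eq (w q) ha hy]
    exact hP.rat q x.1 a
  · rw [wt_zero (w q) h]
    exact ⟨0, by simp⟩

theorem PoolSys.mu_pad (hP : PoolSys n k m H w) (q : Fin m) (x : Lev n k) (y : Lev n (k + 1))
    (h : 0 < mu (w q) y x) : pad (H q) x y := by
  have hk : (0:ℝ) < (k : ℝ) + 1 := by positivity
  unfold mu at h
  have h1 : 0 < wt n k (w q) x y := by
    by_contra hcon
    push Not at hcon
    have := div_nonpos_of_nonpos_of_nonneg hcon hk.le
    linarith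
  obtain ⟨a, ha, hy, hw⟩ := wt_pos x y h1
  refine ⟨a, ha, hy, ?_⟩
  by_contra hcon
  rw [hP.out q x.1 a x.2 ha hcon] at hw
  exact lt_irrefl _ hw

theorem PoolSys.pad_mu (hP : PoolSys n k m H w) (q : Fin m) (x : Lev n k) (y : Lev n (k + 1))
    (h : pad (H q) x y) : (m : ℝ) / 2 / ((k : ℝ) + 1) ≤ mu (w q) y x := by
  obtain ⟨a, ha, hy, hH⟩ := h
  unfold mu
  rw [wt_eq (w q) ha hy]
  apply div_le_div_of_nonneg_right _ (by positivity)
  exact (hP.inn q x.1 a x.2 ha hH).1

theorem PoolSys.mu_nonneg (hP : PoolSys n k m H w) (q : Fin m) (x : Lev n k) (y : Lev n (k + 1)) :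
    0 ≤ mu (w q) y x := by
  unfold mu
  exact div_nonneg (hP.wt_bd q x y).1 (by positivity)

theorem PoolSys.mu_le (hP : PoolSys n k m H w) (q : Fin m) (x : Lev n k) (y : Lev n (k + 1)) :
    mu (w q) y x ≤ 2 * m / ((k : ℝ) + 1) := by
  unfold mu
  exact div_le_div_of_nonneg_right (hP.wt_bd q x y).2 (by positivity)

theorem PoolSys.mu_row (hP : PoolSys n k m H w) (q : Fin m) (x : Lev n k) :
    ∑ y, mu (w q) y x = ((n : ℝ) - k) / ((k : ℝ) + 1) := by
  unfold mu
  rw [← sum_div, wt_row (hP.nf q)]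

theorem PoolSys.mu_col (hP : PoolSys n k m H w) (q : Fin m) (y : Lev n (k + 1)) :
    ∑ x, mu (w q) y x = 1 := by
  unfold mu
  rw [← sum_div, wt_col (hP.nf q), div_self (by positivity)]

theorem pad_sub {H : (Finset (Fin n) × Fin n) → Prop} {x : Lev n k} {y : Lev n (k + 1)}
    (h : pad H x y) : x.1 ⊆ y.1 := by
  obtain ⟨a, _, hy, _⟩ := h
  rw [← hy]; exact subset_insert _ _

theorem PoolSys.pad_disj (hP : PoolSys n k m H w) {q q' : Fin m} (hne : q ≠ q') {x : Lev n k}
    {y : Lev n (k + 1)} (h : pad (H q) x y) (h' : pad (H q') x y) : False := by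
  obtain ⟨a, ha, hy, hH⟩ := h
  obtain ⟨a', ha', hy', hH'⟩ := h'
  have : a = a' := by
    have h1 : a ∈ insert a' x.1 := by rw [hy', ← hy]; exact mem_insert_self _ _
    rcases mem_insert.1 h1 with h | h
    · exact h
    · exact absurd h ha
  subst this
  exact hP.disj q q' _ hne hH hH'

end

theorem common_den {α : Type*} [Fintype α] (f : α → ℝ) (hf : ∀ a, ∃ r : ℚ, f a = r)
    (hf0 : ∀ a, 0 ≤ f a) : ∃ M : ℕ, 0 < M ∧ ∀ a, ∃ z : ℕ, f a * M = z := by
  classical
  choose r hr using hf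
  refine ⟨∏ a, (r a).den, prod_pos (fun a _ => (r a).pos), ?_⟩
  intro a
  obtain ⟨c, hc⟩ : (r a).den ∣ ∏ a, (r a).den := dvd_prod_of_mem _ (mem_univ a)
  have h0 : 0 ≤ (r a).num := by
    have := hf0 a
    rw [hr a] at this
    have h1 : (0:ℚ) ≤ r a := by exact_mod_cast this
    exact Rat.num_nonneg.2 h1
  refine ⟨(r a).num.toNat * c, ?_⟩
  rw [hc, hr a]
  have h2 : ((r a : ℚ) : ℝ) * ((r a).den : ℝ) = ((r a).num : ℝ) := by
    have := Rat.mul_den_eq_num (r a)
    exact_mod_cast this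
  have h3 : (((r a).num.toNat : ℕ) : ℝ) = ((r a).num : ℝ) := by
    have := Int.toNat_of_nonneg h0
    exact_mod_cast this
  push_cast
  rw [h3, ← h2]
  ring

theorem pool_sampler {H : Fin m → (Finset (Fin n) × Fin n) → Prop}
    {w : Fin m → Finset (Fin n) → Fin n → ℝ} (hP : PoolSys n k m H w) (q : Fin m) {L b : ℕ}
    (hL : 1 ≤ L) (hb : 1 ≤ b) (hLb : 2 * m * (L * b) ≤ k + 1) :
    ∃ N : ℕ, ∃ _ : NeZero N,
      Nonempty (Sampler (Lev n k) (Lev n (k + 1)) (ZMod N) L b (mu (w q))) := by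
  classical
  obtain ⟨M0, hM0, hM⟩ := common_den (fun p : Lev n k × Lev n (k + 1) => wt n k (w q) p.1 p.2)
    (fun p => hP.wt_rat q p.1 p.2) (fun p => (hP.wt_bd q p.1 p.2).1)
  choose W0 hW0 using hM
  have hM0R : (0:ℝ) < M0 := by exact_mod_cast hM0
  have hN : NeZero (L * b * (M0 * (k + 1))) := ⟨by positivity⟩
  refine ⟨L * b * (M0 * (k + 1)), hN, ?_⟩
  have h := sampler_one (X := Lev n k) (Y := Lev n (k + 1)) L b (M0 * (k + 1))
    (fun y x => L * b * W0 (x, y)) (by
      intro y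
      rw [← mul_sum]
      congr 1
      have h1 : ((∑ x : Lev n k, W0 (x, y) : ℕ) : ℝ) = ((M0 * (k + 1) : ℕ) : ℝ) := by
        push_cast
        have h2 : ∀ x : Lev n k, (W0 (x, y) : ℝ) = wt n k (w q) x y * M0 := fun x => (hW0 (x, y)).symm
        rw [sum_congr rfl (fun x _ => h2 x), ← sum_mul, wt_col (hP.nf q)]
        ring
      exact_mod_cast h1) (by
      intro y x
      have h1 : ((L * b * W0 (x, y) : ℕ) : ℝ) ≤ ((M0 * (k + 1) : ℕ) : ℝ) := by
        push_cast
        rw [← hW0 (x, y)]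
        have h2 := (hP.wt_bd q x y).2
        have h3 : ((2 * m * (L * b) : ℕ) : ℝ) ≤ ((k + 1 : ℕ) : ℝ) := by exact_mod_cast hLb
        push_cast at h3
        calc (L : ℝ) * b * (wt n k (w q) x y * M0) = (L * b * wt n k (w q) x y) * M0 := by ring
          _ ≤ (L * b * (2 * m)) * M0 := by
              apply mul_le_mul_of_nonneg_right _ hM0R.le
              exact mul_le_mul_of_nonneg_left h2 (by positivity)
          _ ≤ (k + 1) * M0 := by
              apply mul_le_mul_of_nonneg_right _ hM0R.le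
              linarith
          _ = _ := by ring
      exact_mod_cast h1)
  have hμ : (fun (y : Lev n (k + 1)) (x : Lev n k) => (((L * b * W0 (x, y) : ℕ) : ℝ)) /
      ((L * b * (M0 * (k + 1)) : ℕ) : ℝ)) = mu (w q) := by
    funext y x
    unfold mu
    have hLR : (0:ℝ) < L := by exact_mod_cast hL
    have hbR : (0:ℝ) < b := by exact_mod_cast hb
    push_cast
    rw [← hW0 (x, y)]
    simp only
    field_simp
  rw [hμ] at h
  exact h

section Kernel

variable {κs : Type*} [Fintype κs] [Nonempty κs] {L b : ℕ} {μ : Lev n (k + 1) → Lev n k → ℝ}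
  (S : Sampler (Lev n k) (Lev n (k + 1)) κs L b μ) (s0 : Fin L)

theorem mG_ind (x : Lev n k) (y : Lev n (k + 1)) :
    mG S s0 (fun q => ∑ j, (if q j = x then (1:ℝ) else 0)) y = b * μ y x := by
  have := mG_sum S s0 (fun z => if z = x then (1:ℝ) else 0) y
  rw [this]
  simp

theorem sum_ind_le {q : Fin b → Lev n k} (hq : Function.Injective q) (x : Lev n k) :
    ∑ j, (if q j = x then (1:ℝ) else 0) ≤ 1 := by
  rw [sum_boole]
  have : (univ.filter (fun j => q j = x)).card ≤ 1 := by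
    rw [card_le_one]
    intro j hj j' hj'
    rw [mem_filter] at hj hj'
    exact hq (hj.2.trans hj'.2.symm)
  exact_mod_cast this

theorem PK_Ker {R c : ℝ} (hb : 0 < b) (hkn : k < n) (hR : R = ((n : ℝ) - k) / ((k : ℝ) + 1))
    (hrow : ∀ x, ∑ y, μ y x = R) (hsub : ∀ y x, 0 < μ y x → x.1 ⊆ y.1)
    (hub : ∀ y x, μ y x ≤ c / ((k : ℝ) + 1)) (hc : 0 ≤ c) : Ker (PK S s0 R) c b := by
  classical
  have hbR : (0:ℝ) < b := by exact_mod_cast hb
  have hk : (0:ℝ) < (k : ℝ) + 1 := by positivity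
  have hD : (0:ℝ) < (n : ℝ) - k := by
    have : (k : ℝ) < n := by exact_mod_cast hkn
    linarith
  have hR0 : 0 < R := by rw [hR]; positivity
  have hinj : ∀ y θ t, Function.Injective (S.pt y θ t) := fun y θ t j j' h => (S.inj y θ t t j j' h).2
  have hprod : ∀ (q : Fin b → Lev n k) (x x' : Lev n k), (∑ j, ∑ j', (if q j = x then (1:ℝ) else 0) *
      (if q j' = x' then (1:ℝ) else 0)) = (∑ j, (if q j = x then (1:ℝ) else 0)) *
        ∑ j', (if q j' = x' then (1:ℝ) else 0) := by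
    intro q x x'
    rw [sum_mul_sum]
  have hs0 : ∀ (q : Fin b → Lev n k) (x : Lev n k), 0 ≤ ∑ j, (if q j = x then (1:ℝ) else 0) :=
    fun q x => sum_nonneg (fun j _ => by split_ifs <;> norm_num)
  have hterm0 : ∀ x x' y, 0 ≤ mG S s0 (fun q => (∑ j, ∑ j', (if q j = x then (1:ℝ) else 0) *
      (if q j' = x' then (1:ℝ) else 0)) / (b : ℝ) ^ 2) y := by
    intro x x' y
    unfold mG
    apply div_nonneg _ (Nat.cast_nonneg _)
    apply sum_nonneg
    intro θ _
    beta_reduce
    rw [hprod]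
    exact div_nonneg (mul_nonneg (hs0 _ _) (hs0 _ _)) (by positivity)
  have hbound : ∀ x x' y, mG S s0 (fun q => (∑ j, ∑ j', (if q j = x then (1:ℝ) else 0) *
      (if q j' = x' then (1:ℝ) else 0)) / (b : ℝ) ^ 2) y ≤ μ y x / b := by
    intro x x' y
    have h1 : mG S s0 (fun q => (∑ j, ∑ j', (if q j = x then (1:ℝ) else 0) *
      (if q j' = x' then (1:ℝ) else 0)) / (b : ℝ) ^ 2) y ≤
        mG S s0 (fun q => (1 / (b : ℝ) ^ 2) * ∑ j, (if q j = x then (1:ℝ) else 0)) y := by
      apply mG_mono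
      intro θ
      rw [hprod, div_eq_mul_one_div, mul_comm]
      apply mul_le_mul_of_nonneg_left _ (by positivity)
      calc _ ≤ (∑ j, (if S.pt y θ s0 j = x then (1:ℝ) else 0)) * 1 :=
            mul_le_mul_of_nonneg_left (sum_ind_le (hinj y θ s0) x') (hs0 _ _)
        _ = _ := mul_one _
    refine h1.trans (le_of_eq ?_)
    rw [mG_mul, mG_ind]
    field_simp
  have hvan : ∀ x x' y, mG S s0 (fun q => (∑ j, ∑ j', (if q j = x then (1:ℝ) else 0) *
      (if q j' = x' then (1:ℝ) else 0)) / (b : ℝ) ^ 2) y ≠ 0 → x.1 ⊆ y.1 ∧ x'.1 ⊆ y.1 := by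
    intro x x' y h
    by_contra hcon
    apply h
    unfold mG
    rw [sum_eq_zero, zero_div]
    intro θ _
    beta_reduce
    rw [hprod]
    rw [not_and_or] at hcon
    rcases hcon with hcon | hcon
    · rw [sum_eq_zero, zero_mul, zero_div]
      intro j _
      rw [if_neg]
      intro h
      exact hcon (hsub _ _ (h ▸ S.mem y θ s0 j))
    · rw [sum_eq_zero (f := fun j' => if S.pt y θ s0 j' = x' then (1:ℝ) else 0), mul_zero, zero_div]
      intro j _
      rw [if_neg]
      intro h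
      exact hcon (hsub _ _ (h ▸ S.mem y θ s0 j))
  refine ⟨?_, ?_, ?_, ?_, ?_⟩
  · intro x x'
    unfold PK
    exact mul_nonneg (by positivity) (sum_nonneg (fun y _ => hterm0 x x' y))
  · intro x
    unfold PK
    rw [← mul_sum, sum_comm]
    have h1 : ∀ y, ∑ x', mG S s0 (fun q => (∑ j, ∑ j', (if q j = x then (1:ℝ) else 0) *
      (if q j' = x' then (1:ℝ) else 0)) / (b : ℝ) ^ 2) y = μ y x := by
      intro y
      rw [← mG_fsum]
      have h2 : ∀ q : Fin b → Lev n k, ∑ x', (∑ j, ∑ j', (if q j = x then (1:ℝ) else 0) *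
          (if q j' = x' then (1:ℝ) else 0)) / (b : ℝ) ^ 2 =
          (1 / (b : ℝ)) * ∑ j, (if q j = x then (1:ℝ) else 0) := by
        intro q
        simp only [hprod]
        rw [← sum_div, ← mul_sum]
        have h3 : ∑ x', ∑ j', (if q j' = x' then (1:ℝ) else 0) = b := by
          rw [sum_comm]
          simp
        rw [h3]
        field_simp
      rw [mG_congr S s0 h2, mG_mul, mG_ind]
      field_simp
    rw [sum_congr rfl (fun y _ => h1 y), hrow]
    field_simp
  · intro x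
    unfold PK
    calc (1 / R) * ∑ y, _ ≤ (1 / R) * ∑ y, μ y x / b :=
          mul_le_mul_of_nonneg_left (sum_le_sum (fun y _ => hbound x x y)) (by positivity)
      _ = 1 / b := by
          rw [← sum_div, hrow]
          field_simp
  · intro x x' hne
    unfold PK
    have h1 : ∀ y, mG S s0 (fun q => (∑ j, ∑ j', (if q j = x then (1:ℝ) else 0) *
      (if q j' = x' then (1:ℝ) else 0)) / (b : ℝ) ^ 2) y ≤
        if x.1 ∪ x'.1 = y.1 then c / ((k : ℝ) + 1) / b else 0 := by
      intro y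
      split_ifs with h
      · exact (hbound x x' y).trans (div_le_div_of_nonneg_right (hub y x) hbR.le)
      · by_contra hcon
        push Not at hcon
        obtain ⟨h2, h3⟩ := hvan x x' y hcon.ne'
        apply h
        apply eq_of_subset_of_card_le (union_subset h2 h3)
        rw [y.2]
        by_contra hlt
        push Not at hlt
        have h4 : (x.1 ∪ x'.1).card ≤ k := by omega
        have h5 : x.1 = x.1 ∪ x'.1 := eq_of_subset_of_card_le subset_union_left (by rw [x.2]; exact h4)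
        have h6 : x'.1 = x.1 ∪ x'.1 := eq_of_subset_of_card_le subset_union_right (by rw [x'.2]; exact h4)
        exact hne (Subtype.ext (h5.trans h6.symm))
    have h2 : ∑ y : Lev n (k + 1), (if x.1 ∪ x'.1 = y.1 then c / ((k : ℝ) + 1) / b else 0) ≤
        c / ((k : ℝ) + 1) / b := by
      rw [← sum_filter, sum_const, nsmul_eq_mul]
      have h3 : (univ.filter (fun y : Lev n (k + 1) => x.1 ∪ x'.1 = y.1)).card ≤ 1 := by
        rw [card_le_one]
        intro y hy y' hy'
        rw [mem_filter] at hy hy'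
        exact Subtype.ext (hy.2.symm.trans hy'.2)
      have h4 : ((univ.filter (fun y : Lev n (k + 1) => x.1 ∪ x'.1 = y.1)).card : ℝ) ≤ 1 := by
        exact_mod_cast h3
      have h5 : 0 ≤ c / ((k : ℝ) + 1) / b := by positivity
      nlinarith
    calc (1 / R) * ∑ y, _ ≤ (1 / R) * (c / ((k : ℝ) + 1) / b) :=
          mul_le_mul_of_nonneg_left ((sum_le_sum (fun y _ => h1 y)).trans h2) (by positivity)
      _ = c / (((n : ℝ) - k) * b) := by
          rw [hR]
          field_simp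
  · intro x x' h
    unfold PK at h
    obtain ⟨y, _, hy⟩ := exists_ne_zero_of_sum_ne_zero (right_ne_zero_of_mul h)
    obtain ⟨h1, h2⟩ := hvan x x' y hy
    unfold dis
    calc (x.1 \ x'.1).card ≤ (y.1 \ x'.1).card := card_le_card (sdiff_subset_sdiff h1 (Subset.refl _))
      _ = 1 := by rw [card_sdiff_of_subset h2, y.2, x'.2]; omega

end Kernel

end Pool.MP_0ccee8_co.Lib2
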