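import Mathlib
import Pool.Agent.Lib.MP_0ccee8_co2.Level1
import Pool.Agent.Lib.MP_0ccee8_co2.Hall

/-! Products of kernels, neighbourhoods, and the data of a stage. -/

set_option autoImplicit false
set_option linter.unusedSectionVars false

namespace Pool.MP_0ccee8_co.Lib2

open Finset
open Pool.MP_0ccee8_co.Lib (Lev Q mem_Q NF wt wt_nonneg wt_pos wt_row wt_col)

variable {n k m : ℕ}

open Classical in
/-- Products of kernels. -/
noncomputable def Ak (P : ℕ → Lev n k → Lev n k → ℝ) (q : ℕ) : ℕ → Lev n k → Lev n k → ℝ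
  | 0 => fun v z => if v = z then 1 else 0
  | J + 1 => fun v u => ∑ z, P (q + J + 1) v z * Ak P q J z u

theorem Ak_KB {P : ℕ → Lev n k → Lev n k → ℝ} {C b Λ : ℝ} (hP : ∀ q, Ker (P q) C b)
    (hb : 1 ≤ b) (hbD : b ≤ (n : ℝ) - k) (hn : (n : ℝ) ≤ 2 * ((n : ℝ) - k)) (hC : 0 ≤ C) (Jm : ℕ)
    (hΛ : 2 + C * ((Jm : ℝ) ^ 2 + 4 * Jm) ≤ Λ) (q J : ℕ) (hJ : J ≤ Jm) : KB (Ak P q J) Λ b J := by
  induction J with
  | zero => exact KB.one
  | succ J ih =>
    refine KB.step (hP (q + J + 1)) (ih (by omega)) hb hbD hn hC ?_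
    refine le_trans ?_ hΛ
    have h1 : (J : ℝ) + 1 ≤ Jm := by exact_mod_cast hJ
    have h0 : (0:ℝ) ≤ J := Nat.cast_nonneg _
    have h2 : ((J : ℝ) + 1) ^ 2 ≤ (Jm : ℝ) ^ 2 := pow_le_pow_left₀ (by linarith) h1 2
    have h3 := mul_le_mul_of_nonneg_left (add_le_add h2 (mul_le_mul_of_nonneg_left h1 (by norm_num : (0:ℝ) ≤ 4))) hC
    linarith

theorem Ak_succ (P : ℕ → Lev n k → Lev n k → ℝ) (q J : ℕ) (v u : Lev n k) :
    ∑ z, Ak P (q + 1) J v z * P (q + 1) z u = Ak P q (J + 1) v u := by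
  classical
  induction J generalizing v u with
  | zero =>
    simp only [Ak]
    simp
  | succ J ih =>
    have h1 : ∀ z, Ak P (q + 1) (J + 1) v z = ∑ z', P (q + 1 + J + 1) v z' * Ak P (q + 1) J z' z :=
      fun z => rfl
    have h2 : Ak P q (J + 1 + 1) v u = ∑ z', P (q + (J + 1) + 1) v z' * Ak P q (J + 1) z' u := rfl
    have h3 : q + 1 + J + 1 = q + (J + 1) + 1 := by omega
    rw [h2]
    simp only [h1, h3]
    simp_rw [sum_mul]
    rw [sum_comm]
    apply sum_congr rfl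
    intro z' _
    rw [← ih, mul_sum]
    apply sum_congr rfl
    intro z _
    ring

theorem card_small (a : ℕ) :
    (univ.filter (fun A : Finset (Fin n) => A.card ≤ a)).card ≤ (n + 1) ^ a := by
  classical
  have h1 : univ.filter (fun A : Finset (Fin n) => A.card ≤ a) ⊆
      (univ : Finset (Fin a → Option (Fin n))).image
        (fun g => univ.filter (fun x => ∃ i, g i = some x)) := by
    intro A hA
    rw [mem_filter] at hA
    rw [mem_image]
    refine ⟨fun i => if h : i.1 < A.card then some (A.equivFin.symm ⟨i.1, h⟩).1 else none,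
      mem_univ _, ?_⟩
    ext x
    simp only [mem_filter, mem_univ, true_and]
    constructor
    · rintro ⟨i, hi⟩
      split_ifs at hi with h
      simp only [Option.some.injEq] at hi
      rw [← hi]
      exact (A.equivFin.symm ⟨i.1, h⟩).2
    · intro hx
      have h2 := (A.equivFin ⟨x, hx⟩).2
      refine ⟨⟨(A.equivFin ⟨x, hx⟩).1, by omega⟩, ?_⟩
      simp only [h2, dif_pos, Fin.eta, Equiv.symm_apply_apply]
  refine (card_le_card h1).trans (card_image_le.trans ?_)
  rw [card_univ, Fintype.card_fun, Fintype.card_option, Fintype.card_fin, Fintype.card_fin]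

theorem card_ball (v : Finset (Fin n)) (a c : ℕ) (S : Finset (Finset (Fin n)))
    (h : ∀ w ∈ S, (v \ w).card ≤ a ∧ (w \ v).card ≤ c) : S.card ≤ (n + 1) ^ a * (n + 1) ^ c := by
  classical
  have h1 : S.card ≤ ((univ.filter (fun A : Finset (Fin n) => A.card ≤ a)) ×ˢ
      (univ.filter (fun A : Finset (Fin n) => A.card ≤ c))).card := by
    apply card_le_card_of_injOn (fun w => (v \ w, w \ v))
    · intro w hw
      have := h w hw
      simp only [coe_product, Set.mem_prod, coe_filter, mem_univ, true_and, Set.mem_setOf_eq]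
      exact this
    · intro w _ w' _ hww
      simp only [Prod.mk.injEq] at hww
      have e1 : ∀ w : Finset (Fin n), (v \ (v \ w)) ∪ (w \ v) = w := by
        intro w
        ext x
        simp only [mem_union, mem_sdiff]
        tauto
      rw [← e1 w, ← e1 w', hww.1, hww.2]
  refine h1.trans ?_
  rw [card_product]
  exact Nat.mul_le_mul (card_small a) (card_small c)

/-- Neighbourhoods. -/
def nbJ (J : ℕ) (v : Lev n k) : Finset (Lev n (k + 1)) :=
  univ.filter (fun y => (v.1 \ y.1).card ≤ J)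

theorem sdiff_card (v : Lev n k) (y : Lev n (k + 1)) : (y.1 \ v.1).card = (v.1 \ y.1).card + 1 := by
  have h1 := card_sdiff_add_card_inter v.1 y.1
  have h2 := card_sdiff_add_card_inter y.1 v.1
  rw [inter_comm, v.2] at h1
  rw [y.2] at h2
  omega

theorem card_nbJ {J Q : ℕ} (hJ : J ≤ Q) (v : Lev n k) : (nbJ J v).card ≤ (n + 1) ^ (2 * Q + 1) := by
  unfold nbJ
  rw [← card_map (Function.Embedding.subtype _)]
  have h := card_ball v.1 J (J + 1) ((univ.filter (fun y : Lev n (k + 1) =>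
    (v.1 \ y.1).card ≤ J)).map (Function.Embedding.subtype _)) (by
    intro w hw
    rw [mem_map] at hw
    obtain ⟨y, hy, rfl⟩ := hw
    rw [mem_filter] at hy
    simp only [Function.Embedding.subtype_apply]
    exact ⟨hy.2, by rw [sdiff_card]; omega⟩)
  refine h.trans ?_
  rw [← pow_add]
  exact Nat.pow_le_pow_right (by omega) (by omega)

theorem card_nbJ' {Q : ℕ} (y : Lev n (k + 1)) :
    (univ.filter (fun t : Fin (Q + 1) × Lev n k => y ∈ nbJ t.1.1 t.2)).card ≤
      (Q + 1) * (n + 1) ^ (2 * Q + 1) := by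
  classical
  have h0 : (univ.filter (fun v : Lev n k => (v.1 \ y.1).card ≤ Q)).card ≤ (n + 1) ^ (2 * Q + 1) := by
    rw [← card_map (Function.Embedding.subtype _)]
    have h := card_ball y.1 (Q + 1) Q ((univ.filter (fun v : Lev n k =>
      (v.1 \ y.1).card ≤ Q)).map (Function.Embedding.subtype _)) (by
      intro w hw
      rw [mem_map] at hw
      obtain ⟨v, hv, rfl⟩ := hw
      rw [mem_filter] at hv
      simp only [Function.Embedding.subtype_apply]
      exact ⟨by rw [sdiff_card]; omega, hv.2⟩)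
    refine h.trans ?_
    rw [← pow_add]
    exact Nat.pow_le_pow_right (by omega) (by omega)
  have h1 : univ.filter (fun t : Fin (Q + 1) × Lev n k => y ∈ nbJ t.1.1 t.2) ⊆
      (univ : Finset (Fin (Q + 1))) ×ˢ (univ.filter (fun v : Lev n k => (v.1 \ y.1).card ≤ Q)) := by
    intro t ht
    rw [mem_filter] at ht
    rw [mem_product, mem_filter]
    refine ⟨mem_univ _, mem_univ _, ?_⟩
    have := ht.2
    unfold nbJ at this
    rw [mem_filter] at this
    have h2 := t.1.2
    omega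
  refine (card_le_card h1).trans ?_
  rw [card_product, card_univ, Fintype.card_fin]
  exact Nat.mul_le_mul_left _ h0

theorem mkSD {K L b b0 Q : ℕ} {μ : Lev n (k + 1) → Lev n k → ℝ} {p R ms τ Γ Λ η : ℝ}
    {A : Fin (Q + 1) → Lev n k → Lev n k → ℝ}
    (hAK : ∀ J : Fin (Q + 1), KB (A J) Λ b0 J.1) (hb0 : 1 ≤ b0) (hbb : b0 ≤ b) (hD : 1 ≤ (n : ℝ) - k)
    (hp0 : 0 < p) (hp1 : p ≤ 1) (hL : 2 * (p * K) + 4 * Γ ≤ L) (hms : 0 < ms)
    (hτ : p * τ * R = ms) (hτm : τ ≤ ms) (hR0 : 0 < R) (hR : ∀ x, ∑ y, μ y x = R)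
    (hsub : ∀ y x, 0 < μ y x → x.1 ⊆ y.1) (hΓ : 1 ≤ Γ) (hη0 : 0 < η) (hη1 : η ≤ 1)
    (hΛ0 : 0 < Λ) (hΛ : Λ * η ≤ 1) (hb0n : 9 * Γ ≤ b0 * η ^ 4)
    (hlll : 8 * Real.exp (-Γ) * (((n + 1) ^ (2 * Q + 1) *
      ((K + 1) * (2 * (K * ((Q + 1) * (n + 1) ^ (2 * Q + 1)) + 1))) : ℕ) : ℝ) ≤ 1) :
    SD (Lev n k) (Lev n (k + 1)) μ K L b (Q + 1) p R ms τ Γ A (fun J => ms * η ^ (J.1 + 1))
      (fun J v => nbJ J.1 v) ((n + 1) ^ (2 * Q + 1)) ((Q + 1) * (n + 1) ^ (2 * Q + 1)) := by
  have hb0R : (1:ℝ) ≤ b0 := by exact_mod_cast hb0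
  have hbR : (b0:ℝ) ≤ b := by exact_mod_cast hbb
  have hτ0 : 0 < τ := by
    by_contra hcon
    push Not at hcon
    have : p * τ * R ≤ 0 := by
      apply mul_nonpos_of_nonpos_of_nonneg _ hR0.le
      exact mul_nonpos_of_nonneg_of_nonpos hp0.le hcon
    linarith
  refine ⟨by omega, hp0, hp1, hL, fun J v x => (hAK J).nonneg v x, fun J v => (hAK J).row v, hms,
    hτ, hτ0, hτm, hR0, hR, ?_, ?_, ?_, ?_, ?_, ?_, ?_, by linarith, hlll⟩
  · intro J; positivity
  · intro J
    have : η ^ (J.1 + 1) ≤ 1 := pow_le_one₀ hη0.le hη1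
    calc ms * η ^ (J.1 + 1) ≤ ms * 1 := mul_le_mul_of_nonneg_left this hms.le
      _ ≤ 3 / 2 * ms := by linarith
  · intro J
    by_cases hJ : J.1 ≤ 1
    · refine ⟨1 / b0, by positivity, ?_, ?_⟩
      · intro v q hq
        have h1 : ∑ j, A J v (q j) ≤ 1 := by
          rw [← (hAK J).row v, ← sum_image (f := fun z => A J v z) (s := univ) (g := q)
            (fun _ _ _ _ h => hq h)]
          exact sum_le_sum_of_subset_of_nonneg (subset_univ _) (fun z _ _ => (hAK J).nonneg v z)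
        calc (∑ j, A J v (q j)) / b ≤ 1 / b := div_le_div_of_nonneg_right h1 (Nat.cast_nonneg _)
          _ ≤ 1 / b0 := one_div_le_one_div_of_le (by linarith) hbR
      · have h1 : η ^ 4 ≤ (η ^ (J.1 + 1)) ^ 2 := by
          rw [← pow_mul]
          exact pow_le_pow_of_le_one hη0.le hη1 (by omega)
        have h2 : Γ * (9 * (1 / (b0:ℝ))) ≤ η ^ 4 := by
          rw [mul_one_div, mul_div_assoc', div_le_iff₀ (by linarith)]
          linarith
        calc Γ * (9 * (1 / (b0:ℝ)) * ms ^ 2) = (Γ * (9 * (1 / (b0:ℝ)))) * ms ^ 2 := by ring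
          _ ≤ (η ^ (J.1 + 1)) ^ 2 * ms ^ 2 :=
              mul_le_mul_of_nonneg_right (h2.trans h1) (by positivity)
          _ = _ := by ring
    · push Not at hJ
      refine ⟨(Λ / b0) ^ J.1, by positivity, ?_, ?_⟩
      · intro v q hq
        have h1 : ∑ j, A J v (q j) ≤ b * (Λ / b0) ^ J.1 := by
          calc ∑ j, A J v (q j) ≤ ∑ _j : Fin b, (Λ / b0) ^ J.1 :=
                sum_le_sum (fun j _ => (hAK J).sup_le hD hΛ0.le (by linarith) v (q j))
            _ = _ := by simp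
        rw [div_le_iff₀ (by linarith)]
        linarith
      · have h1 : Λ / b0 ≤ η ^ 3 / (9 * Γ) := by
          rw [div_le_div_iff₀ (by linarith) (by linarith)]
          calc Λ * (9 * Γ) ≤ Λ * (b0 * η ^ 4) := mul_le_mul_of_nonneg_left hb0n hΛ0.le
            _ = (Λ * η) * (η ^ 3 * b0) := by ring
            _ ≤ 1 * (η ^ 3 * b0) := mul_le_mul_of_nonneg_right hΛ (by positivity)
            _ = _ := one_mul _
        have h2 : (Λ / b0) ^ J.1 ≤ (η ^ 3 / (9 * Γ)) ^ J.1 := pow_le_pow_left₀ (by positivity) h1 _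
        have h3 : (η ^ 3 / (9 * Γ)) ^ J.1 ≤ (η ^ (J.1 + 1)) ^ 2 / (9 * Γ) := by
          rw [div_pow]
          have e1 : (η ^ 3) ^ J.1 ≤ (η ^ (J.1 + 1)) ^ 2 := by
            rw [← pow_mul, ← pow_mul]
            exact pow_le_pow_of_le_one hη0.le hη1 (by omega)
          have e2 : 9 * Γ ≤ (9 * Γ) ^ J.1 := le_self_pow₀ (by linarith) (by omega)
          exact div_le_div₀ (by positivity) e1 (by linarith) e2
        have h4 : Γ * (9 * (Λ / b0) ^ J.1) ≤ (η ^ (J.1 + 1)) ^ 2 := by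
          calc Γ * (9 * (Λ / b0) ^ J.1) ≤ Γ * (9 * ((η ^ (J.1 + 1)) ^ 2 / (9 * Γ))) := by
                apply mul_le_mul_of_nonneg_left _ (by linarith)
                linarith
            _ = _ := by field_simp
        calc Γ * (9 * (Λ / b0) ^ J.1 * ms ^ 2) = (Γ * (9 * (Λ / b0) ^ J.1)) * ms ^ 2 := by ring
          _ ≤ (η ^ (J.1 + 1)) ^ 2 * ms ^ 2 := mul_le_mul_of_nonneg_right h4 (by positivity)
          _ = _ := by ring
  · intro J v y hy x hx
    by_contra hne
    have h1 := (hAK J).supp v x hne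
    apply hy
    unfold nbJ
    rw [mem_filter]
    refine ⟨mem_univ _, ?_⟩
    unfold dis at h1
    exact (card_le_card (sdiff_subset_sdiff (Subset.refl _) (hsub y x hx))).trans h1
  · exact Nat.one_le_pow _ _ (by omega)
  · intro J v
    exact card_nbJ (by have := J.2; omega) v
  · intro y
    exact card_nbJ' y

end Pool.MP_0ccee8_co.Lib2
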