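import Mathlib
import Pool.Agent.Lib.MP_0ccee8_co2.Level2

/-! The base stages. -/

set_option autoImplicit false
set_option linter.unusedSectionVars false

namespace Pool.MP_0ccee8_co.Lib2

open Finset
open Pool.MP_0ccee8_co.Lib (Lev Q mem_Q NF wt wt_nonneg wt_pos wt_row wt_col)

variable {n k m : ℕ}

/-- Bound for the sum over all the codes. -/
theorem sum_code {X Y : Type*} [Fintype X] [Fintype Y] [DecidableEq X] [DecidableEq Y] {K : ℕ}
    (hK : 1 ≤ K) {γ : ℝ} (hγ0 : 0 < γ)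
    (hγ : 16 * K * γ * ((Fintype.card X : ℝ) + Fintype.card Y) ≤ 1) :
    ∑ p : (Fin K × Bool) × (Finset Y × Finset X),
      (if p.2.2 = ∅ then (0:ℝ) else γ ^ p.2.1.card * γ ^ p.2.2.card) ≤ 1 / 2 := by
  classical
  have hKR : (1:ℝ) ≤ K := by exact_mod_cast hK
  have hX0 : (0:ℝ) ≤ Fintype.card X := Nat.cast_nonneg _
  have hY0 : (0:ℝ) ≤ Fintype.card Y := Nat.cast_nonneg _
  have hX : ∑ s : Finset X, γ ^ s.card = (γ + 1) ^ Fintype.card X := by
    have := Fintype.sum_pow_mul_eq_add_pow X γ 1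
    simpa using this
  have hY : ∑ s : Finset Y, γ ^ s.card = (γ + 1) ^ Fintype.card Y := by
    have := Fintype.sum_pow_mul_eq_add_pow Y γ 1
    simpa using this
  have h2 : ∑ s : Finset X, (if s = ∅ then (0 : ℝ) else γ ^ s.card) =
      (γ + 1) ^ Fintype.card X - 1 := by
    rw [← hX, ← Finset.sum_erase_add _ _ (mem_univ (∅ : Finset X)),
      ← Finset.sum_erase_add (univ : Finset (Finset X)) (fun s => γ ^ s.card)
        (mem_univ (∅ : Finset X))]
    simp only [if_true, add_zero, card_empty, pow_zero, add_sub_cancel_right]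
    apply sum_congr rfl
    intro s hs
    rw [if_neg (ne_of_mem_erase hs)]
  have hexp : ∀ N : ℕ, (γ + 1) ^ N ≤ Real.exp (N * γ) := by
    intro N
    rw [Real.exp_nat_mul]
    exact pow_le_pow_left₀ (by positivity) (Real.add_one_le_exp γ) _
  have hlin : ∀ t : ℝ, 0 ≤ t → t ≤ 1 → Real.exp t - 1 ≤ 2 * t := by
    intro t ht0 ht1
    have := Real.abs_exp_sub_one_le (x := t) (by rw [abs_of_nonneg ht0]; exact ht1)
    rw [abs_of_nonneg ht0] at this
    exact (le_abs_self _).trans this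
  have hXγ : (Fintype.card X : ℝ) * γ ≤ 1 / (16 * K) := by
    rw [le_div_iff₀ (by positivity)]
    have : 0 ≤ 16 * K * γ * (Fintype.card Y : ℝ) := by positivity
    nlinarith
  have hYγ : (Fintype.card Y : ℝ) * γ ≤ 1 / (16 * K) := by
    rw [le_div_iff₀ (by positivity)]
    have : 0 ≤ 16 * K * γ * (Fintype.card X : ℝ) := by positivity
    nlinarith
  have h16 : (1:ℝ) / (16 * K) ≤ 1 / 16 := by
    apply one_div_le_one_div_of_le (by norm_num); linarith
  have e1 : (γ + 1) ^ Fintype.card X - 1 ≤ 2 * (1 / (16 * K)) := by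
    have h3 := hlin _ (by positivity : 0 ≤ (Fintype.card X : ℝ) * γ) (by linarith)
    have h4 := hexp (Fintype.card X)
    linarith
  have e2 : (γ + 1) ^ Fintype.card Y ≤ 2 := by
    have h3 := hlin _ (by positivity : 0 ≤ (Fintype.card Y : ℝ) * γ) (by linarith)
    have h4 := hexp (Fintype.card Y)
    linarith
  have e0 : 0 ≤ (γ + 1) ^ Fintype.card X - 1 := by
    have : 1 ≤ (γ + 1) ^ Fintype.card X := one_le_pow₀ (by linarith)
    linarith
  rw [Fintype.sum_prod_type]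
  simp only [sum_const, card_univ, Fintype.card_prod, Fintype.card_fin, Fintype.card_bool,
    nsmul_eq_mul]
  rw [Fintype.sum_prod_type]
  have h5 : ∑ x : Finset Y, ∑ y : Finset X, (if y = ∅ then (0:ℝ) else γ ^ x.card * γ ^ y.card) =
      (γ + 1) ^ Fintype.card Y * ((γ + 1) ^ Fintype.card X - 1) := by
    rw [← h2, ← hY, sum_mul]
    apply sum_congr rfl
    intro s _
    rw [mul_sum]
    apply sum_congr rfl
    intro t _
    split_ifs <;> simp
  rw [h5]
  push_cast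
  calc (K : ℝ) * 2 * ((γ + 1) ^ Fintype.card Y * ((γ + 1) ^ Fintype.card X - 1))
      ≤ K * 2 * (2 * (2 * (1 / (16 * K)))) := by
        apply mul_le_mul_of_nonneg_left _ (by positivity)
        exact mul_le_mul e2 e1 e0 (by norm_num)
    _ = 1 / 2 := by field_simp; norm_num

/-- The state of the construction. -/
structure St {K : ℕ} (e : Fin K → Bool → (Lev n (k + 1) ≃ Lev n (k + 1)))
    (H : Fin m → (Finset (Fin n) × Fin n) → Prop) (c : ℕ) (M g δf : ℝ)
    (A : ℕ → Lev n k → Lev n k → ℝ) (Jm : ℕ) (B : ℕ → ℝ)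
    (f : Fin K → Bool → Lev n k → Lev n (k + 1) → ℝ) : Prop where
  nonneg : ∀ i σ x y, 0 ≤ f i σ x y
  supp : ∀ i σ x y, f i σ x y ≠ 0 → ∃ r : Fin m, r.val < c ∧ pad (H r) x y
  disj : ∀ i j σ x y, i ≠ j → f i σ x y ≠ 0 → f j σ x y = 0
  col : ∀ i y, ∑ x, f i false x (e i false y) = ∑ x, f i true x (e i true y)
  colle : ∀ i y, ∑ x, f i false x (e i false y) ≤ M * g
  dev : ∀ i σ J v, J ≤ Jm → |∑ x, A J v x * (∑ y, f i σ x y - M)| ≤ B J
  mix : ∀ i σ, Mixing (f i σ) δf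

section Hit

variable {κ : Type*} [Fintype κ] [Nonempty κ] {L b : ℕ} {μ : Lev n (k + 1) → Lev n k → ℝ}
  (S : Sampler (Lev n k) (Lev n (k + 1)) κ L b μ) (s0 : Fin L)

open Classical in
theorem hit_ge (y : Lev n (k + 1)) (x : Lev n k) {c : ℝ} (h : c ≤ μ y x) (hb : 1 ≤ b) (hc : 0 ≤ c) :
    Fintype.card κ * c ≤ ∑ θ, (if ∃ j, S.pt y θ s0 j = x then (1:ℝ) else 0) := by
  have hbR : (1:ℝ) ≤ b := by exact_mod_cast hb
  have h1 := S.marg y s0 x
  have h2 : ∑ θ, ∑ j, (if S.pt y θ s0 j = x then (1:ℝ) else 0) ≤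
      ∑ θ, (if ∃ j, S.pt y θ s0 j = x then (1:ℝ) else 0) := by
    apply sum_le_sum
    intro θ _
    split_ifs with hex
    · exact sum_ind_le (fun j j' h => (S.inj y θ s0 s0 j j' h).2) x
    · apply le_of_eq
      apply sum_eq_zero
      intro j _
      rw [if_neg]
      intro hj
      exact hex ⟨j, hj⟩
  refine le_trans ?_ h2
  rw [h1]
  have h3 : (0:ℝ) ≤ Fintype.card κ := Nat.cast_nonneg _
  calc Fintype.card κ * c ≤ Fintype.card κ * μ y x := mul_le_mul_of_nonneg_left h h3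
    _ = 1 * (Fintype.card κ * μ y x) := (one_mul _).symm
    _ ≤ b * (Fintype.card κ * μ y x) := by
        apply mul_le_mul_of_nonneg_right hbR
        exact mul_nonneg h3 (hc.trans h)

end Hit

section Two

variable {κ₁ κ₂ : Type*} [Fintype κ₁] [Nonempty κ₁] [Fintype κ₂] [Nonempty κ₂] {L b : ℕ}
  {μ₁ μ₂ : Lev n (k + 1) → Lev n k → ℝ}

open Classical in
theorem two_hit (S₁ : Sampler (Lev n k) (Lev n (k + 1)) κ₁ L b μ₁)
    (S₂ : Sampler (Lev n k) (Lev n (k + 1)) κ₂ L b μ₂) (s0 : Fin L)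
    (h : ∀ y x, 0 < μ₁ y x → 0 < μ₂ y x → False) (h0 : ∀ y x, 0 ≤ μ₁ y x) (h0' : ∀ y x, 0 ≤ μ₂ y x)
    (hb : 1 ≤ b) {c : ℝ} (hc : 0 ≤ c) (y : Lev n (k + 1)) (Sc : Finset (Lev n k)) {x x' z : Lev n k}
    (hx : x ∈ Sc) (hx' : x' ∉ Sc) (hμx : c ≤ μ₁ y x) (hμx' : c ≤ μ₁ y x') (hμz : c ≤ μ₂ y z) :
    c ^ 2 ≤ mG (Sampler.two S₁ S₂ h h0 h0') s0 (fun q => if Mx Sc q then (1:ℝ) else 0) y := by
  have hc1 : (0:ℝ) < Fintype.card κ₁ := by exact_mod_cast Fintype.card_pos
  have hc2 : (0:ℝ) < Fintype.card κ₂ := by exact_mod_cast Fintype.card_pos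
  unfold mG
  rw [le_div_iff₀ (by rw [Fintype.card_prod]; push_cast; positivity), Fintype.card_prod]
  push_cast
  have key : ∀ x₁ : Lev n k, c ≤ μ₁ y x₁ → (x₁ ∈ Sc ↔ z ∉ Sc) →
      c ^ 2 * (Fintype.card κ₁ * Fintype.card κ₂) ≤
      ∑ θ : κ₁ × κ₂, (if Mx Sc ((Sampler.two S₁ S₂ h h0 h0').pt y θ s0) then (1:ℝ) else 0) := by
    intro x₁ hμ hiff
    have e1 := hit_ge S₁ s0 y x₁ hμ hb hc
    have e2 := hit_ge S₂ s0 y z hμz hb hc
    have e3 : (∑ θ, (if ∃ j, S₁.pt y θ s0 j = x₁ then (1:ℝ) else 0)) *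
        (∑ θ, (if ∃ j, S₂.pt y θ s0 j = z then (1:ℝ) else 0)) ≤
        ∑ θ : κ₁ × κ₂, (if Mx Sc ((Sampler.two S₁ S₂ h h0 h0').pt y θ s0) then (1:ℝ) else 0) := by
      rw [sum_mul_sum, Fintype.sum_prod_type]
      apply sum_le_sum
      intro θ₁ _
      apply sum_le_sum
      intro θ₂ _
      by_cases c1 : ∃ j, S₁.pt y θ₁ s0 j = x₁
      · by_cases c2 : ∃ j, S₂.pt y θ₂ s0 j = z
        · have hM : Mx Sc ((Sampler.two S₁ S₂ h h0 h0').pt y (θ₁, θ₂) s0) := by
            obtain ⟨j1, hj1⟩ := c1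
            obtain ⟨j2, hj2⟩ := c2
            have p1 : (Sampler.two S₁ S₂ h h0 h0').pt y (θ₁, θ₂) s0 (Fin.castAdd b j1) = x₁ := by
              simp only [Sampler.two, Fin.addCases_left]
              exact hj1
            have p2 : (Sampler.two S₁ S₂ h h0 h0').pt y (θ₁, θ₂) s0 (Fin.natAdd b j2) = z := by
              simp only [Sampler.two, Fin.addCases_right]
              exact hj2
            by_cases hz : z ∈ Sc
            · refine ⟨⟨_, by rw [p2]; exact hz⟩, ⟨_, by rw [p1]; exact fun hx => (hiff.1 hx) hz⟩⟩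
            · exact ⟨⟨_, by rw [p1]; exact hiff.2 hz⟩, ⟨_, by rw [p2]; exact hz⟩⟩
          rw [if_pos c1, if_pos c2, if_pos hM]
          norm_num
        · rw [if_neg c2, mul_zero]
          split_ifs <;> norm_num
      · rw [if_neg c1, zero_mul]
        split_ifs <;> norm_num
    calc c ^ 2 * (Fintype.card κ₁ * Fintype.card κ₂) =
        (Fintype.card κ₁ * c) * (Fintype.card κ₂ * c) := by ring
      _ ≤ _ := mul_le_mul e1 e2 (by positivity) (by
          apply sum_nonneg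
          intro θ _
          split_ifs <;> norm_num)
      _ ≤ _ := e3
  by_cases hz : z ∈ Sc
  · exact key x' hμx' ⟨fun h => absurd h hx', fun h => absurd hz h⟩
  · exact key x hμx ⟨fun _ => hz, fun _ => hx⟩

end Two

end Pool.MP_0ccee8_co.Lib2
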