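import Mathlib
import Pool.Agent.Lib.MP_0ccee8_co2.Level3

/-! The base stages: construction. -/

set_option autoImplicit false
set_option linter.unusedSectionVars false

namespace Pool.MP_0ccee8_co.Lib2

open Finset
open Pool.MP_0ccee8_co.Lib (Lev Q mem_Q NF wt wt_nonneg wt_pos wt_row wt_col)

variable {n k m : ℕ}

open Classical in
theorem mixing_of {X Y : Type*} [Fintype X] [Fintype Y] [DecidableEq X] [DecidableEq Y]
    {f : X → Y → ℝ} (hf0 : ∀ x y, 0 ≤ f x y) (S : Finset X) (N : Finset Y) (v0 : ℝ)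
    (h : ∀ y ∈ N, (∃ x, x ∉ S ∧ 0 < f x y) ∧ v0 ≤ ∑ x ∈ S, f x y) :
    N.card * v0 ≤ ∑ y, (if ∃ x, x ∉ S ∧ 0 < f x y then ∑ x ∈ S, f x y else 0) := by
  calc (N.card : ℝ) * v0 = ∑ _y ∈ N, v0 := by rw [sum_const, nsmul_eq_mul]
    _ ≤ ∑ y ∈ N, (if ∃ x, x ∉ S ∧ 0 < f x y then ∑ x ∈ S, f x y else 0) := by
        apply sum_le_sum
        intro y hy
        obtain ⟨h1, h2⟩ := h y hy
        rw [if_pos h1]
        exact h2
    _ ≤ _ := by
        apply sum_le_sum_of_subset_of_nonneg (subset_univ _)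
        intro y _ _
        split_ifs
        · exact sum_nonneg (fun x _ => hf0 x y)
        · exact le_rfl

variable {κa κ0 κ1 κ2 : Type*} [Fintype κa] [Nonempty κa] [Fintype κ0] [Nonempty κ0]
  [Fintype κ1] [Nonempty κ1] [Fintype κ2] [Nonempty κ2]

open Classical in
theorem base {K L b Q δ : ℕ} {H : Fin m → (Finset (Fin n) × Fin n) → Prop}
    {w : Fin m → Finset (Fin n) → Fin n → ℝ} (hP : PoolSys n k m H w) (i0 i1 i2 : Fin m)
    (h01 : i0 ≠ i1) (h12 : i1 ≠ i2) (h02 : i0 ≠ i2) (c : ℕ) (hc0 : i0.val < c) (hc1 : i1.val < c)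
    (hc2 : i2.val < c) (S0 : Sampler (Lev n k) (Lev n (k + 1)) κ0 L b (mu (w i0)))
    (S1 : Sampler (Lev n k) (Lev n (k + 1)) κ1 L b (mu (w i1)))
    (S2 : Sampler (Lev n k) (Lev n (k + 1)) κ2 L b (mu (w i2))) (s0 : Fin L)
    (e : Fin K → Bool → (Lev n (k + 1) ≃ Lev n (k + 1))) (act : κa → Prop) {p : ℝ}
    (hp : ((univ.filter act).card : ℝ) = p * Fintype.card κa)
    {A : ℕ → Lev n k → Lev n k → ℝ} {Λ η Γ m0 g lam δf : ℝ}
    (hAK : ∀ J ≤ Q, KB (A J) Λ b J) (hA0 : ∀ v x, A 0 v x = if v = x then 1 else 0)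
    (hk : 1 ≤ k) (hkn : 2 * (k + 1) ≤ n) (hK : 1 ≤ K) (hb : 1 ≤ b) (hm : 3 ≤ m)
    (hp0 : 0 < p) (hp1 : p ≤ 1) (hL : 2 * (p * K) + 4 * Γ ≤ L) (hΓ : 1 ≤ Γ)
    (hη0 : 0 < η) (hη2 : η ≤ 1 / 2) (hΛ0 : 0 < Λ) (hΛ : Λ * η ≤ 1) (hbn : 9 * Γ ≤ b * η ^ 4)
    (hlll : 8 * Real.exp (-Γ) * (((n + 1) ^ (2 * Q + 1) *
      ((K + 1) * (2 * (K * ((Q + 1) * (n + 1) ^ (2 * Q + 1)) + 1))) : ℕ) : ℝ) ≤ 1)
    (hg : g = ((k : ℝ) + 1) / (p * ((n : ℝ) - k))) (hg1 : g ≤ 1) (hm0 : 0 < m0)
    (hδb : 2 * δ ≤ b)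
    (hπ : 8 * Real.exp (-Γ) * (((K + 1) * (2 * (K * ((Q + 1) * (n + 1) ^ (2 * Q + 1)) + 1)) : ℕ) : ℝ)
      ≤ p * (1 / (n : ℝ)) ^ 2 / 8)
    (hlam0 : 0 ≤ lam) (hlam : 16 * K * Real.exp (-lam) * ((2 : ℝ) ^ n + (2 : ℝ) ^ n) ≤ 1)
    (hcB : lam * (2 * n + 2) * (8 * (n : ℝ) ^ 5) ≤ 2 ^ δ * (p * (1 / (n : ℝ)) ^ 2))
    (hδf0 : 0 ≤ δf) (hδf1 : δf ≤ m0 / 2 * g / b / 2 ^ δ)
    (hδf2 : δf ≤ m0 / 2 * g / (b + b) * (p * (1 / (n : ℝ)) ^ 2 / 4) / (n : ℝ) ^ 5) :
    ∃ f, St e H c m0 g δf A Q (fun J => 16 / 15 * m0 * η ^ (J + 1)) f := by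
  have hkR : (1:ℝ) ≤ k := by exact_mod_cast hk
  have hnR : 2 * ((k : ℝ) + 1) ≤ n := by exact_mod_cast hkn
  have hn0 : (0:ℝ) < n := by linarith
  have hD1 : 1 ≤ (n : ℝ) - k := by linarith
  have hD0 : 0 < (n : ℝ) - k := by linarith
  have hbR : (1:ℝ) ≤ b := by exact_mod_cast hb
  have hmR : (3:ℝ) ≤ m := by exact_mod_cast hm
  set R : ℝ := ((n : ℝ) - k) / ((k : ℝ) + 1) with hR
  have hR0 : 0 < R := by positivity
  have hg0 : 0 < g := by rw [hg]; positivity
  have hpgR : p * g * R = 1 := by rw [hg, hR]; field_simp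
  set τ0 : ℝ := m0 / 2 * g with hτ0
  have hτ00 : 0 < τ0 := by positivity
  have hτR : p * τ0 * R = m0 / 2 := by
    calc p * τ0 * R = m0 / 2 * (p * g * R) := by rw [hτ0]; ring
      _ = m0 / 2 := by rw [hpgR, mul_one]
  have hτm : τ0 ≤ m0 / 2 := by
    calc τ0 = m0 / 2 * g := rfl
      _ ≤ m0 / 2 * 1 := mul_le_mul_of_nonneg_left hg1 (by positivity)
      _ = m0 / 2 := mul_one _
  have hη1 : η ≤ 1 := by linarith
  set π0 : ℝ := (1 / (n : ℝ)) ^ 2 with hπ0def
  have hπ00 : 0 < π0 := by positivity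
  have hm20 : 0 < m0 / 2 := by positivity
  -- stage A
  have hSDA : SD (Lev n k) (Lev n (k + 1)) (mu (w i0)) K L b (Q + 1) p R (m0 / 2) τ0 Γ
      (fun J : Fin (Q + 1) => A J.1) (fun J => m0 / 2 * η ^ (J.1 + 1))
      (fun J v => nbJ J.1 v) ((n + 1) ^ (2 * Q + 1)) ((Q + 1) * (n + 1) ^ (2 * Q + 1)) :=
    mkSD (b0 := b) (fun J => hAK J.1 (by have := J.2; omega)) hb le_rfl hD1 hp0 hp1 hL hm20 hτR hτm hR0
      (fun x => hP.mu_row i0 x) (fun y x h => pad_sub (hP.mu_pad i0 x y h)) hΓ hη0 hη1 hΛ0 hΛ hbn hlll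
  obtain ⟨fA, UA, hA, _⟩ := stage S0 e act s0 hSDA hp (fun _ _ _ => 0) (by
      intro i σ x; rw [abs_zero]; positivity) (χ := Empty) (fun c => c.elim) (fun c => c.elim)
      (fun c => c.elim) (fun c => c.elim) π0 (fun c => c.elim) hπ (by simp)
  have hAv : ∀ i σ x y, fA i σ x y ≠ 0 → fA i σ x y = τ0 / b := fun i σ x y h =>
    hA.unif i σ x y (fun _ => rfl) h
  have hAdev : ∀ i σ (J : Fin (Q + 1)) v, |∑ x, A J.1 v x * (∑ y, fA i σ x y - m0 / 2)| ≤
      m0 / 2 * η ^ (J.1 + 1) := by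
    intro i σ J v
    have := hA.dev i σ J v
    simpa using this
  have hArow : ∀ i σ x, m0 / 4 ≤ ∑ y, fA i σ x y := by
    intro i σ x
    have h1 := hAdev i σ ⟨0, by omega⟩ x
    simp only [hA0] at h1
    simp only [ite_mul, one_mul, zero_mul, sum_ite_eq, mem_univ, if_true, zero_add, pow_one] at h1
    have h2 := (abs_le.1 h1).1
    have h3 : m0 / 2 * η ≤ m0 / 2 * (1 / 2) := mul_le_mul_of_nonneg_left hη2 hm20.le
    linarith
  have hcount : ∀ {ι : Type _} [Fintype ι] (φ : ι → ℝ), (∀ z, φ z ≠ 0 → φ z = τ0 / b) →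
      ∑ z, φ z = (univ.filter (fun z => φ z ≠ 0)).card * (τ0 / b) := by
    intro ι _ φ hφ
    rw [← sum_filter_ne_zero, sum_congr rfl (fun z hz => hφ z (mem_filter.1 hz).2), sum_const,
      nsmul_eq_mul]
  have hdegx : ∀ i σ x, δ ≤ (univ.filter (fun y => fA i σ x y ≠ 0)).card := by
    intro i σ x
    have h1 := hArow i σ x
    rw [hcount (fun y => fA i σ x y) (fun y h => hAv i σ x y h)] at h1
    have h2 : (δ : ℝ) ≤ (univ.filter (fun y => fA i σ x y ≠ 0)).card := by
      by_contra hcon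
      push Not at hcon
      have h3 : 2 * (δ : ℝ) ≤ b := by exact_mod_cast hδb
      have h4 : ((univ.filter (fun y => fA i σ x y ≠ 0)).card : ℝ) * (τ0 / b) < b / 2 * (τ0 / b) := by
        apply mul_lt_mul_of_pos_right _ (by positivity)
        linarith
      have h5 : (b : ℝ) / 2 * (τ0 / b) = τ0 / 2 := by field_simp
      rw [h5] at h4
      linarith
    exact_mod_cast h2
  have hdegy : ∀ i σ x y, fA i σ x y ≠ 0 → δ ≤ (univ.filter (fun x' => fA i σ x' y ≠ 0)).card := by
    intro i σ x y hxy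
    have h1 : ∑ x', fA i σ x' y = τ0 := by
      obtain ⟨h2, h3⟩ := hA.col i σ y
      by_cases hU : UA i ((e i σ).symm y)
      · exact h2 hU
      · exfalso
        have h4 := h3 hU
        have h5 := (sum_eq_zero_iff_of_nonneg (fun x _ => hA.nonneg i σ x y)).1 h4 x (mem_univ _)
        exact hxy h5
    rw [hcount (fun x' => fA i σ x' y) (fun x' h => hAv i σ x' y h)] at h1
    have h2 : ((univ.filter (fun x' => fA i σ x' y ≠ 0)).card : ℝ) = b := by
      have h3 : ((univ.filter (fun x' => fA i σ x' y ≠ 0)).card : ℝ) * τ0 = b * τ0 := by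
        rw [mul_div_assoc', div_eq_iff (by positivity)] at h1
        linarith
      exact mul_right_cancel₀ hτ00.ne' h3
    have h3 : (univ.filter (fun x' => fA i σ x' y ≠ 0)).card = b := by exact_mod_cast h2
    rw [h3]; omega
  have hthin := fun (i : Fin K) (σ : Bool) => thin_code (fun x y => fA i σ x y ≠ 0)
    (fun x y h => pad_sub (hP.mu_pad i0 x y (hA.supp i σ x y h))) δ
    (fun x => by have := hdegx i σ x; convert this)
    (fun x y h => by have := hdegy i σ x y h; convert this)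
  choose cR hcR1 hcR2 hcR3 using hthin
  -- stage B
  have hμdisj : ∀ y x, 0 < mu (w i1) y x → 0 < mu (w i2) y x → False := fun y x h h' =>
    hP.pad_disj h12 (hP.mu_pad i1 x y h) (hP.mu_pad i2 x y h')
  have hμ10 : ∀ y x, 0 ≤ mu (w i1) y x := fun y x => hP.mu_nonneg i1 x y
  have hμ20 : ∀ y x, 0 ≤ mu (w i2) y x := fun y x => hP.mu_nonneg i2 x y
  have hμsub : ∀ (y : Lev n (k + 1)) (x : Lev n k), 0 < (mu (w i1) y x + mu (w i2) y x) / 2 →
      pad (H i1) x y ∨ pad (H i2) x y := by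
    intro y x h
    by_cases h1 : 0 < mu (w i1) y x
    · exact Or.inl (hP.mu_pad i1 x y h1)
    · right
      apply hP.mu_pad i2 x y
      have := hμ10 y x
      linarith
  have hSDB : SD (Lev n k) (Lev n (k + 1)) (fun y x => (mu (w i1) y x + mu (w i2) y x) / 2) K L (b + b)
      (Q + 1) p R (m0 / 2) τ0 Γ
      (fun J : Fin (Q + 1) => A J.1) (fun J => m0 / 2 * η ^ (J.1 + 1))
      (fun J v => nbJ J.1 v) ((n + 1) ^ (2 * Q + 1)) ((Q + 1) * (n + 1) ^ (2 * Q + 1)) :=
    mkSD (b0 := b) (fun J => hAK J.1 (by have := J.2; omega)) hb (by omega) hD1 hp0 hp1 hL hm20 hτR hτm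
      hR0 (fun x => by
        rw [← sum_div, sum_add_distrib, hP.mu_row i1 x, hP.mu_row i2 x]
        ring) (fun y x h => by
        rcases hμsub y x h with h | h
        · exact pad_sub h
        · exact pad_sub h) hΓ hη0 hη1 hΛ0 hΛ hbn hlll
  set χ := {c : (Fin K × Bool) × Finset (Lev n k) // c.2.Nonempty ∧
    2 * c.2.card ≤ Fintype.card (Lev n k) ∧
    2 ^ δ * (mixd (fun x y => fA c.1.1 c.1.2 x y ≠ 0) c.2).card ≤ c.2.card} with hχ
  have h1n : (1:ℝ) / n ≤ (m : ℝ) / 2 / ((k : ℝ) + 1) := by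
    rw [div_div, div_le_div_iff₀ hn0 (by positivity)]
    nlinarith
  have hexpand : ∀ S : Finset (Lev n k), 2 * S.card ≤ Fintype.card (Lev n k) →
      (S.card : ℝ) ≤ (n : ℝ) ^ 5 * (mixd (pad (H i1)) S).card := by
    intro S hS
    have := pool_expand (fun v x hv hx => hP.conn i1 v x hv hx) (by omega) S hS
    exact_mod_cast this
  obtain ⟨fB, UB, hB, hBx⟩ := stage (Sampler.two S1 S2 hμdisj hμ10 hμ20) e act s0 hSDB hp
      (fun _ _ _ => 0) (by intro i σ x; rw [abs_zero]; positivity) (χ := χ) (fun c => c.1.1.1)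
      (fun c => c.1.1.2) (fun c => c.1.2) (fun c => mixd (pad (H i1)) c.1.2) π0 (by
        intro c y hy
        rw [mem_mixd] at hy
        obtain ⟨⟨x, hx, hxy⟩, x', hx', hxy'⟩ := hy
        have hz : ∃ z, pad (H i2) z y := by
          by_contra hcon
          push Not at hcon
          have h1 := hP.mu_col i2 y
          have h2 : ∑ x, mu (w i2) y x = 0 := by
            apply sum_eq_zero
            intro z _
            by_contra hne
            exact hcon z (hP.mu_pad i2 z y (lt_of_le_of_ne (hμ20 y z) (Ne.symm hne)))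
          rw [h2] at h1
          norm_num at h1
        obtain ⟨z, hz⟩ := hz
        exact two_hit S1 S2 s0 hμdisj hμ10 hμ20 hb (by positivity) y c.1.2 hx hx'
          (h1n.trans (hP.pad_mu i1 x y hxy)) (h1n.trans (hP.pad_mu i1 x' y hxy'))
          (h1n.trans (hP.pad_mu i2 z y hz))) hπ (by
        -- the sum over the thin sets
        set γ : ℝ := Real.exp (-lam) with hγ
        have hγ0 : 0 < γ := Real.exp_pos _
        have hcX : (Fintype.card (Lev n k) : ℝ) ≤ 2 ^ n := by
          rw [Fintype.card_finset_len, Fintype.card_fin]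
          exact_mod_cast Nat.choose_le_two_pow n k
        have hcY : (Fintype.card (Lev n (k + 1)) : ℝ) ≤ 2 ^ n := by
          rw [Fintype.card_finset_len, Fintype.card_fin]
          exact_mod_cast Nat.choose_le_two_pow n (k + 1)
        have hsc := sum_code (X := Lev n k) (Y := Lev n (k + 1)) hK hγ0 (by
          refine le_trans ?_ hlam
          apply mul_le_mul_of_nonneg_left (add_le_add hcX hcY) (by positivity))
        set Φ : χ → (Fin K × Bool) × (Finset (Lev n (k + 1)) × Finset (Lev n k)) := fun c =>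
          (c.1.1, (mixd (fun x y => fA c.1.1.1 c.1.1.2 x y ≠ 0) c.1.2, cR c.1.1.1 c.1.1.2 c.1.2))
          with hΦ
        have hΦinj : Function.Injective Φ := by
          intro c c' hcc
          simp only [hΦ, Prod.mk.injEq] at hcc
          obtain ⟨h1, h2, h3⟩ := hcc
          apply Subtype.ext
          apply Prod.ext h1
          rw [← h1] at h2 h3
          exact hcR1 _ _ _ _ h2 h3
        set F : (Fin K × Bool) × (Finset (Lev n (k + 1)) × Finset (Lev n k)) → ℝ := fun p =>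
          if p.2.2 = ∅ then (0:ℝ) else γ ^ p.2.1.card * γ ^ p.2.2.card with hF
        have hF0 : ∀ q, 0 ≤ F q := by
          intro q; simp only [hF]; split_ifs <;> positivity
        have h1 : ∀ c : χ, Real.exp (-((mixd (pad (H i1)) c.1.2).card * (p * π0 / 8))) ≤ F (Φ c) := by
          intro c
          obtain ⟨hne, hhalf, hth⟩ := c.2
          have hRne : cR c.1.1.1 c.1.1.2 c.1.2 ≠ ∅ :=
            nonempty_iff_ne_empty.1 (hcR3 c.1.1.1 c.1.1.2 c.1.2 hne)
          simp only [hF, hΦ]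
          rw [if_neg hRne, ← pow_add, hγ, ← Real.exp_nat_mul]
          apply Real.exp_le_exp.2
          set z := (mixd (fun x y => fA c.1.1.1 c.1.1.2 x y ≠ 0) c.1.2).card with hz
          set r := (cR c.1.1.1 c.1.1.2 c.1.2).card with hr
          have e1 := hcR2 c.1.1.1 c.1.1.2 c.1.2
          have e2 := hexpand c.1.2 hhalf
          have e1R : (2:ℝ) ^ δ * r ≤ 2 ^ δ * (((k : ℝ) + 1) * z) + ((n : ℝ) + 1) * c.1.2.card := by
            exact_mod_cast e1
          have e3R : (2:ℝ) ^ δ * z ≤ c.1.2.card := by exact_mod_cast hth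
          have e4 : (2:ℝ) ^ δ * ((z : ℝ) + r) ≤ (2 * n + 2) * c.1.2.card := by
            have e5 : (2:ℝ) ^ δ * (((k : ℝ) + 1) * z) ≤ ((k : ℝ) + 1) * c.1.2.card := by
              calc (2:ℝ) ^ δ * (((k : ℝ) + 1) * z) = ((k : ℝ) + 1) * (2 ^ δ * z) := by ring
                _ ≤ _ := mul_le_mul_of_nonneg_left e3R (by positivity)
            have e6 : (0:ℝ) ≤ c.1.2.card := Nat.cast_nonneg _
            nlinarith
          have h2δ : (0:ℝ) < 2 ^ δ := by positivity
          have e7 : 2 ^ δ * (lam * ((z : ℝ) + r)) ≤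
              2 ^ δ * ((mixd (pad (H i1)) c.1.2).card * (p * π0 / 8)) := by
            calc 2 ^ δ * (lam * ((z : ℝ) + r)) = lam * (2 ^ δ * ((z : ℝ) + r)) := by ring
              _ ≤ lam * ((2 * n + 2) * c.1.2.card) := mul_le_mul_of_nonneg_left e4 hlam0
              _ ≤ lam * ((2 * n + 2) * ((n : ℝ) ^ 5 * (mixd (pad (H i1)) c.1.2).card)) := by
                  apply mul_le_mul_of_nonneg_left _ hlam0
                  exact mul_le_mul_of_nonneg_left e2 (by positivity)
              _ = (lam * (2 * n + 2) * (8 * (n : ℝ) ^ 5)) *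
                  ((mixd (pad (H i1)) c.1.2).card / 8) := by ring
              _ ≤ (2 ^ δ * (p * π0)) * ((mixd (pad (H i1)) c.1.2).card / 8) :=
                  mul_le_mul_of_nonneg_right hcB (by positivity)
              _ = _ := by ring
          have e8 := le_of_mul_le_mul_left e7 h2δ
          push_cast
          linarith
        calc ∑ c : χ, Real.exp (-((mixd (pad (H i1)) c.1.2).card * (p * π0 / 8)))
            ≤ ∑ c : χ, F (Φ c) := sum_le_sum (fun c _ => h1 c)
          _ = ∑ q ∈ univ.image Φ, F q := by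
              rw [sum_image (fun _ _ _ _ h => hΦinj h)]
          _ ≤ ∑ q, F q := sum_le_sum_of_subset_of_nonneg (subset_univ _) (fun q _ _ => hF0 q)
          _ ≤ 1 / 2 := by
              refine le_trans (le_of_eq ?_) hsc
              apply sum_congr rfl
              intro q _
              simp only [hF]
          _ < 1 := by norm_num)
  have hBv : ∀ i σ x y, fB i σ x y ≠ 0 → fB i σ x y = τ0 / (b + b) := fun i σ x y h => by
    have := hB.unif i σ x y (fun _ => rfl) h
    push_cast at this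
    exact this
  have hBdev : ∀ i σ (J : Fin (Q + 1)) v, |∑ x, A J.1 v x * (∑ y, fB i σ x y - m0 / 2)| ≤
      m0 / 2 * η ^ (J.1 + 1) := by
    intro i σ J v
    have := hB.dev i σ J v
    simpa using this
  have hApad : ∀ i σ x y, fA i σ x y ≠ 0 → pad (H i0) x y := fun i σ x y h =>
    hP.mu_pad i0 x y (hA.supp i σ x y h)
  have hBpad : ∀ i σ x y, fB i σ x y ≠ 0 → pad (H i1) x y ∨ pad (H i2) x y := fun i σ x y h =>
    hμsub y x (hB.supp i σ x y h)
  have hne : ∀ i σ x y, fA i σ x y + fB i σ x y ≠ 0 → fA i σ x y ≠ 0 ∨ fB i σ x y ≠ 0 := by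
    intro i σ x y h
    by_contra hcon
    push Not at hcon
    rw [hcon.1, hcon.2, add_zero] at h
    exact h rfl
  have hf0 : ∀ i σ x y, 0 ≤ fA i σ x y + fB i σ x y := fun i σ x y =>
    add_nonneg (hA.nonneg i σ x y) (hB.nonneg i σ x y)
  refine ⟨fun i σ x y => fA i σ x y + fB i σ x y, ⟨hf0, ?_, ?_, ?_, ?_, ?_, ?_⟩⟩
  · intro i σ x y h
    rcases hne i σ x y h with h | h
    · exact ⟨i0, hc0, hApad i σ x y h⟩
    · rcases hBpad i σ x y h with h | h
      · exact ⟨i1, hc1, h⟩
      · exact ⟨i2, hc2, h⟩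
  · intro i j σ x y hij h
    by_contra hcon
    rcases hne i σ x y h with h1 | h1
    · rcases hne j σ x y hcon with h2 | h2
      · exact h2 (hA.disj i j σ x y hij h1)
      · rcases hBpad j σ x y h2 with h3 | h3
        · exact hP.pad_disj h01 (hApad i σ x y h1) h3
        · exact hP.pad_disj h02 (hApad i σ x y h1) h3
    · rcases hne j σ x y hcon with h2 | h2
      · rcases hBpad i σ x y h1 with h3 | h3
        · exact hP.pad_disj h01 (hApad j σ x y h2) h3
        · exact hP.pad_disj h02 (hApad j σ x y h2) h3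
      · exact h2 (hB.disj i j σ x y hij h1)
  · intro i y
    simp only [sum_add_distrib]
    have hcol : ∀ (f : Fin K → Bool → Lev n k → Lev n (k + 1) → ℝ) (U : Fin K → Lev n (k + 1) → Prop),
        (∀ i σ y, (U i ((e i σ).symm y) → ∑ x, f i σ x y = τ0) ∧
        (¬ U i ((e i σ).symm y) → ∑ x, f i σ x y = 0)) →
        ∀ σ, ∑ x, f i σ x (e i σ y) = if U i y then τ0 else 0 := by
      intro f U hU σ
      have := hU i σ (e i σ y)
      rw [Equiv.symm_apply_apply] at this
      split_ifs with h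
      · exact this.1 h
      · exact this.2 h
    rw [hcol fA UA hA.col false, hcol fA UA hA.col true, hcol fB UB hB.col false,
      hcol fB UB hB.col true]
  · intro i y
    simp only [sum_add_distrib]
    have hcol : ∀ (f : Fin K → Bool → Lev n k → Lev n (k + 1) → ℝ) (U : Fin K → Lev n (k + 1) → Prop),
        (∀ i σ y, (U i ((e i σ).symm y) → ∑ x, f i σ x y = τ0) ∧
        (¬ U i ((e i σ).symm y) → ∑ x, f i σ x y = 0)) → ∀ y', ∑ x, f i false x y' ≤ τ0 := by
      intro f U hU y'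
      have := hU i false y'
      by_cases h : U i ((e i false).symm y')
      · exact (this.1 h).le
      · rw [this.2 h]; exact hτ00.le
    have h1 := hcol fA UA hA.col (e i false y)
    have h2 := hcol fB UB hB.col (e i false y)
    calc _ ≤ τ0 + τ0 := add_le_add h1 h2
      _ = m0 * g := by rw [hτ0]; ring
  · intro i σ J v hJ
    have h1 := hAdev i σ ⟨J, by omega⟩ v
    have h2 := hBdev i σ ⟨J, by omega⟩ v
    simp only at h1 h2
    have h3 : ∑ x, A J v x * (∑ y, (fA i σ x y + fB i σ x y) - m0) =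
        ∑ x, A J v x * (∑ y, fA i σ x y - m0 / 2) + ∑ x, A J v x * (∑ y, fB i σ x y - m0 / 2) := by
      rw [← sum_add_distrib]
      apply sum_congr rfl
      intro x _
      rw [sum_add_distrib]
      ring
    rw [h3]
    refine (abs_add_le _ _).trans ?_
    have h4 : 0 ≤ m0 * η ^ (J + 1) := by positivity
    calc _ ≤ m0 / 2 * η ^ (J + 1) + m0 / 2 * η ^ (J + 1) := add_le_add h1 h2
      _ ≤ _ := by linarith
  · intro i σ S hS
    have hb2 : (0:ℝ) < b := by linarith
    have h5pos : (0:ℝ) < (n : ℝ) ^ 5 := by positivity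
    rcases S.eq_empty_or_nonempty with h0 | hne0
    · rw [h0]
      simp only [card_empty, Nat.cast_zero, mul_zero]
      apply sum_nonneg
      intro y _
      split_ifs
      · exact sum_nonneg (fun x _ => hf0 i σ x y)
      · exact le_rfl
    · by_cases hth : 2 ^ δ * (mixd (fun x y => fA i σ x y ≠ 0) S).card ≤ S.card
      · have h1 := hBx ⟨((i, σ), S), hne0, hS, hth⟩
        simp only at h1
        have h2 := mixing_of (hf0 i σ) S ((mixd (pad (H i1)) S).filter (fun y =>
          (∃ x ∈ S, fB i σ x y ≠ 0) ∧ ∃ x, x ∉ S ∧ fB i σ x y ≠ 0)) (τ0 / (b + b)) (by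
          intro y hy
          rw [mem_filter] at hy
          obtain ⟨_, ⟨x, hx, hxy⟩, x', hx', hxy'⟩ := hy
          refine ⟨⟨x', hx', ?_⟩, ?_⟩
          · have := lt_of_le_of_ne (hB.nonneg i σ x' y) (Ne.symm hxy')
            have := hA.nonneg i σ x' y
            linarith
          · calc τ0 / (b + b) = fB i σ x y := (hBv i σ x y hxy).symm
              _ ≤ fA i σ x y + fB i σ x y := by
                  have := hA.nonneg i σ x y
                  linarith
              _ ≤ _ := single_le_sum (f := fun x => fA i σ x y + fB i σ x y)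
                  (fun x _ => hf0 i σ x y) hx)
        refine le_trans ?_ (le_trans h2 (le_of_eq ?_))
        · have h3 := hexpand S hS
          calc δf * S.card ≤ (m0 / 2 * g / (b + b) * (p * π0 / 4) / (n : ℝ) ^ 5) *
                ((n : ℝ) ^ 5 * (mixd (pad (H i1)) S).card) :=
                mul_le_mul hδf2 h3 (Nat.cast_nonneg _) (by positivity)
            _ = ((mixd (pad (H i1)) S).card * (p * π0 / 4)) * (τ0 / (b + b)) := by
                rw [hτ0]; field_simp
            _ ≤ _ := mul_le_mul_of_nonneg_right h1 (by positivity)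
        · apply sum_congr rfl
          intro y _
          congr
      · push Not at hth
        have h2 := mixing_of (hf0 i σ) S (mixd (fun x y => fA i σ x y ≠ 0) S) (τ0 / b) (by
          intro y hy
          rw [mem_mixd] at hy
          obtain ⟨⟨x, hx, hxy⟩, x', hx', hxy'⟩ := hy
          refine ⟨⟨x', hx', ?_⟩, ?_⟩
          · have := lt_of_le_of_ne (hA.nonneg i σ x' y) (Ne.symm hxy')
            have := hB.nonneg i σ x' y
            linarith
          · calc τ0 / b = fA i σ x y := (hAv i σ x y hxy).symm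
              _ ≤ fA i σ x y + fB i σ x y := by
                  have := hB.nonneg i σ x y
                  linarith
              _ ≤ _ := single_le_sum (f := fun x => fA i σ x y + fB i σ x y)
                  (fun x _ => hf0 i σ x y) hx)
        refine le_trans ?_ (le_trans h2 (le_of_eq ?_))
        · have h3 : (S.card : ℝ) ≤ 2 ^ δ * (mixd (fun x y => fA i σ x y ≠ 0) S).card := by
            exact_mod_cast hth.le
          calc δf * S.card ≤ (m0 / 2 * g / b / 2 ^ δ) *
                (2 ^ δ * (mixd (fun x y => fA i σ x y ≠ 0) S).card) :=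
                mul_le_mul hδf1 h3 (Nat.cast_nonneg _) (by positivity)
            _ = _ := by rw [hτ0]; field_simp
        · apply sum_congr rfl
          intro y _
          congr

end Pool.MP_0ccee8_co.Lib2
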