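import Mathlib
import Pool.Agent.Lib.MP_0ccee8_co2.Level4

/-! The smoothing stages and the linking at one level. -/

set_option autoImplicit false
set_option linter.unusedSectionVars false

namespace Pool.MP_0ccee8_co.Lib2

open Finset
open Pool.MP_0ccee8_co.Lib (Lev Q mem_Q NF wt wt_nonneg wt_pos wt_row wt_col)

variable {n k m : ℕ}

theorem Mixing.mono {X Y : Type*} [Fintype X] [Fintype Y] [DecidableEq X] [DecidableEq Y]
    {f f' : X → Y → ℝ} {δ δ' : ℝ}
    (h : Mixing f δ) (hf0 : ∀ x y, 0 ≤ f x y) (hff : ∀ x y, f x y ≤ f' x y) (hδ : δ' ≤ δ) :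
    Mixing f' δ' := by
  classical
  intro S hS
  refine le_trans (mul_le_mul_of_nonneg_right hδ (Nat.cast_nonneg _)) ((h S hS).trans ?_)
  apply sum_le_sum
  intro y _
  by_cases h1 : ∃ x, x ∉ S ∧ 0 < f x y
  · have h2 : ∃ x, x ∉ S ∧ 0 < f' x y := by
      obtain ⟨x, hx, hxy⟩ := h1
      exact ⟨x, hx, lt_of_lt_of_le hxy (hff x y)⟩
    rw [if_pos h1, if_pos h2]
    exact sum_le_sum (fun x _ => hff x y)
  · rw [if_neg h1]
    split_ifs
    · exact sum_nonneg (fun x _ => (hf0 x y).trans (hff x y))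
    · exact le_rfl

section Smooth

variable {κa κ : Type*} [Fintype κa] [Nonempty κa] [Fintype κ] [Nonempty κ]

open Classical in
theorem smooth_step {K L b Q : ℕ} {H : Fin m → (Finset (Fin n) × Fin n) → Prop}
    {w : Fin m → Finset (Fin n) → Fin n → ℝ} (hP : PoolSys n k m H w) (r : Fin m)
    (S : Sampler (Lev n k) (Lev n (k + 1)) κ L b (mu (w r))) (s0 : Fin L)
    (e : Fin K → Bool → (Lev n (k + 1) ≃ Lev n (k + 1))) (act : κa → Prop) {p : ℝ}
    (hp : ((univ.filter act).card : ℝ) = p * Fintype.card κa)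
    {P : ℕ → Lev n k → Lev n k → ℝ} (q : ℕ)
    {Λ η Γ M mq g δf R : ℝ} (hR : R = ((n : ℝ) - k) / ((k : ℝ) + 1))
    (hPq : P (q + 1) = PK S s0 R)
    (hAK : ∀ J ≤ Q, KB (Ak P (q + 1) J) Λ b J)
    (hk : 1 ≤ k) (hkn : 2 * (k + 1) ≤ n) (hb : 1 ≤ b)
    (hp0 : 0 < p) (hp1 : p ≤ 1) (hL : 2 * (p * K) + 4 * Γ ≤ L) (hΓ : 1 ≤ Γ)
    (hη0 : 0 < η) (hη2 : η ≤ 1 / 2) (hΛ0 : 0 < Λ) (hΛ : Λ * η ≤ 1) (hbn : 9 * Γ ≤ b * η ^ 4)
    (hlll : 8 * Real.exp (-Γ) * (((n + 1) ^ (2 * Q + 1) *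
      ((K + 1) * (2 * (K * ((Q + 1) * (n + 1) ^ (2 * Q + 1)) + 1))) : ℕ) : ℝ) ≤ 1)
    (hg : g = ((k : ℝ) + 1) / (p * ((n : ℝ) - k))) (hg1 : g ≤ 1) (hmq : 0 < mq)
    (hπ : 8 * Real.exp (-Γ) * (((K + 1) * (2 * (K * ((Q + 1) * (n + 1) ^ (2 * Q + 1)) + 1)) : ℕ) : ℝ)
      ≤ p * (1 / (n : ℝ)) ^ 2 / 8)
    {Jm : ℕ} (hJm : Jm ≤ Q) {B : ℕ → ℝ} {f : Fin K → Bool → Lev n k → Lev n (k + 1) → ℝ}
    (hf : St e H r.val M g δf (Ak P q) (Jm + 1) B f) (hB : B 0 ≤ mq / 4) :
    ∃ f', St e H (r.val + 1) (M + mq) g δf (Ak P (q + 1)) Jm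
      (fun J => B (J + 1) + mq * η ^ (J + 1)) f' := by
  have hkR : (1:ℝ) ≤ k := by exact_mod_cast hk
  have hnR : 2 * ((k : ℝ) + 1) ≤ n := by exact_mod_cast hkn
  have hn0 : (0:ℝ) < n := by linarith
  have hD1 : 1 ≤ (n : ℝ) - k := by linarith
  have hD0 : 0 < (n : ℝ) - k := by linarith
  have hR0 : 0 < R := by rw [hR]; positivity
  have hg0 : 0 < g := by rw [hg]; positivity
  have hpgR : p * g * R = 1 := by rw [hg, hR]; field_simp
  have hτR : p * (mq * g) * R = mq := by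
    calc p * (mq * g) * R = mq * (p * g * R) := by ring
      _ = mq := by rw [hpgR, mul_one]
  have hτm : mq * g ≤ mq := by
    calc mq * g ≤ mq * 1 := mul_le_mul_of_nonneg_left hg1 hmq.le
      _ = mq := mul_one _
  have hη1 : η ≤ 1 := by linarith
  have hSD : SD (Lev n k) (Lev n (k + 1)) (mu (w r)) K L b (Q + 1) p R mq (mq * g) Γ
      (fun J : Fin (Q + 1) => Ak P (q + 1) J.1) (fun J => mq * η ^ (J.1 + 1))
      (fun J v => nbJ J.1 v) ((n + 1) ^ (2 * Q + 1)) ((Q + 1) * (n + 1) ^ (2 * Q + 1)) :=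
    mkSD (b0 := b) (fun J => hAK J.1 (by have := J.2; omega)) hb le_rfl hD1 hp0 hp1 hL hmq hτR hτm hR0
      (fun x => by rw [hP.mu_row r x, hR]) (fun y x h => pad_sub (hP.mu_pad r x y h)) hΓ hη0 hη1 hΛ0 hΛ
      hbn hlll
  set ρ : Fin K → Bool → Lev n k → ℝ := fun i σ x => ∑ y, f i σ x y - M with hρ
  have hρb : ∀ i σ x, |ρ i σ x| ≤ mq / 4 := by
    intro i σ x
    have h1 := hf.dev i σ 0 x (by omega)
    simp only [Ak] at h1
    simp only [ite_mul, one_mul, zero_mul, sum_ite_eq, mem_univ, if_true] at h1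
    exact h1.trans hB
  obtain ⟨fq, Uq, hq, _⟩ := stage S e act s0 hSD hp ρ hρb (χ := Empty) (fun c => c.elim)
      (fun c => c.elim) (fun c => c.elim) (fun c => c.elim) ((1 / (n : ℝ)) ^ 2) (fun c => c.elim) hπ
      (by simp)
  have hqpad : ∀ i σ x y, fq i σ x y ≠ 0 → pad (H r) x y := fun i σ x y h =>
    hP.mu_pad r x y (hq.supp i σ x y h)
  have hne : ∀ i σ x y, f i σ x y + fq i σ x y ≠ 0 → f i σ x y ≠ 0 ∨ fq i σ x y ≠ 0 := by
    intro i σ x y h
    by_contra hcon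
    push Not at hcon
    rw [hcon.1, hcon.2, add_zero] at h
    exact h rfl
  have hcross : ∀ i j σ x y, f i σ x y ≠ 0 → fq j σ x y ≠ 0 → False := by
    intro i j σ x y h h'
    obtain ⟨r', hr', hpad⟩ := hf.supp i σ x y h
    refine hP.pad_disj ?_ hpad (hqpad j σ x y h')
    intro hrr
    rw [hrr] at hr'
    exact lt_irrefl _ hr'
  refine ⟨fun i σ x y => f i σ x y + fq i σ x y, ⟨?_, ?_, ?_, ?_, ?_, ?_, ?_⟩⟩
  · exact fun i σ x y => add_nonneg (hf.nonneg i σ x y) (hq.nonneg i σ x y)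
  · intro i σ x y h
    rcases hne i σ x y h with h | h
    · obtain ⟨r', hr', hpad⟩ := hf.supp i σ x y h
      exact ⟨r', by omega, hpad⟩
    · exact ⟨r, by omega, hqpad i σ x y h⟩
  · intro i j σ x y hij h
    by_contra hcon
    rcases hne i σ x y h with h1 | h1
    · rcases hne j σ x y hcon with h2 | h2
      · exact h2 (hf.disj i j σ x y hij h1)
      · exact hcross i j σ x y h1 h2
    · rcases hne j σ x y hcon with h2 | h2
      · exact hcross j i σ x y h2 h1
      · exact h2 (hq.disj i j σ x y hij h1)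
  · intro i y
    simp only [sum_add_distrib]
    rw [hf.col i y]
    congr 1
    have h1 := hq.col i false (e i false y)
    have h2 := hq.col i true (e i true y)
    rw [Equiv.symm_apply_apply] at h1 h2
    by_cases h : Uq i y
    · rw [h1.1 h, h2.1 h]
    · rw [h1.2 h, h2.2 h]
  · intro i y
    simp only [sum_add_distrib]
    have h1 := hq.col i false (e i false y)
    rw [Equiv.symm_apply_apply] at h1
    have h2 := hf.colle i y
    have h3 : ∑ x, fq i false x (e i false y) ≤ mq * g := by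
      by_cases h : Uq i y
      · exact (h1.1 h).le
      · rw [h1.2 h]; positivity
    calc _ ≤ M * g + mq * g := add_le_add h2 h3
      _ = _ := by ring
  · intro i σ J v hJ
    have h1 := hq.dev i σ ⟨J, by omega⟩ v
    have h2 := hf.dev i σ (J + 1) v (by omega)
    simp only at h1
    have h3 : ∑ x, Ak P (q + 1) J v x * (∑ y, (f i σ x y + fq i σ x y) - (M + mq)) =
        ∑ x, Ak P (q + 1) J v x * (∑ y, fq i σ x y -
          (mq - ρ i σ x + ∑ x', PK S s0 R x x' * ρ i σ x')) +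
        ∑ x, Ak P q (J + 1) v x * (∑ y, f i σ x y - M) := by
      have h4 : ∑ x, Ak P q (J + 1) v x * (∑ y, f i σ x y - M) =
          ∑ x, Ak P (q + 1) J v x * ∑ x', PK S s0 R x x' * ρ i σ x' := by
        have h5 : ∀ u, Ak P q (J + 1) v u = ∑ z, Ak P (q + 1) J v z * PK S s0 R z u := by
          intro u
          rw [← Ak_succ, hPq]
        simp only [h5]
        simp_rw [sum_mul, mul_sum]
        rw [sum_comm]
        apply sum_congr rfl
        intro x _
        apply sum_congr rfl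
        intro x' _
        simp only [hρ]
        ring
      rw [h4, ← sum_add_distrib]
      apply sum_congr rfl
      intro x _
      rw [sum_add_distrib]
      simp only [hρ]
      ring
    rw [h3]
    refine (abs_add_le _ _).trans ?_
    linarith
  · intro i σ
    exact (hf.mix i σ).mono (hf.nonneg i σ) (fun x y => by
      have := hq.nonneg i σ x y
      linarith) le_rfl

end Smooth

end Pool.MP_0ccee8_co.Lib2
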