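import Mathlib
import Pool.Agent.Lib.MP_0ccee8_co2.Level5

/-! Simultaneous linking at one level. -/

set_option autoImplicit false
set_option linter.unusedSectionVars false

namespace Pool.MP_0ccee8_co.Lib2

open Finset
open Pool.MP_0ccee8_co.Lib (Lev Q mem_Q NF wt wt_nonneg wt_pos wt_row wt_col)

variable {n k m : ℕ}

theorem St.weaken {K : ℕ} {e : Fin K → Bool → (Lev n (k + 1) ≃ Lev n (k + 1))}
    {H : Fin m → (Finset (Fin n) × Fin n) → Prop} {c c' : ℕ} {M M' g δf : ℝ}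
    {A : ℕ → Lev n k → Lev n k → ℝ} {Jm Jm' : ℕ} {B B' : ℕ → ℝ}
    {f : Fin K → Bool → Lev n k → Lev n (k + 1) → ℝ} (h : St e H c M g δf A Jm B f) (hc : c = c')
    (hM : M = M') (hJ : Jm = Jm') (hB : ∀ J, B J ≤ B' J) : St e H c' M' g δf A Jm' B' f := by
  subst hc hM hJ
  exact ⟨h.nonneg, h.supp, h.disj, h.col, h.colle, fun i σ J v hJ => (h.dev i σ J v hJ).trans (hB J),
    h.mix⟩

/-- Simultaneous linking with pairwise disjoint edges. -/
def SL (n k K : ℕ) : Prop :=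
  ∀ ζ : Fin K → (Lev n (k + 1) ≃ Lev n (k + 1)),
    ∃ (u : Fin K → Lev n k → Lev n (k + 1)) (τ : Fin K → (Lev n k ≃ Lev n k)),
      (∀ i, Function.Injective (u i)) ∧
      (∀ i a, a.1 ⊆ (u i a).1 ∧ (τ i a).1 ⊆ (ζ i (u i a)).1) ∧
      (∀ i i' a, i ≠ i' → u i a ≠ u i' a) ∧
      (∀ i i' a a', i ≠ i' → τ i a = τ i' a' → ζ i (u i a) ≠ ζ i' (u i' a'))

/-- The two ends of the chains. -/
def ends {K : ℕ} (ζ : Fin K → (Lev n (k + 1) ≃ Lev n (k + 1))) (i : Fin K) (σ : Bool) :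
    Lev n (k + 1) ≃ Lev n (k + 1) :=
  match σ with
  | false => Equiv.refl _
  | true => ζ i

open Classical in
theorem SL_of_pools {K L b Q δ : ℕ} {H : Fin m → (Finset (Fin n) × Fin n) → Prop}
    {w : Fin m → Finset (Fin n) → Fin n → ℝ} (hP : PoolSys n k m H w) (hmQ : m = Q + 3)
    {Λ η Γ g lam p ε : ℝ} {κa : Type*} [Fintype κa] [Nonempty κa] (act : κa → Prop)
    (hp : ((univ.filter act).card : ℝ) = p * Fintype.card κa)
    (hk : 1 ≤ k) (hkn : 2 * (k + 1) ≤ n) (hK : 1 ≤ K) (hb : 1 ≤ b) (hL1 : 1 ≤ L)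
    (hLb : 2 * m * (L * b) ≤ k + 1)
    (hp0 : 0 < p) (hp1 : p ≤ 1) (hL : 2 * (p * K) + 4 * Γ ≤ L) (hΓ : 1 ≤ Γ)
    (hη0 : 0 < η) (hη32 : 32 * η ≤ 1) (hΛQ : 2 + 2 * m * ((Q : ℝ) ^ 2 + 4 * Q) ≤ Λ)
    (hΛ : Λ * η ≤ 1) (hbn : 9 * Γ ≤ b * η ^ 4)
    (hlll : 8 * Real.exp (-Γ) * (((n + 1) ^ (2 * Q + 1) *
      ((K + 1) * (2 * (K * ((Q + 1) * (n + 1) ^ (2 * Q + 1)) + 1))) : ℕ) : ℝ) ≤ 1)
    (hg : g = ((k : ℝ) + 1) / (p * ((n : ℝ) - k))) (hg1 : g ≤ 1)
    (hδb : 2 * δ ≤ b)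
    (hπ : 8 * Real.exp (-Γ) * (((K + 1) * (2 * (K * ((Q + 1) * (n + 1) ^ (2 * Q + 1)) + 1)) : ℕ) : ℝ)
      ≤ p * (1 / (n : ℝ)) ^ 2 / 8)
    (hlam0 : 0 ≤ lam) (hlam : 16 * K * Real.exp (-lam) * ((2 : ℝ) ^ n + (2 : ℝ) ^ n) ≤ 1)
    (hcB : lam * (2 * n + 2) * (8 * (n : ℝ) ^ 5) ≤ 2 ^ δ * (p * (1 / (n : ℝ)) ^ 2))
    (hε0 : 0 < ε) (hε1 : (1 + 2 * ε) * g ≤ 1)
    (hres : 4 * (16 * η) ^ (Q + 1) ≤ ε)
    (hδf1 : 3 * ε ≤ 1 / 4 * g / b / 2 ^ δ)
    (hδf2 : 3 * ε ≤ 1 / 4 * g / (b + b) * (p * (1 / (n : ℝ)) ^ 2 / 4) / (n : ℝ) ^ 5) :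
    SL n k K := by
  have hkR : (1:ℝ) ≤ k := by exact_mod_cast hk
  have hnR : 2 * ((k : ℝ) + 1) ≤ n := by exact_mod_cast hkn
  have hn0 : (0:ℝ) < n := by linarith
  have hD1 : 1 ≤ (n : ℝ) - k := by linarith
  have hD0 : 0 < (n : ℝ) - k := by linarith
  have hbR : (1:ℝ) ≤ b := by exact_mod_cast hb
  have hm0 : 0 < m := by omega
  have hQ0 : (0:ℝ) ≤ Q := Nat.cast_nonneg _
  have hmR0 : (0:ℝ) ≤ m := Nat.cast_nonneg _
  have hΛ0 : 0 < Λ := by
    have : 0 ≤ 2 * (m : ℝ) * ((Q : ℝ) ^ 2 + 4 * Q) := by positivity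
    linarith
  have hg0 : 0 < g := by rw [hg]; positivity
  set R : ℝ := ((n : ℝ) - k) / ((k : ℝ) + 1) with hR
  -- samplers
  have hs : ∀ r : Fin m, ∃ N : ℕ, ∃ _ : NeZero N,
      Nonempty (Sampler (Lev n k) (Lev n (k + 1)) (ZMod N) L b (mu (w r))) := fun r =>
    pool_sampler hP r hL1 hb hLb
  choose N hN hSam using hs
  have Sam : ∀ r : Fin m, Sampler (Lev n k) (Lev n (k + 1)) (ZMod (N r)) L b (mu (w r)) := fun r =>
    Classical.choice (hSam r)
  set s0 : Fin L := ⟨0, hL1⟩ with hs0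
  have hKer : ∀ r : Fin m, Ker (PK (Sam r) s0 R) (2 * m) b := by
    intro r
    have h1 : 0 < b := hb
    exact PK_Ker (Sam r) s0 h1 (by omega) hR (fun x => hP.mu_row r x)
      (fun y x h => pad_sub (hP.mu_pad r x y h)) (fun y x => hP.mu_le r x y) (by positivity)
  set P : ℕ → Lev n k → Lev n k → ℝ := fun q =>
    if h : q + 2 < m then PK (Sam ⟨q + 2, h⟩) s0 R else PK (Sam ⟨0, hm0⟩) s0 R with hPdef
  have hPK : ∀ q, Ker (P q) (2 * m) b := by
    intro q
    simp only [hPdef]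
    split_ifs
    · exact hKer _
    · exact hKer _
  have hbD : (b : ℝ) ≤ (n : ℝ) - k := by
    have h1 : b ≤ k + 1 := by
      have h2 : 1 * b ≤ 2 * m * (L * b) := by
        calc 1 * b ≤ L * b := Nat.mul_le_mul_right _ hL1
          _ = 1 * (L * b) := (one_mul _).symm
          _ ≤ 2 * m * (L * b) := Nat.mul_le_mul_right _ (by omega)
      omega
    have h2 : (b : ℝ) ≤ k + 1 := by exact_mod_cast h1
    linarith
  have hAKB : ∀ q J, J ≤ Q → KB (Ak P q J) Λ b J := fun q J hJ =>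
    Ak_KB hPK hbR hbD (by linarith) (by positivity) Q hΛQ q J hJ
  -- masses
  set Sm : ℕ → ℝ := fun q => ∑ t ∈ range (q + 1), (16 * η) ^ t with hSm
  have h16 : 0 < 16 * η := by positivity
  have hSm1 : 1 ≤ Sm Q := by
    simp only [hSm]
    rw [sum_range_succ']
    simp only [pow_zero]
    have : 0 ≤ ∑ t ∈ range Q, (16 * η) ^ (t + 1) := sum_nonneg (fun t _ => by positivity)
    linarith
  have hSm2 : Sm Q ≤ 2 := by
    have h1 : ∀ q, Sm q ≤ 2 - (1 / 2) ^ q := by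
      intro q
      induction q with
      | zero => simp [hSm]; norm_num
      | succ q ih =>
        have h2 : Sm (q + 1) = Sm q + (16 * η) ^ (q + 1) := by
          simp only [hSm]; rw [sum_range_succ]
        have h3 : (16 * η) ^ (q + 1) ≤ (1 / 2) ^ (q + 1) :=
          pow_le_pow_left₀ h16.le (by linarith) _
        have h4 : (1 / 2 : ℝ) ^ (q + 1) = 1 / 2 * (1 / 2) ^ q := by rw [pow_succ]; ring
        rw [h2]; linarith
    have := h1 Q
    have h2 : (0:ℝ) ≤ (1 / 2) ^ Q := by positivity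
    linarith
  set m0 : ℝ := (1 + 2 * ε) / Sm Q with hm0def
  have hm00 : 0 < m0 := by
    rw [hm0def]
    apply div_pos (by linarith) (by linarith)
  have hm0half : 1 / 2 ≤ m0 := by
    rw [hm0def, le_div_iff₀ (by linarith)]
    linarith
  have hm0S : m0 * Sm Q = 1 + 2 * ε := by
    rw [hm0def, div_mul_cancel₀ _ (by linarith)]
  intro ζ
  have hnpos : (0:ℝ) < (n : ℝ) ^ 5 := by positivity
  obtain ⟨f0, hf0⟩ := base hP ⟨0, hm0⟩ ⟨1, by omega⟩ ⟨2, by omega⟩ (by simp) (by simp) (by simp) 3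
    (by simp) (by simp) (by simp) (Sam ⟨0, hm0⟩) (Sam ⟨1, by omega⟩) (Sam ⟨2, by omega⟩) s0
    (ends ζ) act hp (A := Ak P 0) (Λ := Λ) (η := η) (Γ := Γ) (m0 := m0) (g := g) (lam := lam)
    (δf := 3 * ε) (δ := δ) (fun J hJ => hAKB 0 J hJ) (fun v x => rfl) hk hkn hK hb (by omega) hp0 hp1 hL hΓ
    hη0 (by linarith) hΛ0 hΛ hbn hlll hg hg1 hm00 hδb hπ hlam0 hlam hcB (by positivity) (by
      refine hδf1.trans ?_
      apply div_le_div_of_nonneg_right _ (by positivity)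
      apply div_le_div_of_nonneg_right _ (by positivity)
      apply mul_le_mul_of_nonneg_right _ hg0.le
      linarith) (by
      refine hδf2.trans ?_
      apply div_le_div_of_nonneg_right _ hnpos.le
      apply mul_le_mul_of_nonneg_right _ (by positivity)
      apply div_le_div_of_nonneg_right _ (by positivity)
      apply mul_le_mul_of_nonneg_right _ hg0.le
      linarith)
  have hall : ∀ q ≤ Q, ∃ f, St (ends ζ) H (q + 3) (m0 * Sm q) g (3 * ε) (Ak P q) (Q - q)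
      (fun J => 16 / 15 * m0 * 16 ^ q * η ^ (q + J + 1)) f := by
    intro q
    induction q with
    | zero =>
      intro _
      refine ⟨f0, hf0.weaken (by omega) ?_ (by omega) ?_⟩
      · simp [hSm]
      · intro J
        simp
    | succ q ih =>
      intro hq
      obtain ⟨f, hf⟩ := ih (by omega)
      have hr : q + 1 + 2 < m := by omega
      have hf' : St (ends ζ) H ((⟨q + 1 + 2, hr⟩ : Fin m).val) (m0 * Sm q) g (3 * ε) (Ak P q)
          ((Q - (q + 1)) + 1) (fun J => 16 / 15 * m0 * 16 ^ q * η ^ (q + J + 1)) f :=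
        hf.weaken (by simp) rfl (by omega) (fun _ => le_rfl)
      obtain ⟨f', hf''⟩ := smooth_step hP ⟨q + 1 + 2, hr⟩ (Sam ⟨q + 1 + 2, hr⟩) s0 (ends ζ) act hp
        (P := P) q (Λ := Λ) (η := η) (Γ := Γ) (mq := m0 * (16 * η) ^ (q + 1)) hR (by
          simp only [hPdef]
          rw [dif_pos hr]) (fun J hJ => hAKB (q + 1) J hJ) hk hkn hb hp0 hp1 hL hΓ hη0 (by linarith)
          hΛ0 hΛ hbn hlll hg hg1 (by positivity) hπ (by omega) hf' (by
          simp only [add_zero]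
          have e1 : (16 * η) ^ (q + 1) = 16 * (16 ^ q * η ^ (q + 1)) := by
            rw [mul_pow, pow_succ (16:ℝ)]; ring
          rw [e1]
          have e2 : 0 ≤ m0 * (16 ^ q * η ^ (q + 1)) := by positivity
          linarith)
      refine ⟨f', hf''.weaken (by simp) ?_ rfl ?_⟩
      · simp only [hSm]
        rw [sum_range_succ _ (q + 1)]
        ring
      · intro J
        apply le_of_eq
        rw [mul_pow, pow_succ (16:ℝ) q, show q + (J + 1) + 1 = q + J + 1 + 1 by ring,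
          show q + 1 + J + 1 = q + J + 1 + 1 by ring,
          show η ^ (q + J + 1 + 1) = η ^ (q + 1) * η ^ (J + 1) by rw [← pow_add]; congr 1; ring]
        ring
  obtain ⟨f, hf⟩ := hall Q le_rfl
  -- rows
  have hrow : ∀ i σ x, 1 ≤ ∑ y, f i σ x y ∧ ∑ y, f i σ x y ≤ 1 + 3 * ε := by
    intro i σ x
    have h1 := hf.dev i σ 0 x (by omega)
    simp only [Ak] at h1
    simp only [ite_mul, one_mul, zero_mul, sum_ite_eq, mem_univ, if_true, add_zero] at h1
    rw [hm0S] at h1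
    have h2 : 16 / 15 * m0 * 16 ^ Q * η ^ (Q + 1) ≤ ε := by
      refine le_trans ?_ hres
      have e1 : (16 * η) ^ (Q + 1) = 16 * (16 ^ Q * η ^ (Q + 1)) := by
        rw [mul_pow, pow_succ (16:ℝ)]; ring
      rw [e1]
      have hm0le : m0 ≤ 1 + 2 * ε := by
        rw [hm0def]
        exact div_le_self (by linarith) hSm1
      have hεg : ε ≤ 1 := by
        by_contra hcon
        push Not at hcon
        have h5 : 3 * ε ≤ 1 / 4 * g / b / 2 ^ δ := hδf1
        have h6 : 1 / 4 * g / b / 2 ^ δ ≤ 1 / 4 * g / b := div_le_self (by positivity) (one_le_pow₀ (by norm_num))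
        have h7 : 1 / 4 * g / b ≤ 1 / 4 * g := div_le_self (by positivity) hbR
        linarith
      have e2 : 0 ≤ (16:ℝ) ^ Q * η ^ (Q + 1) := by positivity
      calc 16 / 15 * m0 * 16 ^ Q * η ^ (Q + 1) = (16 / 15 * m0) * (16 ^ Q * η ^ (Q + 1)) := by ring
        _ ≤ 64 * (16 ^ Q * η ^ (Q + 1)) := mul_le_mul_of_nonneg_right (by linarith) e2
        _ = _ := by ring
    obtain ⟨h3, h4⟩ := abs_le.1 h1
    constructor <;> linarith
  have hlink : ∀ i : Fin K, ∃ (u : Lev n k → Lev n (k + 1)) (τ : Lev n k ≃ Lev n k),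
      Function.Injective u ∧ ∀ a, 0 < f i false a (u a) ∧ 0 < f i true (τ a) (ζ i (u a)) := by
    intro i
    refine hall_final (f := f i false) (f' := f i true) (ζ := ζ i)
      (t := fun y => ∑ x, f i false x y) (δ := 3 * ε) (hf.nonneg i false) (hf.nonneg i true)
      (fun y => rfl) (fun y => ?_) (fun y => ?_) (fun x => (hrow i false x).1)
      (fun x => (hrow i false x).2) (fun x => (hrow i true x).1) (fun x => (hrow i true x).2)
      (hf.mix i false) (hf.mix i true)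
    · have := hf.col i y
      simp only [ends, Equiv.refl_apply] at this
      exact this.symm
    · have := hf.colle i y
      simp only [ends, Equiv.refl_apply] at this
      rw [hm0S] at this
      exact this.trans hε1
  choose u τ hu huτ using hlink
  have hfsub : ∀ i σ x y, 0 < f i σ x y → x.1 ⊆ y.1 := by
    intro i σ x y h
    obtain ⟨r, _, hr⟩ := hf.supp i σ x y h.ne'
    exact pad_sub hr
  refine ⟨u, τ, hu, ?_, ?_, ?_⟩
  · intro i a
    exact ⟨hfsub _ _ _ _ (huτ i a).1, hfsub _ _ _ _ (huτ i a).2⟩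
  · intro i i' a hne heq
    have h1 := (huτ i a).1
    have h2 := (huτ i' a).1
    rw [← heq] at h2
    exact h2.ne' (hf.disj i i' false a (u i a) hne h1.ne')
  · intro i i' a a' hne heq heq2
    have h1 := (huτ i a).2
    have h2 := (huτ i' a').2
    rw [← heq, ← heq2] at h2
    exact h2.ne' (hf.disj i i' true _ _ hne h1.ne')

end Pool.MP_0ccee8_co.Lib2
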