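import Mathlib
import Pool.Agent.Lib.MP_0ccee8_co.Low2
import Pool.Agent.Lib.MP_0ccee8_co2.LLL

/-! Simultaneous linking at the low levels. -/

set_option autoImplicit false
set_option linter.unusedSectionVars false

namespace Pool.MP_0ccee8_co.Lib2

open Finset
open Pool.MP_0ccee8_co.Lib (Lev LL expansion link_hall sum_bound)

section Tails

variable {V κ : Type*} [Fintype V] [DecidableEq V] [Fintype κ] [Nonempty κ]

open Classical in
theorem P_eq_E (A : (V → κ) → Prop) : P A = E (fun φ => if A φ then (1:ℝ) else 0) := rfl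

open Classical in
theorem low_tail {β : Type*} [DecidableEq β] (T : Finset β) (blk : β → Finset V)
    (hdisj : ∀ b ∈ T, ∀ c ∈ T, b ≠ c → Disjoint (blk b) (blk c))
    (A : β → (V → κ) → Prop) (hdep : ∀ b ∈ T, Dep (A b) (blk b)) (c t : ℝ)
    (hc : ∀ b ∈ T, c ≤ P (A b)) :
    P (fun ω => ((T.filter (fun b => A b ω)).card : ℝ) < t) ≤
      Real.exp t * Real.exp (-(T.card * (c / 2))) := by
  set Z : β → (V → κ) → ℝ := fun b ω => if A b ω then 1 else 0 with hZ
  have hexp : ∀ b ω, Real.exp (-Z b ω) ≤ 1 - (1 / 2) * Z b ω := by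
    intro b ω
    simp only [hZ]
    split_ifs
    · have := Real.exp_neg_one_lt_d9
      norm_num at this ⊢
      linarith
    · simp
  have hcard : ∀ ω, ((T.filter (fun b => A b ω)).card : ℝ) = ∑ b ∈ T, Z b ω := by
    intro ω
    simp only [hZ]
    rw [sum_boole]
  have h1 : P (fun ω => ((T.filter (fun b => A b ω)).card : ℝ) < t) ≤
      Real.exp t * E (fun ω => Real.exp (1 * ∑ b ∈ T, -Z b ω)) := by
    have := P_exp (fun ω : V → κ => ∑ b ∈ T, -Z b ω) 1 (-t) zero_le_one
    simp only [mul_neg, one_mul, neg_neg] at this ⊢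
    refine le_trans (P_mono (fun ω hω => ?_)) this
    rw [sum_neg_distrib, ← hcard]
    linarith
  refine h1.trans ?_
  apply mul_le_mul_of_nonneg_left _ (Real.exp_pos _).le
  have hprod : ∀ ω : V → κ, Real.exp (1 * ∑ b ∈ T, -Z b ω) = ∏ b ∈ T, Real.exp (-Z b ω) := by
    intro ω
    rw [one_mul, Real.exp_sum]
  rw [E_congr hprod, E_prod T blk hdisj (fun b ω => Real.exp (-Z b ω))]
  · calc ∏ b ∈ T, E (fun ω => Real.exp (-Z b ω)) ≤ ∏ _b ∈ T, Real.exp (-(c / 2)) := by
          refine prod_le_prod (fun b _ => E_nonneg (fun φ => (Real.exp_pos _).le)) ?_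
          intro b hb
          have h2 : E (fun ω => Real.exp (-Z b ω)) ≤ E (fun ω => 1 - (1 / 2) * Z b ω) :=
            E_mono (fun ω => hexp b ω)
          rw [E_sub, E_const, E_mul_left] at h2
          have h3 : E (Z b) = P (A b) := rfl
          rw [h3] at h2
          have h4 := hc b hb
          have h5 := Real.add_one_le_exp (-(c / 2))
          linarith
      _ = Real.exp (-(T.card * (c / 2))) := by
          rw [prod_const, ← Real.exp_nat_mul]; congr 1; ring
  · intro b hb φ φ' h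
    have := hdep b hb φ φ' h
    simp only [hZ]
    rw [this]

open Classical in
theorem up_tail {β : Type*} [DecidableEq β] (T : Finset β) (blk : β → Finset V)
    (hdisj : ∀ b ∈ T, ∀ c ∈ T, b ≠ c → Disjoint (blk b) (blk c))
    (A : β → (V → κ) → Prop) (hdep : ∀ b ∈ T, Dep (A b) (blk b)) (c t : ℝ)
    (hc : ∀ b ∈ T, P (A b) ≤ c) :
    P (fun ω => t < ((T.filter (fun b => A b ω)).card : ℝ)) ≤
      Real.exp (-t) * Real.exp (T.card * (2 * c)) := by
  set Z : β → (V → κ) → ℝ := fun b ω => if A b ω then 1 else 0 with hZ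
  have hexp : ∀ b ω, Real.exp (Z b ω) ≤ 1 + 2 * Z b ω := by
    intro b ω
    simp only [hZ]
    split_ifs
    · have := Real.exp_one_lt_d9
      linarith
    · simp
  have hcard : ∀ ω, ((T.filter (fun b => A b ω)).card : ℝ) = ∑ b ∈ T, Z b ω := by
    intro ω
    simp only [hZ]
    rw [sum_boole]
  have h1 : P (fun ω => t < ((T.filter (fun b => A b ω)).card : ℝ)) ≤
      Real.exp (-t) * E (fun ω => Real.exp (1 * ∑ b ∈ T, Z b ω)) := by
    have := P_exp (fun ω : V → κ => ∑ b ∈ T, Z b ω) 1 t zero_le_one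
    simp only [one_mul] at this ⊢
    refine le_trans (P_mono (fun ω hω => ?_)) this
    rw [← hcard]
    exact hω
  refine h1.trans ?_
  apply mul_le_mul_of_nonneg_left _ (Real.exp_pos _).le
  have hprod : ∀ ω : V → κ, Real.exp (1 * ∑ b ∈ T, Z b ω) = ∏ b ∈ T, Real.exp (Z b ω) := by
    intro ω
    rw [one_mul, Real.exp_sum]
  rw [E_congr hprod, E_prod T blk hdisj (fun b ω => Real.exp (Z b ω))]
  · calc ∏ b ∈ T, E (fun ω => Real.exp (Z b ω)) ≤ ∏ _b ∈ T, Real.exp (2 * c) := by
          refine prod_le_prod (fun b _ => E_nonneg (fun φ => (Real.exp_pos _).le)) ?_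
          intro b hb
          have h2 : E (fun ω => Real.exp (Z b ω)) ≤ E (fun ω => 1 + 2 * Z b ω) :=
            E_mono (fun ω => hexp b ω)
          rw [E_add, E_const, E_mul_left] at h2
          have h3 : E (Z b) = P (A b) := rfl
          rw [h3] at h2
          have h4 := hc b hb
          have h5 := Real.add_one_le_exp (2 * c)
          linarith
      _ = Real.exp (T.card * (2 * c)) := by
          rw [prod_const, ← Real.exp_nat_mul]
  · intro b hb φ φ' h
    have := hdep b hb φ φ' h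
    simp only [hZ]
    rw [this]

end Tails

section Avail

variable {Y : Type*} [Fintype Y] [DecidableEq Y] {K N : ℕ} [NeZero N]

/-- the chain is available -/
def av (ζ : Fin K → (Y ≃ Y)) (ω : Fin K × Y → Fin N) (i : Fin K) (b : Y) : Prop :=
  ω (i, b) = 0 ∧ (∀ j, j ≠ i → ω (j, b) ≠ 0) ∧ ∀ j, j ≠ i → ω (j, (ζ j).symm (ζ i b)) ≠ 0

theorem P_zero (v : Fin K × Y) : P (fun ω : Fin K × Y → Fin N => ω v = 0) = 1 / N := by
  classical
  rw [P_eq_E]
  have h := E_coord (V := Fin K × Y) (κ := Fin N) v (fun a => if a = 0 then (1:ℝ) else 0)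
  have h2 : ∑ a : Fin N, (if a = 0 then (1:ℝ) else 0) = 1 := by simp
  rw [h2, Fintype.card_fin] at h
  rw [← h]
  apply E_congr
  intro φ
  by_cases h : φ v = 0 <;> simp [h]

theorem P_two (v v' : Fin K × Y) (h : v ≠ v') :
    P (fun ω : Fin K × Y → Fin N => ω v = 0 ∧ ω v' = 0) = 1 / N * (1 / N) := by
  have := P_indep (V := Fin K × Y) (κ := Fin N) (A := fun ω => ω v = 0) (B := fun ω => ω v' = 0)
    (S := {v}) (T := {v'}) (fun φ ψ h => by simp only; rw [h v (mem_singleton_self _)])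
    (fun φ ψ h => by simp only; rw [h v' (mem_singleton_self _)]) (by simpa using h)
  rw [this, P_zero, P_zero]

open Classical in
theorem avail_tail (ζ : Fin K → (Y ≃ Y)) (hKN : 64 * K ≤ N) (i : Fin K) (T : Finset Y) :
    P (fun ω : Fin K × Y → Fin N => ((T.filter (fun b => av ζ ω i b)).card : ℝ) < T.card * (1 / (8 * N)))
      ≤ 3 * Real.exp (-(T.card * (1 / (32 * N)))) := by
  have hN : 0 < N := Nat.pos_of_ne_zero (NeZero.ne N)
  have hNR : (0:ℝ) < N := by exact_mod_cast hN
  have hKNR : 64 * (K : ℝ) ≤ N := by exact_mod_cast hKN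
  have hc0 : (0:ℝ) ≤ T.card := Nat.cast_nonneg _
  -- active
  have hA := low_tail (V := Fin K × Y) (κ := Fin N) T (fun b => {(i, b)}) (by
    intro b _ c _ h
    rw [disjoint_singleton]
    intro h'
    simp only [Prod.mk.injEq, true_and] at h'
    exact h h') (fun b ω => ω (i, b) = 0) (fun b _ φ ψ h => by
      simp only; rw [h _ (mem_singleton_self _)]) (1 / N) (T.card * (1 / (4 * N)))
      (fun b _ => (P_zero (i, b)).ge)
  -- blocked at the bottom
  have hsumbd : ∀ (F : Fin K → Fin K × Y) (b : Y), (∀ j, j ≠ i → F j ≠ (i, b)) →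
      P (fun ω : Fin K × Y → Fin N => ω (i, b) = 0 ∧ ∃ j, j ≠ i ∧ ω (F j) = 0) ≤
      K * (1 / N * (1 / N)) := by
    intro F b hF
    have h1 : P (fun ω : Fin K × Y → Fin N => ω (i, b) = 0 ∧ ∃ j, j ≠ i ∧ ω (F j) = 0) ≤
        P (fun ω : Fin K × Y → Fin N => ∃ j ∈ univ.filter (fun j => j ≠ i),
          (ω (i, b) = 0 ∧ ω (F j) = 0)) := by
      apply P_mono
      rintro ω ⟨h1, j, hj, h2⟩
      exact ⟨j, mem_filter.2 ⟨mem_univ _, hj⟩, h1, h2⟩
    refine h1.trans ((P_exists _ _).trans ?_)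
    calc ∑ j ∈ univ.filter (fun j => j ≠ i), P (fun ω : Fin K × Y → Fin N => ω (i, b) = 0 ∧ ω (F j) = 0)
        = ∑ j ∈ univ.filter (fun j => j ≠ i), (1 / (N:ℝ) * (1 / N)) := by
          apply sum_congr rfl
          intro j hj
          exact P_two _ _ (fun h => hF j (mem_filter.1 hj).2 h.symm)
      _ ≤ ∑ _j : Fin K, (1 / (N:ℝ) * (1 / N)) :=
          sum_le_sum_of_subset_of_nonneg (filter_subset _ _) (fun _ _ _ => by positivity)
      _ = _ := by simp
  have hB := up_tail (V := Fin K × Y) (κ := Fin N) T (fun b => univ.image (fun j => (j, b))) (by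
    intro b _ c _ h
    rw [disjoint_left]
    intro v hv hv'
    rw [mem_image] at hv hv'
    obtain ⟨j, _, rfl⟩ := hv
    obtain ⟨j', _, h'⟩ := hv'
    simp only [Prod.mk.injEq] at h'
    exact h h'.2.symm) (fun b ω => ω (i, b) = 0 ∧ ∃ j, j ≠ i ∧ ω (j, b) = 0) (fun b _ φ ψ h => by
      have h2 : ∀ j, φ (j, b) = ψ (j, b) := fun j => h _ (mem_image_of_mem _ (mem_univ j))
      simp only [h2]) (K * (1 / N * (1 / N))) (T.card * (1 / (16 * N)))
      (fun b _ => hsumbd (fun j => (j, b)) b (fun j hj h => by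
        simp only [Prod.mk.injEq, and_true] at h
        exact hj h))
  have hC := up_tail (V := Fin K × Y) (κ := Fin N) T
    (fun b => univ.image (fun j => (j, (ζ j).symm (ζ i b)))) (by
    intro b _ c _ h
    rw [disjoint_left]
    intro v hv hv'
    rw [mem_image] at hv hv'
    obtain ⟨j, _, rfl⟩ := hv
    obtain ⟨j', _, h'⟩ := hv'
    simp only [Prod.mk.injEq] at h'
    obtain ⟨h1, h2⟩ := h'
    subst h1
    exact h ((ζ i).injective ((ζ j').symm.injective h2.symm)))
    (fun b ω => ω (i, b) = 0 ∧ ∃ j, j ≠ i ∧ ω (j, (ζ j).symm (ζ i b)) = 0) (fun b _ φ ψ h => by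
      have h2 : ∀ j, φ (j, (ζ j).symm (ζ i b)) = ψ (j, (ζ j).symm (ζ i b)) :=
        fun j => h _ (mem_image_of_mem _ (mem_univ j))
      have h3 : φ (i, b) = ψ (i, b) := by
        have := h2 i
        rwa [Equiv.symm_apply_apply] at this
      simp only [h2, h3]) (K * (1 / N * (1 / N))) (T.card * (1 / (16 * N)))
      (fun b _ => hsumbd (fun j => (j, (ζ j).symm (ζ i b))) b (fun j hj h => by
        simp only [Prod.mk.injEq] at h
        exact hj h.1))
  have e0 : K * (1 / (N:ℝ) * (1 / N)) ≤ 1 / (64 * N) := by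
    rw [le_div_iff₀ (by positivity)]
    have : (K : ℝ) * (1 / N * (1 / N)) * (64 * N) = 64 * K / N := by field_simp
    rw [this, div_le_one hNR]
    exact hKNR
  have e1 : Real.exp (T.card * (1 / (4 * (N:ℝ)))) * Real.exp (-(T.card * (1 / (N:ℝ) / 2))) ≤
      Real.exp (-(T.card * (1 / (32 * N)))) := by
    rw [← Real.exp_add]
    apply Real.exp_le_exp.2
    have h1 : (T.card : ℝ) * (1 / (4 * N)) = 8 * (T.card * (1 / (32 * N))) := by field_simp; ring
    have h2 : (T.card : ℝ) * (1 / N / 2) = 16 * (T.card * (1 / (32 * N))) := by field_simp; ring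
    have h3 : 0 ≤ (T.card : ℝ) * (1 / (32 * N)) := by positivity
    rw [h1, h2]; linarith
  have e2 : Real.exp (-(T.card * (1 / (16 * (N:ℝ))))) *
      Real.exp (T.card * (2 * (K * (1 / (N:ℝ) * (1 / N))))) ≤ Real.exp (-(T.card * (1 / (32 * N)))) := by
    rw [← Real.exp_add]
    apply Real.exp_le_exp.2
    have h1 : (T.card : ℝ) * (1 / (16 * N)) = 2 * (T.card * (1 / (32 * N))) := by field_simp; ring
    have h2 : (T.card : ℝ) * (2 * (K * (1 / N * (1 / N)))) ≤ T.card * (2 * (1 / (64 * N))) := by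
      apply mul_le_mul_of_nonneg_left _ hc0
      linarith
    have h3 : (T.card : ℝ) * (2 * (1 / (64 * N))) = T.card * (1 / (32 * N)) := by
      field_simp; ring
    rw [h1]; linarith
  have hfin : P (fun ω : Fin K × Y → Fin N =>
      ((T.filter (fun b => av ζ ω i b)).card : ℝ) < T.card * (1 / (8 * N))) ≤
      P (fun ω : Fin K × Y → Fin N =>
        ((T.filter (fun b => ω (i, b) = 0)).card : ℝ) < T.card * (1 / (4 * N))) +
      (P (fun ω : Fin K × Y → Fin N => T.card * (1 / (16 * (N:ℝ))) <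
        ((T.filter (fun b => ω (i, b) = 0 ∧ ∃ j, j ≠ i ∧ ω (j, b) = 0)).card : ℝ)) +
      P (fun ω : Fin K × Y → Fin N => T.card * (1 / (16 * (N:ℝ))) <
        ((T.filter (fun b => ω (i, b) = 0 ∧ ∃ j, j ≠ i ∧ ω (j, (ζ j).symm (ζ i b)) = 0)).card : ℝ))) := by
    refine le_trans (P_mono (fun ω hω => ?_)) ((P_or _ _).trans (add_le_add le_rfl (P_or _ _)))
    by_contra hcon
    push Not at hcon
    obtain ⟨h1, h2, h3⟩ := hcon
    have h4 : T.filter (fun b => ω (i, b) = 0) ⊆ T.filter (fun b => av ζ ω i b) ∪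
        (T.filter (fun b => ω (i, b) = 0 ∧ ∃ j, j ≠ i ∧ ω (j, b) = 0) ∪
        T.filter (fun b => ω (i, b) = 0 ∧ ∃ j, j ≠ i ∧ ω (j, (ζ j).symm (ζ i b)) = 0)) := by
      intro b hb
      rw [mem_filter] at hb
      rw [mem_union, mem_union, mem_filter, mem_filter, mem_filter]
      by_cases h5 : ∃ j, j ≠ i ∧ ω (j, b) = 0
      · exact Or.inr (Or.inl ⟨hb.1, hb.2, h5⟩)
      · by_cases h6 : ∃ j, j ≠ i ∧ ω (j, (ζ j).symm (ζ i b)) = 0
        · exact Or.inr (Or.inr ⟨hb.1, hb.2, h6⟩)
        · push Not at h5 h6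
          exact Or.inl ⟨hb.1, hb.2, h5, h6⟩
    have h5 := (card_le_card h4).trans ((card_union_le _ _).trans
      (Nat.add_le_add_left (card_union_le _ _) _))
    have h6 : ((T.filter (fun b => ω (i, b) = 0)).card : ℝ) ≤
        (T.filter (fun b => av ζ ω i b)).card +
        ((T.filter (fun b => ω (i, b) = 0 ∧ ∃ j, j ≠ i ∧ ω (j, b) = 0)).card +
        (T.filter (fun b => ω (i, b) = 0 ∧ ∃ j, j ≠ i ∧ ω (j, (ζ j).symm (ζ i b)) = 0)).card) := by
      exact_mod_cast h5
    have g1 : (T.card : ℝ) * (1 / (4 * N)) = 4 * (T.card * (1 / (16 * N))) := by field_simp; ring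
    have g2 : (T.card : ℝ) * (1 / (8 * N)) = 2 * (T.card * (1 / (16 * N))) := by field_simp; ring
    rw [g1] at h1
    rw [g2] at hω
    linarith
  refine hfin.trans ?_
  have k1 := hA.trans e1
  have k2 := hB.trans e2
  have k3 := hC.trans e2
  have k4 := add_le_add k1 (add_le_add k2 k3)
  have k5 : Real.exp (-((T.card : ℝ) * (1 / (32 * N)))) + (Real.exp (-((T.card : ℝ) * (1 / (32 * N)))) +
      Real.exp (-((T.card : ℝ) * (1 / (32 * N))))) = 3 * Real.exp (-(T.card * (1 / (32 * N)))) := by ring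
  rw [k5] at k4
  convert k4

end Avail

variable {n : ℕ}

theorem LL_low {k K L : ℕ} (hK : 1 ≤ K) (hn : 3 * (k + 1) ^ 2 ≤ n)
    (hL : 6 * (k + 1) ^ 2 * L ≤ n - k) (hL2 : 512 * K ≤ L)
    (hβ : 3 * Real.exp (-((L : ℝ) * (1 / (32 * (64 * K))))) ≤
      (1 / (8 * K * Fintype.card (Lev n k))) ^ 2) :
    LL n k K := by
  classical
  intro ζ
  have hkn : k ≤ n := by nlinarith
  have hcX : 1 ≤ Fintype.card (Lev n k) := by
    rw [Fintype.card_finset_len, Fintype.card_fin]
    exact Nat.choose_pos hkn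
  have hKR : (1 : ℝ) ≤ K := by exact_mod_cast hK
  have hcXR : (1 : ℝ) ≤ Fintype.card (Lev n k) := by exact_mod_cast hcX
  set γ : ℝ := 1 / (8 * K * Fintype.card (Lev n k)) with hγ
  have hγ0 : 0 < γ := by rw [hγ]; positivity
  have hγ1 : γ ≤ 1 := by
    rw [hγ, div_le_one (by positivity)]
    nlinarith
  have : NeZero (64 * K) := ⟨by omega⟩
  have hexp0 : 0 < 3 * Real.exp (-((L : ℝ) * (1 / (32 * (64 * K))))) := by positivity
  have hexp1 : 3 * Real.exp (-((L : ℝ) * (1 / (32 * (64 * K))))) ≤ 1 := by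
    refine hβ.trans ?_
    exact pow_le_one₀ hγ0.le hγ1
  -- the sets
  set T : Fin K → Finset (Lev n k) → Finset (Lev n k) → Finset (Lev n (k + 1)) := fun i Z P =>
    univ.filter (fun b : Lev n (k + 1) => (∃ a ∈ Z, a.1 ⊆ b.1) ∧ ∃ a : Lev n k, a ∉ P ∧ a.1 ⊆ (ζ i b).1)
    with hT
  -- tail for a large set
  have htail : ∀ (i : Fin K) (S : Finset (Lev n (k + 1))) (z : ℕ), 1 ≤ z → L * z ≤ S.card →
      P (fun ω : Fin K × Lev n (k + 1) → Fin (64 * K) =>
        ((S.filter (fun b => av ζ ω i b)).card : ℝ) < z) ≤ (γ ^ 2) ^ z := by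
    intro i S z hz hSz
    have hSzR : (L : ℝ) * z ≤ S.card := by exact_mod_cast hSz
    have hzR : (1:ℝ) ≤ z := by exact_mod_cast hz
    have hL2R : 512 * (K : ℝ) ≤ L := by exact_mod_cast hL2
    have h1 := avail_tail (N := 64 * K) ζ le_rfl i S
    have h2 : (z : ℝ) ≤ S.card * (1 / (8 * ((64 * K : ℕ) : ℝ))) := by
      push_cast
      rw [mul_one_div, le_div_iff₀ (by positivity)]
      calc (z : ℝ) * (8 * (64 * K)) = (512 * K) * z := by ring
        _ ≤ L * z := mul_le_mul_of_nonneg_right hL2R (by positivity)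
        _ ≤ _ := hSzR
    refine (P_mono (fun ω hω => lt_of_lt_of_le hω h2)).trans (h1.trans ?_)
    calc 3 * Real.exp (-(S.card * (1 / (32 * ((64 * K : ℕ) : ℝ)))))
        ≤ 3 * Real.exp (-((L : ℝ) * z * (1 / (32 * (64 * K))))) := by
          apply mul_le_mul_of_nonneg_left _ (by norm_num)
          apply Real.exp_le_exp.2
          rw [neg_le_neg_iff]
          push_cast
          exact mul_le_mul_of_nonneg_right hSzR (by positivity)
      _ ≤ 3 ^ z * Real.exp (-((L : ℝ) * z * (1 / (32 * (64 * K))))) := by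
          apply mul_le_mul_of_nonneg_right _ (Real.exp_pos _).le
          exact le_self_pow₀ (by norm_num) (by omega)
      _ = (3 * Real.exp (-((L : ℝ) * (1 / (32 * (64 * K)))))) ^ z := by
          rw [mul_pow, ← Real.exp_nat_mul]
          congr 2
          ring
      _ ≤ _ := pow_le_pow_left₀ hexp0.le hβ z
  -- the events
  have hev : ∀ (i : Fin K) (Z P' : Finset (Lev n k)),
      P (fun ω : Fin K × Lev n (k + 1) → Fin (64 * K) => P'.card < Z.card ∧
        (((T i Z P').filter (fun b => av ζ ω i b)).card : ℝ) < (Z.card : ℝ) - P'.card) ≤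
      (if Z = ∅ then 0 else γ ^ Z.card * γ ^ P'.card) +
        (if P'ᶜ = ∅ then 0 else γ ^ (P'ᶜ).card * γ ^ (Zᶜ).card) := by
    intro i Z P'
    have hg1 : 0 ≤ (if Z = ∅ then 0 else γ ^ Z.card * γ ^ P'.card) := by split_ifs <;> positivity
    have hg2 : 0 ≤ (if P'ᶜ = ∅ then 0 else γ ^ (P'ᶜ).card * γ ^ (Zᶜ).card) := by
      split_ifs <;> positivity
    by_cases hPZ : P'.card < Z.card
    · by_cases h2 : 2 * P'.card ≤ Fintype.card (Lev n k)
      · have hZ : Z ≠ ∅ := by
          rintro rfl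
          simp at hPZ
        have h3 := expansion hn hL (ζ i) Z P' hPZ.le h2
        have h4 := htail i (T i Z P') Z.card (by omega) h3
        refine le_trans (P_mono (fun ω hω => ?_)) (h4.trans ?_)
        · have : (0:ℝ) ≤ P'.card := Nat.cast_nonneg _
          linarith [hω.2]
        · rw [if_neg hZ]
          refine le_trans ?_ (le_add_of_nonneg_right hg2)
          rw [← pow_mul, ← pow_add]
          exact pow_le_pow_of_le_one hγ0.le hγ1 (by omega)
      · have hPc : (P'ᶜ).card = Fintype.card (Lev n k) - P'.card := card_compl P'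
        have hZc : (Zᶜ).card = Fintype.card (Lev n k) - Z.card := card_compl Z
        have hZle : Z.card ≤ Fintype.card (Lev n k) := card_le_univ Z
        have hPle : P'.card ≤ Fintype.card (Lev n k) := card_le_univ P'
        have h3 := expansion hn hL (ζ i).symm P'ᶜ Zᶜ (by omega) (by omega)
        have h5 : (univ.filter (fun b : Lev n (k + 1) => (∃ a ∈ P'ᶜ, a.1 ⊆ b.1) ∧
            ∃ a : Lev n k, a ∉ Zᶜ ∧ a.1 ⊆ ((ζ i).symm b).1)).card ≤ (T i Z P').card := by
          apply card_le_card_of_injOn (fun b => (ζ i).symm b)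
          · intro b hb
            simp only [coe_filter, mem_univ, true_and, Set.mem_setOf_eq, mem_compl, not_not] at hb
            simp only [hT, coe_filter, mem_univ, true_and, Set.mem_setOf_eq, Equiv.apply_symm_apply]
            obtain ⟨⟨a, ha, hab⟩, ⟨a', ha', hab'⟩⟩ := hb
            exact ⟨⟨a', ha', hab'⟩, ⟨a, ha, hab⟩⟩
          · intro b _ b' _ h
            exact (ζ i).symm.injective h
        have hne : P'ᶜ ≠ ∅ := by
          intro h
          rw [h, card_empty] at hPc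
          omega
        have h4 := htail i (T i Z P') (P'ᶜ).card (by omega) (h3.trans h5)
        refine le_trans (P_mono (fun ω hω => ?_)) (h4.trans ?_)
        · have h6 : ((P'ᶜ).card : ℝ) = Fintype.card (Lev n k) - P'.card := by
            rw [hPc, Nat.cast_sub hPle]
          have h7 : (Z.card : ℝ) ≤ Fintype.card (Lev n k) := by exact_mod_cast hZle
          linarith [hω.2]
        · rw [if_neg hne]
          refine le_trans ?_ (le_add_of_nonneg_left hg1)
          rw [← pow_mul, ← pow_add]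
          exact pow_le_pow_of_le_one hγ0.le hγ1 (by omega)
    · have h0 : P (fun ω : Fin K × Lev n (k + 1) → Fin (64 * K) => P'.card < Z.card ∧
        (((T i Z P').filter (fun b => av ζ ω i b)).card : ℝ) < (Z.card : ℝ) - P'.card) ≤
        P (fun _ : Fin K × Lev n (k + 1) → Fin (64 * K) => False) :=
        P_mono (fun ω hω => hPZ hω.1)
      rw [P_false] at h0
      linarith
  -- a good choice
  have hex : ∃ ω : Fin K × Lev n (k + 1) → Fin (64 * K), ∀ (i : Fin K) (Z P' : Finset (Lev n k)),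
      ¬ (P'.card < Z.card ∧
        (((T i Z P').filter (fun b => av ζ ω i b)).card : ℝ) < (Z.card : ℝ) - P'.card) := by
    by_contra hcon
    push Not at hcon
    have h1 : (1:ℝ) ≤ P (fun ω : Fin K × Lev n (k + 1) → Fin (64 * K) =>
        ∃ q ∈ (univ : Finset (Fin K × (Finset (Lev n k) × Finset (Lev n k)))),
        (q.2.2.card < q.2.1.card ∧ (((T q.1 q.2.1 q.2.2).filter (fun b => av ζ ω q.1 b)).card : ℝ) <
          (q.2.1.card : ℝ) - q.2.2.card)) := by
      rw [← P_true (V := Fin K × Lev n (k + 1)) (κ := Fin (64 * K))]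
      apply P_mono
      intro ω _
      obtain ⟨i, Z, P', h1, h2⟩ := hcon ω
      exact ⟨(i, (Z, P')), mem_univ _, h1, h2⟩
    have h2 := h1.trans (P_exists _ _)
    have h3 : ∑ q : Fin K × (Finset (Lev n k) × Finset (Lev n k)),
        P (fun ω : Fin K × Lev n (k + 1) → Fin (64 * K) =>
        (q.2.2.card < q.2.1.card ∧ (((T q.1 q.2.1 q.2.2).filter (fun b => av ζ ω q.1 b)).card : ℝ) <
          (q.2.1.card : ℝ) - q.2.2.card)) ≤
        ∑ q : Fin K × (Finset (Lev n k) × Finset (Lev n k)),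
          ((if q.2.1 = ∅ then 0 else γ ^ q.2.1.card * γ ^ q.2.2.card) +
          (if q.2.2ᶜ = ∅ then 0 else γ ^ (q.2.2ᶜ).card * γ ^ (q.2.1ᶜ).card)) :=
      sum_le_sum (fun q _ => hev q.1 q.2.1 q.2.2)
    rw [sum_add_distrib] at h3
    have h4 := sum_bound (A := Lev n k) hK hcX hγ
    have h5 : ∑ q : Fin K × (Finset (Lev n k) × Finset (Lev n k)),
        (if q.2.2ᶜ = ∅ then 0 else γ ^ (q.2.2ᶜ).card * γ ^ (q.2.1ᶜ).card) =
        ∑ q : Fin K × (Finset (Lev n k) × Finset (Lev n k)),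
        (if q.2.1 = ∅ then 0 else γ ^ q.2.1.card * γ ^ q.2.2.card) := by
      let eqv : (Fin K × (Finset (Lev n k) × Finset (Lev n k))) ≃
          (Fin K × (Finset (Lev n k) × Finset (Lev n k))) :=
        { toFun := fun q => (q.1, (q.2.2ᶜ, q.2.1ᶜ))
          invFun := fun q => (q.1, (q.2.2ᶜ, q.2.1ᶜ))
          left_inv := fun q => by simp
          right_inv := fun q => by simp }
      exact Fintype.sum_equiv eqv _ _ (fun q => rfl)
    rw [h5] at h3
    linarith
  obtain ⟨ω, hω⟩ := hex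
  have hlink : ∀ i : Fin K, ∃ (u : Lev n k → Lev n (k + 1)) (τ : Lev n k ≃ Lev n k),
      Function.Injective u ∧ ∀ a, (a.1 ⊆ (u a).1 ∧ av ζ ω i (u a)) ∧
        ((τ a).1 ⊆ (ζ i (u a)).1) := by
    intro i
    apply link_hall (fun (a : Lev n k) (b : Lev n (k + 1)) => a.1 ⊆ b.1 ∧ av ζ ω i b)
      (fun (a : Lev n k) (b : Lev n (k + 1)) => a.1 ⊆ b.1) (ζ i)
    intro Z P'
    by_cases hPZ : P'.card < Z.card
    · refine ⟨(T i Z P').filter (fun b => av ζ ω i b), ?_, ?_⟩
      · intro b hb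
        simp only [hT, mem_filter, mem_univ, true_and] at hb
        obtain ⟨⟨⟨a, ha, hab⟩, ⟨a', ha', hab'⟩⟩, h3⟩ := hb
        exact ⟨⟨a, ha, hab, h3⟩, ⟨a', ha', hab'⟩⟩
      · have h3 := hω i Z P'
        rw [not_and, not_lt] at h3
        have h4 := h3 hPZ
        have h5 : (Z.card : ℝ) ≤ P'.card + ((T i Z P').filter (fun b => av ζ ω i b)).card := by
          linarith
        exact_mod_cast h5
    · exact ⟨∅, by simp, by simp; omega⟩
  choose u τ hu huτ using hlink
  refine ⟨u, τ, hu, fun i a => ⟨(huτ i a).1.1, (huτ i a).2⟩, ?_⟩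
  intro i i' a a' hne
  have h1 := (huτ i a).1.2
  have h2 := (huτ i' a').1.2
  constructor
  · intro h
    have h3 := h2.2.1 i hne
    rw [← h] at h3
    exact h3 h1.1
  · intro h
    have h3 := h2.2.2 i hne
    rw [← h, Equiv.symm_apply_apply] at h3
    exact h3 h1.1

end Pool.MP_0ccee8_co.Lib2
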