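import Mathlib
import Pool.Agent.Lib.MP_0ccee8_co.Inner
import Pool.Agent.Lib.MP_0ccee8_co.Seq
import Pool.Agent.Lib.MP_0ccee8_co2.Level6
import Pool.Agent.Lib.MP_0ccee8_co2.Low

/-! From simultaneous linking at all levels to many decompositions. -/

set_option autoImplicit false
set_option linter.unusedSectionVars false

namespace Pool.MP_0ccee8_co.Lib2

open Finset
open Pool.MP_0ccee8_co.Lib (Lev LL NF wt wt_nonneg wt_pos wt_row wt_col Good Edge match_frac
  insert_inj_of_notMem good_even good_odd)

variable {n : ℕ}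

theorem SL_of_LL {k K : ℕ} (h : LL n k K) : SL n k K := by
  intro ζ
  obtain ⟨u, τ, hu, hut, hdis⟩ := h ζ
  exact ⟨u, τ, hu, hut, fun i i' a hne => (hdis i i' a a hne).1,
    fun i i' a a' hne _ => (hdis i i' a a' hne).2⟩

theorem wt_one {k : ℕ} (a : Lev n k) (b : Lev n (k + 1)) :
    wt n k (fun _ _ => 1) a b = if a.1 ⊆ b.1 then 1 else 0 := by
  unfold wt
  split_ifs with h
  · have h1 : a.1.card + 1 = b.1.card := by rw [a.2, b.2]
    obtain ⟨x0, hx0, hx1⟩ := Finset.exists_eq_insert_iff.2 ⟨h, h1⟩
    rw [Finset.sum_eq_single x0]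
    · rw [if_pos ⟨hx0, hx1⟩]
    · intro x _ hx
      rw [if_neg]
      rintro ⟨h2, h3⟩
      exact hx (insert_inj_of_notMem h2 hx0 (h3.trans hx1.symm))
    · intro h2; exact absurd (mem_univ _) h2
  · apply Finset.sum_eq_zero
    intro x _
    rw [if_neg]
    rintro ⟨h2, h3⟩
    exact h (h3 ▸ subset_insert _ _)

/-- Disjoint perfect matchings between the two middle levels. -/
theorem base_matchings {m : ℕ} (hm : n = 2 * m + 1) (j : ℕ) (hj : j ≤ m + 1) :
    ∃ f : Fin j → (Lev n m ≃ Lev n (m + 1)), (∀ i a, a.1 ⊆ (f i a).1) ∧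
      ∀ i i' a, i ≠ i' → f i a ≠ f i' a := by
  classical
  induction j with
  | zero => exact ⟨fun i => i.elim0, fun i => i.elim0, fun i => i.elim0⟩
  | succ j ih =>
    obtain ⟨f, hf, hd⟩ := ih (by omega)
    set W : Lev n m → Lev n (m + 1) → ℝ := fun a b =>
      wt n m (fun _ _ => 1) a b - ∑ i : Fin j, (if f i a = b then (1:ℝ) else 0) with hW
    have hjm : (j : ℝ) + 1 ≤ m + 1 := by exact_mod_cast hj
    have hsum : ∀ (a : Lev n m) (b : Lev n (m + 1)) (i : Fin j), f i a = b →
        ∑ i : Fin j, (if f i a = b then (1:ℝ) else 0) = 1 := by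
      intro a b i0 hi0
      rw [Finset.sum_eq_single i0]
      · rw [if_pos hi0]
      · intro i _ hi
        rw [if_neg]
        intro h
        exact hd i i0 a hi (h.trans hi0.symm)
      · intro h; exact absurd (mem_univ _) h
    have hnm : (n : ℝ) - m = m + 1 := by
      rw [hm]; push_cast; ring
    have h0 : ∀ a b, 0 ≤ W a b := by
      intro a b
      simp only [hW]
      by_cases h : ∃ i, f i a = b
      · obtain ⟨i, hi⟩ := h
        rw [hsum a b i hi, wt_one, if_pos]
        · norm_num
        · rw [← hi]; exact hf i a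
      · push Not at h
        rw [Finset.sum_eq_zero (fun i _ => if_neg (h i)), sub_zero]
        exact wt_nonneg NF.one a b
    obtain ⟨u, hu⟩ := match_frac W ((m : ℝ) + 1 - j) (by linarith) h0 (by
      intro a
      simp only [hW]
      rw [sum_sub_distrib, wt_row NF.one a, hnm, sum_comm]
      simp) (by
      intro b
      simp only [hW]
      rw [sum_sub_distrib, wt_col NF.one b, sum_comm]
      congr 1
      have : ∀ i : Fin j, ∑ a : Lev n m, (if f i a = b then (1:ℝ) else 0) = 1 := by
        intro i
        rw [Finset.sum_eq_single ((f i).symm b)]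
        · simp
        · intro a _ ha
          rw [if_neg]
          intro h
          exact ha (by rw [← h]; simp)
        · intro h; exact absurd (mem_univ _) h
      rw [sum_congr rfl (fun i _ => this i)]
      simp)
    have hu1 : ∀ a, a.1 ⊆ (u a).1 := by
      intro a
      by_contra h
      have h1 := hu a
      simp only [hW] at h1
      rw [wt_one, if_neg h] at h1
      have h2 : 0 ≤ ∑ i : Fin j, (if f i a = u a then (1:ℝ) else 0) :=
        sum_nonneg (fun i _ => by split_ifs <;> norm_num)
      linarith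
    have hu2 : ∀ i a, f i a ≠ u a := by
      intro i a h
      have h1 := hu a
      simp only [hW] at h1
      rw [wt_one, if_pos (hu1 a), hsum a (u a) i h] at h1
      linarith
    refine ⟨Fin.snoc (α := fun _ => Lev n m ≃ Lev n (m + 1)) f u, ?_, ?_⟩
    · intro i a
      refine Fin.lastCases ?_ (fun i => ?_) i
      · rw [Fin.snoc_last]; exact hu1 a
      · rw [Fin.snoc_castSucc]; exact hf i a
    · intro i i' a
      refine Fin.lastCases ?_ (fun i => ?_) i
      · refine Fin.lastCases ?_ (fun i' => ?_) i'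
        · intro h; exact absurd rfl h
        · intro _
          rw [Fin.snoc_last, Fin.snoc_castSucc]
          exact fun h => hu2 i' a h.symm
      · refine Fin.lastCases ?_ (fun i' => ?_) i'
        · intro _
          rw [Fin.snoc_last, Fin.snoc_castSucc]
          exact hu2 i a
        · intro h
          rw [Fin.snoc_castSucc, Fin.snoc_castSucc]
          exact hd i i' a (fun h' => h (by rw [h']))

/-- Extending pairwise edge-disjoint families to the bottom. -/
theorem lower {K : ℕ} (k₁ : ℕ) (hk1 : 2 * k₁ ≤ n) (hSL : ∀ k, k < k₁ → SL n k K)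
    (C : Fin K → Set (List (Finset (Fin n)))) (hC : ∀ i, Good n k₁ (C i))
    (hE : ∀ i i', i ≠ i' → ∀ S T, Edge (C i) S T → ¬ Edge (C i') S T) :
    ∃ C' : Fin K → Set (List (Finset (Fin n))), (∀ i, Good n 0 (C' i)) ∧
      ∀ i i', i ≠ i' → ∀ S T, Edge (C' i) S T → ¬ Edge (C' i') S T := by
  induction k₁ generalizing C with
  | zero => exact ⟨C, hC, hE⟩
  | succ k ih =>
    have h1 : ∀ i, ∃ ζ : Lev n (k + 1) ≃ Lev n (k + 1), ∀ y : Lev n (k + 1), ∃ c ∈ C i,
        c.head? = some y.1 ∧ c.getLast? = some ((ζ y).1)ᶜ := fun i => (hC i).linkEquiv hk1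
    choose ζ hζ using h1
    obtain ⟨u, τ, hu, hut, hdis1, hdis2⟩ := hSL k (Nat.lt_succ_self k) ζ
    have h2 := fun i => (hC i).extend hk1 (ζ i) (hζ i) (u i) (τ i) (hu i)
      (fun a => (hut i a).1) (fun a => (hut i a).2)
    choose C' hC' hE' using h2
    refine ih (by omega) (fun k' hk' => hSL k' (by omega)) C' hC' ?_
    intro i i' hne S T h h'
    have hc1 : ∀ (i : Fin K) (a : Lev n k), (((τ i a).1)ᶜ).card = n - k := by
      intro i a
      rw [card_compl, Fintype.card_fin, (τ i a).2]
    have hc2 : ∀ (i : Fin K) (a : Lev n k), (((ζ i (u i a)).1)ᶜ).card = n - (k + 1) := by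
      intro i a
      rw [card_compl, Fintype.card_fin, (ζ i (u i a)).2]
    rcases hE' i S T h with h1 | ⟨a, h1, h2⟩ | ⟨a, h1, h2⟩
    · rcases hE' i' S T h' with h1' | ⟨a', h1', h2'⟩ | ⟨a', h1', h2'⟩
      · exact hE i i' hne S T h1 h1'
      · have h3 := (hC i).edge_cover h1
        rw [h1', a'.2] at h3
        omega
      · have h3 := (hC i).edge_cover h1
        rw [h2', hc1] at h3
        omega
    · rcases hE' i' S T h' with h1' | ⟨a', h1', h2'⟩ | ⟨a', h1', h2'⟩
      · have h3 := (hC i').edge_cover h1'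
        rw [h1, a.2] at h3
        omega
      · have haa : a = a' := Subtype.ext (h1.symm.trans h1')
        subst haa
        exact hdis1 i i' a hne (Subtype.ext (h2.symm.trans h2'))
      · have h3 : S.card = k := by rw [h1, a.2]
        have h4 : S.card = n - (k + 1) := by rw [h1', hc2]
        omega
    · rcases hE' i' S T h' with h1' | ⟨a', h1', h2'⟩ | ⟨a', h1', h2'⟩
      · have h3 := (hC i').edge_cover h1'
        rw [h2, hc1] at h3
        omega
      · have h3 : S.card = k := by rw [h1', a'.2]
        have h4 : S.card = n - (k + 1) := by rw [h1, hc2]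
        omega
      · exact hdis2 i i' a a' hne (Subtype.ext (compl_injective (h2.symm.trans h2')))
          (Subtype.ext (compl_injective (h1.symm.trans h1')))

/-- Many pairwise edge-disjoint decompositions from simultaneous linking at every level. -/
theorem many_of_SL {K : ℕ} (hKn : 2 * K ≤ n + 1) (hSL : ∀ k, 2 * (k + 1) ≤ n → SL n k K) :
    ∃ C : Fin K → Set (List (Finset (Fin n))), (∀ i, Good n 0 (C i)) ∧
      ∀ i i', i ≠ i' → ∀ S T, Edge (C i) S T → ¬ Edge (C i') S T := by
  rcases Nat.even_or_odd' n with ⟨m, h | h⟩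
  · obtain ⟨C, hC, hE⟩ := good_even h
    exact lower m (by omega) (fun k hk => hSL k (by omega)) (fun _ => C) (fun _ => hC)
      (fun _ _ _ S T h => absurd h (hE S T))
  · obtain ⟨f, hf, hd⟩ := base_matchings h K (by omega)
    have h1 := fun i => good_odd h (f i) (hf i)
    choose C hC hE using h1
    refine lower m (by omega) (fun k hk => hSL k (by omega)) C hC ?_
    intro i i' hne S T h2 h3
    obtain ⟨a, ha1, ha2⟩ := hE i S T h2
    obtain ⟨a', ha1', ha2'⟩ := hE i' S T h3
    have haa : a = a' := Subtype.ext (ha1.symm.trans ha1')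
    subst haa
    exact hd i i' a hne (Subtype.ext (ha2.symm.trans ha2'))

end Pool.MP_0ccee8_co.Lib2
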