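import Mathlib
import Pool.Agent.Lib.MP_0ccee8_co2.Assemble

/-! The choice of the parameters. -/

set_option autoImplicit false
set_option linter.unusedSectionVars false

namespace Pool.MP_0ccee8_co.Lib2

open Finset
open Pool.MP_0ccee8_co.Lib (Lev LL)

theorem exp_neg_nat_le (x : ℕ) : Real.exp (-(x:ℝ)) ≤ (1 / 2) ^ x := by
  have h1 : Real.exp (-(x:ℝ)) = (Real.exp (-1)) ^ x := by
    rw [← Real.exp_nat_mul]; congr 1; ring
  rw [h1]
  apply pow_le_pow_left₀ (Real.exp_pos _).le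
  have := Real.exp_neg_one_lt_d9
  norm_num at this ⊢
  linarith

theorem two_pow_le_exp (x : ℕ) : (2:ℝ) ^ x ≤ Real.exp x := by
  have h1 : Real.exp (x:ℝ) = (Real.exp 1) ^ x := by
    rw [← Real.exp_nat_mul]; congr 1; ring
  rw [h1]
  apply pow_le_pow_left₀ (by norm_num)
  have := Real.exp_one_gt_d9
  linarith

theorem lin_le_pow (ℓ : ℕ) : 4 * ℓ + 7 ≤ 2 ^ (ℓ + 3) := by
  induction ℓ with
  | zero => norm_num
  | succ ℓ ih =>
    have : 2 ^ (ℓ + 1 + 3) = 2 * 2 ^ (ℓ + 3) := by ring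
    rw [this]; omega

theorem act_card {N q : ℕ} (hq : q ≤ N) :
    ((@Finset.filter (Fin N) (fun a => a.val < q) (Classical.decPred _) univ).card : ℝ) = q := by
  classical
  have h : (univ.filter (fun a : Fin N => a.val < q)).card = q := by
    have h1 : univ.filter (fun a : Fin N => a.val < q) =
        (univ : Finset (Fin q)).map (Fin.castLEEmb hq) := by
      ext a
      simp only [mem_filter, mem_univ, true_and, mem_map]
      constructor
      · intro h; exact ⟨⟨a.val, h⟩, rfl⟩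
      · rintro ⟨b, rfl⟩; exact b.2
    rw [h1, card_map]; simp
  have h2 : (@Finset.filter (Fin N) (fun a => a.val < q) (Classical.decPred _) univ) =
      univ.filter (fun a : Fin N => a.val < q) := by
    congr!
  rw [h2, h]

theorem high_level {n k K ℓ m Gn b Q : ℕ} (hℓ : 1 ≤ ℓ) (hn : n + 1 ≤ 2 ^ ℓ)
    (hkn : 2 * (k + 1) ≤ n) (hK : 1 ≤ K) (hKn : K + 1 ≤ n) (hQ : Q = 4 * ℓ + 4) (hm : m = 4 * ℓ + 7)
    (hG : Gn = ℓ * (4 * Q + 5) + 12) (hb : b = 9 * Gn * (6 * m ^ 3) ^ 4)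
    (hk1 : 10 ^ 6 * m ^ 13 * Gn ^ 2 ≤ k) (hKb : 32 * m * b * K ≤ n) : SL n k K := by
  classical
  have hm11 : 11 ≤ m := by omega
  have hG1 : 1 ≤ Gn := by omega
  have hG2 : 5 * ℓ + 14 ≤ Gn := by
    rw [hG, hQ]; nlinarith
  have hm1 : 1 ≤ m := by omega
  have hk : 1 ≤ k := by
    refine le_trans ?_ hk1
    exact Nat.succ_le_of_lt (by positivity)
  -- pools
  have hpool : ∃ (H : Fin m → (Finset (Fin n) × Fin n) → Prop)
      (w : Fin m → Finset (Fin n) → Fin n → ℝ), PoolSys n k m H w := by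
    apply pools hk hkn (by omega)
    have h1 : 1200 * (m:ℝ) * (n:ℝ) ^ 4 ≤ (2:ℝ) ^ (5 * ℓ + 14) := by
      have h2 : m ≤ 2 ^ (ℓ + 3) := by rw [hm]; exact lin_le_pow ℓ
      have h3 : n ^ 4 ≤ (2 ^ ℓ) ^ 4 := Nat.pow_le_pow_left (by omega) 4
      have h4 : 1200 * m * n ^ 4 ≤ 2 ^ (5 * ℓ + 14) := by
        calc 1200 * m * n ^ 4 ≤ 2 ^ 11 * 2 ^ (ℓ + 3) * (2 ^ ℓ) ^ 4 :=
              Nat.mul_le_mul (Nat.mul_le_mul (by norm_num) h2) h3
          _ = 2 ^ (5 * ℓ + 14) := by rw [← pow_mul, ← pow_add, ← pow_add]; congr 1; ring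
      exact_mod_cast h4
    refine h1.trans ((two_pow_le_exp _).trans (Real.exp_le_exp.2 ?_))
    rw [le_div_iff₀ (by positivity)]
    have h5 : (5 * ℓ + 14) * (80000 * m ^ 10) ≤ k := by
      refine le_trans ?_ hk1
      have h6 : m ^ 10 ≤ m ^ 13 := Nat.pow_le_pow_right hm1 (by norm_num)
      have h7 : 5 * ℓ + 14 ≤ Gn ^ 2 := hG2.trans (Nat.le_self_pow (by norm_num) _)
      calc (5 * ℓ + 14) * (80000 * m ^ 10) ≤ Gn ^ 2 * (10 ^ 6 * m ^ 13) :=
            Nat.mul_le_mul h7 (Nat.mul_le_mul (by norm_num) h6)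
        _ = _ := by ring
    exact_mod_cast h5
  obtain ⟨H, w, hP⟩ := hpool
  -- real versions
  have hnR : (n:ℝ) + 1 ≤ 2 ^ ℓ := by exact_mod_cast hn
  have hkR : (1:ℝ) ≤ k := by exact_mod_cast hk
  have hknR : 2 * ((k:ℝ) + 1) ≤ n := by exact_mod_cast hkn
  have hn0 : (0:ℝ) < n := by linarith
  have hn1 : (1:ℝ) ≤ n := by linarith
  have hKR : (1:ℝ) ≤ K := by exact_mod_cast hK
  have hKnR : (K:ℝ) + 1 ≤ n := by exact_mod_cast hKn
  have hmR : (11:ℝ) ≤ m := by exact_mod_cast hm11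
  have hmR0 : (0:ℝ) < m := by linarith
  have hGR : (1:ℝ) ≤ Gn := by exact_mod_cast hG1
  have hkn' : k ≤ n := by omega
  -- the natural number b
  have hb1 : 1 ≤ b := by
    rw [hb]; exact Nat.succ_le_of_lt (by positivity)
  have hbR : (1:ℝ) ≤ b := by exact_mod_cast hb1
  -- L
  obtain ⟨L, hL⟩ : ∃ L, L = (k + 1) / (2 * m * b) := ⟨_, rfl⟩
  have hmb : 0 < 2 * m * b := by positivity
  have hmb1 : 4 * m * b * (4 * Gn + 1) ≤ k + 1 := by
    refine le_trans ?_ (hk1.trans (Nat.le_succ k))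
    rw [hb]
    calc 4 * m * (9 * Gn * (6 * m ^ 3) ^ 4) * (4 * Gn + 1)
        ≤ 4 * m * (9 * Gn * (6 * m ^ 3) ^ 4) * (5 * Gn) := Nat.mul_le_mul le_rfl (by omega)
      _ = 233280 * m ^ 13 * Gn ^ 2 := by ring
      _ ≤ 10 ^ 6 * m ^ 13 * Gn ^ 2 :=
        Nat.mul_le_mul (Nat.mul_le_mul (by norm_num) le_rfl) le_rfl
  have hL1 : 1 ≤ L := by
    rw [hL]
    apply (Nat.le_div_iff_mul_le hmb).2
    refine le_trans ?_ hmb1
    nlinarith
  have hLb : 2 * m * (L * b) ≤ k + 1 := by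
    have := Nat.div_mul_le_self (k + 1) (2 * m * b)
    rw [← hL] at this
    calc 2 * m * (L * b) = L * (2 * m * b) := by ring
      _ ≤ _ := this
  have hLlow : ((k:ℝ) + 1) / (2 * m * b) ≤ L + 1 := by
    have h1 : k + 1 < (L + 1) * (2 * m * b) := by
      rw [hL, mul_comm]
      exact Nat.lt_mul_div_succ _ hmb
    rw [div_le_iff₀ (by positivity)]
    exact_mod_cast h1.le
  have hbn : b ≤ n := by
    have : b ≤ 2 * m * (L * b) := by
      calc b = 1 * (1 * b) := by ring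
        _ ≤ 2 * m * (L * b) := Nat.mul_le_mul (by omega) (Nat.mul_le_mul hL1 le_rfl)
    omega
  have hbn' : (b:ℝ) ≤ 2 ^ ℓ := by
    have : (b:ℝ) ≤ n := by exact_mod_cast hbn
    linarith
  -- p
  obtain ⟨q, hq⟩ : ∃ q, q = min (2 * (k + 1)) (n - k) := ⟨_, rfl⟩
  have hq1 : q ≤ 2 * (k + 1) := by rw [hq]; exact min_le_left _ _
  have hq2 : q ≤ n - k := by rw [hq]; exact min_le_right _ _
  have hq3 : k + 1 ≤ q := by rw [hq]; exact le_min (by omega) (by omega)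
  have hnk : ((n - k : ℕ) : ℝ) = (n:ℝ) - k := Nat.cast_sub hkn'
  have hnk0 : 0 < (n:ℝ) - k := by linarith
  have hqR1 : (q:ℝ) ≤ 2 * (k + 1) := by exact_mod_cast hq1
  have hqR2 : (q:ℝ) ≤ (n:ℝ) - k := by rw [← hnk]; exact_mod_cast hq2
  have hqR3 : (k:ℝ) + 1 ≤ q := by exact_mod_cast hq3
  have hq0 : (0:ℝ) < q := by linarith
  set p : ℝ := q / ((n:ℝ) - k) with hp
  have hp0 : 0 < p := by positivity
  have hp1 : p ≤ 1 := by rw [hp, div_le_one hnk0]; exact hqR2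
  have hpn : 1 / (n:ℝ) ≤ p := by
    rw [hp, div_le_div_iff₀ hn0 hnk0]
    nlinarith
  have : Nonempty (Fin (n - k)) := ⟨⟨0, by omega⟩⟩
  have hact : ((@Finset.filter (Fin (n - k)) (fun a => a.val < q) (Classical.decPred _) univ).card : ℝ) =
      p * Fintype.card (Fin (n - k)) := by
    rw [act_card hq2, Fintype.card_fin, hnk, hp]
    field_simp
  -- g
  obtain ⟨g, hg⟩ : ∃ g : ℝ, g = ((k:ℝ) + 1) / (p * ((n:ℝ) - k)) := ⟨_, rfl⟩
  have hgq : g = ((k:ℝ) + 1) / q := by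
    rw [hg, hp]; congr 1; field_simp
  have hg1 : g ≤ 1 := by rw [hgq, div_le_one hq0]; exact hqR3
  have hg2 : 1 / 2 ≤ g := by
    rw [hgq, div_le_div_iff₀ (by norm_num) hq0]; linarith
  have hg0 : 0 < g := by linarith
  -- powers
  obtain ⟨u, hu⟩ : ∃ u : ℝ, u = 2 ^ ℓ := ⟨_, rfl⟩
  rw [← hu] at hnR hbn'
  have hu0 : 0 < u := by rw [hu]; positivity
  have hu1 : 1 ≤ u := by rw [hu]; exact one_le_pow₀ (by norm_num)
  have hnu : (n:ℝ) ≤ u := by linarith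
  obtain ⟨ε, hε⟩ : ∃ ε : ℝ, ε = 1 / (u ^ 11 * 2 ^ 12) := ⟨_, rfl⟩
  have hε0 : 0 < ε := by rw [hε]; positivity
  obtain ⟨Γ, hΓ⟩ : ∃ Γ : ℝ, Γ = Gn := ⟨_, rfl⟩
  obtain ⟨η, hη⟩ : ∃ η : ℝ, η = 1 / (6 * (m:ℝ) ^ 3) := ⟨_, rfl⟩
  have hη0 : 0 < η := by rw [hη]; positivity
  have hm3 : (1331:ℝ) ≤ (m:ℝ) ^ 3 := by
    have := pow_le_pow_left₀ (by norm_num) hmR 3
    norm_num at this; exact this
  have hQm : (m:ℝ) = Q + 3 := by
    have : m = Q + 3 := by omega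
    exact_mod_cast this
  have hpm : 2 * (p * K) ≤ ((k:ℝ) + 1) / (4 * m * b) := by
    have h1 : p ≤ 4 * ((k:ℝ) + 1) / n := by
      rw [hp, div_le_div_iff₀ hnk0 hn0]
      have h2 : (n:ℝ) ≤ 2 * ((n:ℝ) - k) := by linarith
      calc (q:ℝ) * n ≤ (2 * (k + 1)) * (2 * ((n:ℝ) - k)) := mul_le_mul hqR1 h2 hn0.le (by positivity)
        _ = 4 * ((k:ℝ) + 1) * ((n:ℝ) - k) := by ring
    have h3 : 32 * (m:ℝ) * b * K ≤ n := by exact_mod_cast hKb
    calc 2 * (p * K) ≤ 2 * (4 * ((k:ℝ) + 1) / n * K) := by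
          apply mul_le_mul_of_nonneg_left _ (by norm_num)
          exact mul_le_mul_of_nonneg_right h1 (by positivity)
      _ = 8 * ((k:ℝ) + 1) * K / n := by ring
      _ ≤ ((k:ℝ) + 1) / (4 * m * b) := by
          rw [div_le_div_iff₀ hn0 (by positivity)]
          calc 8 * ((k:ℝ) + 1) * K * (4 * m * b) = ((k:ℝ) + 1) * (32 * m * b * K) := by ring
            _ ≤ ((k:ℝ) + 1) * n := mul_le_mul_of_nonneg_left h3 (by positivity)
  have hGm : 4 * (Gn:ℝ) + 1 ≤ ((k:ℝ) + 1) / (4 * m * b) := by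
    rw [le_div_iff₀ (by positivity)]
    have : (4 * Gn + 1) * (4 * m * b) ≤ k + 1 := by rw [mul_comm]; exact hmb1
    exact_mod_cast this
  -- the big numbers
  have hN1 : (K + 1) * (2 * (K * ((Q + 1) * (n + 1) ^ (2 * Q + 1)) + 1)) ≤
      2 ^ (ℓ * (2 * Q + 4) + 5) := by
    have h1 : K + 1 ≤ 2 ^ ℓ := by omega
    have h2 : K ≤ 2 ^ ℓ := by omega
    have h3 : Q + 1 ≤ 2 ^ (ℓ + 3) := by
      have := lin_le_pow ℓ
      omega
    have h4 : (n + 1) ^ (2 * Q + 1) ≤ (2 ^ ℓ) ^ (2 * Q + 1) := Nat.pow_le_pow_left hn _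
    have h5 : K * ((Q + 1) * (n + 1) ^ (2 * Q + 1)) ≤ 2 ^ (ℓ * (2 * Q + 3) + 3) := by
      calc K * ((Q + 1) * (n + 1) ^ (2 * Q + 1)) ≤ 2 ^ ℓ * (2 ^ (ℓ + 3) * (2 ^ ℓ) ^ (2 * Q + 1)) :=
            Nat.mul_le_mul h2 (Nat.mul_le_mul h3 h4)
        _ = 2 ^ (ℓ * (2 * Q + 3) + 3) := by
            rw [← pow_mul, ← pow_add, ← pow_add]; congr 1; ring
    have h6 : 1 ≤ 2 ^ (ℓ * (2 * Q + 3) + 3) := Nat.one_le_two_pow
    calc (K + 1) * (2 * (K * ((Q + 1) * (n + 1) ^ (2 * Q + 1)) + 1))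
        ≤ 2 ^ ℓ * (2 * (2 ^ (ℓ * (2 * Q + 3) + 3) + 2 ^ (ℓ * (2 * Q + 3) + 3))) :=
          Nat.mul_le_mul h1 (Nat.mul_le_mul le_rfl (Nat.add_le_add h5 h6))
      _ = 2 ^ ℓ * (2 ^ 2 * 2 ^ (ℓ * (2 * Q + 3) + 3)) := by ring
      _ = 2 ^ (ℓ * (2 * Q + 4) + 5) := by
          rw [← pow_add, ← pow_add]; congr 1; ring
  have hN2 : (n + 1) ^ (2 * Q + 1) *
      ((K + 1) * (2 * (K * ((Q + 1) * (n + 1) ^ (2 * Q + 1)) + 1))) ≤ 2 ^ (ℓ * (4 * Q + 5) + 5) := by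
    have h4 : (n + 1) ^ (2 * Q + 1) ≤ (2 ^ ℓ) ^ (2 * Q + 1) := Nat.pow_le_pow_left hn _
    calc _ ≤ (2 ^ ℓ) ^ (2 * Q + 1) * 2 ^ (ℓ * (2 * Q + 4) + 5) := Nat.mul_le_mul h4 hN1
      _ = _ := by rw [← pow_mul, ← pow_add]; congr 1; ring
  have hexpG : Real.exp (-Γ) ≤ (1 / 2) ^ Gn := by rw [hΓ]; exact exp_neg_nat_le Gn
  have hhalf : ∀ a c : ℕ, (1 / 2 : ℝ) ^ (a + c) * 2 ^ a = 1 / 2 ^ c := by
    intro a c
    rw [one_div, inv_pow, pow_add, one_div]
    field_simp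
  refine SL_of_pools (L := L) (b := b) (Q := Q) (δ := 10 * ℓ + 7) (Λ := 6 * (m:ℝ) ^ 3) (η := η)
    (Γ := Γ) (g := g) (lam := 3 * n) (p := p) (ε := ε) (κa := Fin (n - k)) hP (by omega)
    (fun a => a.val < q) ?_ hk hkn hK hb1 hL1 hLb hp0 hp1 ?_ ?_ hη0 ?_ ?_ ?_ ?_ ?_ hg hg1 ?_ ?_ ?_
    ?_ ?_ hε0 ?_ ?_ ?_ ?_
  · convert hact
  · -- hL
    rw [hΓ]
    have h1 : ((k:ℝ) + 1) / (2 * m * b) = ((k:ℝ) + 1) / (4 * m * b) + ((k:ℝ) + 1) / (4 * m * b) := by
      field_simp; ring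
    linarith
  · rw [hΓ]; exact hGR
  · -- 32 η ≤ 1
    rw [hη, mul_one_div, div_le_one (by positivity)]
    linarith
  · -- Λ
    rw [hQm]
    have hQ0 : (0:ℝ) ≤ Q := Nat.cast_nonneg _
    nlinarith [mul_nonneg hQ0 hQ0, mul_nonneg (mul_nonneg hQ0 hQ0) hQ0]
  · rw [hη]; apply le_of_eq; field_simp
  · -- 9 Γ ≤ b η^4
    rw [hΓ, hη, hb]
    push_cast
    apply le_of_eq
    field_simp
  · -- hlll
    calc 8 * Real.exp (-Γ) * (((n + 1) ^ (2 * Q + 1) *
        ((K + 1) * (2 * (K * ((Q + 1) * (n + 1) ^ (2 * Q + 1)) + 1))) : ℕ) : ℝ)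
        ≤ 8 * (1 / 2) ^ Gn * ((2 ^ (ℓ * (4 * Q + 5) + 5) : ℕ) : ℝ) := by
          apply mul_le_mul _ (by exact_mod_cast hN2) (Nat.cast_nonneg _) (by positivity)
          exact mul_le_mul_of_nonneg_left hexpG (by norm_num)
      _ = 8 * ((1 / 2) ^ (ℓ * (4 * Q + 5) + 5 + 7) * 2 ^ (ℓ * (4 * Q + 5) + 5)) := by
          rw [hG]; push_cast; ring
      _ = 8 * (1 / 2 ^ 7) := by rw [hhalf]
      _ ≤ 1 := by norm_num
  · -- 2δ ≤ b
    have h1 : 2 * (10 * ℓ + 7) ≤ 9 * Gn := by omega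
    rw [hb]
    refine h1.trans ?_
    exact Nat.le_mul_of_pos_right _ (by positivity)
  · -- hπ
    have h1 : (1 / (n:ℝ)) ^ 3 / 8 ≤ p * (1 / (n:ℝ)) ^ 2 / 8 := by
      apply div_le_div_of_nonneg_right _ (by norm_num)
      calc (1 / (n:ℝ)) ^ 3 = 1 / (n:ℝ) * (1 / (n:ℝ)) ^ 2 := by ring
        _ ≤ _ := mul_le_mul_of_nonneg_right hpn (by positivity)
    have h2 : (1 / u) ^ 3 / 8 ≤ (1 / (n:ℝ)) ^ 3 / 8 := by
      apply div_le_div_of_nonneg_right _ (by norm_num)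
      apply pow_le_pow_left₀ (by positivity)
      exact one_div_le_one_div_of_le hn0 hnu
    refine le_trans ?_ (h2.trans h1)
    have h3 : ℓ * (2 * Q + 4) + 5 + (3 * ℓ + 6) ≤ Gn := by
      rw [hG]
      have : 2 ≤ 2 * Q := by omega
      nlinarith
    calc 8 * Real.exp (-Γ) * (((K + 1) * (2 * (K * ((Q + 1) * (n + 1) ^ (2 * Q + 1)) + 1)) : ℕ) : ℝ)
        ≤ 8 * (1 / 2) ^ (ℓ * (2 * Q + 4) + 5 + (3 * ℓ + 6)) * ((2 ^ (ℓ * (2 * Q + 4) + 5) : ℕ) : ℝ) := by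
          apply mul_le_mul _ (by exact_mod_cast hN1) (Nat.cast_nonneg _) (by positivity)
          apply mul_le_mul_of_nonneg_left _ (by norm_num)
          exact hexpG.trans (pow_le_pow_of_le_one (by norm_num) (by norm_num) h3)
      _ = 8 * ((1 / 2) ^ (ℓ * (2 * Q + 4) + 5 + (3 * ℓ + 6)) * 2 ^ (ℓ * (2 * Q + 4) + 5)) := by
          push_cast; ring
      _ = 8 * (1 / 2 ^ (3 * ℓ + 6)) := by rw [hhalf]
      _ = (1 / u) ^ 3 / 8 := by
          rw [hu, pow_add, pow_mul']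
          field_simp
          norm_num
  · positivity
  · -- hlam
    have h1 : Real.exp (-(3 * (n:ℝ))) ≤ (1 / 16) ^ n := by
      have h2 : Real.exp (-(3 * (n:ℝ))) = (Real.exp (-3)) ^ n := by
        rw [← Real.exp_nat_mul]; congr 1; ring
      rw [h2]
      apply pow_le_pow_left₀ (Real.exp_pos _).le
      have h3 : Real.exp (-3) = (Real.exp 1)⁻¹ ^ 3 := by
        rw [← Real.exp_neg, ← Real.exp_nat_mul]; norm_num
      rw [h3, inv_pow, one_div]
      apply inv_anti₀ (by norm_num)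
      have h4 : (2.7:ℝ) ≤ Real.exp 1 := by
        have := Real.exp_one_gt_d9
        linarith
      have := pow_le_pow_left₀ (by norm_num) h4 3
      norm_num at this ⊢
      linarith
    calc 16 * (K:ℝ) * Real.exp (-(3 * (n:ℝ))) * ((2:ℝ) ^ n + 2 ^ n)
        ≤ 16 * K * (1 / 16) ^ n * (2 ^ n + 2 ^ n) := by
          apply mul_le_mul_of_nonneg_right _ (by positivity)
          exact mul_le_mul_of_nonneg_left h1 (by positivity)
      _ = 32 * K * (1 / 8) ^ n := by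
          have : (1 / 8 : ℝ) ^ n = (1 / 16) ^ n * 2 ^ n := by rw [← mul_pow]; norm_num
          rw [this]; ring
      _ ≤ 1 := by
          rw [one_div, inv_pow, ← div_eq_mul_inv, div_le_one (by positivity)]
          have h5 : 32 * K ≤ 8 ^ n := by
            have h6 : K ≤ 2 ^ n := (by omega : K ≤ n).trans (Nat.lt_two_pow_self).le
            have h7 : 4 ≤ n := by omega
            have h8 : 4 ^ 4 ≤ 4 ^ n := Nat.pow_le_pow_right (by norm_num) h7
            calc 32 * K ≤ 4 ^ n * 2 ^ n := Nat.mul_le_mul (by omega) h6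
              _ = 8 ^ n := by rw [← mul_pow]; norm_num
          exact_mod_cast h5
  · -- hcB
    have h1 : (1 / (n:ℝ)) ^ 3 ≤ p * (1 / (n:ℝ)) ^ 2 := by
      calc (1 / (n:ℝ)) ^ 3 = 1 / (n:ℝ) * (1 / (n:ℝ)) ^ 2 := by ring
        _ ≤ _ := mul_le_mul_of_nonneg_right hpn (by positivity)
    have h2 : (2:ℝ) ^ (10 * ℓ + 7) = u ^ 10 * 2 ^ 7 := by
      rw [hu, ← pow_mul, ← pow_add]; congr 1; ring
    rw [h2]
    refine le_trans ?_ (mul_le_mul_of_nonneg_left h1 (by positivity))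
    rw [one_div, inv_pow, ← div_eq_mul_inv, le_div_iff₀ (by positivity)]
    calc 3 * (n:ℝ) * (2 * n + 2) * (8 * (n:ℝ) ^ 5) * (n:ℝ) ^ 3 = 48 * ((n:ℝ) ^ 9 * (n + 1)) := by ring
      _ ≤ 48 * (u ^ 9 * u) := by
          apply mul_le_mul_of_nonneg_left _ (by norm_num)
          exact mul_le_mul (pow_le_pow_left₀ hn0.le hnu 9) hnR (by positivity) (by positivity)
      _ = 48 * u ^ 10 := by ring
      _ ≤ u ^ 10 * 2 ^ 7 := by
          have : 0 < u ^ 10 := by positivity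
          linarith
  · -- hε1
    rcases le_total (2 * (k + 1)) (n - k) with h | h
    · have hq4 : q = 2 * (k + 1) := by rw [hq]; exact min_eq_left h
      have hg3 : g = 1 / 2 := by
        rw [hgq, hq4]; push_cast; field_simp
      rw [hg3]
      have : ε ≤ 1 / 2 := by
        rw [hε]
        apply one_div_le_one_div_of_le (by norm_num)
        have : 1 ≤ u ^ 11 := one_le_pow₀ hu1
        linarith
      linarith
    · have hq4 : q = n - k := by rw [hq]; exact min_eq_right h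
      have hq5 : k + 2 ≤ q := by omega
      have hq6 : (k:ℝ) + 2 ≤ q := by exact_mod_cast hq5
      rw [hgq, mul_div_assoc', div_le_one hq0]
      have h1 : 2 * ε * (k + 1) ≤ 1 := by
        have h2 : (k:ℝ) + 1 ≤ u := by linarith
        have h3 : ε * u ≤ 1 / 2 := by
          rw [hε, one_div_mul_eq_div, div_le_div_iff₀ (by positivity) (by norm_num)]
          have h4 : u ≤ u ^ 11 := le_self_pow₀ hu1 (by norm_num)
          have h5 : 0 < u ^ 11 := by positivity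
          linarith
        have h6 := mul_le_mul_of_nonneg_left h2 hε0.le
        linarith
      linarith
  · -- hres
    have h1 : 16 * η ≤ 1 / 8 := by
      rw [hη, mul_one_div, div_le_div_iff₀ (by positivity) (by norm_num)]
      linarith
    have h2 : (16 * η) ^ (Q + 1) ≤ (1 / 8) ^ (Q + 1) := pow_le_pow_left₀ (by positivity) h1 _
    have h3 : (1 / 8 : ℝ) ^ (Q + 1) = 1 / (u ^ 12 * 2 ^ 15) := by
      rw [one_div, inv_pow, ← one_div, hu, ← pow_mul, ← pow_add]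
      congr 1
      rw [hQ, show (8:ℝ) = 2 ^ 3 by norm_num, ← pow_mul]
      congr 1
      ring
    rw [h3] at h2
    calc 4 * (16 * η) ^ (Q + 1) ≤ 4 * (1 / (u ^ 12 * 2 ^ 15)) := by linarith
      _ ≤ ε := by
        rw [hε, mul_one_div, div_le_div_iff₀ (by positivity) (by positivity)]
        have h4 : u ^ 11 ≤ u ^ 12 := pow_le_pow_right₀ hu1 (by norm_num)
        have h5 : 0 < u ^ 11 := by positivity
        norm_num
        linarith
  · -- hδf1
    have h2 : (2:ℝ) ^ (10 * ℓ + 7) = u ^ 10 * 2 ^ 7 := by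
      rw [hu, ← pow_mul, ← pow_add]; congr 1; ring
    rw [h2]
    calc 3 * ε ≤ 1 / 4 * (1 / 2) / u / (u ^ 10 * 2 ^ 7) := by
          rw [hε]
          rw [mul_one_div, div_div, div_le_div_iff₀ (by positivity) (by positivity)]
          have h5 : 0 < u ^ 11 := by positivity
          have h6 : 3 * (u * (u ^ 10 * 2 ^ 7)) = 384 * u ^ 11 := by ring
          have h7 : 1 / 4 * (1 / 2) * (u ^ 11 * 2 ^ 12) = 512 * u ^ 11 := by ring
          rw [h6, h7]
          linarith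
      _ ≤ 1 / 4 * g / b / (u ^ 10 * 2 ^ 7) := by
          apply div_le_div_of_nonneg_right _ (by positivity)
          apply div_le_div₀ (by positivity) (by linarith) (by positivity) hbn'
  · -- hδf2
    have h1 : (1 / (n:ℝ)) ^ 3 ≤ p * (1 / (n:ℝ)) ^ 2 := by
      calc (1 / (n:ℝ)) ^ 3 = 1 / (n:ℝ) * (1 / (n:ℝ)) ^ 2 := by ring
        _ ≤ _ := mul_le_mul_of_nonneg_right hpn (by positivity)
    have h2 : (1 / u) ^ 3 ≤ (1 / (n:ℝ)) ^ 3 := by
      apply pow_le_pow_left₀ (by positivity)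
      exact one_div_le_one_div_of_le hn0 hnu
    calc 3 * ε ≤ 1 / 4 * (1 / 2) / (u + u) * ((1 / u) ^ 3 / 4) / u ^ 5 := by
          have h3 : 1 / 4 * (1 / 2) / (u + u) * ((1 / u) ^ 3 / 4) / u ^ 5 = 1 / (64 * u ^ 9) := by
            field_simp; norm_num
          rw [h3, hε, mul_one_div, div_le_div_iff₀ (by positivity) (by positivity)]
          have h4 : u ^ 9 ≤ u ^ 11 := pow_le_pow_right₀ hu1 (by norm_num)
          have h5 : 0 < u ^ 11 := by positivity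
          linarith
      _ ≤ 1 / 4 * g / (b + b) * (p * (1 / (n:ℝ)) ^ 2 / 4) / (n:ℝ) ^ 5 := by
          apply div_le_div₀ (by positivity) _ (by positivity) (pow_le_pow_left₀ hn0.le hnu 5)
          apply mul_le_mul _ _ (by positivity) (by positivity)
          · apply div_le_div₀ (by positivity) (by linarith) (by positivity) (by linarith)
          · apply div_le_div_of_nonneg_right (h2.trans h1) (by norm_num)

end Pool.MP_0ccee8_co.Lib2
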