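import Mathlib
import Pool.Agent.Lib.MP_0ccee8_co2.Params

/-! The final theorem. -/

set_option autoImplicit false
set_option linter.unusedSectionVars false

namespace Pool.MP_0ccee8_co.Lib2

open Finset
open Pool.MP_0ccee8_co.Lib (Lev LL Good Edge)

theorem low_level {n k K ℓ k₁ : ℕ} (hℓ : 1 ≤ ℓ) (hn : n + 1 ≤ 2 ^ ℓ)
    (hK : 1 ≤ K) (hk : k + 1 ≤ k₁) (hn2 : 122881 * K * ℓ * k₁ ^ 3 ≤ n) : SL n k K := by
  have hk3 : (k + 1) ^ 3 ≤ k₁ ^ 3 := Nat.pow_le_pow_left hk 3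
  have hn3 : 122881 * (K * ℓ * (k + 1) ^ 3) ≤ n := by
    refine le_trans ?_ hn2
    calc 122881 * (K * ℓ * (k + 1) ^ 3) ≤ 122881 * (K * ℓ * k₁ ^ 3) :=
          Nat.mul_le_mul le_rfl (Nat.mul_le_mul le_rfl hk3)
      _ = _ := by ring
  have hKl : 1 ≤ K * ℓ := Nat.mul_pos hK hℓ
  have h1 : (k + 1) ^ 3 ≤ K * ℓ * (k + 1) ^ 3 := Nat.le_mul_of_pos_left _ hKl
  have h2 : (k + 1) ^ 2 ≤ (k + 1) ^ 3 := Nat.pow_le_pow_right (Nat.succ_pos k) (by norm_num)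
  have h3 : k + 1 ≤ (k + 1) ^ 3 := Nat.le_self_pow (by norm_num) _
  have hKn : K ≤ K * ℓ * (k + 1) ^ 3 := by
    calc K = K * 1 * 1 := by ring
      _ ≤ K * ℓ * (k + 1) ^ 3 :=
        Nat.mul_le_mul (Nat.mul_le_mul le_rfl hℓ) (Nat.one_le_pow _ _ (Nat.succ_pos k))
  have hkn : k ≤ n := by omega
  apply SL_of_LL
  apply LL_low (L := 2048 * K * (2 * ℓ * (k + 1) + 8)) hK (by omega)
  · have h4 : 6 * (k + 1) ^ 2 * (2048 * K * (2 * ℓ * (k + 1) + 8)) ≤ 122880 * (K * ℓ * (k + 1) ^ 3) := by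
      have h5 : 2 * ℓ * (k + 1) + 8 ≤ 10 * (ℓ * (k + 1)) := by
        have : 1 ≤ ℓ * (k + 1) := Nat.mul_pos hℓ (Nat.succ_pos k)
        calc 2 * ℓ * (k + 1) + 8 = 2 * (ℓ * (k + 1)) + 8 := by ring
          _ ≤ _ := by omega
      calc 6 * (k + 1) ^ 2 * (2048 * K * (2 * ℓ * (k + 1) + 8))
          ≤ 6 * (k + 1) ^ 2 * (2048 * K * (10 * (ℓ * (k + 1)))) :=
            Nat.mul_le_mul le_rfl (Nat.mul_le_mul le_rfl h5)
        _ = _ := by ring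
    omega
  · calc 512 * K ≤ 2048 * K * 8 := by omega
      _ ≤ 2048 * K * (2 * ℓ * (k + 1) + 8) := Nat.mul_le_mul le_rfl (by omega)
  · have hKR : (1:ℝ) ≤ K := by exact_mod_cast hK
    have e1 : ((2048 * K * (2 * ℓ * (k + 1) + 8) : ℕ) : ℝ) * (1 / (32 * (64 * K))) =
        ((2 * ℓ * (k + 1) + 8 : ℕ) : ℝ) := by
      push_cast; field_simp; ring
    rw [e1]
    have hcard : Fintype.card (Lev n k) ≤ 2 ^ (ℓ * k) := by
      rw [Fintype.card_finset_len, Fintype.card_fin]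
      refine (Nat.choose_le_pow n k).trans ?_
      rw [pow_mul]
      exact Nat.pow_le_pow_left (by omega) k
    have hcard1 : 1 ≤ Fintype.card (Lev n k) := by
      rw [Fintype.card_finset_len, Fintype.card_fin]
      exact Nat.choose_pos hkn
    have hcR : (1:ℝ) ≤ Fintype.card (Lev n k) := by exact_mod_cast hcard1
    have h8 : 8 * K * Fintype.card (Lev n k) ≤ 2 ^ (ℓ * (k + 1) + 3) := by
      calc 8 * K * Fintype.card (Lev n k) ≤ 2 ^ 3 * 2 ^ ℓ * 2 ^ (ℓ * k) :=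
            Nat.mul_le_mul (Nat.mul_le_mul (by norm_num) (by omega)) hcard
        _ = _ := by rw [← pow_add, ← pow_add]; congr 1; ring
    have h8R : 8 * (K:ℝ) * Fintype.card (Lev n k) ≤ 2 ^ (ℓ * (k + 1) + 3) := by exact_mod_cast h8
    have h9 : (1 / (2:ℝ) ^ (ℓ * (k + 1) + 3)) ^ 2 ≤ (1 / (8 * (K:ℝ) * Fintype.card (Lev n k))) ^ 2 := by
      apply pow_le_pow_left₀ (by positivity)
      exact one_div_le_one_div_of_le (by positivity) h8R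
    refine le_trans ?_ h9
    calc 3 * Real.exp (-((2 * ℓ * (k + 1) + 8 : ℕ) : ℝ)) ≤ 3 * (1 / 2) ^ (2 * ℓ * (k + 1) + 8) :=
          mul_le_mul_of_nonneg_left (exp_neg_nat_le _) (by norm_num)
      _ ≤ 4 * (1 / 2) ^ (2 * ℓ * (k + 1) + 8) :=
          mul_le_mul_of_nonneg_right (by norm_num) (by positivity)
      _ = (1 / (2:ℝ) ^ (ℓ * (k + 1) + 3)) ^ 2 := by
          rw [one_div_pow, one_div_pow, ← pow_mul]
          have : (2:ℝ) ^ (2 * ℓ * (k + 1) + 8) = 4 * 2 ^ ((ℓ * (k + 1) + 3) * 2) := by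
            rw [show (4:ℝ) = 2 ^ 2 by norm_num, ← pow_add]; congr 1; ring
          rw [this]
          field_simp

/-- Numerical form of the theorem. -/
theorem many_num {n K ℓ m Gn b Q k₁ : ℕ} (hℓ : 1 ≤ ℓ) (hn : n + 1 ≤ 2 ^ ℓ) (hK : 1 ≤ K)
    (hQ : Q = 4 * ℓ + 4) (hm : m = 4 * ℓ + 7)
    (hG : Gn = ℓ * (4 * Q + 5) + 12) (hb : b = 9 * Gn * (6 * m ^ 3) ^ 4)
    (hk₁ : k₁ = 10 ^ 6 * m ^ 13 * Gn ^ 2) (hn2 : 122881 * K * ℓ * k₁ ^ 3 ≤ n) :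
    ∃ C : Fin K → Set (List (Finset (Fin n))), (∀ i, Good n 0 (C i)) ∧
      ∀ i i', i ≠ i' → ∀ S T, Edge (C i) S T → ¬ Edge (C i') S T := by
  have hm1 : 1 ≤ m := by omega
  have hG1 : 1 ≤ Gn := by omega
  have hk1 : 1 ≤ k₁ := by rw [hk₁]; exact Nat.succ_le_of_lt (by positivity)
  have hk3 : 1 ≤ k₁ ^ 3 := Nat.one_le_pow _ _ hk1
  have hKn : 122881 * K ≤ n := by
    refine le_trans ?_ hn2
    calc 122881 * K = 122881 * K * 1 * 1 := by ring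
      _ ≤ 122881 * K * ℓ * k₁ ^ 3 := Nat.mul_le_mul (Nat.mul_le_mul le_rfl hℓ) hk3
  have hKb : 32 * m * b * K ≤ n := by
    refine le_trans ?_ hn2
    have h1 : m * b ≤ k₁ := by
      rw [hb, hk₁]
      calc m * (9 * Gn * (6 * m ^ 3) ^ 4) = 11664 * m ^ 13 * (Gn * 1) := by ring
        _ ≤ 10 ^ 6 * m ^ 13 * (Gn * Gn) :=
          Nat.mul_le_mul (Nat.mul_le_mul (by norm_num) le_rfl) (Nat.mul_le_mul le_rfl hG1)
        _ = _ := by ring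
    have h2 : k₁ ≤ k₁ ^ 3 := Nat.le_self_pow (by norm_num) _
    calc 32 * m * b * K = 32 * K * 1 * (m * b) := by ring
      _ ≤ 122881 * K * ℓ * k₁ ^ 3 :=
        Nat.mul_le_mul (Nat.mul_le_mul (Nat.mul_le_mul (by norm_num) le_rfl) hℓ) (h1.trans h2)
  apply many_of_SL (by omega)
  intro k hkn
  by_cases hk : k + 1 ≤ k₁
  · exact low_level hℓ hn hK hk hn2
  · refine high_level hℓ hn hkn hK (by omega) hQ hm hG hb ?_ hKb
    rw [← hk₁]; omega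

/-- Nearly linearly many pairwise edge-disjoint symmetric chain decompositions. -/
theorem nearly_linear : ∃ c : ℝ, 0 < c ∧ ∀ n : ℕ, 2 ≤ n → ∀ K : ℕ,
    (K : ℝ) * Real.log n ^ 52 ≤ c * n →
    ∃ D : Fin K → Set (List (Finset (Fin n))),
      (∀ i : Fin K,
        (∀ c ∈ D i,
          (∃ a b : Finset (Fin n), c.head? = some a ∧ c.getLast? = some b ∧
              a.card + b.card = n) ∧
          (∀ a b : Finset (Fin n), List.IsInfix [a, b] c →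
              a ⊆ b ∧ b.card = a.card + 1)) ∧
        (∀ S : Finset (Fin n), ∃! c : List (Finset (Fin n)), c ∈ D i ∧ S ∈ c)) ∧
      (∀ i j : Fin K, i ≠ j →
        ∀ c ∈ D i, ∀ c' ∈ D j, ∀ a b : Finset (Fin n),
          List.IsInfix [a, b] c → List.IsInfix [a, b] c' → False) := by
  obtain ⟨C₁, hC₁⟩ : ∃ C₁ : ℝ, C₁ = 10 ^ 6 * 11 ^ 13 * 49 ^ 2 := ⟨_, rfl⟩
  have hC1 : 0 < C₁ := by rw [hC₁]; norm_num
  refine ⟨1 / (122881 * C₁ ^ 3 * 3 ^ 52), by positivity, ?_⟩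
  intro n hn K hK
  rcases Nat.eq_zero_or_pos K with rfl | hKpos
  · exact ⟨fun _ => ∅, fun i => i.elim0, fun i => i.elim0⟩
  have hKR : (1 : ℝ) ≤ K := by exact_mod_cast hKpos
  have hnR : (2 : ℝ) ≤ n := by exact_mod_cast hn
  obtain ⟨ℓ, hℓ⟩ : ∃ ℓ, ℓ = Nat.log 2 n + 1 := ⟨_, rfl⟩
  have hℓ1 : 1 ≤ ℓ := by omega
  have hn1 : n + 1 ≤ 2 ^ ℓ := by
    rw [hℓ]
    exact Nat.lt_pow_succ_log_self (by norm_num) n
  have hℓlog : (ℓ : ℝ) ≤ 3 * Real.log n := by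
    have h1 : 2 ^ Nat.log 2 n ≤ n := Nat.pow_log_le_self 2 (by omega)
    have h2 : (2:ℝ) ^ Nat.log 2 n ≤ n := by exact_mod_cast h1
    have h3 : (Nat.log 2 n : ℝ) * Real.log 2 ≤ Real.log n := by
      rw [← Real.log_pow]
      exact Real.log_le_log (by positivity) h2
    have h4 : Real.log 2 ≤ Real.log n := Real.log_le_log (by norm_num) hnR
    have h5 := Real.log_two_gt_d9
    have h6 : (ℓ : ℝ) = (Nat.log 2 n : ℝ) + 1 := by rw [hℓ]; push_cast; ring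
    have h7 : (ℓ : ℝ) * Real.log 2 ≤ 2 * Real.log n := by rw [h6]; linarith
    have h8 : (0:ℝ) ≤ ℓ := Nat.cast_nonneg _
    have h9 : (ℓ : ℝ) * (2 / 3) ≤ ℓ * Real.log 2 := mul_le_mul_of_nonneg_left (by linarith) h8
    linarith
  obtain ⟨Q, hQ⟩ : ∃ Q, Q = 4 * ℓ + 4 := ⟨_, rfl⟩
  obtain ⟨m, hm⟩ : ∃ m, m = 4 * ℓ + 7 := ⟨_, rfl⟩
  obtain ⟨Gn, hG⟩ : ∃ Gn, Gn = ℓ * (4 * Q + 5) + 12 := ⟨_, rfl⟩
  obtain ⟨b, hb⟩ : ∃ b, b = 9 * Gn * (6 * m ^ 3) ^ 4 := ⟨_, rfl⟩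
  obtain ⟨k₁, hk₁⟩ : ∃ k₁, k₁ = 10 ^ 6 * m ^ 13 * Gn ^ 2 := ⟨_, rfl⟩
  have hm11 : m ≤ 11 * ℓ := by omega
  have hG49 : Gn ≤ 49 * ℓ ^ 2 := by
    rw [hG, hQ]; nlinarith
  have hk17 : k₁ ≤ 10 ^ 6 * 11 ^ 13 * 49 ^ 2 * ℓ ^ 17 := by
    rw [hk₁]
    calc 10 ^ 6 * m ^ 13 * Gn ^ 2 ≤ 10 ^ 6 * (11 * ℓ) ^ 13 * (49 * ℓ ^ 2) ^ 2 :=
          Nat.mul_le_mul (Nat.mul_le_mul le_rfl (Nat.pow_le_pow_left hm11 13))
            (Nat.pow_le_pow_left hG49 2)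
      _ = _ := by ring
  have hk17R : (k₁ : ℝ) ≤ C₁ * (ℓ:ℝ) ^ 17 := by rw [hC₁]; exact_mod_cast hk17
  have hn2R : 122881 * (K:ℝ) * ℓ * (k₁:ℝ) ^ 3 ≤ n := by
    have h1 : (k₁:ℝ) ^ 3 ≤ (C₁ * (ℓ:ℝ) ^ 17) ^ 3 := pow_le_pow_left₀ (Nat.cast_nonneg _) hk17R 3
    calc 122881 * (K:ℝ) * ℓ * (k₁:ℝ) ^ 3 ≤ 122881 * (K:ℝ) * ℓ * (C₁ * (ℓ:ℝ) ^ 17) ^ 3 :=
          mul_le_mul_of_nonneg_left h1 (by positivity)
      _ = 122881 * C₁ ^ 3 * (K * (ℓ:ℝ) ^ 52) := by ring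
      _ ≤ 122881 * C₁ ^ 3 * (K * (3 * Real.log n) ^ 52) := by
          apply mul_le_mul_of_nonneg_left _ (by positivity)
          apply mul_le_mul_of_nonneg_left _ (by positivity)
          exact pow_le_pow_left₀ (Nat.cast_nonneg _) hℓlog 52
      _ = 122881 * C₁ ^ 3 * 3 ^ 52 * (K * Real.log n ^ 52) := by rw [mul_pow]; ring
      _ ≤ 122881 * C₁ ^ 3 * 3 ^ 52 * (1 / (122881 * C₁ ^ 3 * 3 ^ 52) * n) :=
          mul_le_mul_of_nonneg_left hK (by positivity)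
      _ = n := by field_simp
  have hn2 : 122881 * K * ℓ * k₁ ^ 3 ≤ n := by exact_mod_cast hn2R
  obtain ⟨C, hC, hE⟩ := many_num hℓ1 hn1 hKpos hQ hm hG hb hk₁ hn2
  refine ⟨C, ?_, ?_⟩
  · intro i
    refine ⟨?_, ?_⟩
    · intro c hc
      obtain ⟨a, b, ha, hb, hab, _⟩ := (hC i).ends c hc
      exact ⟨⟨a, b, ha, hb, hab⟩, (hC i).chain c hc⟩
    · intro S
      have hS : S.card ≤ n := by simpa using card_le_univ S
      exact (hC i).cover S (Nat.zero_le _) (by omega)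
  · intro i j hij c hc c' hc' a b h h'
    exact hE i j hij a b ⟨c, hc, h⟩ ⟨c', hc', h'⟩

end Pool.MP_0ccee8_co.Lib2
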