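import Mathlib

/-! Systematic sampling. -/

set_option autoImplicit false

namespace Pool.MP_0ccee8_co.Lib2

open Finset

theorem arcs {X : Type*} [DecidableEq X] (W : X → ℕ) (s : Finset X) :
    ∃ α : ℕ → X → Prop, (∀ p, p < ∑ x ∈ s, W x → ∃! x, α p x) ∧
      (∀ p x, α p x → x ∈ s ∧ p < ∑ x ∈ s, W x) ∧
      (∀ x ∈ s, ∃ a, ∀ p, α p x ↔ a ≤ p ∧ p < a + W x) := by
  induction s using Finset.induction_on with
  | empty =>
    refine ⟨fun _ _ => False, ?_, ?_, ?_⟩
    · intro p hp; simp at hp
    · intro p x h; exact h.elim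
    · intro x hx; simp at hx
  | insert z s hz ih =>
    obtain ⟨α, h1, h2, h3⟩ := ih
    set N := ∑ x ∈ s, W x with hN
    refine ⟨fun p x => α p x ∨ (x = z ∧ N ≤ p ∧ p < N + W z), ?_, ?_, ?_⟩
    · intro p hp
      rw [sum_insert hz] at hp
      by_cases hpN : p < N
      · obtain ⟨x, hx, hu⟩ := h1 p hpN
        refine ⟨x, Or.inl hx, ?_⟩
        rintro x' (h | ⟨_, h, _⟩)
        · exact hu x' h
        · omega
      · refine ⟨z, Or.inr ⟨rfl, by omega, by omega⟩, ?_⟩
        rintro x' (h | ⟨h, _⟩)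
        · exact absurd (h2 p x' h).2 hpN
        · exact h
    · rintro p x (h | ⟨rfl, h4, h5⟩)
      · have := h2 p x h
        rw [sum_insert hz]
        exact ⟨mem_insert_of_mem this.1, by omega⟩
      · rw [sum_insert hz]
        exact ⟨mem_insert_self _ _, by omega⟩
    · intro x hx
      rcases mem_insert.1 hx with rfl | hx
      · refine ⟨N, fun p => ?_⟩
        constructor
        · rintro (h | ⟨_, h⟩)
          · exact absurd (h2 p x h).1 hz
          · exact h
        · intro h; exact Or.inr ⟨rfl, h⟩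
      · obtain ⟨a, ha⟩ := h3 x hx
        refine ⟨a, fun p => ?_⟩
        constructor
        · rintro (h | ⟨h, _⟩)
          · exact (ha p).1 h
          · exact absurd (h ▸ hx) hz
        · intro h; exact Or.inl ((ha p).2 h)

/-- A random choice, for each `y` and each slot, of `b` points, all distinct for a given `y`. -/
structure Sampler (X Y κ : Type*) [Fintype κ] [DecidableEq X] (L b : ℕ) (μ : Y → X → ℝ) where
  pt : Y → κ → Fin L → Fin b → X
  inj : ∀ y θ s s' j j', pt y θ s j = pt y θ s' j' → s = s' ∧ j = j'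
  stat : ∀ y s s' (g : (Fin b → X) → ℝ), ∑ θ, g (pt y θ s) = ∑ θ, g (pt y θ s')
  marg : ∀ y s x, ∑ θ, ∑ j, (if pt y θ s j = x then (1:ℝ) else 0) = b * (Fintype.card κ * μ y x)
  mem : ∀ y θ s j, 0 < μ y (pt y θ s j)

theorem zmod_val_mod {m N : ℕ} [NeZero N] (h : m ∣ N) (θ : ZMod N) (t : ℕ) :
    (θ + (t : ZMod N)).val % m = (θ.val + t) % m := by
  rw [ZMod.val_add, ZMod.val_natCast]
  rw [Nat.mod_mod_of_dvd _ h, Nat.add_mod, Nat.mod_mod_of_dvd _ h, ← Nat.add_mod]

theorem sampler_one {X Y : Type*} [Fintype X] [DecidableEq X] (L b M : ℕ) [NeZero (L * b * M)]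
    (W : Y → X → ℕ) (hW : ∀ y, ∑ x, W y x = L * b * M) (hM : ∀ y x, W y x ≤ M) :
    Nonempty (Sampler X Y (ZMod (L * b * M)) L b (fun y x => (W y x : ℝ) / ((L * b * M : ℕ) : ℝ))) := by
  classical
  have hN0 : 0 < L * b * M := Nat.pos_of_ne_zero (NeZero.ne _)
  have hL0 : 0 < L := Nat.pos_of_ne_zero (fun h => by simp [h] at hN0)
  have hM0 : 0 < M := Nat.pos_of_ne_zero (fun h => by simp [h] at hN0)
  have hb0 : 0 < b := Nat.pos_of_ne_zero (fun h => by simp [h] at hN0)
  have hN0R : (0 : ℝ) < ((L * b * M : ℕ) : ℝ) := by exact_mod_cast hN0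
  have h1 : ∀ y, ∃ α : ℕ → X, (∀ x, ∃ a, ∀ p, p < L * b * M → (α p = x ↔ a ≤ p ∧ p < a + W y x)) := by
    intro y
    obtain ⟨α, h1, h2, h3⟩ := arcs (W y) univ
    rw [hW y] at h1 h2
    have h4 : ∀ p, ∃ x, p < L * b * M → α p x := by
      intro p
      by_cases hp : p < L * b * M
      · obtain ⟨x, hx, _⟩ := h1 p hp
        exact ⟨x, fun _ => hx⟩
      · obtain ⟨x, _, _⟩ := h1 0 hN0
        exact ⟨x, fun h => absurd h hp⟩
    choose f hf using h4
    refine ⟨f, fun x => ?_⟩
    obtain ⟨a, ha⟩ := h3 x (mem_univ _)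
    refine ⟨a, fun p hp => ?_⟩
    rw [← ha p]
    constructor
    · rintro rfl; exact hf p hp
    · intro h; exact (h1 p hp).unique (hf p hp) h
  choose α hα using h1
  choose st hst using hα
  let N := L * b * M
  let pt : Y → ZMod (L * b * M) → Fin L → Fin b → X := fun y θ s j =>
    α y (θ + (((s.1 + j.1 * L) * M : ℕ) : ZMod (L * b * M))).val
  have hval : ∀ θ : ZMod (L * b * M), θ.val < L * b * M := fun θ => ZMod.val_lt θ
  have hcount : ∀ y x (c : ZMod (L * b * M)),
      (univ.filter (fun θ : ZMod (L * b * M) => α y (θ + c).val = x)).card = W y x := by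
    intro y x c
    have e1 : (univ.filter (fun θ : ZMod (L * b * M) => α y (θ + c).val = x)).card =
        (univ.filter (fun θ : ZMod (L * b * M) => α y θ.val = x)).card := by
      apply Finset.card_equiv (Equiv.addRight c)
      intro θ
      simp
    rw [e1]
    have e2 : (univ.filter (fun θ : ZMod (L * b * M) => α y θ.val = x)).card =
        ((range (L * b * M)).filter (fun p => α y p = x)).card := by
      apply Finset.card_bij (fun θ _ => θ.val)
      · intro θ hθ
        simp only [mem_filter, mem_univ, true_and, mem_range] at hθ ⊢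
        exact ⟨hval θ, hθ⟩
      · intro θ _ θ' _ h
        exact ZMod.val_injective _ h
      · intro p hp
        simp only [mem_filter, mem_range] at hp
        refine ⟨(p : ZMod (L * b * M)), ?_, ?_⟩
        · simp only [mem_filter, mem_univ, true_and]
          rw [ZMod.val_natCast, Nat.mod_eq_of_lt hp.1]; exact hp.2
        · rw [ZMod.val_natCast, Nat.mod_eq_of_lt hp.1]
    rw [e2]
    have e3 : ∀ x, ((range (L * b * M)).filter (fun p => α y p = x)).card ≤ W y x := by
      intro x
      have : (range (L * b * M)).filter (fun p => α y p = x) ⊆ Ico (st y x) (st y x + W y x) := by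
        intro p hp
        rw [mem_filter, mem_range] at hp
        rw [mem_Ico]
        exact (hst y x p hp.1).1 hp.2
      have := card_le_card this
      simpa using this
    have e4 : ∑ x, ((range (L * b * M)).filter (fun p => α y p = x)).card = ∑ x, W y x := by
      rw [hW y, ← card_range (L * b * M)]
      symm
      rw [card_range]
      have := Finset.card_eq_sum_card_fiberwise (s := range (L * b * M)) (t := (univ : Finset X))
        (f := α y) (fun _ _ => by simp)
      rwa [card_range] at this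
    have e5 := (Finset.sum_eq_sum_iff_of_le (fun x _ => e3 x)).1 e4
    exact e5 x (mem_univ _)
  refine ⟨⟨pt, ?_, ?_, ?_, ?_⟩⟩
  · intro y θ s s' j j' h
    simp only [pt] at h
    set p := (θ + (((s.1 + j.1 * L) * M : ℕ) : ZMod (L * b * M))).val with hp
    set p' := (θ + (((s'.1 + j'.1 * L) * M : ℕ) : ZMod (L * b * M))).val with hp'
    have hpN : p < L * b * M := hval _
    have hpN' : p' < L * b * M := hval _
    set x := α y p with hx
    have a1 := (hst y x p hpN).1 rfl
    have a2 := (hst y x p' hpN').1 h.symm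
    have a3 := hM y x
    have hdvd : M ∣ L * b * M := Dvd.intro_left _ rfl
    have b1 := zmod_val_mod hdvd θ ((s.1 + j.1 * L) * M)
    have b2 := zmod_val_mod hdvd θ ((s'.1 + j'.1 * L) * M)
    rw [Nat.add_mul_mod_self_right] at b1 b2
    rw [← hp] at b1
    rw [← hp'] at b2
    have hpp : p = p' := by
      have c1 := Nat.div_add_mod p M
      have c2 := Nat.div_add_mod p' M
      have c3 : p / M = p' / M := by
        rcases Nat.lt_trichotomy (p / M) (p' / M) with h | h | h
        · have : M * (p / M) + M ≤ M * (p' / M) := by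
            calc M * (p / M) + M = M * (p / M + 1) := by ring
              _ ≤ _ := Nat.mul_le_mul_left _ h
          omega
        · exact h
        · have : M * (p' / M) + M ≤ M * (p / M) := by
            calc M * (p' / M) + M = M * (p' / M + 1) := by ring
              _ ≤ _ := Nat.mul_le_mul_left _ h
          omega
      rw [← c1, ← c2, c3, b1, b2]
    have hz := ZMod.val_injective _ hpp
    have hz' : (((s.1 + j.1 * L) * M : ℕ) : ZMod (L * b * M)) =
        (((s'.1 + j'.1 * L) * M : ℕ) : ZMod (L * b * M)) := add_left_cancel hz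
    have hlt : ∀ (s : Fin L) (j : Fin b), s.1 + j.1 * L < L * b := by
      intro s j
      have h1 := s.2
      have h2 := j.2
      calc s.1 + j.1 * L < L + j.1 * L := by omega
        _ = (j.1 + 1) * L := by ring
        _ ≤ b * L := Nat.mul_le_mul_right _ h2
        _ = L * b := by ring
    have hlt2 : ∀ (s : Fin L) (j : Fin b), (s.1 + j.1 * L) * M < L * b * M :=
      fun s j => Nat.mul_lt_mul_of_pos_right (hlt s j) hM0
    have hv := congrArg ZMod.val hz'
    rw [ZMod.val_natCast, ZMod.val_natCast, Nat.mod_eq_of_lt (hlt2 s j),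
      Nat.mod_eq_of_lt (hlt2 s' j')] at hv
    have hv2 : s.1 + j.1 * L = s'.1 + j'.1 * L := Nat.eq_of_mul_eq_mul_right hM0 hv
    have hs : s.1 = s'.1 := by
      have c1 : (s.1 + j.1 * L) % L = s.1 := by
        rw [Nat.add_mul_mod_self_right, Nat.mod_eq_of_lt s.2]
      have c2 : (s'.1 + j'.1 * L) % L = s'.1 := by
        rw [Nat.add_mul_mod_self_right, Nat.mod_eq_of_lt s'.2]
      rw [← c1, ← c2, hv2]
    refine ⟨Fin.ext hs, Fin.ext ?_⟩
    have : j.1 * L = j'.1 * L := by omega
    exact Nat.eq_of_mul_eq_mul_right hL0 this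
  · have key : ∀ y s (g : (Fin b → X) → ℝ), ∑ θ, g (pt y θ s) =
        ∑ θ : ZMod (L * b * M), g (fun j => α y (θ + ((j.1 * L * M : ℕ) : ZMod (L * b * M))).val) := by
      intro y s g
      conv_rhs => rw [← Equiv.sum_comp (Equiv.addRight ((s.1 * M : ℕ) : ZMod (L * b * M)))]
      apply sum_congr rfl
      intro θ _
      congr 1
      funext j
      simp only [pt, Equiv.coe_addRight]
      congr 2
      push_cast
      ring
    intro y s s' g
    rw [key, key]
  · intro y s x
    rw [sum_comm]
    have : ∀ j : Fin b, ∑ θ : ZMod (L * b * M), (if pt y θ s j = x then (1:ℝ) else 0) = W y x := by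
      intro j
      rw [sum_boole]
      have := hcount y x (((s.1 + j.1 * L) * M : ℕ) : ZMod (L * b * M))
      simp only [pt]
      exact_mod_cast this
    rw [sum_congr rfl (fun j _ => this j), sum_const, card_univ, Fintype.card_fin, nsmul_eq_mul,
      ZMod.card]
    rw [mul_div_cancel₀ _ hN0R.ne']
  · intro y θ s j
    simp only [pt]
    apply div_pos _ hN0R
    set c := (((s.1 + j.1 * L) * M : ℕ) : ZMod (L * b * M)) with hc
    have := hcount y (α y (θ + c).val) c
    have h2 : 0 < (univ.filter (fun θ' : ZMod (L * b * M) => α y (θ' + c).val =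
      α y (θ + c).val)).card := card_pos.2 ⟨θ, by simp⟩
    rw [this] at h2
    exact_mod_cast h2

/-- Adding an irrelevant component to the random choice. -/
def Sampler.lift {X Y κ : Type*} [Fintype κ] [DecidableEq X] {L b : ℕ} {μ : Y → X → ℝ}
    (S : Sampler X Y κ L b μ) (β : Type*) [Fintype β] : Sampler X Y (κ × β) L b μ where
  pt y θ := S.pt y θ.1
  inj y θ := S.inj y θ.1
  stat y s s' g := by
    rw [Fintype.sum_prod_type, Fintype.sum_prod_type]
    simp only [sum_const, ← smul_sum, S.stat y s s' g]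
  marg y s x := by
    rw [Fintype.sum_prod_type]
    calc _ = ∑ θ₁ : κ, ∑ _θ₂ : β, ∑ j, (if S.pt y θ₁ s j = x then (1:ℝ) else 0) := rfl
      _ = ∑ θ₁ : κ, (Fintype.card β : ℝ) * ∑ j, (if S.pt y θ₁ s j = x then (1:ℝ) else 0) := by
          simp only [sum_const, card_univ, nsmul_eq_mul]
      _ = (Fintype.card β : ℝ) * (b * (Fintype.card κ * μ y x)) := by
          rw [← mul_sum, S.marg y s x]
      _ = _ := by
          rw [Fintype.card_prod]; push_cast; ring
  mem y θ := S.mem y θ.1

/-- Two independent samplers. -/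
noncomputable def Sampler.two {X Y κ₁ κ₂ : Type*} [Fintype κ₁] [Fintype κ₂] [DecidableEq X]
    {L b : ℕ} {μ₁ μ₂ : Y → X → ℝ} (S₁ : Sampler X Y κ₁ L b μ₁) (S₂ : Sampler X Y κ₂ L b μ₂)
    (h : ∀ y x, 0 < μ₁ y x → 0 < μ₂ y x → False) (h0 : ∀ y x, 0 ≤ μ₁ y x) (h0' : ∀ y x, 0 ≤ μ₂ y x) :
    Sampler X Y (κ₁ × κ₂) L (b + b) (fun y x => (μ₁ y x + μ₂ y x) / 2) where
  pt y θ s j := Fin.addCases (fun j => S₁.pt y θ.1 s j) (fun j => S₂.pt y θ.2 s j) j
  inj y θ s s' j j' := by
    refine Fin.addCases (fun j => ?_) (fun j => ?_) j <;>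
      refine Fin.addCases (fun j' => ?_) (fun j' => ?_) j' <;>
      intro h1
    · rw [Fin.addCases_left, Fin.addCases_left] at h1
      have := S₁.inj y θ.1 s s' j j' h1
      exact ⟨this.1, by rw [this.2]⟩
    · rw [Fin.addCases_left, Fin.addCases_right] at h1
      exfalso
      exact h y _ (S₁.mem y θ.1 s j) (h1 ▸ S₂.mem y θ.2 s' j')
    · rw [Fin.addCases_left, Fin.addCases_right] at h1
      exfalso
      exact h y _ (S₁.mem y θ.1 s' j') (h1.symm ▸ S₂.mem y θ.2 s j)
    · rw [Fin.addCases_right, Fin.addCases_right] at h1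
      have := S₂.inj y θ.2 s s' j j' h1
      exact ⟨this.1, by rw [this.2]⟩
  stat y s s' g := by
    rw [Fintype.sum_prod_type, Fintype.sum_prod_type]
    have e1 : ∀ θ₁, ∑ θ₂, g (fun j => Fin.addCases (fun j => S₁.pt y θ₁ s j)
        (fun j => S₂.pt y θ₂ s j) j) = ∑ θ₂, g (fun j => Fin.addCases (fun j => S₁.pt y θ₁ s j)
        (fun j => S₂.pt y θ₂ s' j) j) := fun θ₁ =>
      S₂.stat y s s' (fun p => g (fun j => Fin.addCases (fun j => S₁.pt y θ₁ s j) p j))
    rw [sum_congr rfl (fun θ₁ _ => e1 θ₁), sum_comm]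
    conv_rhs => rw [sum_comm]
    apply sum_congr rfl
    intro θ₂ _
    exact S₁.stat y s s' (fun p => g (fun j => Fin.addCases p (fun j => S₂.pt y θ₂ s' j) j))
  marg y s x := by
    rw [Fintype.sum_prod_type]
    calc _ = ∑ θ₁ : κ₁, ∑ θ₂ : κ₂, ((∑ j, (if S₁.pt y θ₁ s j = x then (1:ℝ) else 0)) +
          ∑ j, (if S₂.pt y θ₂ s j = x then (1:ℝ) else 0)) := by
          apply sum_congr rfl
          intro θ₁ _
          apply sum_congr rfl
          intro θ₂ _
          rw [Fin.sum_univ_add]
          simp only [Fin.addCases_left, Fin.addCases_right]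
      _ = (Fintype.card κ₂ : ℝ) * (∑ θ₁ : κ₁, ∑ j, (if S₁.pt y θ₁ s j = x then (1:ℝ) else 0)) +
          (Fintype.card κ₁ : ℝ) * ∑ θ₂ : κ₂, ∑ j, (if S₂.pt y θ₂ s j = x then (1:ℝ) else 0) := by
          simp only [sum_add_distrib, sum_const, card_univ, nsmul_eq_mul]
          rw [← mul_sum]
      _ = _ := by
          rw [S₁.marg y s x, S₂.marg y s x, Fintype.card_prod]
          push_cast
          ring
  mem y θ s j := by
    refine Fin.addCases (fun j => ?_) (fun j => ?_) j
    · rw [Fin.addCases_left]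
      have h1 := S₁.mem y θ.1 s j
      have h2 := h0' y (S₁.pt y θ.1 s j)
      positivity
    · rw [Fin.addCases_right]
      have h1 := S₂.mem y θ.2 s j
      have h2 := h0 y (S₂.pt y θ.2 s j)
      positivity

end Pool.MP_0ccee8_co.Lib2
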