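import Pool.Agent.Lib.MP_0ccee8_co2.LLL
import Pool.Agent.Lib.MP_0ccee8_co2.Sampler

/-! One random stage: conditional expectations and concentration. -/

set_option autoImplicit false
set_option linter.unusedSectionVars false

namespace Pool.MP_0ccee8_co.Lib2

open Finset

/-- The coordinates: activities of the chains, and the random choices at the two sides. -/
abbrev VV (K : ℕ) (Y : Type*) := (Fin K × Y) ⊕ (Bool × Y)

section Stage

variable {X Y κa κs : Type*} [Fintype X] [DecidableEq X] [Fintype Y] [DecidableEq Y]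
  [Fintype κa] [Nonempty κa] [Fintype κs] [Nonempty κs]
  {K L b : ℕ} {μ : Y → X → ℝ} (S : Sampler X Y κs L b μ)
  (e : Fin K → Bool → (Y ≃ Y)) (act : κa → Prop) (s0 : Fin L)

open Classical in
/-- The rank of a colour among the active ones. -/
noncomputable def rk (ω : VV K Y → κa × κs) (σ : Bool) (y : Y) (i : Fin K) : ℕ :=
  (univ.filter (fun j : Fin K => j < i ∧ act (ω (Sum.inl (j, (e j σ).symm y))).1)).card

/-- The slot of a colour. -/
noncomputable def slot (ω : VV K Y → κa × κs) (σ : Bool) (y : Y) (i : Fin K) : Fin L :=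
  if h : rk e act ω σ y i < L then ⟨rk e act ω σ y i, h⟩ else s0

open Classical in
/-- The value of a function of the chosen points, if the chain is active. -/
noncomputable def Zf (G : (Fin b → X) → ℝ) (i : Fin K) (σ : Bool) (y : Y)
    (ω : VV K Y → κa × κs) : ℝ :=
  if act (ω (Sum.inl (i, (e i σ).symm y))).1 then
    G (S.pt y (ω (Sum.inr (σ, y))).2 (slot e act s0 ω σ y i)) else 0

/-- The coordinates which are re-randomised. -/
def Iset (Y : Type*) [Fintype Y] [DecidableEq Y] (i : Fin K) (σ : Bool) : Finset (VV K Y) :=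
  (univ.image (fun y : Y => Sum.inl (i, y))) ∪ (univ.image (fun y : Y => Sum.inr (σ, y)))

theorem mem_Iset_inl {i j : Fin K} {σ : Bool} {y : Y} :
    (Sum.inl (j, y) : VV K Y) ∈ Iset Y i σ ↔ j = i := by
  unfold Iset
  simp only [mem_union, mem_image, mem_univ, true_and, Sum.inl.injEq, Prod.mk.injEq, reduceCtorEq,
    exists_false, or_false]
  constructor
  · rintro ⟨_, h, _⟩; exact h.symm
  · rintro rfl; exact ⟨y, rfl, rfl⟩

theorem mem_Iset_inr {i : Fin K} {σ σ' : Bool} {y : Y} :
    (Sum.inr (σ', y) : VV K Y) ∈ Iset Y i σ ↔ σ' = σ := by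
  unfold Iset
  simp only [mem_union, mem_image, mem_univ, true_and, Sum.inr.injEq, Prod.mk.injEq, reduceCtorEq,
    exists_false, false_or]
  constructor
  · rintro ⟨_, h, _⟩; exact h.symm
  · rintro rfl; exact ⟨y, rfl, rfl⟩

/-- The block of a vertex. -/
def blk (i : Fin K) (σ : Bool) (y : Y) : Finset (VV K Y) :=
  {Sum.inl (i, (e i σ).symm y), Sum.inr (σ, y)}

theorem blk_disjoint (i : Fin K) (σ : Bool) {y y' : Y} (h : y ≠ y') :
    Disjoint (blk e i σ y) (blk e i σ y') := by
  unfold blk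
  rw [disjoint_left]
  intro v hv hv'
  simp only [mem_insert, mem_singleton] at hv hv'
  rcases hv with rfl | rfl
  · rcases hv' with h1 | h1
    · simp only [Sum.inl.injEq, Prod.mk.injEq, true_and] at h1
      exact h ((e i σ).symm.injective h1)
    · cases h1
  · rcases hv' with h1 | h1
    · cases h1
    · simp only [Sum.inr.injEq, Prod.mk.injEq, true_and] at h1
      exact h h1

theorem rk_mix (i : Fin K) (σ : Bool) (y : Y) (φ ψ : VV K Y → κa × κs) :
    rk e act (mix (Iset Y i σ) φ ψ) σ y i = rk e act ψ σ y i := by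
  classical
  unfold rk
  congr 1
  apply filter_congr
  intro j _
  constructor
  · rintro ⟨h1, h2⟩
    refine ⟨h1, ?_⟩
    rwa [mix_out (by rw [mem_Iset_inl]; exact h1.ne)] at h2
  · rintro ⟨h1, h2⟩
    refine ⟨h1, ?_⟩
    rwa [mix_out (by rw [mem_Iset_inl]; exact h1.ne)]

theorem slot_mix (i : Fin K) (σ : Bool) (y : Y) (φ ψ : VV K Y → κa × κs) :
    slot e act s0 (mix (Iset Y i σ) φ ψ) σ y i = slot e act s0 ψ σ y i := by
  unfold slot
  have h := rk_mix (κs := κs) e act i σ y φ ψ
  by_cases h1 : rk e act ψ σ y i < L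
  · rw [dif_pos h1, dif_pos (by rw [h]; exact h1)]
    exact Fin.ext h
  · rw [dif_neg h1, dif_neg (by rw [h]; exact h1)]

open Classical in
theorem Zf_mix (G : (Fin b → X) → ℝ) (i : Fin K) (σ : Bool) (y : Y) (φ ψ : VV K Y → κa × κs) :
    Zf S e act s0 G i σ y (mix (Iset Y i σ) φ ψ) =
      (if act (φ (Sum.inl (i, (e i σ).symm y))).1 then 1 else 0) *
        G (S.pt y (φ (Sum.inr (σ, y))).2 (slot e act s0 ψ σ y i)) := by
  unfold Zf
  rw [slot_mix, mix_in (mem_Iset_inl.2 rfl), mix_in (mem_Iset_inr.2 rfl)]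
  split_ifs <;> simp

theorem Zf_dep_mix (G : (Fin b → X) → ℝ) (i : Fin K) (σ : Bool) (y : Y) (ψ : VV K Y → κa × κs) :
    Dep (fun φ => Zf S e act s0 G i σ y (mix (Iset Y i σ) φ ψ)) (blk e i σ y) := by
  classical
  intro φ φ' h
  simp only
  rw [Zf_mix, Zf_mix, h _ (by simp [blk]), h (Sum.inr (σ, y)) (by simp [blk])]

/-- The mean over the random choice. -/
noncomputable def mG (G : (Fin b → X) → ℝ) (y : Y) : ℝ :=
  (∑ θ, G (S.pt y θ s0)) / Fintype.card κs

open Classical in
theorem sum_act {p : ℝ} (hp : ((univ.filter act).card : ℝ) = p * Fintype.card κa) :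
    (∑ a : κa × κs, (if act a.1 then (1:ℝ) else 0)) / (Fintype.card (κa × κs) : ℝ) = p := by
  have ha : (0:ℝ) < Fintype.card κa := by exact_mod_cast Fintype.card_pos
  have hs : (0:ℝ) < Fintype.card κs := by exact_mod_cast Fintype.card_pos
  rw [Fintype.sum_prod_type]
  have h1 : ∀ x : κa, ∑ y : κs, (if act ((x, y) : κa × κs).1 then (1:ℝ) else 0) =
      Fintype.card κs * (if act x then (1:ℝ) else 0) := by
    intro x
    by_cases h : act x <;> simp [h]
  rw [sum_congr rfl (fun x _ => h1 x), ← mul_sum, sum_boole, hp, Fintype.card_prod]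
  push_cast
  field_simp

open Classical in
theorem Zf_mean {p : ℝ} (hp : ((univ.filter act).card : ℝ) = p * Fintype.card κa)
    (G : (Fin b → X) → ℝ) (i : Fin K) (σ : Bool) (y : Y) (ψ : VV K Y → κa × κs) :
    E (fun φ => Zf S e act s0 G i σ y (mix (Iset Y i σ) φ ψ)) = p * mG S s0 G y := by
  have ha : (0:ℝ) < Fintype.card κa := by exact_mod_cast Fintype.card_pos
  have hs : (0:ℝ) < Fintype.card κs := by exact_mod_cast Fintype.card_pos
  have h1 : E (fun φ => Zf S e act s0 G i σ y (mix (Iset Y i σ) φ ψ)) =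
      E (fun φ : VV K Y → κa × κs => (if act (φ (Sum.inl (i, (e i σ).symm y))).1 then (1:ℝ) else 0) *
        G (S.pt y (φ (Sum.inr (σ, y))).2 (slot e act s0 ψ σ y i))) :=
    E_congr (fun φ => Zf_mix S e act s0 G i σ y φ ψ)
  rw [h1, E_mul (S := {Sum.inl (i, (e i σ).symm y)}) (T := {Sum.inr (σ, y)})]
  · congr 1
    · rw [E_coord (Sum.inl (i, (e i σ).symm y)) (fun a : κa × κs => if act a.1 then (1:ℝ) else 0)]
      exact sum_act act hp
    · rw [E_coord (Sum.inr (σ, y)) (fun a : κa × κs => G (S.pt y a.2 (slot e act s0 ψ σ y i))),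
        Fintype.sum_prod_type]
      simp only [sum_const, card_univ, nsmul_eq_mul]
      rw [S.stat y (slot e act s0 ψ σ y i) s0 G, Fintype.card_prod]
      unfold mG
      push_cast
      field_simp
  · intro φ φ' h
    simp only
    rw [h _ (mem_singleton_self _)]
  · intro φ φ' h
    simp only
    rw [h _ (mem_singleton_self _)]
  · simp

theorem Zf_sq (G : (Fin b → X) → ℝ) (i : Fin K) (σ : Bool) (y : Y) (ω : VV K Y → κa × κs) :
    (Zf S e act s0 G i σ y ω) ^ 2 = Zf S e act s0 (fun q => G q ^ 2) i σ y ω := by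
  classical
  unfold Zf
  split_ifs <;> simp

theorem abs_mG_le (G : (Fin b → X) → ℝ) (y : Y) (c : ℝ) (h : ∀ θ s, |G (S.pt y θ s)| ≤ c) :
    |mG S s0 G y| ≤ c := by
  have hs : (0:ℝ) < Fintype.card κs := by exact_mod_cast Fintype.card_pos
  unfold mG
  rw [abs_div, abs_of_pos hs, div_le_iff₀ hs]
  calc |∑ θ, G (S.pt y θ s0)| ≤ ∑ θ, |G (S.pt y θ s0)| := abs_sum_le_sum_abs _ _
    _ ≤ ∑ _θ : κs, c := sum_le_sum (fun θ _ => h θ s0)
    _ = c * Fintype.card κs := by simp [mul_comm]

/-- Concentration. -/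
theorem noise {p : ℝ} (hp : ((by classical exact (univ.filter act).card : ℕ) : ℝ) =
      p * Fintype.card κa) (hp0 : 0 ≤ p) (hp1 : p ≤ 1)
    (G : Y → (Fin b → X) → ℝ) (B : Finset Y) (Gm Vt s : ℝ) (i : Fin K) (σ : Bool)
    (hG : ∀ y ∈ B, ∀ θ t, |G y (S.pt y θ t)| ≤ Gm)
    (hV : ∑ y ∈ B, p * mG S s0 (fun q => G y q ^ 2) y ≤ Vt) (hVt : 0 < Vt) (hs : 0 ≤ s)
    (hsM : s * (2 * Gm) ≤ 2 * Vt) :
    P (fun ω => s < |∑ y ∈ B, (Zf S e act s0 (G y) i σ y ω - p * mG S s0 (G y) y)|) ≤
      2 * Real.exp (-(s ^ 2 / (4 * Vt))) := by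
  classical
  refine tail_bound (Iset Y i σ) B (blk e i σ) (fun y _ y' _ h => blk_disjoint e i σ h)
    (fun y ω => Zf S e act s0 (G y) i σ y ω - p * mG S s0 (G y) y) ?_ (2 * Gm) ?_ ?_
    (fun y _ => p * mG S s0 (fun q => G y q ^ 2) y) ?_ Vt hVt (fun _ => hV) s hs hsM
  · intro y hy ψ φ φ' h
    have := Zf_dep_mix S e act s0 (G y) i σ y ψ φ φ' h
    simp only at this ⊢
    rw [this]
  · intro y hy ψ
    have h1 : |Zf S e act s0 (G y) i σ y ψ| ≤ Gm := by
      have h0 := hG y hy (ψ (Sum.inr (σ, y))).2 (slot e act s0 ψ σ y i)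
      unfold Zf
      split_ifs
      · exact h0
      · rw [abs_zero]; exact (abs_nonneg _).trans h0
    have h2 : |p * mG S s0 (G y) y| ≤ Gm := by
      have h3 := abs_mG_le S s0 (G y) y Gm (hG y hy)
      rw [abs_mul, abs_of_nonneg hp0]
      have := abs_nonneg (mG S s0 (G y) y)
      nlinarith
    have := abs_sub (Zf S e act s0 (G y) i σ y ψ) (p * mG S s0 (G y) y)
    linarith
  · intro y hy ψ
    rw [E_sub, E_const, Zf_mean S e act s0 (by convert hp)]
    ring
  · intro y hy ψ
    have h1 : ∀ φ : VV K Y → κa × κs,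
        (Zf S e act s0 (G y) i σ y (mix (Iset Y i σ) φ ψ) - p * mG S s0 (G y) y) ^ 2 =
        (Zf S e act s0 (fun q => G y q ^ 2) i σ y (mix (Iset Y i σ) φ ψ) +
          (p * mG S s0 (G y) y) ^ 2) - 2 * (p * mG S s0 (G y) y) *
          Zf S e act s0 (G y) i σ y (mix (Iset Y i σ) φ ψ) := by
      intro φ
      rw [← Zf_sq]; ring
    rw [E_congr h1, E_sub, E_add, E_const, E_mul_left, Zf_mean S e act s0 (by convert hp),
      Zf_mean S e act s0 (by convert hp)]
    have := sq_nonneg (p * mG S s0 (G y) y)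
    nlinarith

open Classical in
/-- Lower tail for the number of vertices at which the chosen points have a property. -/
theorem extra {p : ℝ} (hp : ((univ.filter act).card : ℝ) = p * Fintype.card κa)
    (hp0 : 0 ≤ p) (H : Y → (Fin b → X) → Prop) (M : Finset Y) (π0 thr : ℝ) (i : Fin K) (σ : Bool)
    (hH : ∀ y ∈ M, π0 ≤ mG S s0 (fun q => if H y q then (1:ℝ) else 0) y) :
    P (fun ω => ∑ y ∈ M, Zf S e act s0 (fun q => if H y q then (1:ℝ) else 0) i σ y ω < thr) ≤
      Real.exp thr * Real.exp (-(M.card * (p * π0 / 2))) := by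
  set Z : Y → (VV K Y → κa × κs) → ℝ := fun y ω =>
    Zf S e act s0 (fun q => if H y q then (1:ℝ) else 0) i σ y ω with hZ
  have hZ01 : ∀ y ω, Z y ω = 0 ∨ Z y ω = 1 := by
    intro y ω
    simp only [hZ, Zf]
    split_ifs <;> simp
  have hexp : ∀ z : ℝ, z = 0 ∨ z = 1 → Real.exp (-z) ≤ 1 - z / 2 := by
    rintro z (rfl | rfl)
    · simp
    · have := Real.exp_neg_one_lt_d9
      norm_num at this ⊢
      linarith
  have h1 : P (fun ω => ∑ y ∈ M, Z y ω < thr) ≤
      Real.exp thr * E (fun ω => Real.exp (1 * ∑ y ∈ M, -Z y ω)) := by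
    have := P_exp (fun ω : VV K Y → κa × κs => ∑ y ∈ M, -Z y ω) 1 (-thr) zero_le_one
    simp only [mul_neg, one_mul, neg_neg] at this ⊢
    refine le_trans (P_mono (fun ω hω => ?_)) this
    rw [sum_neg_distrib]
    linarith
  refine h1.trans ?_
  apply mul_le_mul_of_nonneg_left _ (Real.exp_pos _).le
  rw [← E_mix (Iset Y i σ), ← E_const (V := VV K Y) (κ := κa × κs)
    (Real.exp (-(M.card * (p * π0 / 2))))]
  apply E_mono
  intro ψ
  have hprod : ∀ φ : VV K Y → κa × κs, Real.exp (1 * ∑ y ∈ M, -Z y (mix (Iset Y i σ) φ ψ))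
      = ∏ y ∈ M, Real.exp (-Z y (mix (Iset Y i σ) φ ψ)) := by
    intro φ
    rw [one_mul, Real.exp_sum]
  rw [E_congr hprod]
  rw [E_prod M (blk e i σ) (fun y _ y' _ h => blk_disjoint e i σ h)
    (fun y φ => Real.exp (-Z y (mix (Iset Y i σ) φ ψ)))]
  · calc ∏ y ∈ M, E (fun φ => Real.exp (-Z y (mix (Iset Y i σ) φ ψ)))
        ≤ ∏ y ∈ M, Real.exp (-(p * π0 / 2)) := by
          refine prod_le_prod (fun b _ => E_nonneg (fun φ => (Real.exp_pos _).le)) ?_
          intro y hy
          have h2 : E (fun φ => Real.exp (-Z y (mix (Iset Y i σ) φ ψ))) ≤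
              E (fun φ => 1 - (1/2) * Z y (mix (Iset Y i σ) φ ψ)) := by
            apply E_mono
            intro φ
            have := hexp _ (hZ01 y (mix (Iset Y i σ) φ ψ))
            linarith
          rw [E_sub, E_const, E_mul_left] at h2
          have h3 := Zf_mean S e act s0 hp (fun q => if H y q then (1:ℝ) else 0) i σ y ψ
          have h4 := hH y hy
          have h5 : p * π0 ≤ p * mG S s0 (fun q => if H y q then (1:ℝ) else 0) y :=
            mul_le_mul_of_nonneg_left h4 hp0
          have h6 := Real.add_one_le_exp (-(p * π0 / 2))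
          simp only [hZ] at h2 ⊢
          rw [h3] at h2
          linarith
      _ = Real.exp (-(M.card * (p * π0 / 2))) := by
          rw [prod_const, ← Real.exp_nat_mul]
          congr 1; ring
  · intro y hy φ φ' h
    have := Zf_dep_mix S e act s0 (fun q => if H y q then (1:ℝ) else 0) i σ y ψ φ φ' h
    simp only [hZ] at this ⊢
    rw [this]

/-- All the coordinates relevant at a vertex. -/
def sy (σ : Bool) (y : Y) : Finset (VV K Y) :=
  insert (Sum.inr (σ,y)) (univ.image (fun j : Fin K => Sum.inl (j, (e j σ).symm y)))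

theorem card_sy (σ : Bool) (y : Y) : (sy e σ y).card ≤ K + 1 := by
  unfold sy
  refine (card_insert_le _ _).trans ?_
  have := card_image_le (s := (univ : Finset (Fin K)))
    (f := fun j : Fin K => (Sum.inl (j, (e j σ).symm y) : VV K Y))
  simp only [card_univ, Fintype.card_fin] at this
  omega

theorem Zf_dep (G : (Fin b → X) → ℝ) (i : Fin K) (σ : Bool) (y : Y) :
    Dep (fun ω : VV K Y → κa × κs => Zf S e act s0 G i σ y ω) (sy e σ y) := by
  classical
  intro φ φ' h
  have h1 : ∀ j : Fin K, φ (Sum.inl (j, (e j σ).symm y)) = φ' (Sum.inl (j, (e j σ).symm y)) := by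
    intro j
    apply h
    unfold sy
    rw [mem_insert, mem_image]
    exact Or.inr ⟨j, mem_univ _, rfl⟩
  have h2 : φ (Sum.inr (σ, y)) = φ' (Sum.inr (σ, y)) := h _ (by unfold sy; simp)
  have h3 : rk e act φ σ y i = rk e act φ' σ y i := by
    unfold rk
    congr 1
    apply filter_congr
    intro j _
    rw [h1 j]
  have h4 : slot e act s0 φ σ y i = slot e act s0 φ' σ y i := by
    unfold slot
    by_cases h5 : rk e act φ' σ y i < L
    · rw [dif_pos h5, dif_pos (by rw [h3]; exact h5)]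
      exact Fin.ext h3
    · rw [dif_neg h5, dif_neg (by rw [h3]; exact h5)]
  simp only [Zf]
  rw [h1 i, h2, h4]

open Classical in
/-- The number of active colours at a vertex. -/
noncomputable def nact (σ : Bool) (y : Y) (ω : VV K Y → κa × κs) : ℕ :=
  (univ.filter (fun j : Fin K => act (ω (Sum.inl (j, (e j σ).symm y))).1)).card

theorem nact_dep (σ : Bool) (y : Y) :
    Dep (fun ω : VV K Y → κa × κs => nact e act σ y ω) (sy e σ y) := by
  classical
  intro φ φ' h
  simp only [nact]
  congr 1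
  apply filter_congr
  intro j _
  rw [h (Sum.inl (j, (e j σ).symm y))]
  unfold sy
  rw [mem_insert, mem_image]
  exact Or.inr ⟨j, mem_univ _, rfl⟩

theorem rk_lt (ω : VV K Y → κa × κs) (σ : Bool) (y : Y) (i : Fin K)
    (hact : act (ω (Sum.inl (i, (e i σ).symm y))).1) (hL : nact e act σ y ω ≤ L) :
    rk e act ω σ y i < L := by
  classical
  refine lt_of_lt_of_le ?_ hL
  unfold rk nact
  apply card_lt_card
  rw [ssubset_iff_of_subset]
  · refine ⟨i, by simpa using hact, by simp⟩
  · intro j hj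
    simp only [mem_filter, mem_univ, true_and] at hj ⊢
    exact hj.2

theorem slot_inj (ω : VV K Y → κa × κs) (σ : Bool) (y : Y) (i j : Fin K) (hij : i ≠ j)
    (hi : act (ω (Sum.inl (i, (e i σ).symm y))).1) (hj : act (ω (Sum.inl (j, (e j σ).symm y))).1)
    (hL : nact e act σ y ω ≤ L) : slot e act s0 ω σ y i ≠ slot e act s0 ω σ y j := by
  classical
  have key : ∀ i j : Fin K, i < j → act (ω (Sum.inl (i, (e i σ).symm y))).1 →
      rk e act ω σ y i < rk e act ω σ y j := by
    intro i j hij hi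
    unfold rk
    apply card_lt_card
    rw [ssubset_iff_of_subset]
    · refine ⟨i, by simpa using ⟨hij, hi⟩, by simp⟩
    · intro l hl
      simp only [mem_filter, mem_univ, true_and] at hl ⊢
      exact ⟨hl.1.trans hij, hl.2⟩
  have h1 := rk_lt e act ω σ y i hi hL
  have h2 := rk_lt e act ω σ y j hj hL
  unfold slot
  rw [dif_pos h1, dif_pos h2]
  intro h
  have h3 := congrArg Fin.val h
  simp only at h3
  rcases lt_or_gt_of_ne hij with h4 | h4
  · have := key i j h4 hi; omega
  · have := key j i h4 hj; omega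

open Classical in
/-- Overflow. -/
theorem overflow {p : ℝ} (hp : ((univ.filter act).card : ℝ) = p * Fintype.card κa)
    (hp0 : 0 ≤ p) (hp1 : p ≤ 1) (Γ : ℝ) (hΓ : 0 < Γ) (hL : 2 * (p * K) + Γ ≤ L)
    (σ : Bool) (y : Y) :
    P (fun ω : VV K Y → κa × κs => L < nact e act σ y ω) ≤ 2 * Real.exp (-(Γ / 4)) := by
  have ha : (0:ℝ) < Fintype.card κa := by exact_mod_cast Fintype.card_pos
  have hs : (0:ℝ) < Fintype.card κs := by exact_mod_cast Fintype.card_pos
  set T : Fin K → (VV K Y → κa × κs) → ℝ := fun j ω =>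
    (if act (ω (Sum.inl (j, (e j σ).symm y))).1 then (1:ℝ) else 0) - p with hT
  have hmix : ∀ φ ψ : VV K Y → κa × κs, mix univ φ ψ = φ := by
    intro φ ψ
    funext v
    exact mix_in (mem_univ v)
  have hEact : ∀ j : Fin K, E (fun ω : VV K Y → κa × κs =>
      (if act (ω (Sum.inl (j, (e j σ).symm y))).1 then (1:ℝ) else 0)) = p := by
    intro j
    rw [E_coord (Sum.inl (j, (e j σ).symm y)) (fun a : κa × κs => if act a.1 then (1:ℝ) else 0)]
    exact sum_act act hp
  have hKp : 0 ≤ p * K := by positivity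
  have hVt : 0 < p * K + Γ := by linarith
  have h := tail_bound (univ : Finset (VV K Y)) (univ : Finset (Fin K))
    (fun j => {Sum.inl (j, (e j σ).symm y)}) (by
      intro j _ j' _ h
      rw [disjoint_singleton]
      intro h'
      simp only [Sum.inl.injEq, Prod.mk.injEq] at h'
      exact h h'.1) T (by
      intro j _ ψ φ φ' h
      simp only [hmix, hT]
      rw [h _ (mem_singleton_self _)]) 1 (by
      intro j _ ψ
      simp only [hT]
      rw [abs_le]
      split_ifs <;> constructor <;> linarith) (by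
      intro j _ ψ
      simp only [hmix, hT]
      rw [E_sub, E_const, hEact]; ring) (fun _ _ => p) (by
      intro j _ ψ
      simp only [hmix, hT]
      have h1 : ∀ φ : VV K Y → κa × κs,
          ((if act (φ (Sum.inl (j, (e j σ).symm y))).1 then (1:ℝ) else 0) - p) ^ 2 =
          (1 - 2 * p) * (if act (φ (Sum.inl (j, (e j σ).symm y))).1 then (1:ℝ) else 0) + p ^ 2 := by
        intro φ
        split_ifs <;> ring
      rw [E_congr h1, E_add, E_const, E_mul_left, hEact]
      nlinarith) (p * K + Γ) hVt (by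
      intro ψ
      rw [sum_const, card_univ, Fintype.card_fin, nsmul_eq_mul]
      linarith [mul_comm (K : ℝ) p]) (p * K + Γ) hVt.le (by linarith)
  have h2 : 2 * Real.exp (-((p * K + Γ) ^ 2 / (4 * (p * K + Γ)))) ≤ 2 * Real.exp (-(Γ / 4)) := by
    apply mul_le_mul_of_nonneg_left _ (by norm_num)
    apply Real.exp_le_exp.2
    rw [neg_le_neg_iff]
    have : (p * K + Γ) ^ 2 / (4 * (p * K + Γ)) = (p * K + Γ) / 4 := by
      field_simp
    rw [this]
    linarith
  refine le_trans (P_mono (fun ω hω => ?_)) (h.trans h2)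
  have h3 : (nact e act σ y ω : ℝ) = ∑ j : Fin K,
      (if act (ω (Sum.inl (j, (e j σ).symm y))).1 then (1:ℝ) else 0) := by
    unfold nact
    rw [sum_boole]
  have h4 : ∑ j : Fin K, T j ω = nact e act σ y ω - p * K := by
    simp only [hT]
    rw [sum_sub_distrib, ← h3, sum_const, card_univ, Fintype.card_fin, nsmul_eq_mul]
    ring
  have h5 : (L : ℝ) < nact e act σ y ω := by exact_mod_cast hω
  rw [h4]
  refine lt_of_lt_of_le ?_ (le_abs_self _)
  linarith

end Stage

end Pool.MP_0ccee8_co.Lib2
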