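import Pool.Agent.Lib.MP_0ccee8_co2.Stage1

/-! One random stage: the flow functions. -/

set_option autoImplicit false
set_option linter.unusedSectionVars false

namespace Pool.MP_0ccee8_co.Lib2

open Finset

section Stage

variable {X Y κa κs : Type*} [Fintype X] [DecidableEq X] [Fintype Y] [DecidableEq Y]
  [Fintype κa] [Nonempty κa] [Fintype κs] [Nonempty κs]
  {K L b : ℕ} {μ : Y → X → ℝ} (S : Sampler X Y κs L b μ)
  (e : Fin K → Bool → (Y ≃ Y)) (act : κa → Prop) (s0 : Fin L)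

/-- Correction factor. -/
noncomputable def cf (ρ : X → ℝ) (m : ℝ) (q : Fin b → X) (j : Fin b) : ℝ :=
  1 - (ρ (q j) - (∑ j', ρ (q j')) / b) / m

/-- Flow through a vertex. -/
noncomputable def gg (ρ : X → ℝ) (m τ : ℝ) (x : X) (q : Fin b → X) : ℝ :=
  τ / b * ∑ j, (if q j = x then cf ρ m q j else 0)

/-- Weighted flow through a vertex. -/
noncomputable def GA (a : X → ℝ) (ρ : X → ℝ) (m τ : ℝ) (q : Fin b → X) : ℝ :=
  τ / b * ∑ j, a (q j) * cf ρ m q j

theorem sum_gg (a : X → ℝ) (ρ : X → ℝ) (m τ : ℝ) (q : Fin b → X) :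
    ∑ x, a x * gg ρ m τ x q = GA a ρ m τ q := by
  unfold gg GA
  calc ∑ x, a x * (τ / b * ∑ j, (if q j = x then cf ρ m q j else 0))
      = τ / b * ∑ x, ∑ j, (if q j = x then a x * cf ρ m q j else 0) := by
        rw [mul_sum]
        apply sum_congr rfl
        intro x _
        rw [← mul_assoc, mul_comm (a x), mul_assoc, mul_sum]
        congr 1
        apply sum_congr rfl
        intro j _
        split_ifs <;> simp
    _ = _ := by
        rw [sum_comm]
        congr 1
        apply sum_congr rfl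
        intro j _
        rw [Finset.sum_ite_eq]
        simp

theorem sum_cf (ρ : X → ℝ) (m : ℝ) (q : Fin b → X) (hb : 0 < b) :
    ∑ j, cf ρ m q j = b := by
  have hb' : (b : ℝ) ≠ 0 := by exact_mod_cast hb.ne'
  unfold cf
  rw [sum_sub_distrib, ← sum_div, sum_sub_distrib]
  simp only [sum_const, card_univ, Fintype.card_fin, nsmul_eq_mul, mul_one]
  rw [mul_div_cancel₀ _ hb']
  simp

theorem sum_gg_one (ρ : X → ℝ) (m τ : ℝ) (q : Fin b → X) (hb : 0 < b) :
    ∑ x, gg ρ m τ x q = τ := by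
  have h := sum_gg (fun _ => (1:ℝ)) ρ m τ q
  simp only [one_mul] at h
  have hb' : (b : ℝ) ≠ 0 := by exact_mod_cast hb.ne'
  rw [h]
  unfold GA
  simp only [one_mul]
  rw [sum_cf ρ m q hb]
  field_simp

theorem cf_bound {ρ : X → ℝ} {m : ℝ} (hm : 0 < m) (hρ : ∀ x, |ρ x| ≤ m / 4) (q : Fin b → X)
    (j : Fin b) : 1 / 2 ≤ cf ρ m q j ∧ cf ρ m q j ≤ 3 / 2 := by
  have hb : (0:ℝ) < b := by
    have := j.pos
    exact_mod_cast this
  have h1 := abs_le.1 (hρ (q j))
  have h2 : |(∑ j', ρ (q j')) / b| ≤ m / 4 := by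
    rw [abs_div, abs_of_pos hb, div_le_iff₀ hb]
    calc |∑ j', ρ (q j')| ≤ ∑ j', |ρ (q j')| := abs_sum_le_sum_abs _ _
      _ ≤ ∑ _j' : Fin b, m / 4 := sum_le_sum (fun j' _ => hρ _)
      _ = m / 4 * b := by simp [mul_comm]
  have h3 := abs_le.1 h2
  have h4 : |(ρ (q j) - (∑ j', ρ (q j')) / b) / m| ≤ 1 / 2 := by
    rw [abs_div, abs_of_pos hm, div_le_iff₀ hm, abs_le]
    constructor <;> linarith
  have h5 := abs_le.1 h4
  unfold cf
  constructor <;> linarith

theorem gg_nonneg {ρ : X → ℝ} {m τ : ℝ} (hm : 0 < m) (hτ : 0 ≤ τ) (hρ : ∀ x, |ρ x| ≤ m / 4)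
    (x : X) (q : Fin b → X) : 0 ≤ gg ρ m τ x q := by
  unfold gg
  apply mul_nonneg (by positivity)
  apply sum_nonneg
  intro j _
  split_ifs
  · have := (cf_bound hm hρ q j).1
    linarith
  · exact le_rfl

theorem gg_ne_zero {ρ : X → ℝ} {m τ : ℝ} {x : X} {q : Fin b → X} (h : gg ρ m τ x q ≠ 0) :
    ∃ j, q j = x := by
  by_contra hcon
  push Not at hcon
  apply h
  unfold gg
  rw [sum_eq_zero, mul_zero]
  intro j _
  rw [if_neg (hcon j)]

theorem gg_pos {ρ : X → ℝ} {m τ : ℝ} (hm : 0 < m) (hτ : 0 < τ) (hρ : ∀ x, |ρ x| ≤ m / 4)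
    {x : X} {q : Fin b → X} (h : ∃ j, q j = x) : 0 < gg ρ m τ x q := by
  obtain ⟨j, hj⟩ := h
  have hb : (0:ℝ) < b := by
    have := j.pos
    exact_mod_cast this
  unfold gg
  apply mul_pos (by positivity)
  apply sum_pos'
  · intro j _
    split_ifs
    · have := (cf_bound hm hρ q j).1
      linarith
    · exact le_rfl
  · refine ⟨j, mem_univ _, ?_⟩
    rw [if_pos hj]
    have := (cf_bound hm hρ q j).1
    linarith

theorem gg_zero {ρ : X → ℝ} {m τ : ℝ} {x : X} {q : Fin b → X} (hq : Function.Injective q)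
    (hρ : ∀ x, ρ x = 0) (h : gg ρ m τ x q ≠ 0) : gg ρ m τ x q = τ / b := by
  obtain ⟨j, hj⟩ := gg_ne_zero h
  unfold gg
  rw [sum_eq_single j]
  · rw [if_pos hj]
    simp [cf, hρ]
  · intro j' _ hj'
    rw [if_neg]
    intro h'
    exact hj' (hq (h'.trans hj.symm))
  · intro h'; exact absurd (mem_univ _) h'

theorem GA_bound {a : X → ℝ} (ha : ∀ x, 0 ≤ a x) {ρ : X → ℝ} {m τ : ℝ} (hm : 0 < m) (hτ : 0 ≤ τ)
    (hρ : ∀ x, |ρ x| ≤ m / 4) (q : Fin b → X) :
    |GA a ρ m τ q| ≤ 3 / 2 * τ * ((∑ j, a (q j)) / b) := by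
  unfold GA
  rw [abs_mul, abs_of_nonneg (by positivity : 0 ≤ τ / (b:ℝ))]
  calc τ / b * |∑ j, a (q j) * cf ρ m q j| ≤ τ / b * ∑ j, |a (q j) * cf ρ m q j| :=
        mul_le_mul_of_nonneg_left (abs_sum_le_sum_abs _ _) (by positivity)
    _ ≤ τ / b * ∑ j, a (q j) * (3 / 2) := by
        apply mul_le_mul_of_nonneg_left _ (by positivity)
        apply sum_le_sum
        intro j _
        obtain ⟨h1, h2⟩ := cf_bound hm hρ q j
        rw [abs_mul, abs_of_nonneg (ha _), abs_of_nonneg (by linarith)]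
        exact mul_le_mul_of_nonneg_left h2 (ha _)
    _ = _ := by rw [← sum_mul]; ring

/-- mean of a sum over the chosen points -/
theorem mG_sum (a : X → ℝ) (y : Y) :
    mG S s0 (fun q => ∑ j, a (q j)) y = b * ∑ x, a x * μ y x := by
  have hs : (0:ℝ) < Fintype.card κs := by exact_mod_cast Fintype.card_pos
  unfold mG
  have h1 : ∑ θ, ∑ j, a (S.pt y θ s0 j) = ∑ x, a x * (b * (Fintype.card κs * μ y x)) := by
    calc ∑ θ, ∑ j, a (S.pt y θ s0 j) = ∑ θ, ∑ j, ∑ x, a x * (if S.pt y θ s0 j = x then (1:ℝ) else 0) := by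
          apply sum_congr rfl
          intro θ _
          apply sum_congr rfl
          intro j _
          simp
      _ = ∑ x, a x * ∑ θ, ∑ j, (if S.pt y θ s0 j = x then (1:ℝ) else 0) := by
          rw [sum_congr rfl (fun θ _ => sum_comm), sum_comm]
          apply sum_congr rfl
          intro x _
          rw [mul_sum]
          apply sum_congr rfl
          intro θ _
          rw [mul_sum]
      _ = _ := by
          apply sum_congr rfl
          intro x _
          rw [S.marg]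
  rw [h1, div_eq_iff hs.ne', mul_sum, sum_mul]
  apply sum_congr rfl
  intro x _
  ring

/-- The averaging kernel of the sampler. -/
noncomputable def PK (R : ℝ) (x x' : X) : ℝ :=
  (1 / R) * ∑ y, mG S s0 (fun q => (∑ j, ∑ j', (if q j = x then (1:ℝ) else 0) *
    (if q j' = x' then (1:ℝ) else 0)) / (b : ℝ) ^ 2) y

theorem mG_add (G H : (Fin b → X) → ℝ) (y : Y) :
    mG S s0 (fun q => G q + H q) y = mG S s0 G y + mG S s0 H y := by
  unfold mG
  rw [sum_add_distrib, add_div]

theorem mG_sub (G H : (Fin b → X) → ℝ) (y : Y) :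
    mG S s0 (fun q => G q - H q) y = mG S s0 G y - mG S s0 H y := by
  unfold mG
  rw [sum_sub_distrib, sub_div]

theorem mG_mul (c : ℝ) (G : (Fin b → X) → ℝ) (y : Y) :
    mG S s0 (fun q => c * G q) y = c * mG S s0 G y := by
  unfold mG
  rw [← mul_sum, mul_div_assoc]

theorem mG_congr {G H : (Fin b → X) → ℝ} (h : ∀ q, G q = H q) (y : Y) :
    mG S s0 G y = mG S s0 H y := by
  unfold mG
  simp only [h]

theorem mG_fsum {ι : Type*} (s : Finset ι) (G : ι → (Fin b → X) → ℝ) (y : Y) :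
    mG S s0 (fun q => ∑ t ∈ s, G t q) y = ∑ t ∈ s, mG S s0 (G t) y := by
  unfold mG
  rw [sum_comm, sum_div]

theorem mG_mono {G H : (Fin b → X) → ℝ} (y : Y) (h : ∀ θ, G (S.pt y θ s0) ≤ H (S.pt y θ s0)) :
    mG S s0 G y ≤ mG S s0 H y := by
  unfold mG
  apply div_le_div_of_nonneg_right _ (Nat.cast_nonneg _)
  exact sum_le_sum (fun θ _ => h θ)

theorem sum_mG_GA {R p m τ : ℝ} (hb : 0 < b) (hR0 : 0 < R) (hm : 0 < m)
    (hR : ∀ x, ∑ y, μ y x = R) (hτ : p * τ * R = m) (a ρ : X → ℝ) :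
    ∑ y, p * mG S s0 (GA a ρ m τ) y =
      ∑ x, a x * (m - ρ x + ∑ x', PK S s0 R x x' * ρ x') := by
  have hb' : (b : ℝ) ≠ 0 := by exact_mod_cast hb.ne'
  -- the double sum
  set DD : X → X → Y → ℝ := fun x x' y => mG S s0 (fun q => (∑ j, ∑ j', (if q j = x then (1:ℝ) else 0) *
    (if q j' = x' then (1:ℝ) else 0)) / (b : ℝ) ^ 2) y with hDD
  have h1 : ∀ y, mG S s0 (GA a ρ m τ) y = τ * ∑ x, a x * μ y x - τ / m * ∑ x, (a x * ρ x) * μ y x +
      τ / m * ∑ x, ∑ x', a x * ρ x' * DD x x' y := by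
    intro y
    have e1 : ∀ q : Fin b → X, GA a ρ m τ q = (τ / b * ∑ j, a (q j) - τ / (b * m) * ∑ j, (a (q j) * ρ (q j))) +
        τ / m * ∑ x, ∑ x', a x * ρ x' * ((∑ j, ∑ j', (if q j = x then (1:ℝ) else 0) *
          (if q j' = x' then (1:ℝ) else 0)) / (b : ℝ) ^ 2) := by
      intro q
      have e2 : ∑ x, ∑ x', a x * ρ x' * ((∑ j, ∑ j', (if q j = x then (1:ℝ) else 0) *
          (if q j' = x' then (1:ℝ) else 0)) / (b : ℝ) ^ 2) =
          (∑ j, a (q j)) * (∑ j', ρ (q j')) / (b : ℝ) ^ 2 := by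
        have e3 : ∀ x x' : X, (∑ j, ∑ j', (if q j = x then (1:ℝ) else 0) *
          (if q j' = x' then (1:ℝ) else 0)) = (∑ j, (if q j = x then (1:ℝ) else 0)) *
            ∑ j', (if q j' = x' then (1:ℝ) else 0) := by
          intro x x'
          rw [sum_mul_sum]
        have e4 : ∀ c : X → ℝ, ∑ x, c x * ∑ j, (if q j = x then (1:ℝ) else 0) = ∑ j, c (q j) := by
          intro c
          simp_rw [mul_sum]
          rw [sum_comm]
          apply sum_congr rfl
          intro j _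
          simp
        calc _ = ∑ x, ∑ x', (a x * ∑ j, (if q j = x then (1:ℝ) else 0)) *
              (ρ x' * ∑ j', (if q j' = x' then (1:ℝ) else 0)) / (b : ℝ) ^ 2 := by
              apply sum_congr rfl
              intro x _
              apply sum_congr rfl
              intro x' _
              rw [e3]
              ring
          _ = _ := by
              rw [← e4 a, ← e4 ρ, sum_mul_sum, sum_div]
              apply sum_congr rfl
              intro x _
              rw [sum_div]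
      rw [e2]
      unfold GA cf
      have e5 : ∑ j, a (q j) * (1 - (ρ (q j) - (∑ j', ρ (q j')) / b) / m) =
          ∑ j, a (q j) - (1 / m) * ∑ j, (a (q j) * ρ (q j)) +
          (1 / m) * ((∑ j, a (q j)) * ((∑ j', ρ (q j')) / b)) := by
        rw [mul_sum, sum_mul, mul_sum, ← sum_sub_distrib, ← sum_add_distrib]
        apply sum_congr rfl
        intro j _
        field_simp
        ring
      rw [e5]
      field_simp
    rw [mG_congr S s0 e1, mG_add, mG_sub, mG_mul, mG_mul, mG_mul, mG_sum,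
      mG_sum S s0 (fun x => a x * ρ x)]
    have e6 : mG S s0 (fun q => ∑ x, ∑ x', a x * ρ x' * ((∑ j, ∑ j', (if q j = x then (1:ℝ) else 0) *
          (if q j' = x' then (1:ℝ) else 0)) / (b : ℝ) ^ 2)) y = ∑ x, ∑ x', a x * ρ x' * DD x x' y := by
      rw [mG_fsum]
      apply sum_congr rfl
      intro x _
      rw [mG_fsum]
      apply sum_congr rfl
      intro x' _
      rw [mG_mul]
    rw [e6]
    field_simp
  have h2 : ∀ c : X → ℝ, ∑ y, ∑ x, c x * μ y x = R * ∑ x, c x := by
    intro c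
    rw [sum_comm, mul_sum]
    apply sum_congr rfl
    intro x _
    rw [← mul_sum, hR]; ring
  calc ∑ y, p * mG S s0 (GA a ρ m τ) y = p * (τ * ∑ y, ∑ x, a x * μ y x -
        τ / m * ∑ y, ∑ x, (a x * ρ x) * μ y x + τ / m * ∑ y, ∑ x, ∑ x', a x * ρ x' * DD x x' y) := by
        rw [← mul_sum, sum_congr rfl (fun y _ => h1 y), sum_add_distrib, sum_sub_distrib, ← mul_sum,
          ← mul_sum, ← mul_sum]
    _ = (p * τ * R) * ∑ x, a x - (p * τ * R) / m * ∑ x, (a x * ρ x) +
        (p * τ * R) / m * ∑ x, ∑ x', a x * ρ x' * (1 / R * ∑ y, DD x x' y) := by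
        rw [h2, h2]
        have h3 : ∑ y, ∑ x, ∑ x', a x * ρ x' * DD x x' y = R * ∑ x, ∑ x', a x * ρ x' * (1 / R * ∑ y, DD x x' y) := by
          rw [sum_comm, mul_sum]
          apply sum_congr rfl
          intro x _
          rw [sum_comm, mul_sum]
          apply sum_congr rfl
          intro x' _
          rw [← mul_sum]
          field_simp
        rw [h3]
        ring
    _ = _ := by
        rw [hτ, div_self hm.ne', one_mul, one_mul, mul_sum, ← sum_sub_distrib, ← sum_add_distrib]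
        apply sum_congr rfl
        intro x _
        rw [mul_add, mul_sub, mul_sum]
        congr 1
        · ring
        · apply sum_congr rfl
          intro x' _
          unfold PK
          simp only [hDD]
          ring

end Stage

end Pool.MP_0ccee8_co.Lib2
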